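import Pool.Agent.MP_7af562_mp.Defs
import Mathlib

attribute [-instance] RCLike.charZero_rclike DistribMulActionSemiHomClass.toAddMonoidHomClass
  MonTypeEquivalenceMon.monMonoid SemilinearMapClass.toAddHomClass FloorSemiring.instCharZero
  instCharZeroOfIsSemireal SemilatticeInf.toPartialOrder IdemSemiring.toSemiring
  CommMonTypeEquivalenceCommMon.commMonCommMonoid invertibleTwo
  IsStarProjection.instTrivialStarOfStarOrderedRing RKHS.instFunLike AlgEquivClass.toRingEquivClass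
  CompleteLattice.toCompletePartialOrder AlgHomClass.toRingHomClass
  MulEquivClass.toMonoidWithZeroHomClass NonUnitalRingHomClass.toAddMonoidHomClass bot_nonempty
  instIsRightCancelAddOfAddRightReflectLE IsFormallyReal.instIsReduced GrpTypeEquivalenceGrp.grpGroup

-- part MP_7af562_mp.Pauli
section

namespace Pool.Agent.MP_7af562_mp

open Matrix

/-- Single-qubit operators. -/
abbrev M2 : Type := Matrix (ZMod 2) (ZMod 2) ℂ

/-- Labels of single-qubit Pauli matrices: (X-part, Z-part). -/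
abbrev Lb : Type := ZMod 2 × ZMod 2

/-- Unitary single-qubit operators. -/
def IsU (U : M2) : Prop := U ∈ Matrix.unitaryGroup (ZMod 2) ℂ

/-- The Pauli matrix with a given label: (0,0) = I, (1,0) = X, (0,1) = Z, (1,1) = Y. -/
def sg (l : Lb) : M2 :=
  Matrix.of fun x y => if x = y + l.1 then Complex.I ^ (l.1 * l.2).val * (-1) ^ (l.2 * y).val else 0

/-- The Pauli string with given labels. -/
def PP {n : ℕ} (g : Fin n → Lb) : Matrix (Fin n → ZMod 2) (Fin n → ZMod 2) ℂ :=
  tensor fun i => sg (g i)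

theorem sum_z2 {M : Type} [AddCommMonoid M] (f : ZMod 2 → M) : ∑ x, f x = f 0 + f 1 :=
  Fin.sum_univ_two f

theorem z2_cases (x : ZMod 2) : x = 0 ∨ x = 1 := by revert x; decide

theorem lb_cases (l : Lb) : l = (0, 0) ∨ l = (1, 0) ∨ l = (0, 1) ∨ l = (1, 1) := by
  revert l; decide

theorem lb_add_self (l : Lb) : l + l = 0 := by revert l; decide

theorem z2_one_ne : (1 : ZMod 2) ≠ 0 := by decide

theorem z2_one_add_one : (1 : ZMod 2) + 1 = 0 := by decide

theorem z2_val_one : (1 : ZMod 2).val = 1 := by decide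

theorem sg_zero : sg 0 = 1 := by
  ext x y; simp [sg, Matrix.one_apply]

theorem sg_X : sg (1, 0) = pX := by
  ext x y
  rcases z2_cases x with rfl | rfl <;> rcases z2_cases y with rfl | rfl <;>
    simp only [sg, mul_zero, ZMod.val_zero, pow_zero, zero_mul, mul_one, of_apply, zero_add, zero_ne_one, ↓ reduceIte, pX, z2_one_add_one, one_ne_zero]

theorem sg_Z : sg (0, 1) = pZ := by
  ext x y
  rcases z2_cases x with rfl | rfl <;> rcases z2_cases y with rfl | rfl <;>
    simp only [sg, add_zero, mul_one, ZMod.val_zero, pow_zero, one_mul, of_apply, ↓ reduceIte, pZ, zero_ne_one, one_ne_zero, z2_val_one, pow_one]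

theorem sg_Y : sg (1, 1) = pY := by
  ext x y
  rcases z2_cases x with rfl | rfl <;> rcases z2_cases y with rfl | rfl <;>
    simp only [sg, mul_one, z2_val_one, pow_one, one_mul, of_apply, zero_add, zero_ne_one, ↓ reduceIte, pY, z2_one_add_one, mul_neg, ZMod.val_zero, pow_zero, one_ne_zero]

theorem IsU.star_mul {U : M2} (h : IsU U) : star U * U = 1 := h.1

theorem IsU.mul_star {U : M2} (h : IsU U) : U * star U = 1 := h.2

theorem tensor_mul {n : ℕ} (A B : Fin n → M2) :
    tensor A * tensor B = tensor (fun i => A i * B i) := by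
  ext x y
  simp only [tensor, Matrix.mul_apply, Matrix.of_apply]
  rw [Finset.prod_univ_sum]
  simp only [Fintype.piFinset_univ]
  refine Finset.sum_congr rfl fun z _ => ?_
  rw [Finset.prod_mul_distrib]

theorem tensor_one {n : ℕ} : tensor (fun _ : Fin n => (1 : M2)) = 1 := by
  ext x y
  simp only [tensor, Matrix.of_apply, Matrix.one_apply]
  by_cases h : x = y
  · subst h; simp only [↓ reduceIte, Finset.prod_const_one]
  · rw [if_neg h]
    obtain ⟨i, hi⟩ := Function.ne_iff.mp h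
    exact Finset.prod_eq_zero (Finset.mem_univ i) (if_neg hi)

theorem tensor_smul {n : ℕ} (c : Fin n → ℂ) (A : Fin n → M2) :
    tensor (fun i => c i • A i) = (∏ i, c i) • tensor A := by
  ext x y
  simp only [tensor, Matrix.smul_apply, smul_eq_mul, Finset.prod_mul_distrib, of_apply]

theorem tensor_star {n : ℕ} (A : Fin n → M2) : star (tensor A) = tensor (fun i => star (A i)) := by
  ext x y
  simp only [tensor, star_apply, of_apply, star_prod, RCLike.star_def]

theorem tensor_unit {n : ℕ} {U : Fin n → M2} (h : ∀ i, IsU (U i)) :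
    star (tensor U) * tensor U = 1 ∧ tensor U * star (tensor U) = 1 := by
  rw [tensor_star, tensor_mul, tensor_mul]
  simp only [(h _).star_mul, (h _).mul_star, tensor_one, and_self]

theorem permOp_mulVec {n : ℕ} (π : Equiv.Perm (Fin n)) (ψ : (Fin n → ZMod 2) → ℂ)
    (x : Fin n → ZMod 2) : (permOp π *ᵥ ψ) x = ψ (x ∘ π) := by
  simp [permOp, Matrix.mulVec, dotProduct]

theorem tensor_mul_permOp {n : ℕ} (A : Fin n → M2) (π : Equiv.Perm (Fin n)) :
    tensor A * permOp π = permOp π * tensor (fun i => A (π i)) := by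
  ext x y
  simp only [tensor, permOp, Matrix.mul_apply, Matrix.of_apply]
  rw [Finset.sum_eq_single (y ∘ π.symm), Finset.sum_eq_single (x ∘ π)]
  · have : y = (y ∘ π.symm) ∘ π := by ext i; simp
    rw [if_pos this, if_pos rfl, mul_one, one_mul]
    rw [← Equiv.prod_comp π]
    simp only [Function.comp_apply, Equiv.symm_apply_apply]
  · intro z _ hz; rw [if_neg hz, zero_mul]
  · simp
  · intro z _ hz
    rw [if_neg, mul_zero]
    intro h; apply hz; rw [h]; ext i; simp
  · simp only [Finset.mem_univ, not_true_eq_false, Function.comp_apply, mul_ite, mul_one, mul_zero, ite_eq_right_iff, IsEmpty.forall_iff]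

/-- The entries of a Pauli string. -/
theorem PP_apply {n : ℕ} (g : Fin n → Lb) (x y : Fin n → ZMod 2) :
    PP g x y = if x = y + fun i => (g i).1 then
      ∏ i, (Complex.I ^ ((g i).1 * (g i).2).val * (-1) ^ ((g i).2 * y i).val) else 0 := by
  simp only [PP, tensor, sg, Matrix.of_apply]
  split_ifs with h
  · refine Finset.prod_congr rfl fun i _ => ?_
    rw [if_pos]
    rw [h]; rfl
  · obtain ⟨i, hi⟩ := Function.ne_iff.mp h
    exact Finset.prod_eq_zero (Finset.mem_univ i) (if_neg hi)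

end Pool.Agent.MP_7af562_mp

namespace Pool.Agent.MP_7af562_mp

open Matrix

/-- The phase in the product of two Pauli matrices. -/
noncomputable def ph (l m : Lb) : ℂ :=
  Complex.I ^ ((l.1 * l.2).val + (m.1 * m.2).val + 3 * ((l.1 + m.1) * (l.2 + m.2)).val
    + 2 * (l.2 * m.1).val)

theorem sg_mul (l m : Lb) : sg l * sg m = ph l m • sg (l + m) := by
  ext x y
  rcases lb_cases l with rfl | rfl | rfl | rfl <;> rcases lb_cases m with rfl | rfl | rfl | rfl <;>
    rcases z2_cases x with rfl | rfl <;> rcases z2_cases y with rfl | rfl <;>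
    simp only [sg, add_zero, mul_zero, ZMod.val_zero, pow_zero, zero_mul, mul_one, Matrix.mul_apply, of_apply, mul_ite, Finset.sum_ite_eq', Finset.mem_univ, ↓ reduceIte, ph, Prod.mk_add_mk, Matrix.smul_apply, smul_eq_mul, zero_ne_one, one_ne_zero, zero_add, z2_one_add_one, one_mul, z2_val_one, pow_succ, mul_neg, neg_zero, ite_mul, Nat.reduceAdd, Complex.I_mul_I, neg_mul, neg_neg, right_eq_add]

theorem ph_ne (l m : Lb) : ph l m ≠ 0 := pow_ne_zero _ Complex.I_ne_zero

theorem ph_self (l : Lb) : ph l l = 1 := by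
  rcases lb_cases l with rfl | rfl | rfl | rfl <;>
    simp [ph, z2_one_add_one, z2_val_one, pow_succ]

theorem sg_trace (l : Lb) : (sg l).trace = if l = 0 then 2 else 0 := by
  rcases lb_cases l with rfl | rfl | rfl | rfl <;>
    simp only [trace, sg, add_zero, mul_zero, ZMod.val_zero, pow_zero, zero_mul, mul_one, diag_apply, of_apply, ↓ reduceIte, Finset.sum_const, Finset.card_univ, ZMod.card, nsmul_eq_mul, Nat.cast_ofNat, Prod.ext_iff, Prod.fst_zero, Prod.snd_zero, and_self, left_eq_add, one_ne_zero, Finset.sum_const_zero, and_true, one_mul, sum_z2, z2_val_one, pow_one, add_neg_cancel, and_false]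

theorem lb_add_eq_zero {l m : Lb} : l + m = 0 ↔ l = m := by revert l m; decide

theorem sg_trace_mul (l m : Lb) : (sg l * sg m).trace = if l = m then 2 else 0 := by
  rw [sg_mul, Matrix.trace_smul, sg_trace]
  by_cases h : l = m
  · subst h; simp [ph_self, lb_add_self]
  · simp only [lb_add_eq_zero, h, ↓ reduceIte, smul_eq_mul, mul_zero]

theorem neg_one_pow_val_add (a b : ZMod 2) :
    (-1 : ℂ) ^ (a + b).val = (-1) ^ a.val * (-1) ^ b.val := by
  rcases z2_cases a with rfl | rfl <;> rcases z2_cases b with rfl | rfl <;>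
    simp [z2_one_add_one, z2_val_one]

theorem neg_one_pow_val_sum {ι : Type} (s : Finset ι) (f : ι → ZMod 2) :
    (-1 : ℂ) ^ (∑ i ∈ s, f i).val = ∏ i ∈ s, (-1) ^ (f i).val := by
  classical
  induction s using Finset.induction_on with
  | empty => simp only [Finset.sum_empty, ZMod.val_zero, pow_zero, Finset.prod_empty]
  | insert a s ha ih => rw [Finset.sum_insert ha, Finset.prod_insert ha, neg_one_pow_val_add, ih]

end Pool.Agent.MP_7af562_mp

namespace Pool.Agent.MP_7af562_mp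

open Matrix

theorem Q1_conj {U : M2} (hU : IsU U) (A B : M2) :
    U * A * star U * (U * B * star U) = U * (A * B) * star U := by
  simp only [mul_assoc]
  rw [← mul_assoc (star U) U, hU.star_mul, one_mul]

theorem Q1_pauli (A : M2) : (A = pX ∨ A = pY ∨ A = pZ) ↔ ∃ l : Lb, l ≠ 0 ∧ A = sg l := by
  rw [← sg_X, ← sg_Y, ← sg_Z]
  constructor
  · rintro (h | h | h) <;> exact ⟨_, by decide, h⟩
  · rintro ⟨l, h0, rfl⟩
    rcases lb_cases l with rfl | rfl | rfl | rfl
    exacts [absurd rfl h0, .inl rfl, .inr (.inr rfl), .inr (.inl rfl)]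

theorem isClifford_iff (U : M2) : IsClifford U ↔
    ∀ l : Lb, l ≠ 0 → ∃ m : Lb, m ≠ 0 ∧ (U * sg l * star U = sg m ∨ U * sg l * star U = -sg m) := by
  simp only [IsClifford, Q1_pauli]
  constructor
  · intro h l hl
    obtain ⟨_, ⟨m, hm, rfl⟩, h1⟩ := h _ ⟨l, hl, rfl⟩
    exact ⟨m, hm, h1⟩
  · rintro h _ ⟨l, hl, rfl⟩
    obtain ⟨m, hm, h1⟩ := h l hl
    exact ⟨_, ⟨m, hm, rfl⟩, h1⟩

/-- The action of a Clifford unitary on labels. -/
theorem clifford_action {U : M2} (hU : IsU U) (hC : IsClifford U) :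
    ∃ (φ : Lb ≃+ Lb) (ε : Lb → ℂ), (∀ l, ε l = 1 ∨ ε l = -1) ∧ ε 0 = 1 ∧
      ∀ l, U * sg l * star U = ε l • sg (φ l) := by
  have h : ∀ l : Lb, ∃ (m : Lb) (e : ℂ), (e = 1 ∨ e = -1) ∧ (l = 0 → e = 1) ∧ (m = 0 → l = 0) ∧
      U * sg l * star U = e • sg m := fun l => by
    by_cases hl : l = 0
    · exact ⟨0, 1, .inl rfl, fun _ => rfl, fun _ => hl, by
        rw [hl, sg_zero, mul_one, hU.mul_star, one_smul]⟩
    · obtain ⟨m, hm, h | h⟩ := (isClifford_iff U).1 hC l hl
      · exact ⟨m, 1, .inl rfl, fun _ => rfl, fun e => absurd e hm, by rw [h, one_smul]⟩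
      · exact ⟨m, -1, .inr rfl, fun e => absurd e hl, fun e => absurd e hm, by
          rw [h, neg_smul, one_smul]⟩
  choose φ ε h1 h2 h3 h4 using h
  have hne : ∀ l, ε l ≠ 0 := fun l => by rcases h1 l with h | h <;> simp [h]
  have hadd : ∀ l m, φ (l + m) = φ l + φ m := fun l m => by
    have e := Q1_conj hU (sg l) (sg m)
    rw [sg_mul, mul_smul_comm, smul_mul_assoc, h4, h4, h4, smul_mul_smul_comm, sg_mul, smul_smul,
      smul_smul] at e
    by_contra hn
    have := congrArg (fun A => (sg (φ (l + m)) * A).trace) e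
    simp [sg_trace_mul, hn, hne, ph_ne] at this
  exact ⟨AddEquiv.ofBijective (AddMonoidHom.mk' φ hadd) (Finite.injective_iff_bijective.1
    ((injective_iff_map_eq_zero _).2 h3)), ε, h1, h2 0 rfl, h4⟩

theorem Q1_mono {V : M2} (hV : IsU V) {e : ℂ} (h : V * sg (0, 1) * star V = e • sg (0, 1))
    (x y : ZMod 2) : V x y * (-1) ^ y.val = e * ((-1) ^ x.val * V x y) := by
  have h1 : V * sg (0, 1) = e • sg (0, 1) * V := by
    rw [← h, mul_assoc, hV.star_mul, mul_one]
  have := congrFun (congrFun h1 x) y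
  rcases z2_cases x with rfl | rfl <;> rcases z2_cases y with rfl | rfl <;>
    simpa only [ZMod.val_zero, pow_zero, mul_one, one_mul, sg, add_zero, Matrix.mul_apply, of_apply, mul_ite, mul_zero, Finset.sum_ite_eq', Finset.mem_univ, ↓ reduceIte, smul_of, Pi.smul_apply, smul_eq_mul, ite_mul, zero_mul, Finset.sum_ite_eq, z2_val_one, pow_one, mul_neg, neg_mul, neg_inj] using this

/-- A Clifford unitary that keeps the Z axis is monomial with fourth roots of unity. -/
theorem clifford_fix_Z {U : M2} (hU : IsU U) (hC : IsClifford U)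
    (h : U * sg (0, 1) * star U = sg (0, 1) ∨ U * sg (0, 1) * star U = -sg (0, 1)) :
    ∃ (x : ZMod 2) (d : ZMod 2 → ℂ), (∀ y, d y ≠ 0) ∧ d 1 ^ 4 = d 0 ^ 4 ∧
      ∀ y z, U y z = if z = y + x then d y else 0 := by
  obtain ⟨x, hx⟩ : ∃ x : ZMod 2, ∀ y, U y (y + x + 1) = 0 := by
    rcases h with h | h
    · have h1 := Q1_mono hU (e := 1) (by rwa [one_smul])
      refine ⟨0, fun y => ?_⟩
      have := h1 y (y + 0 + 1)
      rcases z2_cases y with rfl | rfl <;> simp [z2_val_one, z2_one_add_one] at this ⊢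
      · linear_combination -this / 2
      · linear_combination this / 2
    · have h1 := Q1_mono hU (e := -1) (by rwa [neg_smul, one_smul])
      refine ⟨1, fun y => ?_⟩
      have := h1 y (y + 1 + 1)
      rcases z2_cases y with rfl | rfl <;> simp [z2_val_one, z2_one_add_one] at this ⊢
      · linear_combination this / 2
      · linear_combination -this / 2
  have h0 := hx 0
  have h1 := hx 1
  have hu : ∀ y, U y (y + x) * star (U y (y + x)) = 1 := fun y => by
    have := congrFun (congrFun hU.mul_star y) y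
    rcases z2_cases x with rfl | rfl <;> rcases z2_cases y with rfl | rfl <;>
      simp_all [Matrix.mul_apply, sum_z2, z2_one_add_one]
  have hne : ∀ y, U y (y + x) ≠ 0 := fun y e => by simpa [e] using hu y
  refine ⟨x, fun y => U y (y + x), hne, ?_, fun y z => ?_⟩
  · obtain ⟨m, -, hm⟩ := (isClifford_iff U).1 hC (1, 0) (by decide)
    have e : (U * sg (1, 0) * star U) 0 1 = U 0 (0 + x) * star (U 1 (1 + x)) := by
      rcases z2_cases x with rfl | rfl <;>
        simp_all [Matrix.mul_apply, sum_z2, z2_one_add_one, sg]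
    have h2 : (U 0 (0 + x) * star (U 1 (1 + x))) ^ 4 = 1 := by
      have h3 := mul_ne_zero (hne 0) (star_ne_zero.2 (hne 1))
      rw [← e] at h3 ⊢
      revert h3
      rcases hm with hm | hm <;> rw [hm] <;> rcases lb_cases m with rfl | rfl | rfl | rfl <;>
        simp only [sg, add_zero, mul_zero, ZMod.val_zero, pow_zero, zero_mul, mul_one, of_apply, zero_ne_one, ↓ reduceIte, ne_eq, not_true_eq_false, OfNat.ofNat_ne_zero, not_false_eq_true, zero_pow, imp_self, z2_one_add_one, one_ne_zero, one_pow, one_mul, z2_val_one, pow_one, mul_neg, neg_eq_zero, Complex.I_ne_zero, forall_const, Matrix.neg_apply, neg_zero, neg_neg, Complex.I_pow_four] <;> norm_num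
    have h5 : (U 1 (1 + x) * star (U 1 (1 + x))) ^ 4 = 1 := by rw [hu, one_pow]
    linear_combination U 0 (0 + x) ^ 4 * h5 - U 1 (1 + x) ^ 4 * h2
  · split_ifs with hz
    · rw [hz]
    · rw [(by decide : ∀ x y z : ZMod 2, ¬ z = y + x → z = y + x + 1) x y z hz, hx]

end Pool.Agent.MP_7af562_mp

end

-- part MP_7af562_mp.X0
section

namespace Pool.Agent.MP_7af562_mp

/-- The bit string of a natural number. -/
def bit (N : ℕ) (j : Fin 24) : ZMod 2 := if N.testBit j then 1 else 0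

/-- The rows c1, c2, c3, c4, x3, x4, 1. -/
def xR (i : Fin 7) : Fin 24 → ZMod 2 :=
  bit (![16773120, 16519104, 15978300, 13581555, 12250018, 7190248, 16777215] i)

/-- A left inverse. -/
def xL (i : Fin 7) : Fin 24 → ZMod 2 := bit (![4109, 77, 17, 20, 3, 12, 21] i)

def xB (i : Fin 4) : Fin 24 → ZMod 2 := bit (![77, 4109, 3, 12] i)

def xS (i : Fin 4) : ℕ := ![1, 1, 0, 0] i

def xZ (j : Fin 24) : Fin 24 → ZMod 2 :=
  bit (![195, 195, 645, 393, 1105, 2145, 195, 195, 393, 645, 1105, 2145, 12291, 12291, 24585,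
    40965, 69649, 135201, 786435, 786435, 1572873, 2621445, 4456465, 8650785] j)

def xC (i : Fin 4) : Fin 24 → ZMod 2 := xR (Fin.castLE (by norm_num) i)

def lin (l : Fin 7 → ZMod 2) : Fin 24 → ZMod 2 := fun j => ∑ i, l i * xR i j

def linC (l : Fin 4 → ZMod 2) : Fin 24 → ZMod 2 := fun j => ∑ i, l i * xC i j

def wt {n : ℕ} (x : Fin n → ZMod 2) : ℕ := ∑ j, (x j).val

theorem x_LR : ∀ i k : Fin 7, ∑ j, xL i j * xR k j = if i = k then 1 else 0 := by
  decide +kernel

theorem x_phase : ∀ (a b c d e f g : ZMod 2) (i : Fin 4),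
    (4 * xS i + ∑ j, (2 * (xC i j * xB i j).val
      + 4 * (xB i j * (lin ![a, b, c, d, e, f, g] j + xC i j)).val)
      + wt (lin ![a, b, c, d, e, f, g] + xC i)) % 8 = wt (lin ![a, b, c, d, e, f, g]) % 8 := by
  decide +kernel

theorem x_wtC : ∀ a b c d : ZMod 2, wt (linC ![a, b, c, d]) ≤ 4 → linC ![a, b, c, d] = 0 := by
  decide +kernel

theorem x_Z : ∀ j : Fin 24, xZ j j = 1 ∧ wt (xZ j) = 4 ∧ ∀ i, ∑ k, xZ j k * xR i k = 0 := by
  decide +kernel

theorem x_tau : (∀ j : Fin 24, ((xR 0 j * xR 0 j).val + (xR 0 j * xR 1 j).val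
      + (xR 1 j * xR 1 j).val + (xR 4 j * xR 2 j).val + (xR 5 j * xR 3 j).val) % 2 = 0) ∧
    wt (xR 0 * xR 0) + wt (xR 0 * xR 1) + wt (xR 1 * xR 1) + wt (xR 4 * xR 2)
      + wt (xR 5 * xR 3) = 50 := by
  decide +kernel

end Pool.Agent.MP_7af562_mp

end

-- part MP_7af562_mp.Example
section

namespace Pool.Agent.MP_7af562_mp

open Matrix

theorem PP_mulVec {n : ℕ} (g : Fin n → Lb) (ψ : (Fin n → ZMod 2) → ℂ) (x : Fin n → ZMod 2) :
    (PP g *ᵥ ψ) x = (∏ i, (Complex.I ^ ((g i).1 * (g i).2).val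
      * (-1) ^ ((g i).2 * (x i + (g i).1)).val)) * ψ (x + fun i => (g i).1) := by
  have aa : ∀ a : Fin n → ZMod 2, a + a = 0 := fun a => funext fun i => by
    rcases z2_cases (a i) with h | h <;> simp [h, z2_one_add_one]
  simp only [Matrix.mulVec, dotProduct, PP_apply]
  rw [Finset.sum_eq_single (x + fun i => (g i).1)]
  · rw [if_pos (by rw [add_assoc, aa, add_zero])]
    rfl
  · intro y _ hy
    rw [if_neg, zero_mul]
    intro h
    apply hy
    rw [h, add_assoc, aa, add_zero]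
  · simp only [Finset.mem_univ, not_true_eq_false, Pi.add_apply, ite_mul, zero_mul, ite_eq_right_iff, mul_eq_zero, IsEmpty.forall_iff]

theorem sg_pauli (l : Lb) : sg l = 1 ∨ sg l = pX ∨ sg l = pY ∨ sg l = pZ := by
  rcases lb_cases l with rfl | rfl | rfl | rfl
  · exact Or.inl sg_zero
  · exact Or.inr (Or.inl sg_X)
  · exact Or.inr (Or.inr (Or.inr sg_Z))
  · exact Or.inr (Or.inr (Or.inl sg_Y))

theorem isStabCode_of {n : ℕ} {ι : Type} [Fintype ι] (s : ι → ℂ) (g : ι → Fin n → Lb)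
    (hs : ∀ k, s k = 1 ∨ s k = -1) {Q : Set ((Fin n → ZMod 2) → ℂ)} (hne : ∃ ψ ∈ Q, ψ ≠ 0)
    (hQ : ∀ ψ, ψ ∈ Q ↔ ∀ k, (s k • PP (g k)) *ᵥ ψ = ψ) : IsStabCode Q := by
  let e := Fintype.equivFin ι
  refine ⟨hne, Fintype.card ι, fun k => s (e.symm k), fun k i => sg (g (e.symm k) i),
    fun k => hs _, fun k i => sg_pauli _, ?_⟩
  ext ψ
  rw [hQ]
  exact ⟨fun h k => h _, fun h k => by simpa [PP] using h (e k)⟩

/-- A primitive eighth root of unity. -/
noncomputable def zeta : ℂ := (1 + Complex.I) / (Real.sqrt 2 : ℝ)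

theorem zeta_sq : zeta ^ 2 = Complex.I := by
  have h : ((Real.sqrt 2 : ℝ) : ℂ) ^ 2 = 2 := by
    rw [← Complex.ofReal_pow, Real.sq_sqrt (by norm_num)]; norm_num
  rw [zeta, div_pow, h]
  linear_combination (1 / 2 : ℂ) * Complex.I_sq

theorem zeta_four : zeta ^ 4 = -1 := by
  rw [show 4 = 2 * 2 from rfl, pow_mul, zeta_sq, Complex.I_sq]

theorem zeta_eight : zeta ^ 8 = 1 := by
  rw [show 8 = 4 * 2 from rfl, pow_mul, zeta_four]; norm_num

theorem zeta_ne : zeta ≠ 0 := fun h => by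
  have := zeta_eight
  rw [h] at this
  norm_num at this

theorem zeta_pow_congr {a b : ℕ} (h : a % 8 = b % 8) : zeta ^ a = zeta ^ b := by
  rw [← Nat.div_add_mod a 8, ← Nat.div_add_mod b 8, pow_add, pow_add, pow_mul, pow_mul, zeta_eight,
    one_pow, one_pow, h]

theorem zeta_unit : star zeta * zeta = 1 := by
  have h : ((Real.sqrt 2 : ℝ) : ℂ) * (Real.sqrt 2 : ℝ) = 2 := by
    rw [← Complex.ofReal_mul, Real.mul_self_sqrt (by norm_num)]; norm_num
  simp only [zeta, star_div₀, star_add, star_one, Complex.star_def, Complex.conj_I,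
    Complex.conj_ofReal]
  rw [div_mul_div_comm, h]
  linear_combination (-1 / 2 : ℂ) * Complex.I_mul_I

def inW (x : Fin 24 → ZMod 2) : Prop := ∃ l, x = lin l

theorem lin_add (l m : Fin 7 → ZMod 2) : lin (l + m) = lin l + lin m := by
  funext j
  simp only [lin, Pi.add_apply, add_mul, Finset.sum_add_distrib]

theorem lin_single (i : Fin 7) : lin (Pi.single i 1) = xR i := by
  funext j
  simp [lin, Pi.single_apply]

theorem inW_R (i : Fin 7) : inW (xR i) := ⟨_, (lin_single i).symm⟩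

theorem inW_zero : inW 0 := ⟨0, by funext j; simp [lin]⟩

theorem inW.add {x y : Fin 24 → ZMod 2} (hx : inW x) (hy : inW y) : inW (x + y) := by
  obtain ⟨l, rfl⟩ := hx
  obtain ⟨m, rfl⟩ := hy
  exact ⟨_, (lin_add l m).symm⟩

theorem v_add_self {n : ℕ} (a : Fin n → ZMod 2) : a + a = 0 := funext fun i => by
  rcases z2_cases (a i) with h | h <;> simp [h, z2_one_add_one]

theorem inW_add_C {x : Fin 24 → ZMod 2} (i : Fin 4) : inW (x + xC i) ↔ inW x := by
  refine ⟨fun h => ?_, fun h => h.add (inW_R _)⟩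
  have := h.add (inW_R (Fin.castLE (by norm_num) i))
  rwa [show xR (Fin.castLE (by norm_num) i) = xC i from rfl, add_assoc, v_add_self,
    add_zero] at this

/-- The parity checks of W. -/
def chk (j : Fin 24) : Fin 24 → ZMod 2 := fun k => (if k = j then 1 else 0) + ∑ i, xR i j * xL i k

theorem chk_dot (j : Fin 24) (x : Fin 24 → ZMod 2) :
    ∑ k, chk j k * x k = x j + lin (fun i => ∑ k, xL i k * x k) j := by
  have : ∑ k, ∑ i, xR i j * xL i k * x k = ∑ i, ∑ k, xL i k * x k * xR i j := by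
    rw [Finset.sum_comm]
    refine Finset.sum_congr rfl fun i _ => Finset.sum_congr rfl fun k _ => ?_
    ring
  simp only [chk, add_mul, Finset.sum_add_distrib, ite_mul, one_mul, zero_mul,
    Finset.sum_ite_eq', Finset.mem_univ, if_true, lin, Finset.sum_mul, this]

theorem inW_iff (x : Fin 24 → ZMod 2) : inW x ↔ ∀ j, ∑ k, chk j k * x k = 0 := by
  have aa : ∀ a b : ZMod 2, a + b = 0 ↔ a = b := by decide
  simp only [chk_dot, aa]
  refine ⟨?_, fun h => ⟨_, funext h⟩⟩
  rintro ⟨l, rfl⟩ j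
  have : (fun i => ∑ k, xL i k * lin l k) = l := by
    funext i
    simp only [lin, Finset.mul_sum]
    rw [Finset.sum_comm]
    have : ∀ m, ∑ k, xL i k * (l m * xR m k) = l m * (if i = m then 1 else 0) := fun m => by
      rw [← x_LR, Finset.mul_sum]
      exact Finset.sum_congr rfl fun k _ => by ring
    simp [this]
  rw [this]

theorem Z_mulVec {n : ℕ} (z : Fin n → ZMod 2) (ψ : (Fin n → ZMod 2) → ℂ) (x : Fin n → ZMod 2) :
    (PP (fun i => ((0, z i) : Lb)) *ᵥ ψ) x = (-1) ^ (∑ i, z i * x i).val * ψ x := by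
  rw [PP_mulVec, neg_one_pow_val_sum]
  congr 1
  · simp only [zero_mul, ZMod.val_zero, pow_zero, add_zero, one_mul]
  · congr 1
    funext i
    simp

theorem Z_fix_iff (ψ : (Fin 24 → ZMod 2) → ℂ) :
    (∀ j, ((1 : ℂ) • PP (fun i => ((0, chk j i) : Lb))) *ᵥ ψ = ψ) ↔ ∀ x, ¬ inW x → ψ x = 0 := by
  simp only [one_smul]
  constructor
  · intro h x hx
    rw [inW_iff, not_forall] at hx
    obtain ⟨j, hj⟩ := hx
    have e := congrFun (h j) x
    rw [Z_mulVec, (z2_cases _).resolve_left hj, z2_val_one] at e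
    linear_combination (-1 / 2 : ℂ) * e
  · intro h j
    funext x
    rw [Z_mulVec]
    by_cases hx : inW x
    · rw [(inW_iff x).1 hx j]; simp
    · rw [h x hx, mul_zero]

/-- The first code. -/
def Q24 : Set ((Fin 24 → ZMod 2) → ℂ) :=
  {ψ | (∀ x, ¬ inW x → ψ x = 0) ∧ ∀ i x, ψ (x + xC i) = ψ x}

/-- The second code. -/
def Q24' : Set ((Fin 24 → ZMod 2) → ℂ) :=
  {ψ | (∀ x, ¬ inW x → ψ x = 0) ∧
    ∀ i x, zeta ^ wt x * ψ (x + xC i) = zeta ^ wt (x + xC i) * ψ x}

open Classical in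
noncomputable def oneW : (Fin 24 → ZMod 2) → ℂ := fun x => if inW x then 1 else 0

theorem oneW_mem : oneW ∈ Q24 :=
  ⟨fun x hx => if_neg hx, fun i x => by simp only [oneW]; rw [inW_add_C]⟩

theorem D_mem {ψ : (Fin 24 → ZMod 2) → ℂ} (h : ψ ∈ Q24) :
    (fun x => zeta ^ wt x * ψ x) ∈ Q24' :=
  ⟨fun x hx => by simp [h.1 x hx], fun i x => by
    show zeta ^ wt x * (zeta ^ wt (x + xC i) * ψ (x + xC i)) = _ * (zeta ^ wt x * ψ x)
    rw [h.2]; ring⟩

theorem stab24 : IsStabCode Q24 := by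
  refine isStabCode_of (ι := Fin 24 ⊕ Fin 4) (fun _ => 1)
    (Sum.elim (fun j i => (0, chk j i)) (fun k i => (xC k i, 0))) (fun _ => Or.inl rfl)
    ⟨oneW, oneW_mem, fun h => ?_⟩ fun ψ => ?_
  · have := congrFun h 0
    simp [oneW, inW_zero] at this
  · rw [Sum.forall]
    refine and_congr (Z_fix_iff ψ).symm (forall_congr' fun k => ?_)
    rw [funext_iff]
    refine forall_congr' fun x => ?_
    rw [one_smul, Sum.elim_inr, PP_mulVec]
    simp

theorem phase24 (k : Fin 4) {x : Fin 24 → ZMod 2} (hx : inW x) :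
    (-1 : ℂ) ^ xS k * (∏ i, (Complex.I ^ (xC k i * xB k i).val
      * (-1) ^ (xB k i * (x i + xC k i)).val)) * zeta ^ wt (x + xC k) = zeta ^ wt x := by
  obtain ⟨l, rfl⟩ := hx
  have e : l = ![l 0, l 1, l 2, l 3, l 4, l 5, l 6] := by
    funext i; fin_cases i <;> rfl
  have h := zeta_pow_congr (x_phase (l 0) (l 1) (l 2) (l 3) (l 4) (l 5) (l 6) k)
  rw [← e] at h
  have e2 : ∀ a b : ℕ, zeta ^ (2 * a + 4 * b) = Complex.I ^ a * (-1) ^ b := fun a b => by
    rw [pow_add, pow_mul, pow_mul, zeta_sq, zeta_four]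
  rw [pow_add, pow_add, ← Finset.prod_pow_eq_pow_sum, pow_mul, zeta_four] at h
  simp only [e2] at h
  exact h

theorem stab24' : IsStabCode Q24' := by
  refine isStabCode_of (ι := Fin 24 ⊕ Fin 4) (Sum.elim (fun _ => 1) (fun k => (-1) ^ xS k))
    (Sum.elim (fun j i => (0, chk j i)) (fun k i => (xC k i, xB k i))) ?_
    ⟨_, D_mem oneW_mem, fun h => ?_⟩ fun ψ => ?_
  · rintro (j | k)
    · exact Or.inl rfl
    · exact neg_one_pow_eq_or ℂ _
  · have := congrFun h 0
    simp [oneW, inW_zero, zeta_ne] at this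
  · rw [Sum.forall]
    simp only [Sum.elim_inl, Sum.elim_inr]
    rw [Z_fix_iff]
    refine and_congr_right fun h0 => forall_congr' fun k => ?_
    rw [funext_iff]
    refine forall_congr' fun x => ?_
    rw [Matrix.smul_mulVec, Pi.smul_apply, PP_mulVec, smul_eq_mul]
    show _ ↔ (-1 : ℂ) ^ xS k * ((∏ i, (Complex.I ^ (xC k i * xB k i).val
      * (-1) ^ (xB k i * (x i + xC k i)).val)) * ψ (x + xC k)) = ψ x
    by_cases hx : inW x
    · have p := phase24 k hx
      have nz : zeta ^ wt (x + xC k) ≠ 0 := pow_ne_zero _ zeta_ne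
      constructor
      · intro h
        apply mul_left_cancel₀ nz
        linear_combination h + ψ (x + xC k) * p
      · intro h
        linear_combination zeta ^ wt (x + xC k) * h - ψ (x + xC k) * p
    · rw [h0 x hx, h0 _ fun h => hx ((inW_add_C k).1 h)]
      simp only [mul_zero]

theorem permOp_one {n : ℕ} : permOp (1 : Equiv.Perm (Fin n)) = 1 := by
  ext x y
  simp [permOp, Matrix.one_apply, eq_comm]

theorem lu24 : LUEquivalent Q24 Q24' := by
  have key : ∀ ψ : (Fin 24 → ZMod 2) → ℂ,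
      (tensor (fun _ => Matrix.diagonal fun t : ZMod 2 => zeta ^ t.val) * permOp 1) *ᵥ ψ
        = fun x => zeta ^ wt x * ψ x := by
    intro ψ
    funext x
    rw [permOp_one, Matrix.mul_one]
    simp only [Matrix.mulVec, dotProduct, tensor, Matrix.of_apply, Matrix.diagonal_apply]
    rw [Finset.sum_eq_single x]
    · simp [wt, Finset.prod_pow_eq_pow_sum]
    · intro y _ hy
      obtain ⟨i, hi⟩ := Function.ne_iff.mp hy
      rw [Finset.prod_eq_zero (Finset.mem_univ i) (if_neg hi.symm), zero_mul]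
    · simp
  refine ⟨fun _ => Matrix.diagonal fun t : ZMod 2 => zeta ^ t.val, 1, fun _ => ?_, ?_⟩
  · rw [Matrix.mem_unitaryGroup_iff', Matrix.star_eq_conjTranspose, Matrix.diagonal_conjTranspose,
      Matrix.diagonal_mul_diagonal, ← Matrix.diagonal_one]
    congr 1
    funext t
    rw [Pi.star_apply, star_pow, ← mul_pow, zeta_unit, one_pow]
  · ext φ
    constructor
    · rintro ⟨ψ, hψ, rfl⟩
      simp only [key]
      exact D_mem hψ
    · intro hφ
      refine ⟨fun x => φ x / zeta ^ wt x, ⟨fun x hx => by simp [hφ.1 x hx], fun i x => ?_⟩, ?_⟩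
      · show φ (x + xC i) / _ = φ x / _
        rw [div_eq_div_iff (pow_ne_zero _ zeta_ne) (pow_ne_zero _ zeta_ne)]
        linear_combination hφ.2 i x
      · simp only [key]
        funext x
        rw [mul_div_cancel₀ _ (pow_ne_zero _ zeta_ne)]

end Pool.Agent.MP_7af562_mp

namespace Pool.Agent.MP_7af562_mp

open Matrix

def inC (x : Fin 24 → ZMod 2) : Prop := ∃ l, x = linC l

theorem linC_add (l m : Fin 4 → ZMod 2) : linC (l + m) = linC l + linC m := by
  funext j
  simp only [linC, Pi.add_apply, add_mul, Finset.sum_add_distrib]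

theorem linC_single (i : Fin 4) : linC (Pi.single i 1) = xC i := by
  funext j
  simp [linC, Pi.single_apply]

theorem inC_zero : inC 0 := ⟨0, by funext j; simp [linC]⟩

theorem inC_add_C {x : Fin 24 → ZMod 2} (i : Fin 4) : inC (x + xC i) ↔ inC x := by
  have key : ∀ y, inC y → inC (y + xC i) := by
    rintro _ ⟨l, rfl⟩
    exact ⟨l + Pi.single i 1, by rw [linC_add, linC_single]⟩
  refine ⟨fun h => ?_, key x⟩
  have := key _ h
  rwa [add_assoc, v_add_self, add_zero] at this

theorem inC.inW {x : Fin 24 → ZMod 2} (h : inC x) : inW x := by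
  obtain ⟨l, rfl⟩ := h
  refine ⟨![l 0, l 1, l 2, l 3, 0, 0, 0], ?_⟩
  funext j
  simp only [lin, linC, Fin.sum_univ_succ, Fin.sum_univ_zero, Matrix.cons_val_zero,
    Matrix.cons_val_succ, zero_mul, add_zero]
  rfl

theorem inC_small {x : Fin 24 → ZMod 2} (h : inC x) (h4 : wt x ≤ 4) : x = 0 := by
  obtain ⟨l, rfl⟩ := h
  have e : l = ![l 0, l 1, l 2, l 3] := by
    funext i; fin_cases i <;> rfl
  rw [e] at h4 ⊢
  exact x_wtC _ _ _ _ h4

open Classical in
noncomputable def oneC : (Fin 24 → ZMod 2) → ℂ := fun x => if inC x then 1 else 0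

theorem oneC_mem : oneC ∈ Q24 :=
  ⟨fun x hx => if_neg fun h => hx h.inW, fun i x => by simp only [oneC]; rw [inC_add_C]⟩

theorem xZ_fix (j : Fin 24) {ψ : (Fin 24 → ZMod 2) → ℂ} (h : ψ ∈ Q24) :
    PP (fun i => ((0, xZ j i) : Lb)) *ᵥ ψ = ψ := by
  funext x
  rw [Z_mulVec]
  by_cases hx : inW x
  · obtain ⟨l, rfl⟩ := hx
    have : ∑ i, xZ j i * lin l i = 0 := by
      simp only [lin, Finset.mul_sum]
      rw [Finset.sum_comm]
      refine Finset.sum_eq_zero fun m _ => ?_
      rw [← mul_zero (l m), ← (x_Z j).2.2 m, Finset.mul_sum]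
      exact Finset.sum_congr rfl fun k _ => by ring
    rw [this]; simp
  · rw [h.1 x hx, mul_zero]

/-- A local Clifford equivalence keeps every Z axis. -/
theorem keeps_Z {U : Fin 24 → M2} {π : Equiv.Perm (Fin 24)}
    (hU : ∀ i, IsU (U i) ∧ IsClifford (U i))
    (h : (fun ψ => (tensor U * permOp π) *ᵥ ψ) '' Q24 = Q24') (s : Fin 24) :
    U s * sg (0, 1) * star (U s) = sg (0, 1) ∨ U s * sg (0, 1) * star (U s) = -sg (0, 1) := by
  choose φ ε hε _ hφ using fun i => clifford_action (hU i).1 (hU i).2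
  set j := π.symm s with hj
  let g : Fin 24 → Lb := fun i => (0, xZ j (π.symm i))
  let g' : Fin 24 → Lb := fun i => φ i (g i)
  have e1 : tensor U * PP g = (∏ i, ε i (g i)) • PP g' * tensor U := by
    have : tensor U * PP g * star (tensor U) = (∏ i, ε i (g i)) • PP g' := by
      rw [PP, tensor_star, tensor_mul, tensor_mul]
      simp only [hφ]
      rw [tensor_smul]
      rfl
    rw [← this, Matrix.mul_assoc, (tensor_unit fun i => (hU i).1).1, Matrix.mul_one]
  have e2 : PP g * permOp π = permOp π * PP (fun i => ((0, xZ j i) : Lb)) := by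
    rw [PP, tensor_mul_permOp]
    simp only [g, Equiv.symm_apply_apply]
    rfl
  obtain ⟨ψ, hψ, eψ⟩ : (fun x => zeta ^ wt x * oneC x) ∈
      (fun ψ => (tensor U * permOp π) *ᵥ ψ) '' Q24 := h ▸ D_mem oneC_mem
  have e3 : ((∏ i, ε i (g i)) • PP g') *ᵥ ((tensor U * permOp π) *ᵥ ψ)
      = (tensor U * permOp π) *ᵥ ψ := by
    rw [Matrix.mulVec_mulVec, ← Matrix.mul_assoc, ← e1, Matrix.mul_assoc, e2, ← Matrix.mul_assoc,
      ← Matrix.mulVec_mulVec, xZ_fix j hψ]
  simp only at eψ
  rw [eψ] at e3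
  have e4 := congrFun e3 0
  rw [Matrix.smul_mulVec, Pi.smul_apply, PP_mulVec, zero_add] at e4
  have hC : inC fun i => (g' i).1 := by
    by_contra hn
    have z1 : oneC (fun i => (g' i).1) = 0 := if_neg hn
    have z2 : oneC 0 = 1 := if_pos inC_zero
    simp only [z1, z2, mul_zero, smul_zero, mul_one] at e4
    exact pow_ne_zero _ zeta_ne e4.symm
  have h4 : wt (fun i => (g' i).1) ≤ 4 := by
    rw [← (x_Z j).2.1, wt, wt, ← Equiv.sum_comp π.symm fun i => (xZ j i).val]
    refine Finset.sum_le_sum fun i _ => ?_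
    rcases z2_cases (xZ j (π.symm i)) with z | z
    · have : g i = 0 := by simp only [g, z]; rfl
      simp [g', this]
    · rw [z, z2_val_one]
      exact Nat.lt_succ_iff.mp (ZMod.val_lt _)
  have h0 := congrFun (inC_small hC h4) s
  have gs : g s = (0, 1) := by simp only [g, ← hj, (x_Z j).1]
  have hne : φ s (0, 1) ≠ 0 := by
    rw [Ne, map_eq_zero_iff _ (φ s).injective]
    decide
  have hZ : φ s (0, 1) = (0, 1) := by
    have : ∀ l : Lb, l ≠ 0 → l.1 = 0 → l = (0, 1) := by decide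
    refine this _ hne ?_
    simpa only [g', gs, Pi.zero_apply] using h0
  rw [hφ, hZ]
  rcases hε s (0, 1) with e | e <;> simp [e]

theorem monomial_mulVec {n : ℕ} {U : Fin n → M2} {x₁ : Fin n → ZMod 2} {d : Fin n → ZMod 2 → ℂ}
    (h : ∀ s y z, U s y z = if z = y + x₁ s then d s y else 0) (π : Equiv.Perm (Fin n))
    (ψ : (Fin n → ZMod 2) → ℂ) (y : Fin n → ZMod 2) :
    ((tensor U * permOp π) *ᵥ ψ) y = (∏ s, d s (y s)) * ψ ((y + x₁) ∘ π) := by
  rw [← Matrix.mulVec_mulVec, ← permOp_mulVec π ψ (y + x₁)]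
  generalize permOp π *ᵥ ψ = χ
  simp only [Matrix.mulVec, dotProduct, tensor, Matrix.of_apply, h]
  rw [Finset.sum_eq_single (y + x₁)]
  · simp only [Pi.add_apply, ↓ reduceIte]
  · intro z _ hz
    obtain ⟨i, hi⟩ := Function.ne_iff.mp hz
    rw [Finset.prod_eq_zero (Finset.mem_univ i) (if_neg hi), zero_mul]
  · simp only [Finset.mem_univ, not_true_eq_false, Pi.add_apply, ↓ reduceIte, mul_eq_zero, IsEmpty.forall_iff]

theorem wt_add {n : ℕ} (x y : Fin n → ZMod 2) : wt (x + y) + 2 * wt (x * y) = wt x + wt y := by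
  simp only [wt, Finset.mul_sum, ← Finset.sum_add_distrib, Pi.add_apply, Pi.mul_apply]
  refine Finset.sum_congr rfl fun i _ => ?_
  generalize x i = a
  generalize y i = b
  revert a b
  decide

theorem rho_add {n : ℕ} (ρ : Fin n → ℂ) (x y : Fin n → ZMod 2) :
    (∏ s, ρ s ^ ((x + y) s).val) * ∏ s, (ρ s ^ 2) ^ ((x * y) s).val
      = (∏ s, ρ s ^ (x s).val) * ∏ s, ρ s ^ (y s).val := by
  simp only [← Finset.prod_mul_distrib, ← pow_mul, ← pow_add, Pi.add_apply, Pi.mul_apply]
  refine Finset.prod_congr rfl fun i _ => ?_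
  have : ∀ a b : ZMod 2, (a + b).val + 2 * (a * b).val = a.val + b.val := by decide
  rw [this]

theorem not_lc24 : ¬ LCEquivalent Q24 Q24' := by
  rintro ⟨U, π, hU, h⟩
  choose x₁ d hd0 hd4 hd using fun s =>
    clifford_fix_Z (hU s).1 (hU s).2 (keeps_Z hU h s)
  have mv := monomial_mulVec hd π
  obtain ⟨ψ, hψ, eψ⟩ : (fun x => zeta ^ wt x * oneW x) ∈
      (fun ψ => (tensor U * permOp π) *ᵥ ψ) '' Q24 := h ▸ D_mem oneW_mem
  have hW : ∀ y, inW y → oneW ((y + x₁) ∘ π) = 1 := by
    intro y hy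
    refine if_pos ?_
    by_contra hn
    have e := congrFun eψ y
    have z : oneW y = 1 := if_pos hy
    simp only [mv, hψ.1 _ hn, mul_zero, z, mul_one] at e
    exact pow_ne_zero _ zeta_ne e.symm
  have hm : (tensor U * permOp π) *ᵥ oneW ∈ Q24' := h ▸ ⟨oneW, oneW_mem, rfl⟩
  let ρ : Fin 24 → ℂ := fun s => d s 1 / d s 0
  have hρ0 : ∀ s, ρ s ≠ 0 := fun s => div_ne_zero (hd0 s 1) (hd0 s 0)
  have hρ4 : ∀ s, (ρ s ^ 2) ^ 2 = 1 := fun s => by
    rw [← pow_mul, div_pow, hd4, div_self (pow_ne_zero _ (hd0 s 0))]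
  have hdρ : ∀ y : Fin 24 → ZMod 2,
      ∏ s, d s (y s) = (∏ s, d s 0) * ∏ s, ρ s ^ (y s).val := fun y => by
    rw [← Finset.prod_mul_distrib]
    refine Finset.prod_congr rfl fun s _ => ?_
    rcases z2_cases (y s) with e | e <;> rw [e]
    · simp
    · rw [z2_val_one, pow_one, mul_div_cancel₀ _ (hd0 s 0)]
  have n0 : ∏ s, d s 0 ≠ 0 := Finset.prod_ne_zero_iff.mpr fun s _ => hd0 s 0
  have r0 : ∀ y : Fin 24 → ZMod 2, ∏ s, ρ s ^ (y s).val ≠ 0 := fun y =>
    Finset.prod_ne_zero_iff.mpr fun s _ => pow_ne_zero _ (hρ0 s)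
  have k1 : ∀ i y, inW y → zeta ^ wt y * ∏ s, ρ s ^ ((y + xC i) s).val
      = zeta ^ wt (y + xC i) * ∏ s, ρ s ^ (y s).val := by
    intro i y hy
    have e := hm.2 i y
    rw [mv, mv, hW y hy, hW _ ((inW_add_C i).2 hy), hdρ (y + xC i), hdρ y] at e
    apply mul_left_cancel₀ n0
    linear_combination e
  have k2 : ∀ i y, inW y → ∏ s, (ρ s ^ 2) ^ ((y * xC i) s).val = Complex.I ^ wt (y * xC i) := by
    intro i y hy
    have a := k1 i y hy
    have b := k1 i 0 inW_zero
    have w0 : wt (0 : Fin 24 → ZMod 2) = 0 := by simp [wt]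
    simp only [zero_add, w0, pow_zero, one_mul, Pi.zero_apply, ZMod.val_zero,
      Finset.prod_const_one, mul_one] at b
    have c := rho_add ρ y (xC i)
    have e : zeta ^ wt (y + xC i) * Complex.I ^ wt (y * xC i) = zeta ^ wt y * zeta ^ wt (xC i) := by
      rw [← zeta_sq, ← pow_mul, ← pow_add, ← pow_add, wt_add]
    rw [b] at c
    apply mul_left_cancel₀ (mul_ne_zero (pow_ne_zero (wt (y + xC i)) zeta_ne) (r0 y))
    linear_combination zeta ^ wt y * c - (∏ s, (ρ s ^ 2) ^ ((y * xC i) s).val) * a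
      - (∏ s, ρ s ^ (y s).val) * e
  have t1 := k2 0 _ (inW_R 0)
  have t2 := k2 1 _ (inW_R 0)
  have t3 := k2 1 _ (inW_R 1)
  have t4 := k2 2 _ (inW_R 4)
  have t5 := k2 3 _ (inW_R 5)
  rw [show xC 0 = xR 0 from rfl] at t1
  rw [show xC 1 = xR 1 from rfl] at t2 t3
  rw [show xC 2 = xR 2 from rfl] at t4
  rw [show xC 3 = xR 3 from rfl] at t5
  have lhs : (∏ s, (ρ s ^ 2) ^ ((xR 0 * xR 0) s).val) * (∏ s, (ρ s ^ 2) ^ ((xR 0 * xR 1) s).val)
      * (∏ s, (ρ s ^ 2) ^ ((xR 1 * xR 1) s).val) * (∏ s, (ρ s ^ 2) ^ ((xR 4 * xR 2) s).val)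
      * (∏ s, (ρ s ^ 2) ^ ((xR 5 * xR 3) s).val) = 1 := by
    simp only [← Finset.prod_mul_distrib, ← pow_add, Pi.mul_apply]
    refine Finset.prod_eq_one fun s _ => ?_
    rw [← Nat.div_add_mod (_ + _ + _ + _ + _) 2, x_tau.1 s, add_zero, pow_mul, hρ4, one_pow]
  rw [t1, t2, t3, t4, t5, ← pow_add, ← pow_add, ← pow_add, ← pow_add, x_tau.2,
    show 50 = 2 * 25 from rfl, pow_mul, Complex.I_sq] at lhs
  norm_num at lhs

end Pool.Agent.MP_7af562_mp

end
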