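import Pool.Agent.MP_7af562_mp.H78.Defs

attribute [-instance] RCLike.charZero_rclike RKHS.instFunLike instCharZeroOfIsSemireal
  FloorSemiring.instCharZero SubfieldClass.toSubringClass MonTypeEquivalenceMon.monMonoid
  IdemSemiring.toSemiring AddCommMonoidWithOne.toAddMonoidWithOne Nontrivial.to_nonempty
  CommMonTypeEquivalenceCommMon.commMonCommMonoid MonoidWithZeroHomClass.toZeroHomClass
  Zero.instNonempty Submodule.IsLattice.finite instCoeOTCOfCoeTC NumberField.to_charZero bot_nonempty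
  GrpTypeEquivalenceGrp.grpGroup NonUnitalAlgSemiHomClass.toDistribMulActionSemiHomClass
  IsStrictOrderedRing.toCharZero ContinuousMonoidHom.instCoeOutOfMonoidHomClassOfContinuousMapClass
  IsStarProjection.instTrivialStarOfStarOrderedRing LieAdmissibleRing.toNonUnitalNonAssocRing
  LinearOrderedAddCommMonoidWithTop.toAddCommMonoid AddTorsor.nonempty Pi.preorder
  AddQuantale.instAddLeftMono One.instNonempty NumberField.instFiniteDimensional
  SubsemiringClass.addSubmonoidWithOneClass List.instDecidableMemOfLawfulBEq BooleanRing.toRing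
  Finset.decidableDforallFinset SubringClass.toCommRing SubringClass.toRing

-- part MP_7af562_mp.H78.Basic
section

set_option linter.unusedSectionVars false
set_option linter.unusedSimpArgs false

namespace Pool.Agent.MP_7af562_mp.H78

open Matrix

abbrev M2 := Matrix (ZMod 2) (ZMod 2) ℂ
abbrev Lb := ZMod 2 × ZMod 2

theorem z2 (t : ZMod 2) : t = 0 ∨ t = 1 := by revert t; decide

theorem lb4 (a : Lb) : a = (0,0) ∨ a = (1,0) ∨ a = (1,1) ∨ a = (0,1) := by revert a; decide

theorem sum_z2 {α : Type*} [AddCommMonoid α] (f : ZMod 2 → α) : ∑ t, f t = f 0 + f 1 :=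
  Fin.sum_univ_two f

theorem sum_lb {α : Type*} [AddCommMonoid α] (f : Lb → α) :
    ∑ a, f a = f (0,0) + f (0,1) + (f (1,0) + f (1,1)) := by
  rw [Fintype.sum_prod_type, sum_z2, sum_z2, sum_z2]

theorem z11 : (1 : ZMod 2) + 1 = 0 := by decide
theorem z10 : (1 : ZMod 2) ≠ 0 := by decide
theorem z01 : (0 : ZMod 2) ≠ 1 := by decide
theorem zadd (t : ZMod 2) : t + t = 0 := by revert t; decide
theorem zmul (t : ZMod 2) : t * t = t := by revert t; decide

/-- the sign character -/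
noncomputable def sg (t : ZMod 2) : ℂ := if t = 0 then 1 else -1

@[simp] theorem sg_zero : sg 0 = 1 := by simp [sg]
@[simp] theorem sg_one : sg 1 = -1 := by simp only [sg, one_ne_zero, ↓ reduceIte]

theorem sg_add (s t : ZMod 2) : sg (s + t) = sg s * sg t := by
  rcases z2 s with rfl | rfl <;> rcases z2 t with rfl | rfl <;> simp [z11]

theorem sg_sq (t : ZMod 2) : sg t * sg t = 1 := by
  rcases z2 t with rfl | rfl <;> simp

theorem sg_ne (t : ZMod 2) : sg t ≠ 0 := by
  rcases z2 t with rfl | rfl <;> simp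

theorem sg_inj {s t : ZMod 2} (h : sg s = sg t) : s = t := by
  rcases z2 s with rfl | rfl <;> rcases z2 t with rfl | rfl <;> simp only [sg_zero, sg_one, zero_ne_one, one_ne_zero] at h ⊢ <;> norm_num at h

theorem sg_sum {ι : Type} (S : Finset ι) (f : ι → ZMod 2) :
    sg (∑ i ∈ S, f i) = ∏ i ∈ S, sg (f i) := by
  classical
  induction S using Finset.induction_on with
  | empty => simp
  | insert a S ha ih => rw [Finset.sum_insert ha, Finset.prod_insert ha, sg_add, ih]

theorem star_sg (t : ZMod 2) : star (sg t) = sg t := by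
  rcases z2 t with rfl | rfl <;> simp

noncomputable def ph (a : Lb) : ℂ := if a = (1,1) then Complex.I else 1

theorem ph_ne (a : Lb) : ph a ≠ 0 := by
  unfold ph; split_ifs <;> simp

/-- The Hermitian Pauli matrix with X-part `a.1` and Z-part `a.2`. -/
noncomputable def sgm (a : Lb) : M2 :=
  Matrix.of fun x y => if x = y + a.1 then ph a * sg (a.2 * y) else 0

theorem m2_ext {A B : M2} (h00 : A 0 0 = B 0 0) (h01 : A 0 1 = B 0 1) (h10 : A 1 0 = B 1 0)
    (h11 : A 1 1 = B 1 1) : A = B := by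
  ext x y
  rcases z2 x with rfl | rfl <;> rcases z2 y with rfl | rfl <;> assumption

theorem sgm_zero : sgm 0 = 1 := by
  apply m2_ext <;> simp only [sgm, Prod.fst_zero, add_zero, ph, Prod.ext_iff, zero_ne_one, Prod.snd_zero, and_self, ↓ reduceIte, zero_mul, sg_zero, mul_one, of_apply, one_apply_eq, ne_eq, not_false_eq_true, one_apply_ne, one_ne_zero]

theorem sgm00 : sgm (0,0) = 1 := sgm_zero
theorem sgm10 : sgm (1,0) = pX := by apply m2_ext <;> simp only [sgm, ph, Prod.mk.injEq, zero_ne_one, and_false, ↓ reduceIte, zero_mul, sg_zero, mul_one, of_apply, zero_add, pX, z11, one_ne_zero]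
theorem sgm11 : sgm (1,1) = pY := by apply m2_ext <;> simp only [sgm, ph, ↓ reduceIte, one_mul, of_apply, zero_add, zero_ne_one, pY, z11, sg_one, mul_neg, mul_one, sg_zero, one_ne_zero]
theorem sgm01 : sgm (0,1) = pZ := by apply m2_ext <;> simp only [sgm, add_zero, ph, Prod.mk.injEq, zero_ne_one, and_true, ↓ reduceIte, one_mul, of_apply, sg_zero, pZ, one_ne_zero, sg_one]

theorem isPauli_iff (M : M2) : IsPauli M ↔ ∃ a, M = sgm a := by
  constructor
  · rintro (h | h | h | h)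
    · exact ⟨_, h.trans sgm00.symm⟩
    · exact ⟨_, h.trans sgm10.symm⟩
    · exact ⟨_, h.trans sgm11.symm⟩
    · exact ⟨_, h.trans sgm01.symm⟩
  · rintro ⟨a, rfl⟩
    rcases lb4 a with rfl | rfl | rfl | rfl
    · exact Or.inl sgm00
    · exact Or.inr (Or.inl sgm10)
    · exact Or.inr (Or.inr (Or.inl sgm11))
    · exact Or.inr (Or.inr (Or.inr sgm01))

/-- the phase in a product of two Pauli matrices -/
noncomputable def om (a b : Lb) : ℂ := ph a * ph b * sg (a.2 * b.1) / ph (a + b)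

theorem om_ne (a b : Lb) : om a b ≠ 0 :=
  div_ne_zero (mul_ne_zero (mul_ne_zero (ph_ne _) (ph_ne _)) (sg_ne _)) (ph_ne _)

theorem sgm_mul (a b : Lb) : sgm a * sgm b = om a b • sgm (a + b) := by
  rcases lb4 a with rfl | rfl | rfl | rfl <;> rcases lb4 b with rfl | rfl | rfl | rfl <;>
    apply m2_ext <;> simp [sgm, om, ph, Matrix.mul_apply, sum_z2, z11, Prod.ext_iff]

theorem sgm_sq (a : Lb) : sgm a * sgm a = 1 := by
  rcases lb4 a with rfl | rfl | rfl | rfl <;>
    apply m2_ext <;> simp only [sgm, add_zero, ph, Prod.ext_iff, zero_ne_one, and_self, ↓ reduceIte, zero_mul, sg_zero, mul_one, Matrix.mul_apply, of_apply, mul_ite, mul_zero, Finset.sum_ite_eq', Finset.mem_univ, one_apply_eq, ne_eq, not_false_eq_true, one_apply_ne, one_ne_zero, and_false, zero_add, z11, right_eq_add, one_mul, ite_mul, sg_one, mul_neg, neg_mul, Complex.I_mul_I, neg_neg, neg_zero, and_true]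

/-- the symplectic form on one qubit -/
def sp (a b : Lb) : ZMod 2 := a.1 * b.2 + a.2 * b.1

theorem om_comm (a b : Lb) : om a b = sg (sp a b) * om b a := by
  rcases lb4 a with rfl | rfl | rfl | rfl <;> rcases lb4 b with rfl | rfl | rfl | rfl <;>
    simp [om, ph, sp, z11, Prod.ext_iff]

theorem sp_eq_one {a b : Lb} (ha : a ≠ 0) (hb : b ≠ 0) (hab : a ≠ b) : sp a b = 1 := by
  revert a b; decide

theorem sp_zero_left (b : Lb) : sp 0 b = 0 := by simp [sp]
theorem sp_zero_right (a : Lb) : sp a 0 = 0 := by simp [sp]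

theorem star_sgm (a : Lb) : star (sgm a) = sgm a := by
  rcases lb4 a with rfl | rfl | rfl | rfl <;>
    apply m2_ext <;> simp [sgm, ph, star_apply, z11, Prod.ext_iff]

theorem trace_sgm (a : Lb) : (sgm a).trace = if a = 0 then 2 else 0 := by
  rcases lb4 a with rfl | rfl | rfl | rfl <;>
    simp [sgm, ph, Matrix.trace, sum_z2, Prod.ext_iff]

/-- the coefficient of `sgm a` in `M` -/
noncomputable def co (M : M2) (a : Lb) : ℂ := (M * sgm a).trace / 2

theorem lb_add_self (a : Lb) : a + a = 0 := by revert a; decide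
theorem lb_add_eq_zero {a b : Lb} : a + b = 0 ↔ a = b := by revert a b; decide

theorem co_sgm (a b : Lb) : co (sgm a) b = if a = b then 1 else 0 := by
  unfold co
  by_cases h : a = b
  · subst h; rw [sgm_sq, if_pos rfl]; simp
  · rw [if_neg h, sgm_mul, Matrix.trace_smul, trace_sgm, if_neg (fun e => h (lb_add_eq_zero.mp e))]
    simp

theorem co_one (b : Lb) : co 1 b = if b = 0 then 1 else 0 := by
  rw [← sgm_zero, co_sgm]; simp only [eq_comm]

theorem co_zero (M : M2) : co M 0 = M.trace / 2 := by simp [co, sgm_zero]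

theorem expand (M : M2) : M = ∑ a, co M a • sgm a := by
  rw [sum_lb]
  apply m2_ext <;>
    simp only [co, trace, sgm, add_zero, ph, Prod.ext_iff, zero_ne_one, and_self, ↓ reduceIte, zero_mul, sg_zero, mul_one, diag_apply, Matrix.mul_apply, of_apply, mul_ite, mul_zero, Finset.sum_ite_eq', Finset.mem_univ, sum_z2, smul_of, and_true, one_mul, sg_one, mul_neg, of_add_of, and_false, zero_add, z11, Matrix.add_apply, Pi.add_apply, Pi.smul_apply, smul_eq_mul, one_ne_zero, right_eq_add] <;>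
    ring_nf <;> simp only [one_div, Complex.I_sq, mul_neg, mul_one, neg_mul, add_neg_cancel_right, add_neg_cancel, zero_add] <;> ring

section T
variable {ι : Type} [Fintype ι] [DecidableEq ι]

theorem tensor_mul (A B : ι → M2) : tensor A * tensor B = tensor (fun i => A i * B i) := by
  ext x y
  simp only [tensor, Matrix.mul_apply, Matrix.of_apply]
  rw [Finset.prod_univ_sum]
  simp only [Fintype.piFinset_univ]
  refine Finset.sum_congr rfl fun z _ => ?_
  rw [Finset.prod_mul_distrib]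

theorem tensor_trace (A : ι → M2) : (tensor A).trace = ∏ i, (A i).trace := by
  simp only [tensor, Matrix.trace, Matrix.diag, Matrix.of_apply]
  rw [Finset.prod_univ_sum]
  simp only [Fintype.piFinset_univ]

theorem tensor_one : tensor (fun _ : ι => (1 : M2)) = 1 := by
  ext x y
  simp only [tensor, Matrix.of_apply, Matrix.one_apply]
  by_cases h : x = y
  · subst h; simp only [↓ reduceIte, Finset.prod_const_one]
  · rw [if_neg h]
    obtain ⟨i, hi⟩ := Function.ne_iff.mp h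
    exact Finset.prod_eq_zero (Finset.mem_univ i) (if_neg hi)

omit [DecidableEq ι] in
theorem tensor_smul (c : ι → ℂ) (A : ι → M2) :
    tensor (fun i => c i • A i) = (∏ i, c i) • tensor A := by
  ext x y
  simp only [tensor, Matrix.smul_apply, smul_eq_mul, Finset.prod_mul_distrib, of_apply]

omit [DecidableEq ι] in
theorem star_tensor (A : ι → M2) : star (tensor A) = tensor (fun i => star (A i)) := by
  ext x y
  simp only [tensor, star_apply, of_apply, star_prod, RCLike.star_def]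

/-- the Hermitian Pauli string with label `a` -/
noncomputable def ps (a : ι → Lb) : Matrix (ι → ZMod 2) (ι → ZMod 2) ℂ :=
  tensor (fun i => sgm (a i))

theorem ps_zero : ps (0 : ι → Lb) = 1 := by
  simp only [ps, Pi.zero_apply, sgm_zero, tensor_one]

theorem ps_mul (a b : ι → Lb) : ps a * ps b = (∏ i, om (a i) (b i)) • ps (a + b) := by
  simp only [ps, tensor_mul, sgm_mul, tensor_smul, Pi.add_apply]

theorem ps_sq (a : ι → Lb) : ps a * ps a = 1 := by
  simp only [ps, tensor_mul, sgm_sq, tensor_one]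

omit [DecidableEq ι] in
theorem star_ps (a : ι → Lb) : star (ps a) = ps a := by
  simp only [ps, star_tensor, star_sgm]

theorem ps_ne (a : ι → Lb) : ps a ≠ 0 := by
  intro h
  have := ps_sq a
  rw [h, zero_mul] at this
  exact zero_ne_one this

theorem trace_tensor_ps (M : ι → M2) (a : ι → Lb) :
    (tensor M * ps a).trace = 2 ^ Fintype.card ι * ∏ i, co (M i) (a i) := by
  simp only [ps, tensor_mul, tensor_trace, co]
  rw [Finset.prod_div_distrib]
  simp only [Finset.prod_const, Finset.card_univ]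
  field_simp

omit [Fintype ι] [DecidableEq ι] in
theorem pl_add_self (a : ι → Lb) : a + a = 0 := by
  ext1 i; exact lb_add_self _

/-- A stabilizer group: labels `L`, signs `χ`. -/
structure IsSt (L : Submodule (ZMod 2) (ι → Lb)) (χ : (ι → Lb) → ℂ) : Prop where
  sq : ∀ a ∈ L, χ a = 1 ∨ χ a = -1
  mul : ∀ a ∈ L, ∀ b ∈ L, (χ a • ps a) * (χ b • ps b) = χ (a + b) • ps (a + b)

open Classical in
/-- the elements of `L` as a finset -/
noncomputable def els (L : Submodule (ZMod 2) (ι → Lb)) : Finset (ι → Lb) :=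
  Finset.univ.filter (· ∈ L)

theorem mem_els {L : Submodule (ZMod 2) (ι → Lb)} {a : ι → Lb} : a ∈ els L ↔ a ∈ L := by
  simp [els]

/-- the sum of all elements of the stabilizer group -/
noncomputable def RR (L : Submodule (ZMod 2) (ι → Lb)) (χ : (ι → Lb) → ℂ) :
    Matrix (ι → ZMod 2) (ι → ZMod 2) ℂ :=
  ∑ a ∈ els L, χ a • ps a

variable {L : Submodule (ZMod 2) (ι → Lb)} {χ : (ι → Lb) → ℂ}

theorem IsSt.ne (h : IsSt L χ) {a : ι → Lb} (ha : a ∈ L) : χ a ≠ 0 := by
  rcases h.sq a ha with e | e <;> rw [e] <;> norm_num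

theorem IsSt.mul_self (h : IsSt L χ) {a : ι → Lb} (ha : a ∈ L) : χ a * χ a = 1 := by
  rcases h.sq a ha with e | e <;> rw [e] <;> norm_num

theorem IsSt.star_eq (h : IsSt L χ) {a : ι → Lb} (ha : a ∈ L) : star (χ a) = χ a := by
  rcases h.sq a ha with e | e <;> rw [e] <;> simp

theorem IsSt.zero (h : IsSt L χ) : χ 0 = 1 := by
  have h1 := h.mul 0 L.zero_mem 0 L.zero_mem
  rw [add_zero, ps_zero, smul_mul_smul_comm, mul_one, h.mul_self L.zero_mem] at h1
  have := congrFun (congrFun h1 0) 0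
  simpa using this.symm

/-- isotropy -/
theorem IsSt.iso (h : IsSt L χ) {a b : ι → Lb} (ha : a ∈ L) (hb : b ∈ L) :
    ∑ i, sp (a i) (b i) = 0 := by
  have h1 := h.mul a ha b hb
  have h2 := h.mul b hb a ha
  rw [add_comm b a, ← h1, smul_mul_smul_comm, smul_mul_smul_comm, ps_mul, ps_mul, add_comm b a,
    smul_smul, smul_smul] at h2
  have h3 := smul_left_injective ℂ (ps_ne (a + b)) h2
  have h4 : ∏ i, om (a i) (b i) = sg (∑ i, sp (a i) (b i)) * ∏ i, om (b i) (a i) := by
    rw [sg_sum, ← Finset.prod_mul_distrib]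
    exact Finset.prod_congr rfl fun i _ => om_comm _ _
  have h5 : ∏ i, om (b i) (a i) ≠ 0 := Finset.prod_ne_zero_iff.mpr fun i _ => om_ne _ _
  rw [h4] at h3
  apply sg_inj
  rw [sg_zero]
  have h6 : χ a * χ b ≠ 0 := mul_ne_zero (h.ne ha) (h.ne hb)
  have h7 : (χ a * χ b * ∏ i, om (b i) (a i)) * (sg (∑ i, sp (a i) (b i)) - 1) = 0 := by
    linear_combination -h3
  rcases mul_eq_zero.mp h7 with e | e
  · exact absurd e (mul_ne_zero h6 h5)
  · exact sub_eq_zero.mp e

theorem IsSt.fix (h : IsSt L χ) {a : ι → Lb} (ha : a ∈ L) :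
    (χ a • ps a) * RR L χ = RR L χ := by
  unfold RR
  rw [Finset.mul_sum]
  refine Finset.sum_bij' (fun b _ => a + b) (fun b _ => a + b) ?_ ?_ ?_ ?_ ?_
  · intro b hb; exact mem_els.mpr (L.add_mem ha (mem_els.mp hb))
  · intro b hb; exact mem_els.mpr (L.add_mem ha (mem_els.mp hb))
  · intro b _; rw [← add_assoc, pl_add_self, zero_add]
  · intro b _; rw [← add_assoc, pl_add_self, zero_add]
  · intro b hb; exact h.mul a ha b (mem_els.mp hb)

theorem IsSt.star_RR (h : IsSt L χ) : star (RR L χ) = RR L χ := by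
  unfold RR
  rw [star_sum]
  refine Finset.sum_congr rfl fun a ha => ?_
  rw [star_smul, star_ps, h.star_eq (mem_els.mp ha)]

theorem IsSt.RR_sq (h : IsSt L χ) : RR L χ * RR L χ = ((els L).card : ℂ) • RR L χ := by
  nth_rewrite 1 [RR]
  rw [Finset.sum_mul, Finset.sum_congr rfl fun a ha => h.fix (mem_els.mp ha), Finset.sum_const,
    Nat.cast_smul_eq_nsmul]

/-- The test identity. -/
theorem test (L : Submodule (ZMod 2) (ι → Lb)) (χ : (ι → Lb) → ℂ) (M : ι → M2) :
    (tensor M * RR L χ).trace =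
      2 ^ Fintype.card ι * ∑ a ∈ els L, χ a * ∏ i, co (M i) (a i) := by
  unfold RR
  rw [Finset.mul_sum, Matrix.trace_sum, Finset.mul_sum]
  refine Finset.sum_congr rfl fun a _ => ?_
  rw [Matrix.mul_smul, Matrix.trace_smul, trace_tensor_ps, smul_eq_mul]
  ring

theorem IsSt.trace_RR (h : IsSt L χ) : (RR L χ).trace = 2 ^ Fintype.card ι := by
  have := test L χ (fun _ => 1)
  rw [tensor_one, one_mul] at this
  rw [this, Finset.sum_eq_single 0]
  · simp only [h.zero, Pi.zero_apply, co_one, ↓ reduceIte, Finset.prod_const_one, mul_one]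
  · intro b _ hb
    obtain ⟨i, hi⟩ := Function.ne_iff.mp hb
    rw [Finset.prod_eq_zero (Finset.mem_univ i) (by rw [co_one]; exact if_neg hi), mul_zero]
  · intro h0; exact absurd (mem_els.mpr L.zero_mem) h0

theorem IsSt.RR_ne (h : IsSt L χ) : RR L χ ≠ 0 := by
  intro e
  have := h.trace_RR
  rw [e, Matrix.trace_zero] at this
  exact pow_ne_zero _ (two_ne_zero) this.symm

theorem card_els_ne (L : Submodule (ZMod 2) (ι → Lb)) : ((els L).card : ℂ) ≠ 0 := by
  exact_mod_cast Finset.card_ne_zero.mpr ⟨0, mem_els.mpr L.zero_mem⟩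

end T

/-- unitary 2 by 2 matrix -/
def Un (W : M2) : Prop := star W * W = 1 ∧ W * star W = 1

/-- semi-Clifford: some Pauli axis goes to a Pauli axis -/
def Semi (W : M2) : Prop :=
  ∃ a b : Lb, a ≠ 0 ∧ b ≠ 0 ∧ (W * sgm a * star W = sgm b ∨ W * sgm a * star W = -sgm b)

/-- product of `ν i` over the support of `v` -/
noncomputable def pr {ι : Type} [Fintype ι] (ν : ι → ℂ) (v : ι → ZMod 2) : ℂ :=
  ∏ i, if v i = 1 then ν i else 1

end Pool.Agent.MP_7af562_mp.H78

end

-- part MP_7af562_mp.H78.Bridge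
section

set_option linter.unusedSectionVars false
set_option linter.unusedSimpArgs false

namespace Pool.Agent.MP_7af562_mp.H78

open Matrix Module

section Mp
variable {N : Type} [Fintype N] [DecidableEq N]

/-- `M` maps `Q` onto `Q'` -/
def Mp (M : Matrix N N ℂ) (Q Q' : Set (N → ℂ)) : Prop := (fun ψ => M *ᵥ ψ) '' Q = Q'

theorem Mp.comp {M M' : Matrix N N ℂ} {Q Q' Q'' : Set (N → ℂ)} (h : Mp M Q Q')
    (h' : Mp M' Q' Q'') : Mp (M' * M) Q Q'' := by
  unfold Mp at *
  rw [← h', ← h, Set.image_image]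
  simp only [Matrix.mulVec_mulVec]

theorem Mp.inv {M M' : Matrix N N ℂ} {Q Q' : Set (N → ℂ)} (h : Mp M Q Q') (e : M' * M = 1) :
    Mp M' Q' Q := by
  unfold Mp at *
  rw [← h, Set.image_image]
  simp only [Matrix.mulVec_mulVec, e, Matrix.one_mulVec, Set.image_id']

theorem Mp.mem {M : Matrix N N ℂ} {Q Q' : Set (N → ℂ)} (h : Mp M Q Q') {ψ : N → ℂ}
    (hψ : ψ ∈ Q) : M *ᵥ ψ ∈ Q' := by
  rw [← h]; exact ⟨ψ, hψ, rfl⟩

theorem Mp.nz {M M' : Matrix N N ℂ} {Q Q' : Set (N → ℂ)} (h : Mp M Q Q') (e : M' * M = 1)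
    (hQ : ∃ ψ ∈ Q, ψ ≠ 0) : ∃ ψ ∈ Q', ψ ≠ 0 := by
  obtain ⟨ψ, hψ, hne⟩ := hQ
  refine ⟨_, h.mem hψ, fun e0 => hne ?_⟩
  have : M' *ᵥ (M *ᵥ ψ) = ψ := by rw [Matrix.mulVec_mulVec, e, Matrix.one_mulVec]
  rw [← this, e0, Matrix.mulVec_zero]

theorem mp_fix {J : Type} {M M' : Matrix N N ℂ} (e1 : M * M' = 1) (e2 : M' * M = 1)
    (A A' : J → Matrix N N ℂ) (h : ∀ j, A' j * M = M * A j) :
    Mp M {ψ | ∀ j, A j *ᵥ ψ = ψ} {ψ | ∀ j, A' j *ᵥ ψ = ψ} := by
  ext φ
  constructor
  · rintro ⟨ψ, hψ, rfl⟩ j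
    show A' j *ᵥ (M *ᵥ ψ) = M *ᵥ ψ
    rw [Matrix.mulVec_mulVec, h, ← Matrix.mulVec_mulVec, hψ j]
  · intro hφ
    refine ⟨M' *ᵥ φ, fun j => ?_, ?_⟩
    · have : A j * M' = M' * A' j := by
        calc A j * M' = (M' * M) * A j * M' := by rw [e2, one_mul]
          _ = M' * (A' j * M) * M' := by rw [h, mul_assoc M' M]
          _ = M' * A' j * (M * M') := by simp only [mul_assoc]
          _ = M' * A' j := by rw [e1, mul_one]
      rw [Matrix.mulVec_mulVec, this, ← Matrix.mulVec_mulVec, hφ j]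
    · show M *ᵥ (M' *ᵥ φ) = φ
      rw [Matrix.mulVec_mulVec, e1, Matrix.one_mulVec]

end Mp

section St
variable {ι : Type} [Fintype ι] [DecidableEq ι]

/-- the codespace of a stabilizer group -/
def Fx (L : Submodule (ZMod 2) (ι → Lb)) (χ : (ι → Lb) → ℂ) : Set ((ι → ZMod 2) → ℂ) :=
  {ψ | RR L χ *ᵥ ψ = ((els L).card : ℂ) • ψ}

variable {L L' : Submodule (ZMod 2) (ι → Lb)} {χ χ' : (ι → Lb) → ℂ}

theorem IsSt.mem_Fx (h : IsSt L χ) (φ : (ι → ZMod 2) → ℂ) : RR L χ *ᵥ φ ∈ Fx L χ := by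
  show RR L χ *ᵥ (RR L χ *ᵥ φ) = _
  rw [Matrix.mulVec_mulVec, h.RR_sq, Matrix.smul_mulVec]

theorem conj_of_mp (h : IsSt L χ) (h' : IsSt L' χ') {U : Matrix (ι → ZMod 2) (ι → ZMod 2) ℂ}
    (u1 : star U * U = 1) (e : Mp U (Fx L χ) (Fx L' χ')) :
    U * RR L χ * star U = RR L' χ' := by
  have a1 : RR L' χ' * (U * RR L χ) = ((els L').card : ℂ) • (U * RR L χ) := by
    rw [Matrix.ext_iff_mulVec]
    intro φ
    have := e.mem (h.mem_Fx φ)
    rw [Matrix.smul_mulVec, ← Matrix.mulVec_mulVec, ← Matrix.mulVec_mulVec]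
    exact this
  have a2 : U * RR L χ * star U * RR L' χ' = ((els L).card : ℂ) • RR L' χ' := by
    rw [Matrix.ext_iff_mulVec]
    intro φ
    have := h'.mem_Fx φ
    rw [← e] at this
    obtain ⟨ψ, hψ, eψ⟩ := this
    have eψ' : U *ᵥ ψ = RR L' χ' *ᵥ φ := eψ
    have hψ' : RR L χ *ᵥ ψ = ((els L).card : ℂ) • ψ := hψ
    rw [Matrix.smul_mulVec, ← Matrix.mulVec_mulVec, ← eψ', Matrix.mulVec_mulVec, mul_assoc, u1,
      mul_one, ← Matrix.mulVec_mulVec, hψ', Matrix.mulVec_smul]
  have a3 : star (U * RR L χ * star U) = U * RR L χ * star U := by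
    rw [star_mul, star_mul, star_star, h.star_RR, mul_assoc]
  have a4 : RR L' χ' * (U * RR L χ * star U) = ((els L').card : ℂ) • (U * RR L χ * star U) := by
    rw [← mul_assoc, a1, smul_mul_assoc]
  have a5 : ((els L').card : ℂ) • (U * RR L χ * star U) = ((els L).card : ℂ) • RR L' χ' := by
    have := congrArg star a4
    rw [star_mul, a3, h'.star_RR, a2, star_smul, a3, star_natCast] at this
    exact this.symm
  have a6 : ((els L').card : ℂ) = ((els L).card : ℂ) := by
    have := congrArg Matrix.trace a5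
    rw [Matrix.trace_smul, Matrix.trace_smul, Matrix.trace_mul_comm, ← mul_assoc, u1, one_mul,
      h.trace_RR, h'.trace_RR, smul_eq_mul, smul_eq_mul] at this
    exact mul_right_cancel₀ (pow_ne_zero _ two_ne_zero) this
  rw [a6] at a5
  exact smul_right_injective _ (card_els_ne L) a5

theorem mp_of_conj (h : IsSt L χ) (h' : IsSt L' χ') {U : Matrix (ι → ZMod 2) (ι → ZMod 2) ℂ}
    (u1 : star U * U = 1) (u2 : U * star U = 1) (e : U * RR L χ * star U = RR L' χ') :
    Mp U (Fx L χ) (Fx L' χ') := by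
  have a1 : RR L' χ' * U = U * RR L χ := by rw [← e, mul_assoc, u1, mul_one]
  have a2 : RR L χ * star U = star U * RR L' χ' := by
    rw [← e, ← mul_assoc, ← mul_assoc, u1, one_mul]
  have a3 : ((els L').card : ℂ) = ((els L).card : ℂ) := by
    have b1 := h'.RR_sq
    have b2 : RR L' χ' * RR L' χ' = ((els L).card : ℂ) • RR L' χ' := by
      nth_rewrite 2 [← e]
      rw [← mul_assoc, ← mul_assoc, a1, mul_assoc U, h.RR_sq, mul_smul_comm, smul_mul_assoc, e]
    exact smul_left_injective ℂ h'.RR_ne (b1.symm.trans b2)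
  ext φ
  constructor
  · rintro ⟨ψ, hψ, rfl⟩
    have hψ' : RR L χ *ᵥ ψ = ((els L).card : ℂ) • ψ := hψ
    show RR L' χ' *ᵥ (U *ᵥ ψ) = _ • (U *ᵥ ψ)
    rw [Matrix.mulVec_mulVec, a1, ← Matrix.mulVec_mulVec, hψ', Matrix.mulVec_smul, a3]
  · intro hφ
    have hφ' : RR L' χ' *ᵥ φ = ((els L').card : ℂ) • φ := hφ
    refine ⟨star U *ᵥ φ, ?_, ?_⟩
    · show RR L χ *ᵥ (star U *ᵥ φ) = _ • (star U *ᵥ φ)
      rw [Matrix.mulVec_mulVec, a2, ← Matrix.mulVec_mulVec, hφ', Matrix.mulVec_smul, a3]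
    · show U *ᵥ (star U *ᵥ φ) = φ
      rw [Matrix.mulVec_mulVec, u2, Matrix.one_mulVec]

end St

theorem exists_st {n m : ℕ} (s : Fin m → ℂ) (g : Fin m → Fin n → M2)
    (hg : ∀ j i, IsPauli (g j i)) (hQ : ∃ ψ ∈ codespace s g, ψ ≠ 0) :
    ∃ (L : Submodule (ZMod 2) (Fin n → Lb)) (χ : (Fin n → Lb) → ℂ),
      IsSt L χ ∧ finrank (ZMod 2) L ≤ m ∧ codespace s g = Fx L χ := by
  classical
  obtain ⟨ψ0, h0, hne⟩ := hQ
  choose a ha using fun j i => (isPauli_iff _).mp (hg j i)
  have hga : ∀ j, tensor (g j) = ps (a j) := fun j => by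
    rw [ps]; congr 1; ext1 i; exact ha j i
  have canc : ∀ t t' : ℂ, t • ψ0 = t' • ψ0 → t = t' := fun t t' e =>
    smul_left_injective ℂ hne e
  have gen : ∀ ψ ∈ codespace s g, ∀ j, s j • (ps (a j) *ᵥ ψ) = ψ := fun ψ hψ j => by
    have := hψ j
    rwa [hga, Matrix.smul_mulVec] at this
  have hs : ∀ j, s j ≠ 0 := fun j e => by
    have := gen ψ0 h0 j
    rw [e, zero_smul] at this
    exact hne this.symm
  have ex : ∀ b ∈ Submodule.span (ZMod 2) (Set.range a),
      ∃ t : ℂ, ∀ ψ ∈ codespace s g, ps b *ᵥ ψ = t • ψ := by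
    intro b hb
    induction hb using Submodule.span_induction with
    | mem b hb =>
      obtain ⟨j, rfl⟩ := hb
      refine ⟨(s j)⁻¹, fun ψ hψ => ?_⟩
      rw [eq_inv_smul_iff₀ (hs j)]
      exact gen ψ hψ j
    | zero => exact ⟨1, fun ψ _ => by rw [ps_zero, Matrix.one_mulVec, one_smul]⟩
    | add b c _ _ ib ic =>
      obtain ⟨t, ht⟩ := ib
      obtain ⟨t', ht'⟩ := ic
      have n1 : ∏ i, om (b i) (c i) ≠ 0 := Finset.prod_ne_zero_iff.mpr fun i _ => om_ne _ _
      refine ⟨(∏ i, om (b i) (c i))⁻¹ * (t' * t), fun ψ hψ => ?_⟩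
      rw [mul_smul, eq_inv_smul_iff₀ n1, ← Matrix.smul_mulVec, ← ps_mul, ← Matrix.mulVec_mulVec,
        ht' ψ hψ, Matrix.mulVec_smul, ht ψ hψ, mul_smul]
    | smul r b _ ib =>
      rcases z2 r with rfl | rfl
      · exact ⟨1, fun ψ _ => by rw [zero_smul, ps_zero, Matrix.one_mulVec, one_smul]⟩
      · rwa [one_smul]
  choose! χ hχ using ex
  have sq : ∀ b ∈ Submodule.span (ZMod 2) (Set.range a), χ b * χ b = 1 := by
    intro b hb
    apply canc
    rw [mul_smul, ← hχ b hb ψ0 h0, ← Matrix.mulVec_smul, ← hχ b hb ψ0 h0, Matrix.mulVec_mulVec,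
      ps_sq, Matrix.one_mulVec, one_smul]
  have fx : ∀ b ∈ Submodule.span (ZMod 2) (Set.range a), ∀ ψ ∈ codespace s g,
      (χ b • ps b) *ᵥ ψ = ψ := by
    intro b hb ψ hψ
    rw [Matrix.smul_mulVec, hχ b hb ψ hψ, smul_smul, sq b hb, one_smul]
  have st : IsSt (Submodule.span (ZMod 2) (Set.range a)) χ := by
    refine ⟨fun b hb => mul_self_eq_one_iff.mp (sq b hb), fun b hb c hc => ?_⟩
    have hbc := Submodule.add_mem _ hb hc
    have e1 : ((χ b • ps b) * (χ c • ps c)) *ᵥ ψ0 = ψ0 := by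
      rw [← Matrix.mulVec_mulVec, fx c hc ψ0 h0, fx b hb ψ0 h0]
    rw [smul_mul_smul_comm, ps_mul, smul_smul] at e1 ⊢
    rw [Matrix.smul_mulVec, hχ _ hbc ψ0 h0, smul_smul] at e1
    have e2 := canc _ 1 (e1.trans (one_smul _ _).symm)
    have e3 := sq _ hbc
    congr 1
    linear_combination χ (b + c) * e2 - (χ b * χ c * ∏ i, om (b i) (c i)) * e3
  refine ⟨_, χ, st, ?_, ?_⟩
  · simpa only [Set.finrank, Fintype.card_fin] using finrank_range_le_card (R := ZMod 2) a
  · ext ψ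
    constructor
    · intro hψ
      show RR _ χ *ᵥ ψ = _
      rw [RR, Matrix.sum_mulVec, Finset.sum_congr rfl fun b hb => fx b (mem_els.mp hb) ψ hψ,
        Finset.sum_const, Nat.cast_smul_eq_nsmul]
    · intro hψ j
      have hψ' : RR _ χ *ᵥ ψ = _ • ψ := hψ
      have hj : a j ∈ Submodule.span (ZMod 2) (Set.range a) := Submodule.subset_span ⟨j, rfl⟩
      have e1 : s j = χ (a j) := by
        have e2 := gen ψ0 h0 j
        rw [hχ _ hj ψ0 h0, smul_smul] at e2
        have e3 := canc _ 1 (e2.trans (one_smul _ _).symm)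
        have e4 := sq _ hj
        linear_combination χ (a j) * e3 - s j * e4
      apply smul_right_injective _ (card_els_ne (Submodule.span (ZMod 2) (Set.range a)))
      show _ • ((s j • tensor (g j)) *ᵥ ψ) = _ • ψ
      rw [← Matrix.mulVec_smul, ← hψ', hga, e1, Matrix.mulVec_mulVec, st.fix hj]

end Pool.Agent.MP_7af562_mp.H78

end

-- part MP_7af562_mp.H78.Step1
section

set_option linter.unusedSectionVars false

namespace Pool.Agent.MP_7af562_mp.H78

open Matrix

variable {ι : Type} [Fintype ι] [DecidableEq ι]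

/-- the test sum -/
noncomputable def s1E (L : Submodule (ZMod 2) (ι → Lb)) (χ : (ι → Lb) → ℂ) (M : ι → M2) : ℂ :=
  ∑ a ∈ els L, χ a * ∏ i, co (M i) (a i)

/-- the rotation matrix of `W` -/
noncomputable def s1O (W : M2) (b a : Lb) : ℂ := co (W * sgm a * star W) b

theorem s1_O' (W : M2) (b a : Lb) : co (star W * sgm b * W) a = s1O W b a := by
  unfold s1O co
  congr 1
  calc (star W * sgm b * W * sgm a).trace = (star W * (sgm b * (W * sgm a))).trace := by
        simp only [Matrix.mul_assoc]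
    _ = ((sgm b * (W * sgm a)) * star W).trace := Matrix.trace_mul_comm _ _
    _ = (sgm b * (W * sgm a * star W)).trace := by simp only [Matrix.mul_assoc]
    _ = (W * sgm a * star W * sgm b).trace := Matrix.trace_mul_comm _ _

theorem s1_O_right {W : M2} (hW : Un W) (b : Lb) : s1O W b 0 = if b = 0 then 1 else 0 := by
  unfold s1O
  rw [sgm_zero, mul_one, hW.2, co_one]

theorem s1_O_left {W : M2} (hW : Un W) (a : Lb) : s1O W 0 a = if a = 0 then 1 else 0 := by
  rw [← s1_O', sgm_zero, mul_one, hW.1, co_one]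

theorem s1_O_supp {W : M2} (hW : Un W) {b a : Lb} (h : s1O W b a ≠ 0) : a = 0 ↔ b = 0 := by
  constructor
  · rintro rfl
    by_contra hb
    exact h (by rw [s1_O_right hW, if_neg hb])
  · rintro rfl
    by_contra hb
    exact h (by rw [s1_O_left hW, if_neg hb])

theorem s1_O_one (b a : Lb) : s1O 1 b a = if a = b then 1 else 0 := by
  unfold s1O
  rw [star_one, mul_one, one_mul, co_sgm]

theorem s1_O_ex {W : M2} (hW : Un W) (a : Lb) : ∃ b, s1O W b a ≠ 0 := by
  by_contra hc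
  push Not at hc
  have h1 : W * sgm a * star W = 0 := by
    rw [expand (W * sgm a * star W)]
    exact Finset.sum_eq_zero fun b _ => by
      have := hc b
      unfold s1O at this
      rw [this, zero_smul]
  have h2 : (W * sgm a * star W) * (W * sgm a * star W) = 1 := by
    calc (W * sgm a * star W) * (W * sgm a * star W)
        = W * (sgm a * (star W * W) * sgm a) * star W := by simp only [Matrix.mul_assoc]
      _ = 1 := by rw [hW.1, mul_one, sgm_sq, mul_one, hW.2]
  rw [h1, zero_mul] at h2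
  exact zero_ne_one h2

theorem s1_semi {W : M2} (hW : Un W) {a : Lb} (ha : a ≠ 0)
    (hu : ∀ b b', s1O W b a ≠ 0 → s1O W b' a ≠ 0 → b = b') : Semi W := by
  obtain ⟨b, hb⟩ := s1_O_ex hW a
  have hb0 : b ≠ 0 := fun e => ha ((s1_O_supp hW hb).2 e)
  have h1 : W * sgm a * star W = s1O W b a • sgm b := by
    rw [expand (W * sgm a * star W), Finset.sum_eq_single b]
    · rfl
    · intro c _ hc
      have : s1O W c a = 0 := by
        by_contra h0
        exact hc (hu c b h0 hb)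
      unfold s1O at this
      rw [this, zero_smul]
    · intro h0; exact absurd (Finset.mem_univ b) h0
  have h2 : (W * sgm a * star W) * (W * sgm a * star W) = 1 := by
    calc (W * sgm a * star W) * (W * sgm a * star W)
        = W * (sgm a * (star W * W) * sgm a) * star W := by simp only [Matrix.mul_assoc]
      _ = 1 := by rw [hW.1, mul_one, sgm_sq, mul_one, hW.2]
  rw [h1, smul_mul_smul_comm, sgm_sq] at h2
  have h3 : s1O W b a * s1O W b a = 1 := by
    have := congrFun (congrFun h2 0) 0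
    simpa only [Matrix.smul_apply, one_apply_eq, smul_eq_mul, mul_one] using this
  refine ⟨a, b, ha, hb0, ?_⟩
  rcases mul_self_eq_one_iff.mp h3 with e | e
  · left; rw [h1, e, one_smul]
  · right; rw [h1, e, neg_smul, one_smul]

theorem s1_semi_one : Semi (1 : M2) :=
  ⟨(1,0), (1,0), by decide, by decide, Or.inl (by rw [star_one, mul_one, one_mul])⟩

theorem s1_un_one : Un (1 : M2) := by simp [Un]

theorem s1_un_star {W : M2} (h : Un W) : Un (star W) := by
  unfold Un
  rw [star_star]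
  exact ⟨h.2, h.1⟩

theorem s1_un_mul {W Y : M2} (h : Un W) (h' : Un Y) : Un (W * Y) := by
  unfold Un
  rw [star_mul]
  constructor
  · calc star Y * star W * (W * Y) = star Y * (star W * W) * Y := by simp only [Matrix.mul_assoc]
      _ = 1 := by rw [h.1, mul_one, h'.1]
  · calc W * Y * (star Y * star W) = W * (Y * star Y) * star W := by simp only [Matrix.mul_assoc]
      _ = 1 := by rw [h'.2, mul_one, h.2]

variable {L L' : Submodule (ZMod 2) (ι → Lb)} {χ χ' : (ι → Lb) → ℂ} {U : ι → M2}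

theorem s1_E (e : tensor U * RR L χ * star (tensor U) = RR L' χ') (N : ι → M2) :
    s1E L' χ' N = s1E L χ (fun i => star (U i) * N i * U i) := by
  have h2 : (2 : ℂ) ^ Fintype.card ι ≠ 0 := pow_ne_zero _ two_ne_zero
  apply mul_left_cancel₀ h2
  unfold s1E
  rw [← test, ← test, ← e, ← tensor_mul (fun i => star (U i) * N i) U,
    ← tensor_mul (fun i => star (U i)) N, ← star_tensor]
  calc (tensor N * (tensor U * RR L χ * star (tensor U))).trace
      = ((tensor N * tensor U * RR L χ) * star (tensor U)).trace := by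
        simp only [Matrix.mul_assoc]
    _ = (star (tensor U) * (tensor N * tensor U * RR L χ)).trace := Matrix.trace_mul_comm _ _
    _ = _ := by simp only [Matrix.mul_assoc]

open Classical in
theorem s1_E_ps (L : Submodule (ZMod 2) (ι → Lb)) (χ : (ι → Lb) → ℂ) (b : ι → Lb) :
    s1E L χ (fun i => sgm (b i)) = if b ∈ L then χ b else 0 := by
  unfold s1E
  have hz : ∀ a : ι → Lb, a ≠ b → χ a * ∏ i, co (sgm (b i)) (a i) = 0 := by
    intro a ha
    obtain ⟨i, hi⟩ := Function.ne_iff.mp ha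
    rw [Finset.prod_eq_zero (Finset.mem_univ i) (by rw [co_sgm]; exact if_neg (Ne.symm hi)),
      mul_zero]
  split_ifs with hb
  · rw [Finset.sum_eq_single b (fun a _ ha => hz a ha) (fun h0 => absurd (mem_els.mpr hb) h0)]
    simp only [co_sgm, ↓ reduceIte, Finset.prod_const_one, mul_one]
  · exact Finset.sum_eq_zero fun a ha => hz a (fun e => hb (e ▸ mem_els.mp ha))

open Classical in
theorem s1_K (e : tensor U * RR L χ * star (tensor U) = RR L' χ') (b : ι → Lb) :
    (if b ∈ L' then χ' b else 0) = ∑ a ∈ els L, χ a * ∏ i, s1O (U i) (b i) (a i) := by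
  rw [← s1_E_ps, s1_E e]
  unfold s1E
  simp only [s1_O']

theorem s1_supp (h' : IsSt L' χ') (hU : ∀ i, Un (U i))
    (e : tensor U * RR L χ * star (tensor U) = RR L' χ') {b : ι → Lb} (hb : b ∈ L') :
    ∃ a ∈ L, ∀ k, a k = 0 ↔ b k = 0 := by
  classical
  have h1 := s1_K e b
  rw [if_pos hb] at h1
  obtain ⟨a, ha, h2⟩ := Finset.exists_ne_zero_of_sum_ne_zero (h1 ▸ h'.ne hb)
  refine ⟨a, mem_els.mp ha, fun k => s1_O_supp (hU k) ?_⟩
  exact Finset.prod_ne_zero_iff.mp (right_ne_zero_of_mul h2) k (Finset.mem_univ k)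

theorem s1_symm (hU : ∀ i, Un (U i))
    (e : tensor U * RR L χ * star (tensor U) = RR L' χ') :
    tensor (fun i => star (U i)) * RR L' χ' * star (tensor (fun i => star (U i))) = RR L χ := by
  have h1 : star (tensor U) * tensor U = 1 := by
    rw [star_tensor, tensor_mul]
    simp only [(hU _).1, tensor_one]
  rw [← star_tensor, star_star, ← e]
  calc star (tensor U) * (tensor U * RR L χ * star (tensor U)) * tensor U
      = (star (tensor U) * tensor U) * RR L χ * (star (tensor U) * tensor U) := by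
        simp only [Matrix.mul_assoc]
    _ = RR L χ := by rw [h1, one_mul, mul_one]

theorem s1_sp_self (a : Lb) : sp a a = 0 := by revert a; decide

/-- two elements of a stabilizer group cannot differ in one nonzero letter only -/
theorem s1_two (h' : IsSt L' χ') (b0 : ι → Lb) (i : ι) {b c : Lb} (hb : b ≠ 0) (hc : c ≠ 0)
    (h1 : Function.update b0 i b ∈ L') (h2 : Function.update b0 i c ∈ L') : b = c := by
  by_contra hbc
  have h3 := h'.iso h1 h2
  rw [Finset.sum_eq_single i] at h3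
  · simp only [Function.update_self] at h3
    rw [sp_eq_one hb hc hbc] at h3
    exact z10 h3
  · intro k _ hk
    rw [Function.update_of_ne hk, Function.update_of_ne hk, s1_sp_self]
  · intro h0; exact absurd (Finset.mem_univ i) h0

open Classical in
theorem s1_factor (hU : ∀ i, Un (U i))
    (e : tensor U * RR L χ * star (tensor U) = RR L' χ') (b0 : ι → Lb) (i : ι) (α : Lb)
    (hA : ∀ a ∈ L, a i ≠ 0 → (∀ k, k ≠ i → s1O (U k) (b0 k) (a k) ≠ 0) → a i = α)
    {b : Lb} (hb : b ≠ 0) :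
    (if Function.update b0 i b ∈ L' then χ' (Function.update b0 i b) else 0) =
      (∑ a ∈ els L, if a i = α then χ a * ∏ k ∈ Finset.univ.erase i, s1O (U k) (b0 k) (a k)
        else 0) * s1O (U i) b α := by
  rw [s1_K e, Finset.sum_mul]
  refine Finset.sum_congr rfl fun a ha => ?_
  rw [← Finset.mul_prod_erase _ _ (Finset.mem_univ i), Function.update_self]
  have hp : ∏ k ∈ Finset.univ.erase i, s1O (U k) (Function.update b0 i b k) (a k) =
      ∏ k ∈ Finset.univ.erase i, s1O (U k) (b0 k) (a k) :=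
    Finset.prod_congr rfl fun k hk => by rw [Function.update_of_ne (Finset.ne_of_mem_erase hk)]
  rw [hp]
  split_ifs with h1
  · rw [h1]; ring
  · by_cases h2 : a i = 0
    · rw [h2, s1_O_right (hU i), if_neg hb]; ring
    · have : ∏ k ∈ Finset.univ.erase i, s1O (U k) (b0 k) (a k) = 0 := by
        by_contra h3
        exact h1 (hA a (mem_els.mp ha) h2 fun k hk =>
          Finset.prod_ne_zero_iff.mp h3 k (Finset.mem_erase.mpr ⟨hk, Finset.mem_univ k⟩))
      rw [this]; ring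

open Classical in
theorem s1_P (h' : IsSt L' χ') (hU : ∀ i, Un (U i))
    (e : tensor U * RR L χ * star (tensor U) = RR L' χ') (b0 : ι → Lb) (i : ι) {α : Lb}
    (hα : α ≠ 0)
    (hA : ∀ a ∈ L, a i ≠ 0 → (∀ k, k ≠ i → s1O (U k) (b0 k) (a k) ≠ 0) → a i = α)
    (hK : (∑ a ∈ els L, if a i = α then χ a * ∏ k ∈ Finset.univ.erase i, s1O (U k) (b0 k) (a k)
        else 0) ≠ 0) : Semi (U i) := by
  refine s1_semi (hU i) hα fun b c hb hc => ?_
  have hb0 : b ≠ 0 := fun e => hα ((s1_O_supp (hU i) hb).2 e)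
  have hc0 : c ≠ 0 := fun e => hα ((s1_O_supp (hU i) hc).2 e)
  have mem : ∀ b, b ≠ 0 → s1O (U i) b α ≠ 0 → Function.update b0 i b ∈ L' := by
    intro b hb0 hb
    by_contra hn
    have := s1_factor hU e b0 i α hA hb0
    rw [if_neg hn] at this
    exact mul_ne_zero hK hb this.symm
  exact s1_two h' b0 i hb0 hc0 (mem b hb0 hb) (mem c hc0 hc)

/-- case A -/
theorem s1_A (h : IsSt L χ) (h' : IsSt L' χ') (hU : ∀ i, Un (U i))
    (e : tensor U * RR L χ * star (tensor U) = RR L' χ') {g : ι → Lb} (hg : g ∈ L) {i : ι}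
    (hi : g i ≠ 0) (hA : ∀ a ∈ L, (∀ k, a k = 0 ↔ g k = 0) → a i = g i) : Semi (U i) := by
  classical
  obtain ⟨g', hg', hs⟩ := s1_supp h (fun k => s1_un_star (hU k)) (s1_symm hU e) hg
  have hA' : ∀ a ∈ L, a i ≠ 0 → (∀ k, k ≠ i → s1O (U k) (g' k) (a k) ≠ 0) → a i = g i := by
    intro a ha hai hk
    refine hA a ha fun k => ?_
    by_cases hki : k = i
    · subst hki; exact ⟨fun e => absurd e hai, fun e => absurd e hi⟩
    · exact (s1_O_supp (hU k) (hk k hki)).trans (hs k)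
  refine s1_P h' hU e g' i hi hA' fun h0 => ?_
  have h1 := s1_factor hU e g' i (g i) hA' (b := g' i) (fun e => hi ((hs i).1 e))
  rw [h0, zero_mul, Function.update_eq_self, if_pos hg'] at h1
  exact h'.ne hg' h1

theorem s1_lb3 {x y z : Lb} (hx : x ≠ 0) (hy : y ≠ 0) (hxy : x ≠ y) (hz : z ≠ 0) :
    z = x ∨ z = y ∨ z = x + y := by
  revert x y z; decide

theorem s1_lb_add_ne {x y : Lb} (hxy : x ≠ y) : x + y ≠ 0 := fun e => hxy (lb_add_eq_zero.mp e)

/-- the situation of case B -/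
structure S1B (L : Submodule (ZMod 2) (ι → Lb)) (g f : ι → Lb) (i : ι) : Prop where
  hg : g ∈ L
  hf : f ∈ L
  gi : g i ≠ 0
  same : ∀ k, f k = 0 ↔ g k = 0
  ne : f i ≠ g i
  min : ∀ a ∈ L, a i ≠ 0 → (∀ k, g k = 0 → a k = 0) → ∀ k, a k = 0 → g k = 0

theorem S1B.diff {g f : ι → Lb} {i : ι} (B : S1B L g f i) {k : ι} (hk : g k ≠ 0) :
    g k ≠ f k := by
  intro e
  refine hk (B.min (g + f) (L.add_mem B.hg B.hf) (s1_lb_add_ne B.ne.symm) (fun k hk => ?_) k ?_)
  · rw [Pi.add_apply, hk, (B.same k).2 hk, add_zero]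
  · rw [Pi.add_apply, e, lb_add_self]

theorem S1B.pick {g f : ι → Lb} {i : ι} (B : S1B L g f i) {k : ι} (hk : g k ≠ 0) {z : Lb}
    (hz : z ≠ 0) : ∃ t, (t = g ∨ t = f ∨ t = g + f) ∧ t k = z := by
  rcases s1_lb3 hk (fun e => hk ((B.same k).1 e)) (B.diff hk) hz with e | e | e
  · exact ⟨g, Or.inl rfl, e.symm⟩
  · exact ⟨f, Or.inr (Or.inl rfl), e.symm⟩
  · exact ⟨g + f, Or.inr (Or.inr rfl), e.symm⟩

theorem S1B.tri {g f : ι → Lb} {i : ι} (B : S1B L g f i) {t : ι → Lb}
    (ht : t = g ∨ t = f ∨ t = g + f) : t ∈ L ∧ ∀ k, t k = 0 ↔ g k = 0 := by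
  rcases ht with rfl | rfl | rfl
  · exact ⟨B.hg, fun _ => Iff.rfl⟩
  · exact ⟨B.hf, B.same⟩
  · refine ⟨L.add_mem B.hg B.hf, fun k => ⟨fun e => ?_, fun e => ?_⟩⟩
    · by_contra hk
      exact B.diff hk (lb_add_eq_zero.mp e)
    · rw [Pi.add_apply, e, (B.same k).2 e, add_zero]

theorem S1B.zero {g f : ι → Lb} {i : ι} (B : S1B L g f i) {a : ι → Lb} (ha : a ∈ L)
    (hs : ∀ k, g k = 0 → a k = 0) {j : ι} (hj : g j ≠ 0) (h0 : a j = 0) : a = 0 := by
  have hi : a i = 0 := by
    by_contra hi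
    exact hj (B.min a ha hi hs j h0)
  funext k
  by_contra hk
  have hgk : g k ≠ 0 := fun e => hk (hs k e)
  obtain ⟨t, ht, htk⟩ := B.pick hgk hk
  obtain ⟨htL, hts⟩ := B.tri ht
  refine hgk (B.min (a + t) (L.add_mem ha htL) ?_ (fun l hl => ?_) k ?_)
  · rw [Pi.add_apply, hi, zero_add]
    exact fun e => B.gi ((hts i).1 e)
  · rw [Pi.add_apply, hs l hl, (hts l).2 hl, add_zero]
  · rw [Pi.add_apply, htk, lb_add_self]

theorem S1B.uniq {g f : ι → Lb} {i : ι} (B : S1B L g f i) {a b : ι → Lb} (ha : a ∈ L)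
    (hb : b ∈ L) (hs : ∀ k, g k = 0 → a k = 0) (hs' : ∀ k, g k = 0 → b k = 0) {j : ι}
    (hj : g j ≠ 0) (h0 : a j = b j) : a = b := by
  have := B.zero (L.add_mem ha hb) (fun k hk => by rw [Pi.add_apply, hs k hk, hs' k hk, add_zero])
    hj (by rw [Pi.add_apply, h0, lb_add_self])
  funext k
  exact lb_add_eq_zero.mp (congrFun this k)

theorem S1B.other {g f : ι → Lb} {i : ι} (h : IsSt L χ) (B : S1B L g f i) :
    ∃ j, j ≠ i ∧ g j ≠ 0 := by
  by_contra hc
  push Not at hc
  have h3 := h.iso B.hg B.hf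
  rw [Finset.sum_eq_single i] at h3
  · rw [sp_eq_one B.gi (fun e => B.gi ((B.same i).1 e)) B.ne.symm] at h3
    exact z10 h3
  · intro k _ hk
    rw [hc k hk, sp_zero_left]
  · intro h0; exact absurd (Finset.mem_univ i) h0

/-- case B with at least three letters -/
theorem s1_B3 (h : IsSt L χ) (h' : IsSt L' χ') (hU : ∀ i, Un (U i))
    (e : tensor U * RR L χ * star (tensor U) = RR L' χ') {g f : ι → Lb} {i : ι}
    (B : S1B L g f i) {j l : ι} (hji : j ≠ i) (hli : l ≠ i) (hlj : l ≠ j) (hj : g j ≠ 0)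
    (hl : g l ≠ 0) : Semi (U i) := by
  classical
  obtain ⟨c, hc⟩ := s1_O_ex (hU j) (g j)
  have key : ∀ b, s1O (U i) b (g i) ≠ 0 →
      ∃ t ∈ L', t i = b ∧ t j = c ∧ ∀ k, g k = 0 → t k = 0 := by
    intro b hb
    let N : ι → M2 := fun k =>
      if k = i then sgm b else if k = j then sgm c else U k * sgm (g k) * star (U k)
    have hN : ∀ k, k ≠ i → k ≠ j → star (U k) * N k * U k = sgm (g k) := by
      intro k h1 h2
      simp only [N, if_neg h1, if_neg h2]
      calc star (U k) * (U k * sgm (g k) * star (U k)) * U k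
          = (star (U k) * U k) * sgm (g k) * (star (U k) * U k) := by
            simp only [Matrix.mul_assoc]
        _ = _ := by rw [(hU k).1, one_mul, mul_one]
    have h1 : s1E L χ (fun k => star (U k) * N k * U k) ≠ 0 := by
      unfold s1E
      rw [Finset.sum_eq_single g]
      · refine mul_ne_zero (h.ne B.hg) (Finset.prod_ne_zero_iff.mpr fun k _ => ?_)
        by_cases h1 : k = i
        · subst h1
          simp only [N, if_true]
          rw [s1_O']; exact hb
        · by_cases h2 : k = j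
          · subst h2
            simp only [N, if_neg h1, if_true]
            rw [s1_O']; exact hc
          · beta_reduce
            rw [hN k h1 h2, co_sgm, if_pos rfl]; exact one_ne_zero
      · intro a ha hag
        by_contra h0
        have h2 := Finset.prod_ne_zero_iff.mp (right_ne_zero_of_mul h0)
        have h3 : ∀ k, k ≠ i → k ≠ j → g k = a k := by
          intro k h4 h5
          have := h2 k (Finset.mem_univ k)
          beta_reduce at this
          rw [hN k h4 h5, co_sgm] at this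
          by_contra h6
          exact this (if_neg h6)
        refine hag (B.uniq (mem_els.mp ha) B.hg (fun k hk => ?_) (fun _ hk => hk) hl
          (h3 l hli hlj).symm)
        rw [← h3 k (fun e => B.gi (e ▸ hk)) (fun e => hj (e ▸ hk)), hk]
      · intro h0; exact absurd (mem_els.mpr B.hg) h0
    rw [← s1_E e] at h1
    obtain ⟨t, ht, h2⟩ := Finset.exists_ne_zero_of_sum_ne_zero h1
    have h3 := Finset.prod_ne_zero_iff.mp (right_ne_zero_of_mul h2)
    refine ⟨t, mem_els.mp ht, ?_, ?_, fun k hk => ?_⟩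
    · have := h3 i (Finset.mem_univ _)
      simp only [N, if_true] at this
      rw [co_sgm] at this
      by_contra h6
      exact this (if_neg (Ne.symm h6))
    · have := h3 j (Finset.mem_univ _)
      simp only [N, if_neg hji, if_true] at this
      rw [co_sgm] at this
      by_contra h6
      exact this (if_neg (Ne.symm h6))
    · have := h3 k (Finset.mem_univ _)
      have h4 : k ≠ i := fun e => B.gi (e ▸ hk)
      have h5 : k ≠ j := fun e => hj (e ▸ hk)
      simp only [N, if_neg h4, if_neg h5] at this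
      exact (s1_O_supp (hU k) this).1 hk
  refine s1_semi (hU i) B.gi fun b b' hb hb' => ?_
  by_contra hbb
  obtain ⟨t, ht, hti, htj, hts⟩ := key b hb
  obtain ⟨t', ht', hti', htj', hts'⟩ := key b' hb'
  obtain ⟨a, ha, has⟩ := s1_supp h' hU e (L'.add_mem ht ht')
  refine hj (B.min a ha (fun e0 => ?_) (fun k hk => ?_) j ?_)
  · have := (has i).1 e0
    rw [Pi.add_apply, hti, hti'] at this
    exact hbb (lb_add_eq_zero.mp this)
  · rw [has k, Pi.add_apply, hts k hk, hts' k hk, add_zero]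
  · rw [has j, Pi.add_apply, htj, htj', lb_add_self]

/-- a matrix acting on one qubit -/
noncomputable def s1At (i : ι) (A : M2) : Matrix (ι → ZMod 2) (ι → ZMod 2) ℂ :=
  tensor (Function.update (fun _ => (1 : M2)) i A)

theorem s1At_apply (i : ι) (A : M2) (x y : ι → ZMod 2) :
    s1At i A x y = A (x i) (y i) * ∏ k ∈ Finset.univ.erase i, (1 : M2) (x k) (y k) := by
  simp only [s1At, tensor, Matrix.of_apply]
  rw [← Finset.mul_prod_erase _ _ (Finset.mem_univ i), Function.update_self]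
  congr 1
  exact Finset.prod_congr rfl fun k hk => by rw [Function.update_of_ne (Finset.ne_of_mem_erase hk)]

theorem s1At_sum (i : ι) (c : Lb → ℂ) (A : Lb → M2) :
    s1At i (∑ b, c b • A b) = ∑ b, c b • s1At i (A b) := by
  ext x y
  simp only [s1At_apply, Matrix.sum_apply, Matrix.smul_apply, smul_eq_mul, Finset.sum_mul,
    mul_assoc]

theorem s1At_mul (i : ι) (A B : M2) : s1At i A * s1At i B = s1At i (A * B) := by
  unfold s1At
  rw [tensor_mul]
  congr 1
  funext k
  by_cases hk : k = i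
  · subst hk; simp
  · simp [Function.update_of_ne hk]

theorem s1At_one (i : ι) : s1At i (1 : M2) = 1 := by
  unfold s1At
  rw [Function.update_eq_self, tensor_one]

theorem s1At_comm {i j : ι} (hij : j ≠ i) (A B : M2) :
    s1At i A * s1At j B = s1At j B * s1At i A := by
  unfold s1At
  rw [tensor_mul, tensor_mul]
  congr 1
  funext k
  by_cases hk : k = i
  · subst hk; simp [Function.update_of_ne hij.symm]
  · simp [Function.update_of_ne hk]

theorem s1_fix {V : Matrix (ι → ZMod 2) (ι → ZMod 2) ℂ} (h : IsSt L χ)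
    (hV : V * RR L χ = RR L χ) : V * RR L χ * star V = RR L χ := by
  rw [hV]
  have := congrArg star hV
  rwa [star_mul, h.star_RR] at this

theorem s1_co_star (A : M2) (b : Lb) : co (star A) b = star (co A b) := by
  unfold co
  rw [star_div₀, ← Matrix.trace_conjTranspose, ← Matrix.star_eq_conjTranspose, star_mul, star_sgm,
    Matrix.trace_mul_comm]
  simp

/-- the Bell pair: an operator on qubit `i` may be moved to qubit `j` -/
theorem s1_bell (h : IsSt L χ) {g f : ι → Lb} {i : ι} (B : S1B L g f i) {j : ι} (hji : j ≠ i)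
    (hj : g j ≠ 0) (hw : ∀ k, k ≠ i → k ≠ j → g k = 0) {A : M2} (hA : Un A) :
    ∃ Y, Un Y ∧ s1At j Y * RR L χ = s1At i A * RR L χ := by
  classical
  have ex : ∀ b : Lb, ∃ t ∈ L, t i = b ∧ ∀ k, g k = 0 → t k = 0 := by
    intro b
    by_cases hb : b = 0
    · exact ⟨0, L.zero_mem, hb.symm, fun _ _ => rfl⟩
    · obtain ⟨t, ht, hti⟩ := B.pick B.gi hb
      exact ⟨t, (B.tri ht).1, hti, fun k => ((B.tri ht).2 k).2⟩
  choose t htL hti hts using ex
  have h1 : ∀ b, s1At i (sgm b) * RR L χ = χ (t b) • (s1At j (sgm (t b j)) * RR L χ) := by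
    intro b
    have h2 : s1At i (sgm b) * ps (t b) = s1At j (sgm (t b j)) := by
      unfold s1At ps
      rw [tensor_mul]
      congr 1
      funext k
      by_cases hk : k = i
      · subst hk
        simp [hti, sgm_sq, Function.update_of_ne hji.symm]
      · by_cases hk' : k = j
        · subst hk'; simp [Function.update_of_ne hk]
        · simp [Function.update_of_ne hk, Function.update_of_ne hk', hts b k (hw k hk hk'),
            sgm_zero]
    calc s1At i (sgm b) * RR L χ = s1At i (sgm b) * ((χ (t b) • ps (t b)) * RR L χ) := by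
          rw [h.fix (htL b)]
      _ = _ := by rw [← h2]; simp only [Matrix.mul_assoc, Matrix.mul_smul, Matrix.smul_mul]
  let sh : M2 → M2 := fun A => ∑ b, (co A b * χ (t b)) • sgm (t b j)
  have h2 : ∀ A, s1At j (sh A) * RR L χ = s1At i A * RR L χ := by
    intro A
    conv_rhs => rw [expand A]
    simp only [sh, s1At_sum, Finset.sum_mul, Matrix.smul_mul, h1, smul_smul]
  have h3 : ∀ A, sh (star A) = star (sh A) := by
    intro A
    simp only [sh, star_sum, star_smul, star_sgm, s1_co_star, star_mul', h.star_eq (htL _)]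
  have h4 : ∀ Z : M2, s1At j Z * RR L χ = RR L χ → Z = 1 := by
    intro Z hZ
    have h5 : ∀ W : M2, (s1At j W * RR L χ).trace = 2 ^ Fintype.card ι * co W 0 := by
      intro W
      unfold s1At
      rw [test, Finset.sum_eq_single 0]
      · rw [h.zero, one_mul, ← Finset.mul_prod_erase _ _ (Finset.mem_univ j),
          Function.update_self, Finset.prod_eq_one, mul_one]
        · rfl
        · intro k hk
          rw [Function.update_of_ne (Finset.ne_of_mem_erase hk), co_one]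
          simp
      · intro a ha ha0
        by_contra h0
        have h6 := Finset.prod_ne_zero_iff.mp (right_ne_zero_of_mul h0)
        have h7 : ∀ k, k ≠ j → a k = 0 := by
          intro k hk
          have := h6 k (Finset.mem_univ k)
          rw [Function.update_of_ne hk, co_one] at this
          by_contra h8
          exact this (if_neg h8)
        exact ha0 (B.zero (mem_els.mp ha) (fun k hk => h7 k fun e => hj (e ▸ hk)) B.gi
          (h7 i hji.symm))
      · intro h0; exact absurd (mem_els.mpr L.zero_mem) h0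
    have h6 : ∀ c, co Z c = co 1 c := by
      intro c
      have h7 := h5 (sgm c * Z)
      rw [← s1At_mul, Matrix.mul_assoc, hZ, h5] at h7
      have h8 := mul_left_cancel₀ (pow_ne_zero _ (two_ne_zero (α := ℂ))) h7
      rw [co_zero, co_zero] at h8
      unfold co
      rw [Matrix.trace_mul_comm Z, ← h8, one_mul]
    rw [expand Z, expand 1]
    simp only [h6]
  have h5 : ∀ A A' : M2, A * A' = 1 → sh A' * sh A = 1 := by
    intro A A' hA
    apply h4
    rw [← s1At_mul, Matrix.mul_assoc, h2, ← Matrix.mul_assoc, ← s1At_comm hji, Matrix.mul_assoc,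
      h2, ← Matrix.mul_assoc, s1At_mul, hA, s1At_one, one_mul]
  refine ⟨sh A, ⟨?_, ?_⟩, h2 A⟩
  · rw [← h3]; exact h5 _ _ hA.2
  · rw [← h3]; exact h5 _ _ hA.1

theorem s1_move {V : ι → M2} (e : tensor U * RR L χ * star (tensor U) = RR L' χ')
    (hV : tensor V * RR L χ * star (tensor V) = RR L χ) :
    tensor (fun k => U k * V k) * RR L χ * star (tensor (fun k => U k * V k)) = RR L' χ' := by
  rw [← tensor_mul, star_mul, ← e]
  conv_rhs => rw [← hV]
  simp only [Matrix.mul_assoc]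

/-- case B with two letters -/
theorem s1_B2 (h : IsSt L χ) (h' : IsSt L' χ') (hU : ∀ i, Un (U i))
    (e : tensor U * RR L χ * star (tensor U) = RR L' χ') {g f : ι → Lb} {i : ι}
    (B : S1B L g f i) {j : ι} (hji : j ≠ i) (hj : g j ≠ 0) (hw : ∀ k, k ≠ i → k ≠ j → g k = 0) :
    ∃ V : ι → M2, (∀ k, Un (V k)) ∧ Semi (V i) ∧ (∀ k, Semi (U k) → Semi (V k)) ∧
      tensor V * RR L χ * star (tensor V) = RR L' χ' := by
  classical
  obtain ⟨Y, hY, hYR⟩ := s1_bell h B hji hj hw (hU i)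
  let W : ι → M2 := fun k => if k = i then star (U i) else if k = j then Y else 1
  have hW : tensor W = s1At i (star (U i)) * s1At j Y := by
    unfold s1At
    rw [tensor_mul]
    congr 1
    funext k
    by_cases hk : k = i
    · subst hk; simp [W, Function.update_of_ne hji.symm]
    · by_cases hk' : k = j
      · subst hk'; simp [W, hk]
      · simp [W, hk, hk']
  have hWR : tensor W * RR L χ = RR L χ := by
    rw [hW, Matrix.mul_assoc, hYR, ← Matrix.mul_assoc, s1At_mul, (hU i).1, s1At_one, one_mul]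
  have e' := s1_move e (s1_fix h hWR)
  have hWu : ∀ k, Un (W k) := by
    intro k
    simp only [W]
    split_ifs
    · exact s1_un_star (hU i)
    · exact hY
    · exact s1_un_one
  have hVu : ∀ k, Un (U k * W k) := fun k => s1_un_mul (hU k) (hWu k)
  have hVi : U i * W i = 1 := by simp only [W, if_true]; exact (hU i).2
  have hVj : Semi (U j * W j) := by
    have hu : ∀ a ∈ L, (∀ k, k ≠ j → s1O (U k * W k) (g k) (a k) ≠ 0) → a = g := by
      intro a ha hk
      refine B.uniq ha B.hg (fun k hk0 => ?_) (fun _ hk => hk) B.gi ?_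
      · exact (s1_O_supp (hVu k) (hk k fun e => hj (e ▸ hk0))).2 hk0
      · have := hk i hji.symm
        rw [hVi, s1_O_one] at this
        by_contra h6
        exact this (if_neg h6)
    refine s1_P (U := fun k => U k * W k) h' hVu e' g j hj
      (fun a ha _ hk => by rw [hu a ha hk]) ?_
    rw [Finset.sum_eq_single g]
    · rw [if_pos rfl]
      refine mul_ne_zero (h.ne B.hg) (Finset.prod_ne_zero_iff.mpr fun k hk => ?_)
      by_cases hki : k = i
      · subst hki
        rw [hVi, s1_O_one, if_pos rfl]; exact one_ne_zero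
      · rw [hw k hki (Finset.ne_of_mem_erase hk), s1_O_left (hVu k), if_pos rfl]
        exact one_ne_zero
    · intro a ha hag
      split_ifs
      · by_contra h0
        exact hag (hu a (mem_els.mp ha) fun k hk =>
          Finset.prod_ne_zero_iff.mp (right_ne_zero_of_mul h0) k
            (Finset.mem_erase.mpr ⟨hk, Finset.mem_univ k⟩))
      · rfl
    · intro h0; exact absurd (mem_els.mpr B.hg) h0
  refine ⟨fun k => U k * W k, hVu, by beta_reduce; rw [hVi]; exact s1_semi_one, fun k hk => ?_, e'⟩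
  by_cases hki : k = i
  · subst hki; beta_reduce; rw [hVi]; exact s1_semi_one
  · by_cases hkj : k = j
    · subst hkj; exact hVj
    · simp only [W, if_neg hki, if_neg hkj, mul_one]; exact hk

/-- a qubit outside the support -/
theorem s1_out (hU : ∀ i, Un (U i)) (e : tensor U * RR L χ * star (tensor U) = RR L' χ') {i : ι}
    (hi : ∀ a ∈ L, a i = 0) :
    ∃ V : ι → M2, (∀ k, Un (V k)) ∧ Semi (V i) ∧ (∀ k, Semi (U k) → Semi (V k)) ∧
      tensor V * RR L χ * star (tensor V) = RR L' χ' := by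
  let W : ι → M2 := fun k => if k = i then star (U i) else 1
  have hWR : tensor W * RR L χ * star (tensor W) = RR L χ := by
    unfold RR
    rw [Finset.mul_sum, Finset.sum_mul]
    refine Finset.sum_congr rfl fun a ha => ?_
    rw [Matrix.mul_smul, Matrix.smul_mul, star_tensor, ps, tensor_mul, tensor_mul]
    congr 2
    funext k
    by_cases hk : k = i
    · subst hk
      simp only [W, if_true, hi a (mem_els.mp ha), sgm_zero, mul_one, star_star, (hU k).1]
    · simp only [W, if_neg hk, star_one, mul_one, one_mul]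
  have hVi : U i * W i = 1 := by simp only [W, if_true]; exact (hU i).2
  refine ⟨fun k => U k * W k, fun k => s1_un_mul (hU k) ?_, by beta_reduce; rw [hVi]; exact s1_semi_one,
    fun k hk => ?_, s1_move e hWR⟩
  · simp only [W]
    split_ifs
    · exact s1_un_star (hU i)
    · exact s1_un_one
  · by_cases hki : k = i
    · subst hki; beta_reduce; rw [hVi]; exact s1_semi_one
    · simp only [W, if_neg hki, mul_one]; exact hk

theorem s1_step (h : IsSt L χ) (h' : IsSt L' χ') (hU : ∀ i, Un (U i))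
    (e : tensor U * RR L χ * star (tensor U) = RR L' χ') (i : ι) :
    ∃ V : ι → M2, (∀ k, Un (V k)) ∧ Semi (V i) ∧ (∀ k, Semi (U k) → Semi (V k)) ∧
      tensor V * RR L χ * star (tensor V) = RR L' χ' := by
  classical
  by_cases h0 : ∀ a ∈ L, a i = 0
  · exact s1_out hU e h0
  push Not at h0
  obtain ⟨g, hg, hmin⟩ := Finset.exists_min_image ((els L).filter fun a => a i ≠ 0)
    (fun a => (Finset.univ.filter fun k => a k ≠ 0).card)
    (by obtain ⟨a, ha, hai⟩ := h0; exact ⟨a, Finset.mem_filter.mpr ⟨mem_els.mpr ha, hai⟩⟩)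
  obtain ⟨hgL, hgi⟩ := Finset.mem_filter.mp hg
  have hgL := mem_els.mp hgL
  have hm : ∀ a ∈ L, a i ≠ 0 → (∀ k, g k = 0 → a k = 0) → ∀ k, a k = 0 → g k = 0 := by
    intro a ha hai hs k hk
    have h1 := hmin a (Finset.mem_filter.mpr ⟨mem_els.mpr ha, hai⟩)
    have h2 : (Finset.univ.filter fun k => a k ≠ 0) ⊆ Finset.univ.filter fun k => g k ≠ 0 := by
      intro l hl
      simp only [Finset.mem_filter, Finset.mem_univ, true_and] at hl ⊢
      exact fun e => hl (hs l e)
    have h3 := Finset.eq_of_subset_of_card_le h2 h1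
    by_contra h4
    have : k ∈ Finset.univ.filter fun k => g k ≠ 0 := by simpa only [ne_eq, Finset.mem_filter, Finset.mem_univ, true_and] using h4
    rw [← h3] at this
    simp [hk] at this
  by_cases hA : ∀ a ∈ L, (∀ k, a k = 0 ↔ g k = 0) → a i = g i
  · exact ⟨U, hU, s1_A h h' hU e hgL hgi hA, fun _ hk => hk, e⟩
  push Not at hA
  obtain ⟨f, hf, hfs, hfi⟩ := hA
  have B : S1B L g f i := ⟨hgL, hf, hgi, hfs, hfi, hm⟩
  obtain ⟨j, hji, hj⟩ := B.other h
  by_cases hw : ∀ k, k ≠ i → k ≠ j → g k = 0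
  · exact s1_B2 h h' hU e B hji hj hw
  · push Not at hw
    obtain ⟨l, hli, hlj, hl⟩ := hw
    exact ⟨U, hU, s1_B3 h h' hU e B hji hli hlj hj hl, fun _ hk => hk, e⟩

/-- Step 1: a local unitary equivalence may be taken semi-Clifford on every qubit. -/
theorem step1 {L L' : Submodule (ZMod 2) (ι → Lb)} {χ χ' : (ι → Lb) → ℂ}
    (h : IsSt L χ) (h' : IsSt L' χ') (U : ι → M2) (hU : ∀ i, Un (U i))
    (e : tensor U * RR L χ * star (tensor U) = RR L' χ') :
    ∃ V : ι → M2, (∀ i, Un (V i)) ∧ (∀ i, Semi (V i)) ∧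
      tensor V * RR L χ * star (tensor V) = RR L' χ' := by
  have key : ∀ S : Finset ι, ∃ V : ι → M2, (∀ i, Un (V i)) ∧ (∀ i ∈ S, Semi (V i)) ∧
      tensor V * RR L χ * star (tensor V) = RR L' χ' := by
    intro S
    induction S using Finset.induction_on with
    | empty => exact ⟨U, hU, by simp, e⟩
    | insert i S _ ih =>
      obtain ⟨V, hV, hS, eV⟩ := ih
      obtain ⟨V', hV', hi, hk, eV'⟩ := s1_step h h' hV eV i
      refine ⟨V', hV', fun k hk' => ?_, eV'⟩
      rcases Finset.mem_insert.mp hk' with rfl | hk'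
      · exact hi
      · exact hk k (hS k hk')
  obtain ⟨V, hV, hS, eV⟩ := key Finset.univ
  exact ⟨V, hV, fun i => hS i (Finset.mem_univ i), eV⟩

end Pool.Agent.MP_7af562_mp.H78

end

-- part MP_7af562_mp.H78.RM
section

namespace Pool.Agent.MP_7af562_mp.H78

open Matrix Module

variable {ι : Type} [Fintype ι] [DecidableEq ι]

/-- `f` is orthogonal to `e` times all products of at most `k` words of `C` -/
def rmOrth (C : Submodule (ZMod 2) (ι → ZMod 2)) (f : ι → ℂ) (e : ι → ZMod 2) (k : ℕ) : Prop :=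
  ∀ l : List (ι → ZMod 2), (∀ x ∈ l, x ∈ C) → l.length ≤ k → pr f (e * l.prod) = 1

open Classical in
/-- the points of the support of `e` at which `f` is not one -/
noncomputable def rmS (f : ι → ℂ) (e : ι → ZMod 2) : Finset ι :=
  Finset.univ.filter fun i => e i = 1 ∧ f i ≠ 1

/-- words orthogonal to `C` with support inside the support of `e` -/
def rmW (C : Submodule (ZMod 2) (ι → ZMod 2)) (e : ι → ZMod 2) :
    Submodule (ZMod 2) (ι → ZMod 2) where
  carrier := {w | (∀ x ∈ C, w ⬝ᵥ x = 0) ∧ e * w = w}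
  add_mem' := fun {a b} ha hb => ⟨fun x hx => by rw [add_dotProduct, ha.1 x hx, hb.1 x hx, add_zero],
    by rw [mul_add, ha.2, hb.2]⟩
  zero_mem' := ⟨fun x _ => zero_dotProduct x, mul_zero e⟩
  smul_mem' := fun c a ha => ⟨fun x hx => by rw [smul_dotProduct, ha.1 x hx, smul_zero],
    by rw [mul_smul_comm, ha.2]⟩

omit [DecidableEq ι] in
theorem rm_mem_S {f : ι → ℂ} {e : ι → ZMod 2} {i : ι} : i ∈ rmS f e ↔ e i = 1 ∧ f i ≠ 1 := by
  simp only [rmS, ne_eq, Finset.mem_filter, Finset.mem_univ, true_and]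

omit [DecidableEq ι] in
theorem rm_pr_add (ν : ι → ℂ) (u v : ι → ZMod 2) :
    pr ν (u + v) * pr ν (u * v) ^ 2 = pr ν u * pr ν v := by
  unfold pr
  rw [← Finset.prod_pow, ← Finset.prod_mul_distrib, ← Finset.prod_mul_distrib]
  refine Finset.prod_congr rfl fun i _ => ?_
  rcases z2 (u i) with h | h <;> rcases z2 (v i) with h' | h' <;> simp only [Pi.add_apply, h, h', add_zero, zero_ne_one, ↓ reduceIte, Pi.mul_apply, mul_zero, one_pow, mul_one, zero_add, one_mul, z11, sq]

omit [DecidableEq ι] in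
theorem rm_pr_sq (ν : ι → ℂ) (v : ι → ZMod 2) : pr (fun i => ν i ^ 2) v = pr ν v ^ 2 := by
  unfold pr
  rw [← Finset.prod_pow]
  refine Finset.prod_congr rfl fun i _ => ?_
  split_ifs <;> simp

omit [DecidableEq ι] in
theorem rm_pr_neg (v : ι → ZMod 2) : pr (fun _ => -1) v = 1 ↔ ∑ i, v i = 0 := by
  have h : pr (fun _ => -1) v = sg (∑ i, v i) := by
    rw [sg_sum]
    refine Finset.prod_congr rfl fun i _ => ?_
    rcases z2 (v i) with h | h <;> simp only [h, zero_ne_one, ↓ reduceIte, sg_zero, sg_one]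
  rw [h]
  exact ⟨fun h => sg_inj (h.trans sg_zero.symm), fun h => by rw [h, sg_zero]⟩

omit [Fintype ι] [DecidableEq ι] in
theorem rm_idem (v : ι → ZMod 2) : v * v = v := funext fun i => zmul (v i)

variable {C : Submodule (ZMod 2) (ι → ZMod 2)}

omit [DecidableEq ι] in
theorem rm_mono {f : ι → ℂ} {e : ι → ZMod 2} {k k' : ℕ} (h : rmOrth C f e k) (hk : k' ≤ k) :
    rmOrth C f e k' := fun l hl hl' => h l hl (hl'.trans hk)

omit [DecidableEq ι] in
theorem rm_one {f : ι → ℂ} {e x : ι → ZMod 2} {k : ℕ} (h : rmOrth C f e (k + 1)) (hx : x ∈ C) :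
    rmOrth C f (e * x) k := fun l hl hl' => by
  have := h (x :: l) (List.forall_mem_cons.2 ⟨hx, hl⟩) (by simpa using hl')
  rwa [List.prod_cons, ← mul_assoc] at this

omit [DecidableEq ι] in
theorem rm_zero {f : ι → ℂ} {e x : ι → ZMod 2} {k : ℕ} (h : rmOrth C f e (k + 1)) (hx : x ∈ C) :
    rmOrth C f (e * (1 + x)) k := fun l hl hl' => by
  have h1 := rm_pr_add f (e * (1 + x) * l.prod) (e * x * l.prod)
  have h2 : e * (1 + x) * l.prod + e * x * l.prod = e * l.prod := by
    funext i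
    rcases z2 (x i) with h | h <;> simp [h, z11]
  have h3 : e * (1 + x) * l.prod * (e * x * l.prod) = 0 := by
    funext i
    rcases z2 (x i) with h | h <;> simp [h, z11]
  have h4 : pr f (0 : ι → ZMod 2) = 1 := by simp only [pr, Pi.zero_apply, zero_ne_one, ↓ reduceIte, Finset.prod_const_one]
  rw [h2, h3, h4, h l hl (by omega), rm_one h hx l hl hl'] at h1
  simpa using h1.symm

omit [DecidableEq ι] in
theorem rm_sq {f : ι → ℂ} {e : ι → ZMod 2} {k : ℕ} (h : rmOrth C f e (k + 1)) :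
    rmOrth C (fun i => f i ^ 2) e (k + 2) := fun l hl hl' => by
  rw [rm_pr_sq]
  by_cases h0 : l.length ≤ k + 1
  · rw [h l hl h0, one_pow]
  match l, hl, hl', h0 with
  | [], _, _, h0 => simp at h0
  | [_], _, _, h0 => simp at h0
  | x :: y :: l, hl, hl', _ =>
    have hx : x ∈ C := hl x (by simp)
    have hy : y ∈ C := hl y (by simp)
    have hl2 : ∀ z ∈ l, z ∈ C := fun z hz => hl z (by simp [hz])
    have hk : l.length ≤ k := by simpa only [List.length_cons, add_le_add_iff_right] using hl'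
    have h1 := rm_pr_add f (e * x * l.prod) (e * y * l.prod)
    have h2 : e * x * l.prod + e * y * l.prod = e * (x + y) * l.prod := by ring
    have h3 : e * x * l.prod * (e * y * l.prod) = e * (x :: y :: l).prod := by
      rw [List.prod_cons, List.prod_cons]
      calc e * x * l.prod * (e * y * l.prod) = (e * e) * (x * (y * (l.prod * l.prod))) := by ring
        _ = _ := by rw [rm_idem, rm_idem]
    rw [h2, h3, rm_one h hx l hl2 hk, rm_one h hy l hl2 hk, rm_one h (C.add_mem hx hy) l hl2 hk]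
      at h1
    simpa only [List.prod_cons, sq_eq_one_iff, one_mul, mul_one] using h1

omit [DecidableEq ι] in
theorem rm_two {f : ι → ℂ} {e : ι → ZMod 2} (h : rmOrth C f e 0) (hne : (rmS f e).Nonempty) :
    1 < (rmS f e).card := by
  by_contra hc
  obtain ⟨i, hi⟩ := hne
  have h1 := h [] (by simp) le_rfl
  rw [List.prod_nil, mul_one, pr, Finset.prod_eq_single i, if_pos (rm_mem_S.1 hi).1] at h1
  · exact (rm_mem_S.1 hi).2 h1
  · intro j _ hj
    split_ifs with hej
    · by_contra hf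
      exact hc (Finset.one_lt_card.2 ⟨j, rm_mem_S.2 ⟨hej, hf⟩, i, hi, hj⟩)
    · rfl
  · simp only [Finset.mem_univ, not_true_eq_false, ite_eq_right_iff, IsEmpty.forall_iff]

omit [DecidableEq ι] in
/-- a word that splits the support into two nonempty parts -/
theorem rm_split {f : ι → ℂ} {e : ι → ZMod 2} (h : rmOrth C f e 0) (hne : (rmS f e).Nonempty)
    (hd : ∀ i ∈ rmS f e, ∀ j ∈ rmS f e, i ≠ j → ∃ x ∈ C, x i ≠ x j) :
    ∃ x ∈ C, (rmS f (e * (1 + x))).Nonempty ∧ (rmS f (e * x)).Nonempty := by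
  obtain ⟨i, hi, j, hj, hij⟩ := Finset.one_lt_card.1 (rm_two h hne)
  obtain ⟨x, hx, hxij⟩ := hd i hi j hj hij
  obtain ⟨hi1, hi2⟩ := rm_mem_S.1 hi
  obtain ⟨hj1, hj2⟩ := rm_mem_S.1 hj
  refine ⟨x, hx, ?_⟩
  rcases z2 (x i) with h1 | h1 <;> rcases z2 (x j) with h2 | h2
  · exact (hxij (h1.trans h2.symm)).elim
  · exact ⟨⟨i, rm_mem_S.2 ⟨by simp [hi1, h1], hi2⟩⟩, j, rm_mem_S.2 ⟨by simp [hj1, h2], hj2⟩⟩
  · exact ⟨⟨j, rm_mem_S.2 ⟨by simp [hj1, h2], hj2⟩⟩, i, rm_mem_S.2 ⟨by simp [hi1, h1], hi2⟩⟩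
  · exact (hxij (h1.trans h2.symm)).elim

omit [DecidableEq ι] in
theorem rm_sub (f : ι → ℂ) (e y : ι → ZMod 2) : rmS f (e * y) ⊆ rmS f e := fun i hi => by
  obtain ⟨h1, h2⟩ := rm_mem_S.1 hi
  refine rm_mem_S.2 ⟨?_, h2⟩
  rcases z2 (e i) with h | h
  · simp only [Pi.mul_apply, h, zero_mul, zero_ne_one] at h1
  · exact h

/-- the Reed-Muller bound -/
theorem rm_bound {f : ι → ℂ} (k : ℕ) : ∀ e : ι → ZMod 2, rmOrth C f e k → (rmS f e).Nonempty →
    (∀ i ∈ rmS f e, ∀ j ∈ rmS f e, i ≠ j → ∃ x ∈ C, x i ≠ x j) → 2 ^ (k + 1) ≤ (rmS f e).card := by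
  induction k with
  | zero => exact fun e h hne _ => rm_two h hne
  | succ k ih =>
    intro e h hne hd
    obtain ⟨x, hx, h0, h1⟩ := rm_split (rm_mono h (Nat.zero_le _)) hne hd
    have a0 := ih _ (rm_zero h hx) h0 fun i hi j hj => hd i (rm_sub _ _ _ hi) j (rm_sub _ _ _ hj)
    have a1 := ih _ (rm_one h hx) h1 fun i hi j hj => hd i (rm_sub _ _ _ hi) j (rm_sub _ _ _ hj)
    have hdis : Disjoint (rmS f (e * (1 + x))) (rmS f (e * x)) :=
      Finset.disjoint_left.2 fun i hi hi' => by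
        have b0 := (rm_mem_S.1 hi).1
        have b1 := (rm_mem_S.1 hi').1
        rcases z2 (x i) with h | h <;> simp only [Pi.mul_apply, Pi.add_apply, Pi.one_apply, h, add_zero, mul_one, mul_zero, zero_ne_one, z11] at b0 b1
    have := Finset.card_le_card (Finset.union_subset (rm_sub f e (1 + x)) (rm_sub f e x))
    rw [Finset.card_union_of_disjoint hdis] at this
    rw [pow_succ]
    omega

theorem rm_dim {e : ι → ZMod 2} {k : ℕ} (hc : 2 ^ (k + 1) ≤ (rmS (fun _ => -1) e).card)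
    (hd : ∀ i ∈ rmS (fun _ => -1) e, ∀ j ∈ rmS (fun _ => -1) e, i ≠ j → ∃ x ∈ C, x i ≠ x j)
    (U : Submodule (ZMod 2) (ι → ZMod 2))
    (hU : ∀ l : List (ι → ZMod 2), (∀ x ∈ l, x ∈ C) → l.length ≤ k → e * l.prod ∈ U) :
    2 ^ (k + 1) ≤ finrank (ZMod 2) U + 1 := by
  have hpos : 0 < 2 ^ (k + 1) := by positivity
  obtain ⟨T, hT, hTc⟩ := Finset.exists_subset_card_eq
    (show 2 ^ (k + 1) - 1 ≤ (rmS (fun _ => -1) e).card by omega)
  have htop : U.map (LinearMap.funLeft (ZMod 2) (ZMod 2) (Subtype.val : T → ι)) = ⊤ := by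
    by_contra hne
    obtain ⟨φ, hφ0, hφ⟩ := Submodule.exists_le_ker_of_lt_top _ (lt_top_iff_ne_top.2 hne)
    obtain ⟨t, ht⟩ : ∃ t : ι → ZMod 2, t = fun i =>
        if h : i ∈ T then φ (fun j => if (⟨i, h⟩ : T) = j then 1 else 0) else 0 := ⟨_, rfl⟩
    have htT : ∀ i : T, t i = φ (fun j => if i = j then 1 else 0) := fun i => by
      rw [ht]; exact dif_pos i.2
    have ht0 : ∀ i, i ∉ T → t i = 0 := fun i hi => by rw [ht]; exact dif_neg hi
    have hsub : rmS (fun _ => -1) t ⊆ T := fun i hi => by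
      by_contra h
      exact z01 ((ht0 i h).symm.trans (rm_mem_S.1 hi).1)
    have horth : rmOrth C (fun _ => -1) t k := fun l hl hl' => by
      have h1 : φ _ = 0 := hφ (Submodule.mem_map_of_mem (hU l hl hl'))
      rw [LinearMap.pi_apply_eq_sum_univ] at h1
      rw [rm_pr_neg, ← Finset.sum_subset (Finset.subset_univ T)
        (fun i _ hi => by simp [ht0 i hi]), ← Finset.sum_coe_sort, ← h1]
      refine Finset.sum_congr rfl fun i _ => ?_
      have h2 : e i = 1 := (rm_mem_S.1 (hT i.2)).1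
      rw [← htT, LinearMap.funLeft_apply, Pi.mul_apply, Pi.mul_apply, h2, one_mul, smul_eq_mul,
        mul_comm]
    have hne' : (rmS (fun _ => -1) t).Nonempty := by
      by_contra h
      refine hφ0 (LinearMap.ext fun v => ?_)
      rw [LinearMap.pi_apply_eq_sum_univ]
      refine Finset.sum_eq_zero fun i _ => ?_
      rcases z2 (t i) with h1 | h1
      · rw [← htT, h1, smul_zero]
      · exact (h ⟨i, rm_mem_S.2 ⟨h1, by norm_num⟩⟩).elim
    have h3 := rm_bound k t horth hne' fun i hi j hj => hd i (hT (hsub hi)) j (hT (hsub hj))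
    have h4 := Finset.card_le_card hsub
    omega
  have h5 := Submodule.finrank_map_le
    (LinearMap.funLeft (ZMod 2) (ZMod 2) (Subtype.val : T → ι)) U
  rw [htop, finrank_top, finrank_fintype_fun_eq_card, Fintype.card_coe] at h5
  omega

theorem rm_N (k : ℕ) : ∀ e : ι → ZMod 2, rmOrth C (fun _ => -1) e k →
    (rmS (fun _ => -1) e).Nonempty →
    (∀ i ∈ rmS (fun _ => -1) e, ∀ j ∈ rmS (fun _ => -1) e, i ≠ j → ∃ x ∈ C, x i ≠ x j) →
    2 ^ (k + 1) ≤ finrank (ZMod 2) (rmW C e) + k + 2 := by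
  induction k with
  | zero => intro e _ _ _; simp
  | succ k ih =>
    intro e h hne hd
    obtain ⟨x, hx, h0, h1⟩ := rm_split (rm_mono h (Nat.zero_le _)) hne hd
    have a0 := ih _ (rm_zero h hx) h0 fun i hi j hj => hd i (rm_sub _ _ _ hi) j (rm_sub _ _ _ hj)
    have d1 : ∀ i ∈ rmS (fun _ => -1) (e * x), ∀ j ∈ rmS (fun _ => -1) (e * x), i ≠ j →
        ∃ y ∈ C, y i ≠ y j := fun i hi j hj => hd i (rm_sub _ _ _ hi) j (rm_sub _ _ _ hj)
    obtain ⟨μ, hμ⟩ : ∃ μ : rmW C e →ₗ[ZMod 2] (ι → ZMod 2), ∀ w, μ w = e * x * w :=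
      ⟨(LinearMap.mulLeft (ZMod 2) (e * x)).comp (rmW C e).subtype, fun _ => rfl⟩
    have a1 := rm_dim (rm_bound k _ (rm_one h hx) h1 d1) d1 (LinearMap.range μ) fun l hl hl' => by
      refine ⟨⟨e * l.prod, fun y hy => ?_, by rw [← mul_assoc, rm_idem]⟩, ?_⟩
      · have := (rm_pr_neg _).1 (rm_one h hy l hl hl')
        rw [← this, dotProduct]
        exact Finset.sum_congr rfl fun i _ => by simp only [Pi.mul_apply]; ring
      · rw [hμ]
        calc e * x * (e * l.prod) = (e * e) * x * l.prod := by ring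
          _ = _ := by rw [rm_idem]
    have a2 : rmW C (e * (1 + x)) ≤ (LinearMap.ker μ).map (rmW C e).subtype := fun w hw => by
      refine ⟨⟨w, hw.1, ?_⟩, ?_, rfl⟩
      · calc e * w = e * (e * (1 + x) * w) := by rw [hw.2]
          _ = (e * e) * (1 + x) * w := by ring
          _ = w := by rw [rm_idem, hw.2]
      · change μ _ = 0
        rw [hμ]
        funext i
        have := congrFun hw.2 i
        rcases z2 (x i) with h | h
        · simp [h]
        · simp only [Pi.mul_apply, Pi.add_apply, Pi.one_apply, h, z11, mul_zero, zero_mul] at this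
          simp [← this]
    have a3 := Submodule.finrank_mono a2
    rw [Submodule.finrank_map_subtype_eq] at a3
    have a4 := LinearMap.finrank_range_add_finrank_ker μ
    rw [pow_succ]
    omega

/-- The case t >= 2 of the core lemma. `W` is any subspace containing every vector orthogonal
to `C`. The columns of `C` are distinct on the set where `ν i ^ 2 ≠ 1`. -/
theorem big_of_order_eight (C W : Submodule (ZMod 2) (ι → ZMod 2))
    (hW : ∀ w, (∀ x ∈ C, w ⬝ᵥ x = 0) → w ∈ W)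
    (ν : ι → ℂ) (hν : ∀ i, ν i ≠ 0) (c : ι → ZMod 2) (hc : c ∈ C)
    (hdist : ∀ i j, i ≠ j → ν i ^ 2 ≠ 1 → ν j ^ 2 ≠ 1 → ∃ x ∈ C, x i ≠ x j)
    (h3 : ∀ x ∈ C, ∀ y ∈ C, pr ν (c * x * y) ^ 2 = 1)
    (i0 : ι) (hi0 : c i0 = 1) (h4 : ν i0 ^ 4 ≠ 1) :
    11 ≤ finrank (ZMod 2) W := by
  have _ := hν
  have hO : ∀ j : ℕ, rmOrth C (fun i => ν i ^ 2 ^ (j + 1)) c (j + 2) := by
    intro j
    induction j with
    | zero =>
      intro l hl hl'
      simp only [zero_add, pow_one]
      rw [rm_pr_sq]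
      match l, hl, hl' with
      | [], _, _ => simpa only [List.prod_nil, mul_one, sq_eq_one_iff, rm_idem] using h3 c hc c hc
      | [x], hl, _ => simpa only [List.prod_cons, List.prod_nil, mul_one, sq_eq_one_iff, rm_idem] using h3 c hc x (hl x (by simp))
      | [x, y], hl, _ => simpa only [List.prod_cons, List.prod_nil, mul_one, sq_eq_one_iff, mul_assoc] using h3 x (hl x (by simp)) y (hl y (by simp))
      | _ :: _ :: _ :: _, _, hl' => simp at hl'
    | succ j ih => simpa only [← pow_mul, ← pow_succ] using rm_sq ih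
  have hD : ∀ j : ℕ, ∀ i ∈ rmS (fun i => ν i ^ 2 ^ (j + 1)) c,
      ∀ i' ∈ rmS (fun i => ν i ^ 2 ^ (j + 1)) c, i ≠ i' → ∃ x ∈ C, x i ≠ x i' := by
    have hh : ∀ (j : ℕ) (i : ι), ν i ^ 2 ^ (j + 1) ≠ 1 → ν i ^ 2 ≠ 1 := fun j i h h' =>
      h (by rw [pow_succ', pow_mul, h', one_pow])
    exact fun j i hi i' hi' hne => hdist i i' hne (hh j i (rm_mem_S.1 hi).2)
      (hh j i' (rm_mem_S.1 hi').2)
  obtain ⟨j, hj1, hj2⟩ : ∃ j : ℕ, (rmS (fun i => ν i ^ 2 ^ (j + 1 + 1)) c).Nonempty ∧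
      ¬ (rmS (fun i => ν i ^ 2 ^ (j + 1 + 1 + 1)) c).Nonempty := by
    by_contra hcon
    have hall : ∀ j : ℕ, (rmS (fun i => ν i ^ 2 ^ (j + 1 + 1)) c).Nonempty := by
      intro j
      induction j with
      | zero => exact ⟨i0, rm_mem_S.2 ⟨hi0, by simpa only [zero_add, Nat.reduceAdd, Nat.reducePow, ne_eq] using h4⟩⟩
      | succ j ih =>
        by_contra h
        exact hcon ⟨j, ih, h⟩
    have h1 := rm_bound _ c (hO (Fintype.card ι + 1)) (hall _) (hD _)
    have h2 := Finset.card_le_univ (rmS (fun i => ν i ^ 2 ^ (Fintype.card ι + 1 + 1)) c)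
    have h5 : Fintype.card ι + 1 + 2 + 1 < 2 ^ (Fintype.card ι + 1 + 2 + 1) := Nat.lt_two_pow_self
    omega
  obtain ⟨e, he⟩ : ∃ e : ι → ZMod 2, e = fun i =>
      if i ∈ rmS (fun i => ν i ^ 2 ^ (j + 1 + 1)) c then 1 else 0 := ⟨_, rfl⟩
  have hS : rmS (fun _ => -1) e = rmS (fun i => ν i ^ 2 ^ (j + 1 + 1)) c := by
    ext i
    rw [rm_mem_S, he]
    by_cases hi : i ∈ rmS (fun i => ν i ^ 2 ^ (j + 1 + 1)) c
    · simp only [hi, if_true, true_and, iff_true]; norm_num
    · simp only [hi, ↓ reduceIte, zero_ne_one, ne_eq, false_and]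
  have hE : rmOrth C (fun _ => -1) e 3 := fun l hl hl' => by
    refine Eq.trans ?_ (hO (j + 1) l hl (by omega))
    refine Finset.prod_congr rfl fun i _ => ?_
    by_cases hi : i ∈ rmS (fun i => ν i ^ 2 ^ (j + 1 + 1)) c
    · obtain ⟨h1, h2⟩ := rm_mem_S.1 hi
      have h5 : (ν i ^ 2 ^ (j + 1 + 1)) ^ 2 = 1 := by
        by_contra h
        exact hj2 ⟨i, rm_mem_S.2 ⟨h1, by rwa [← pow_mul, ← pow_succ] at h⟩⟩
      have h6 : ν i ^ 2 ^ (j + 1 + 1) = -1 := (sq_eq_one_iff.1 h5).resolve_left h2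
      have h7 : e i = 1 := by rw [he]; exact if_pos hi
      simp only [Pi.mul_apply, h1, h7, h6]
    · have h7 : e i = 0 := by rw [he]; exact if_neg hi
      rw [Pi.mul_apply, h7, zero_mul, if_neg z01]
      split_ifs with h8
      · by_contra h9
        refine hi (rm_mem_S.2 ⟨?_, fun h => h9 h.symm⟩)
        rcases z2 (c i) with h | h
        · simp only [Pi.mul_apply, h, zero_mul, zero_ne_one] at h8
        · exact h
      · rfl
  have h1 := rm_N 3 e hE (hS ▸ hj1) (hS ▸ hD (j + 1))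
  have h2 : finrank (ZMod 2) (rmW C e) ≤ finrank (ZMod 2) W :=
    Submodule.finrank_mono fun w hw => hW w hw.1
  omega

end Pool.Agent.MP_7af562_mp.H78

end

-- part MP_7af562_mp.H78.T1
section

namespace Pool.Agent.MP_7af562_mp.H78

open Matrix Module

variable {ι : Type} [Fintype ι] [DecidableEq ι]

theorem pr_add (ν : ι → ℂ) (u v : ι → ZMod 2) :
    pr ν (u + v) * pr ν (u * v) ^ 2 = pr ν u * pr ν v := by
  unfold pr
  rw [← Finset.prod_pow, ← Finset.prod_mul_distrib, ← Finset.prod_mul_distrib]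
  refine Finset.prod_congr rfl fun i _ => ?_
  rw [Pi.add_apply, Pi.mul_apply]
  rcases z2 (u i) with h | h <;> rcases z2 (v i) with h' | h' <;> simp only [h, h', add_zero, zero_ne_one, ↓ reduceIte, mul_zero, one_pow, mul_one, zero_add, one_mul, z11, sq]

/-- Duality: a function `B` that is additive in each argument on `C0 × C` and vanishes on all
relations among the products `c j * x j` (`c` a spanning family of `C0`) is represented by a
linear functional of the product. -/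
theorem dual_rep {r : ℕ} (C0 C : Submodule (ZMod 2) (ι → ZMod 2)) (c : Fin r → ι → ZMod 2)
    (hc : ∀ j, c j ∈ C0) (hspan : C0 ≤ Submodule.span (ZMod 2) (Set.range c))
    (B : (ι → ZMod 2) → (ι → ZMod 2) → ZMod 2)
    (hB1 : ∀ a ∈ C0, ∀ a' ∈ C0, ∀ x ∈ C, B (a + a') x = B a x + B a' x)
    (hB2 : ∀ a ∈ C0, ∀ x ∈ C, ∀ x' ∈ C, B a (x + x') = B a x + B a x')
    (hrel : ∀ x : Fin r → ι → ZMod 2, (∀ j, x j ∈ C) → ∑ j, c j * x j = 0 →
      ∑ j, B (c j) (x j) = 0) :
    ∃ β : ι → ZMod 2, ∀ a ∈ C0, ∀ x ∈ C, B a x = β ⬝ᵥ (a * x) := by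
  have z1 : ∀ x ∈ C, B 0 x = 0 := fun x hx => by
    simpa using hB1 0 C0.zero_mem 0 C0.zero_mem x hx
  have z2' : ∀ a ∈ C0, B a 0 = 0 := fun a ha => by
    simpa using hB2 a ha 0 C.zero_mem 0 C.zero_mem
  let Ψ : (Fin r → C) →ₗ[ZMod 2] (ι → ZMod 2) := (AddMonoidHom.mk' (fun x => ∑ j, c j * x j)
    fun x y => by simp only [Pi.add_apply, Submodule.coe_add, mul_add, Finset.sum_add_distrib]).toZModLinearMap 2
  let b : (Fin r → C) →ₗ[ZMod 2] ZMod 2 := (AddMonoidHom.mk' (fun x => ∑ j, B (c j) (x j))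
    fun x y => by
      rw [← Finset.sum_add_distrib]
      exact Finset.sum_congr rfl fun j _ => hB2 _ (hc j) _ (x j).2 _ (y j).2).toZModLinearMap 2
  obtain ⟨g, hg⟩ : b ∈ LinearMap.range Ψ.dualMap := by
    rw [LinearMap.range_dualMap_eq_dualAnnihilator_ker, Submodule.mem_dualAnnihilator]
    exact fun x hx => hrel (fun j => x j) (fun j => (x j).2) hx
  have hβ : ∀ v, g v = (fun i => g (Pi.single i 1)) ⬝ᵥ v := fun v => by
    conv_lhs => rw [pi_eq_sum_univ' v]
    simp only [map_sum, map_smul, smul_eq_mul, dotProduct, mul_comm]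
  refine ⟨fun i => g (Pi.single i 1), fun a ha => ?_⟩
  simp only [← hβ]
  refine (Submodule.span_induction (p := fun a _ => a ∈ C0 ∧ ∀ x ∈ C, B a x = g (a * x))
    ?_ ?_ ?_ ?_ (hspan ha)).2
  · rintro _ ⟨j, rfl⟩
    refine ⟨hc j, fun x hx => ?_⟩
    have h1 : g (∑ k, c k * (Pi.single j ⟨x, hx⟩ : Fin r → C) k) =
        ∑ k, B (c k) ((Pi.single j ⟨x, hx⟩ : Fin r → C) k) :=
      LinearMap.congr_fun hg (Pi.single j ⟨x, hx⟩)
    rw [Finset.sum_eq_single j (fun k _ hk => by simp [hk]) (by simp only [Finset.mem_univ, not_true_eq_false, Pi.single_eq_same, IsEmpty.forall_iff]),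
      Finset.sum_eq_single j (fun k _ hk => by simp [hk, z2' _ (hc k)]) (by simp only [Finset.mem_univ, not_true_eq_false, Pi.single_eq_same, IsEmpty.forall_iff])] at h1
    simpa only [Pi.single_eq_same] using h1.symm
  · exact ⟨C0.zero_mem, fun x hx => by simp [z1 x hx]⟩
  · exact fun a a' _ _ h h' => ⟨C0.add_mem h.1 h'.1, fun x hx => by
      rw [hB1 a h.1 a' h'.1 x hx, h.2 x hx, h'.2 x hx, add_mul, map_add]⟩
  · intro l a _ h
    rcases z2 l with rfl | rfl
    · exact ⟨by simp, fun x hx => by simp only [zero_smul, z1 x hx, zero_mul, map_zero]⟩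
    · rwa [one_smul]

theorem t1_gram {κ : Type} [Fintype κ] [DecidableEq κ] {C0 W : Submodule (ZMod 2) (ι → ZMod 2)}
    (hle : C0 ≤ W) (u u' : κ → ι → ZMod 2) (hu : ∀ a, u a ∈ W)
    (h : ∀ a b, u a ⬝ᵥ u' b = if a = b then 1 else 0) (h0 : ∀ c ∈ C0, ∀ b, c ⬝ᵥ u' b = 0) :
    finrank (ZMod 2) C0 + Fintype.card κ ≤ finrank (ZMod 2) W := by
  let Φ : W →ₗ[ZMod 2] (κ → ZMod 2) := (Matrix.of u').mulVecLin.domRestrict W
  have hΦ : ∀ w b, Φ w b = w.1 ⬝ᵥ u' b := fun w b => dotProduct_comm _ _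
  have h1 := LinearMap.finrank_range_add_finrank_ker Φ
  have h2 : LinearMap.range Φ = ⊤ := by
    rw [eq_top_iff, ← (Pi.basisFun (ZMod 2) κ).span_eq, Submodule.span_le]
    rintro _ ⟨a, rfl⟩
    exact ⟨⟨u a, hu a⟩, funext fun b => by simp only [hΦ, h, Pi.basisFun_apply, Pi.single_apply, eq_comm]⟩
  have h3 := Submodule.finrank_mono (show C0.comap W.subtype ≤ LinearMap.ker Φ from
    fun w hw => funext fun b => (hΦ w b).trans (h0 _ hw b))
  rw [(Submodule.comapSubtypeEquivOfLe hle).finrank_eq] at h3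
  rw [h2, finrank_top, finrank_fintype_fun_eq_card] at h1
  omega

theorem t1_fam (C0 : Submodule (ZMod 2) (ι → ZMod 2)) {n : ℕ} (h : finrank (ZMod 2) C0 ≤ n) :
    ∃ c : Fin n → ι → ZMod 2, (∀ j, c j ∈ C0) ∧ C0 ≤ Submodule.span (ZMod 2) (Set.range c) := by
  let b := Module.finBasis (ZMod 2) C0
  refine ⟨fun j => if h : j.1 < finrank (ZMod 2) C0 then b ⟨j, h⟩ else 0, fun j => ?_,
    fun a ha => ?_⟩
  · beta_reduce
    split_ifs
    exacts [Subtype.prop _, C0.zero_mem]
  · have e := congrArg Subtype.val (b.sum_repr ⟨a, ha⟩)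
    simp only [Submodule.coe_sum, Submodule.coe_smul] at e
    rw [← e]
    exact Submodule.sum_mem _ fun i _ => Submodule.smul_mem _ _
      (Submodule.subset_span ⟨⟨i, i.2.trans_le h⟩, by simp⟩)

theorem t1_idem (x : ι → ZMod 2) : x * x = x := funext fun i => by
  rcases z2 (x i) with h | h <;> simp [h]

theorem t1_dot (a x b y : ι → ZMod 2) : (a * x) ⬝ᵥ (b * y) = (a * y) ⬝ᵥ (b * x) :=
  Finset.sum_congr rfl fun i _ => by simp only [Pi.mul_apply]; ring

theorem t1_dot' (a x y : ι → ZMod 2) : (a * x) ⬝ᵥ (a * y) = (a * x) ⬝ᵥ y :=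
  Finset.sum_congr rfl fun i _ => by
    rcases z2 (a i) with h | h <;> simp [h]

theorem t1_prI (u v : ι → ZMod 2) : pr (fun _ => Complex.I) (u + v) * sg (u ⬝ᵥ v) =
    pr (fun _ => Complex.I) u * pr (fun _ => Complex.I) v := by
  rw [← pr_add, dotProduct, sg_sum, pr, pr, ← Finset.prod_pow]
  congr 1
  refine Finset.prod_congr rfl fun i _ => ?_
  rw [Pi.mul_apply]
  rcases z2 (u i * v i) with h | h <;> simp only [h, sg_zero, zero_ne_one, ↓ reduceIte, one_pow, sg_one, Complex.I_sq]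

open Classical in
/-- half the weight, modulo two -/
noncomputable def t1_q (v : ι → ZMod 2) : ZMod 2 := if pr (fun _ => Complex.I) v = 1 then 0 else 1

theorem t1_zero : t1_q (0 : ι → ZMod 2) = 0 := by simp only [t1_q, pr, Pi.zero_apply, zero_ne_one, ↓ reduceIte, Finset.prod_const_one]

theorem t1_self (v : ι → ZMod 2) : v + v = 0 := funext fun i => CharTwo.add_self_eq_zero _

theorem t1_sg {v : ι → ZMod 2} (h : v ⬝ᵥ v = 0) : pr (fun _ => Complex.I) v = sg (t1_q v) := by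
  have h1 := t1_prI v v
  rw [t1_self, h, sg_zero, mul_one, show pr (fun _ : ι => Complex.I) 0 = 1 by simp only [pr, Pi.zero_apply, zero_ne_one, ↓ reduceIte, Finset.prod_const_one]] at h1
  unfold t1_q
  split_ifs with h2
  · rw [h2, sg_zero]
  · rw [sg_one, (mul_self_eq_one_iff.1 h1.symm).resolve_left h2]

theorem t1_alt {u v : ι → ZMod 2} (hu : u ⬝ᵥ u = 0) (hv : v ⬝ᵥ v = 0) : (u + v) ⬝ᵥ (u + v) = 0 := by
  rw [add_dotProduct, dotProduct_add, dotProduct_add, hu, hv, dotProduct_comm v u, zero_add,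
    add_zero, CharTwo.add_self_eq_zero]

theorem t1_add {u v : ι → ZMod 2} (hu : u ⬝ᵥ u = 0) (hv : v ⬝ᵥ v = 0) :
    t1_q (u + v) = t1_q u + t1_q v + u ⬝ᵥ v := by
  have h := t1_prI u v
  rw [t1_sg hu, t1_sg hv, t1_sg (t1_alt hu hv), ← sg_add, ← sg_add] at h
  rw [← sg_inj h, add_assoc, CharTwo.add_self_eq_zero, add_zero]

theorem t1_six {C0 W V : Submodule (ZMod 2) (ι → ZMod 2)} (hle : C0 ≤ W) (hV : V ≤ W)
    (h0 : ∀ c ∈ C0, ∀ v ∈ V, c ⬝ᵥ v = 0) (ha : ∀ v ∈ V, v ⬝ᵥ v = 0) {a b c d u v : ι → ZMod 2}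
    (ma : a ∈ V) (mb : b ∈ V) (mc : c ∈ V) (md : d ∈ V) (mu : u ∈ V) (mv : v ∈ V)
    (ab : a ⬝ᵥ b = 1) (cd : c ⬝ᵥ d = 1) (ac : a ⬝ᵥ c = 0) (ad : a ⬝ᵥ d = 0) (bc : b ⬝ᵥ c = 0)
    (bd : b ⬝ᵥ d = 0) (h : u ⬝ᵥ v ≠ u ⬝ᵥ a * v ⬝ᵥ b + u ⬝ᵥ b * v ⬝ᵥ a + u ⬝ᵥ c * v ⬝ᵥ d +
      u ⬝ᵥ d * v ⬝ᵥ c) : finrank (ZMod 2) C0 + 6 ≤ finrank (ZMod 2) W := by
  have aa := ha a ma
  have bb := ha b mb
  have cc := ha c mc
  have dd := ha d md
  have ba := (dotProduct_comm _ _).trans ab
  have dc := (dotProduct_comm _ _).trans cd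
  have ca := (dotProduct_comm _ _).trans ac
  have da := (dotProduct_comm _ _).trans ad
  have cb := (dotProduct_comm _ _).trans bc
  have db := (dotProduct_comm _ _).trans bd
  have key : ∀ w ∈ V, ∃ w' ∈ V, w' ⬝ᵥ a = 0 ∧ w' ⬝ᵥ b = 0 ∧ w' ⬝ᵥ c = 0 ∧ w' ⬝ᵥ d = 0 ∧
      w' = w + (w ⬝ᵥ b) • a + (w ⬝ᵥ a) • b + (w ⬝ᵥ d) • c + (w ⬝ᵥ c) • d := fun w hw =>
    ⟨_, V.add_mem (V.add_mem (V.add_mem (V.add_mem hw (V.smul_mem _ ma)) (V.smul_mem _ mb))
      (V.smul_mem _ mc)) (V.smul_mem _ md), by simp only [add_dotProduct, smul_dotProduct, ma, ha, smul_eq_mul, mul_zero, add_zero, ba, mul_one, CharTwo.add_self_eq_zero, ca, da],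
      by simp only [add_dotProduct, smul_dotProduct, ab, smul_eq_mul, mul_one, CharTwo.add_self_eq_zero, mb, ha, mul_zero, cb, db], by simp only [add_dotProduct, smul_dotProduct, ac, smul_eq_mul, mul_zero, add_zero, bc, mc, ha, dc, mul_one, CharTwo.add_self_eq_zero],
      by simp only [add_dotProduct, smul_dotProduct, ad, smul_eq_mul, mul_zero, add_zero, bd, cd, mul_one, CharTwo.add_self_eq_zero, md, ha], rfl⟩
  obtain ⟨u', mu', ua, ub, uc, ud, eu⟩ := key u mu
  obtain ⟨v', mv', va, vb, vc, vd, ev⟩ := key v mv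
  have uv : u' ⬝ᵥ v' = 1 := by
    have e : u' ⬝ᵥ v' = u' ⬝ᵥ v := by simp [ev, ua, ub, uc, ud]
    rw [e, eu]
    simp only [add_dotProduct, smul_dotProduct, smul_eq_mul]
    rw [dotProduct_comm a v, dotProduct_comm b v, dotProduct_comm c v, dotProduct_comm d v]
    revert h
    generalize u ⬝ᵥ v = t, u ⬝ᵥ a * v ⬝ᵥ b = t1, u ⬝ᵥ b * v ⬝ᵥ a = t2, u ⬝ᵥ c * v ⬝ᵥ d = t3,
      u ⬝ᵥ d * v ⬝ᵥ c = t4
    revert t t1 t2 t3 t4
    decide
  have uu := ha _ mu'
  have vv := ha _ mv'
  have vu := (dotProduct_comm _ _).trans uv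
  clear eu ev key h
  refine t1_gram hle ![a, b, c, d, u', v'] ![b, a, d, c, v', u'] (fun i => hV ?_) (fun i j => ?_)
    fun x hx i => h0 x hx _ ?_
  · fin_cases i <;> assumption
  · fin_cases i <;> fin_cases j <;> first
      | assumption
      | (rw [dotProduct_comm]; assumption)
  · fin_cases i <;> assumption

theorem t1_three (T : Fin 3 → Fin 3 → Fin 3 → Fin 3 → ZMod 2)
    (s1 : ∀ a b a' b', T a b a' b' = T a b' a' b) (s2 : ∀ a b a' b', T a b a' b' = T a' b' a b)
    (z1 : ∀ a b b', T a b a b' = 0) (z3 : ∀ a b a', T a b a' b = 0)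
    (rel : ∀ a b, T a b 0 0 + T a b 1 1 + T a b 2 2 = 0)
    (one : T 0 0 1 1 + T 0 0 2 2 + T 1 1 2 2 = 1) (a b a' b' : Fin 3) :
    T a b a' b' = if a ≠ a' ∧ b ≠ b' ∧ a + a' = b + b' then 1 else 0 := by
  have off : ∀ a b k, a ≠ b → T a b k k = 0 := fun a b k h => by
    have h1 := rel a b
    fin_cases a <;> fin_cases b <;> fin_cases k <;> first
      | exact absurd rfl h
      | exact z1 _ _ _
      | exact z3 _ _ _
      | simpa [z1, z3] using h1
  have h1 : T 0 0 1 1 = 1 ∧ T 0 0 2 2 = 1 ∧ T 1 1 2 2 = 1 := by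
    have r0 := rel 0 0
    have r1 := rel 1 1
    rw [z1] at r0
    rw [z1 1, s2 1 1 0 0] at r1
    revert one r0 r1
    generalize T 0 0 1 1 = p, T 0 0 2 2 = q, T 1 1 2 2 = r
    revert p q r
    decide
  have dg : ∀ a a', a ≠ a' → T a a a' a' = 1 := fun a a' h => by
    fin_cases a <;> fin_cases a' <;> first
      | exact absurd rfl h
      | exact h1.1
      | exact h1.2.1
      | exact h1.2.2
      | exact (s2 _ _ _ _).trans h1.1
      | exact (s2 _ _ _ _).trans h1.2.1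
      | exact (s2 _ _ _ _).trans h1.2.2
  split_ifs with h
  · rcases (by decide : ∀ a b a' b' : Fin 3, a ≠ a' ∧ b ≠ b' ∧ a + a' = b + b' →
      (a = b ∧ a' = b') ∨ (a' = b ∧ a = b')) a b a' b' h with ⟨rfl, rfl⟩ | ⟨rfl, rfl⟩
    exacts [dg _ _ h.1, (s1 _ _ _ _).trans (dg _ _ h.1)]
  · rcases (by decide : ∀ a b a' b' : Fin 3, ¬ (a ≠ a' ∧ b ≠ b' ∧ a + a' = b + b') →
      a = a' ∨ b = b' ∨ (a' = b' ∧ a ≠ b) ∨ (a = b ∧ a' ≠ b') ∨ (a = b' ∧ a' ≠ b) ∨
        (a' = b ∧ a ≠ b')) a b a' b' h with rfl | rfl | ⟨rfl, g⟩ | ⟨rfl, g⟩ | ⟨rfl, g⟩ | ⟨rfl, g⟩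
    exacts [z1 _ _ _, z3 _ _ _, off _ _ _ g, (s2 _ _ _ _).trans (off _ _ _ g),
      (s1 _ _ _ _).trans ((s2 _ _ _ _).trans (off _ _ _ g)), (s1 _ _ _ _).trans (off _ _ _ g)]

/-- The case t = 1 of the core lemma: all phases equal to `i`. -/
theorem rep_of_even (C0 C W : Submodule (ZMod 2) (ι → ZMod 2)) (h0 : C0 ≤ C)
    (hW : ∀ c ∈ C0, ∀ x ∈ C, c * x ∈ W)
    (hev : ∀ c ∈ C0, ∀ x ∈ C, ∀ y ∈ C, (c * x) ⬝ᵥ y = 0)
    (hdim : finrank (ZMod 2) W + finrank (ZMod 2) C0 ≤ 13) :
    ∃ β : ι → ZMod 2, ∀ c ∈ C0, ∀ x ∈ C,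
      pr (fun _ => Complex.I) (c * x) = sg (β ⬝ᵥ (c * x)) := by
  have e1 : ∀ c ∈ C0, ∀ x ∈ C, ∀ y ∈ C, (c * x) ⬝ᵥ (c * y) = 0 := fun c hc x hx y hy =>
    (t1_dot' c x y).trans (hev c hc x hx y hy)
  have e2 : ∀ c ∈ C0, ∀ c' ∈ C0, ∀ x ∈ C, (c * x) ⬝ᵥ (c' * x) = 0 := fun c hc c' hc' x hx => by
    rw [mul_comm c, mul_comm c', t1_dot', mul_comm x, hev c hc x hx c' (h0 hc')]
  have hle : C0 ≤ W := fun c hc => t1_idem c ▸ hW c hc c (h0 hc)
  let V := Submodule.span (ZMod 2) {v | ∃ c ∈ C0, ∃ x ∈ C, c * x = v}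
  have mV : ∀ c ∈ C0, ∀ x ∈ C, c * x ∈ V := fun c hc x hx => Submodule.subset_span ⟨c, hc, x, hx, rfl⟩
  have hV : V ≤ W := Submodule.span_le.2 (by rintro _ ⟨c, hc, x, hx, rfl⟩; exact hW c hc x hx)
  have ha : ∀ v ∈ V, v ⬝ᵥ v = 0 := fun v hv => by
    induction hv using Submodule.span_induction with
    | mem v h => obtain ⟨c, hc, x, hx, rfl⟩ := h; exact e1 c hc x hx x hx
    | zero => simp only [dotProduct_zero]
    | add u v _ _ hu hv => exact t1_alt hu hv
    | smul l v _ h => simp only [dotProduct_smul, smul_dotProduct, h, smul_eq_mul, mul_zero]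
  have hO : ∀ c ∈ C0, ∀ v ∈ V, c ⬝ᵥ v = 0 := fun c' hc' v hv => by
    induction hv using Submodule.span_induction with
    | mem v h => obtain ⟨c, hc, x, hx, rfl⟩ := h; rw [dotProduct_comm, hev c hc x hx c' (h0 hc')]
    | zero => simp only [dotProduct_zero]
    | add u v _ _ hu hv => rw [dotProduct_add, hu, hv, add_zero]
    | smul l v _ h => simp [h]
  suffices h : ∃ (r : ℕ) (c : Fin r → ι → ZMod 2), (∀ j, c j ∈ C0) ∧
      C0 ≤ Submodule.span (ZMod 2) (Set.range c) ∧ ∀ x : Fin r → ι → ZMod 2, (∀ j, x j ∈ C) →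
        ∑ j, c j * x j = 0 → ∑ j, t1_q (c j * x j) = 0 by
    obtain ⟨r, c, h1, h2, h3⟩ := h
    obtain ⟨β, hβ⟩ := dual_rep C0 C c h1 h2 (fun a x => t1_q (a * x))
      (fun a ma a' ma' x hx => by
        rw [add_mul, t1_add (e1 a ma x hx x hx) (e1 a' ma' x hx x hx), e2 a ma a' ma' x hx, add_zero])
      (fun a ma x hx y hy => by
        rw [mul_add, t1_add (e1 a ma x hx x hx) (e1 a ma y hy y hy), e1 a ma x hx y hy, add_zero]) h3
    exact ⟨β, fun c hc x hx => by rw [t1_sg (e1 c hc x hx x hx), hβ c hc x hx]⟩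
  rcases lt_trichotomy (finrank (ZMod 2) C0) 3 with hr | hr | hr
  · obtain ⟨c, h1, h2⟩ := t1_fam C0 (Nat.le_of_lt_succ hr)
    refine ⟨2, c, h1, h2, fun x _ h => ?_⟩
    rw [Fin.sum_univ_two] at h ⊢
    rw [← add_left_inj (c 1 * x 1), add_assoc, t1_self, add_zero, zero_add] at h
    rw [h, zadd]
  · obtain ⟨c, h1, h2⟩ := t1_fam C0 hr.le
    refine ⟨3, c, h1, h2, fun x hx h => (z2 _).resolve_right fun h3 => ?_⟩
    rw [Fin.sum_univ_three] at h h3
    have m := fun a b => mV _ (h1 a) _ (hx b)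
    have hT := t1_three (fun a b a' b' => (c a * x b) ⬝ᵥ (c a' * x b')) (fun _ _ _ _ => t1_dot _ _ _ _)
      (fun _ _ _ _ => dotProduct_comm _ _) (fun a b b' => e1 _ (h1 a) _ (hx b) _ (hx b'))
      (fun a b a' => e2 _ (h1 a) _ (h1 a') _ (hx b))
      (fun a b => by rw [← dotProduct_add, ← dotProduct_add, h, dotProduct_zero]) (by
        have h4 := t1_add (ha _ (V.add_mem (m 0 0) (m 1 1))) (ha _ (m 2 2))
        rw [h, t1_zero, t1_add (ha _ (m 0 0)) (ha _ (m 1 1)), add_dotProduct] at h4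
        revert h3 h4
        generalize t1_q (c 0 * x 0) = p, t1_q (c 1 * x 1) = q, t1_q (c 2 * x 2) = r,
          (c 0 * x 0) ⬝ᵥ (c 1 * x 1) = s, (c 0 * x 0) ⬝ᵥ (c 2 * x 2) = t,
          (c 1 * x 1) ⬝ᵥ (c 2 * x 2) = u
        revert p q r s t u
        decide)
    let A : Fin 8 → Fin 3 := ![0, 1, 0, 1, 0, 2, 1, 2]
    let B : Fin 8 → Fin 3 := ![0, 1, 1, 0, 2, 0, 2, 1]
    let A' : Fin 8 → Fin 3 := ![1, 0, 1, 0, 2, 0, 2, 1]
    let B' : Fin 8 → Fin 3 := ![1, 0, 0, 1, 0, 2, 1, 2]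
    have h5 := t1_gram hle (fun i => c (A i) * x (B i)) (fun i => c (A' i) * x (B' i))
      (fun i => hV (m _ _)) (fun i j => (hT _ _ _ _).trans (if_congr
        ((by decide : ∀ i j, A i ≠ A' j ∧ B i ≠ B' j ∧ A i + A' j = B i + B' j ↔ i = j) i j) rfl rfl))
      fun a ma i => hO a ma _ (m _ _)
    rw [Fintype.card_fin] at h5
    omega
  obtain ⟨c, h1, h2⟩ := t1_fam C0 le_rfl
  suffices h : ∃ p : (ι → ZMod 2) → ZMod 2, (∀ c ∈ C0, ∀ x ∈ C, p (c * x) = 0) ∧ p 0 = 0 ∧
      ∀ u ∈ V, ∀ v ∈ V, p (u + v) = p u + p v + u ⬝ᵥ v by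
    obtain ⟨p, p1, p2, p3⟩ := h
    refine ⟨_, c, h1, h2, fun x hx h => ?_⟩
    have : ∀ S : Finset (Fin (finrank (ZMod 2) C0)),
        t1_q (∑ j ∈ S, c j * x j) + p (∑ j ∈ S, c j * x j) = ∑ j ∈ S, t1_q (c j * x j) := by
      intro S
      induction S using Finset.induction_on with
      | empty => simp [t1_zero, p2]
      | insert j S hj ih =>
        have m1 := mV _ (h1 j) _ (hx j)
        have m2 : ∑ j ∈ S, c j * x j ∈ V := V.sum_mem fun j _ => mV _ (h1 j) _ (hx j)
        rw [Finset.sum_insert hj, Finset.sum_insert hj, t1_add (ha _ m1) (ha _ m2), p3 _ m1 _ m2,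
          p1 _ (h1 j) _ (hx j), ← ih]
        linear_combination zadd ((c j * x j) ⬝ᵥ ∑ j ∈ S, c j * x j)
    rw [← this, h, t1_zero, p2, add_zero]
  by_cases hF : ∀ a ∈ C0, ∀ x ∈ C, ∀ b ∈ C0, ∀ y ∈ C, (a * x) ⬝ᵥ (b * y) = 0
  · refine ⟨0, fun _ _ _ _ => rfl, rfl, fun u hu v hv => ?_⟩
    suffices u ⬝ᵥ v = 0 by simp only [Pi.zero_apply, add_zero, this]
    induction hu, hv using Submodule.span_induction₂ with
    | mem_mem u v hu hv =>
      obtain ⟨a, ma, x, hx, rfl⟩ := hu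
      obtain ⟨b, mb, y, hy, rfl⟩ := hv
      exact hF a ma x hx b mb y hy
    | zero_left => simp only [zero_dotProduct]
    | zero_right => simp
    | add_left _ _ _ _ _ _ h h' => rw [add_dotProduct, h, h', add_zero]
    | add_right _ _ _ _ _ _ h h' => rw [dotProduct_add, h, h', add_zero]
    | smul_left _ _ _ _ _ h => simp [h]
    | smul_right _ _ _ _ _ h => simp [h]
  push Not at hF
  obtain ⟨a, ma, x, hx, b, mb, y, hy, hF⟩ := hF
  replace hF := (z2 _).resolve_left hF
  have h4 : ∀ u ∈ V, ∀ v ∈ V, u ⬝ᵥ v = u ⬝ᵥ (a * x) * v ⬝ᵥ (b * y) + u ⬝ᵥ (b * y) * v ⬝ᵥ (a * x) +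
      u ⬝ᵥ (a * y) * v ⬝ᵥ (b * x) + u ⬝ᵥ (b * x) * v ⬝ᵥ (a * y) := fun u hu v hv => by
    by_contra hn
    have := t1_six hle hV hO ha (mV a ma x hx) (mV b mb y hy) (mV a ma y hy) (mV b mb x hx) hu hv hF
      ((t1_dot _ _ _ _).trans hF) (e1 a ma x hx y hy) (e2 a ma b mb x hx) (e2 b mb a ma y hy)
      (e1 b mb y hy x hx) hn
    omega
  refine ⟨fun v => v ⬝ᵥ (a * x) * v ⬝ᵥ (b * y) + v ⬝ᵥ (a * y) * v ⬝ᵥ (b * x), fun d md z hz => ?_,
    by simp only [zero_dotProduct, mul_zero, add_zero], fun u hu v hv => ?_⟩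
  · have q1 := h4 _ (mV d md x hx) _ (mV a ma z hz)
    have q2 := h4 _ (mV d md y hy) _ (mV b mb z hz)
    have q3 := h4 _ (mV d md y hy) _ (mV a ma z hz)
    have q4 := h4 _ (mV d md x hx) _ (mV b mb z hz)
    simp only [e1 a ma z hz x hx, e1 a ma z hz y hy, e1 b mb z hz x hx, e1 b mb z hz y hy,
      e2 d md a ma x hx, e2 d md b mb x hx, e2 d md a ma y hy, e2 d md b mb y hy, mul_zero,
      zero_mul, add_zero, zero_add] at q1 q2 q3 q4
    beta_reduce
    rw [t1_dot d z a x, t1_dot d z b y, t1_dot d z a y, t1_dot d z b x, q1, q2, q3, q4,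
      t1_dot d y a x, t1_dot d y b x, dotProduct_comm (b * z) (a * x), t1_dot a x b z,
      dotProduct_comm (b * z) (a * y), t1_dot a y b z]
    linear_combination zadd ((d * x) ⬝ᵥ (a * y) * (a * z) ⬝ᵥ (b * x) * (d * x) ⬝ᵥ (b * y) *
      (a * z) ⬝ᵥ (b * y))
  · beta_reduce
    rw [h4 u hu v hv]
    simp only [add_dotProduct]
    ring

end Pool.Agent.MP_7af562_mp.H78

end

-- part MP_7af562_mp.H78.Core
section

set_option linter.unusedSectionVars false

namespace Pool.Agent.MP_7af562_mp.H78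

open Matrix Module

variable {ι : Type} [Fintype ι] [DecidableEq ι]

theorem core_vv (v : ι → ZMod 2) : v * v = v := by
  ext i; exact zmul _

theorem core_pr_zero (ν : ι → ℂ) : pr ν 0 = 1 := by simp only [pr, Pi.zero_apply, zero_ne_one, ↓ reduceIte, Finset.prod_const_one]

theorem core_pr_ne {ν : ι → ℂ} (hν : ∀ i, ν i ≠ 0) (v : ι → ZMod 2) : pr ν v ≠ 0 := by
  refine Finset.prod_ne_zero_iff.mpr fun i _ => ?_
  split_ifs
  · exact hν i
  · exact one_ne_zero

theorem core_pr_mul (ν μ : ι → ℂ) (v : ι → ZMod 2) :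
    pr (fun i => ν i * μ i) v = pr ν v * pr μ v := by
  unfold pr
  rw [← Finset.prod_mul_distrib]
  refine Finset.prod_congr rfl fun i _ => ?_
  split_ifs <;> simp

theorem core_pr_sq (ν : ι → ℂ) (v : ι → ZMod 2) : pr (fun i => ν i ^ 2) v = pr ν v ^ 2 := by
  simp only [sq, core_pr_mul]

theorem core_pr_sg (s v : ι → ZMod 2) : pr (fun i => sg (s i)) v = sg (s ⬝ᵥ v) := by
  unfold pr dotProduct
  rw [sg_sum]
  refine Finset.prod_congr rfl fun i _ => ?_
  rcases z2 (v i) with h | h <;> simp only [h, zero_ne_one, ↓ reduceIte, mul_zero, sg_zero, mul_one]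

theorem core_pr_ind (a : ℂ) (e v : ι → ZMod 2) :
    pr (fun i => if e i = 1 then a else 1) v = pr (fun _ => a) (e * v) := by
  unfold pr
  refine Finset.prod_congr rfl fun i _ => ?_
  rcases z2 (v i) with h | h <;> rcases z2 (e i) with h' | h' <;> simp only [h, zero_ne_one, ↓ reduceIte, Pi.mul_apply, h', mul_zero, mul_one]

theorem core_pr_drop (ν : ι → ℂ) (i : ι) (v : ι → ZMod 2) (hv : v i = 0) :
    pr (Function.update ν i 1) v = pr ν v := by
  unfold pr
  refine Finset.prod_congr rfl fun k _ => ?_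
  by_cases h : k = i
  · subst h; simp only [hv, zero_ne_one, ↓ reduceIte]
  · rw [Function.update_of_ne h]

theorem core_pr_one (a : ℂ) (i : ι) (v : ι → ZMod 2) :
    pr (Function.update (fun _ => 1) i a) v = if v i = 1 then a else 1 := by
  unfold pr
  rw [Finset.prod_eq_single i]
  · rw [Function.update_self]
  · intro k _ h; rw [Function.update_of_ne h]; simp
  · intro h; exact absurd (Finset.mem_univ i) h

theorem core_pr_move (ν : ι → ℂ) (i j : ι) (v : ι → ZMod 2) (hv : v i = v j) :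
    pr (fun k => Function.update ν i 1 k * Function.update (fun _ => (1 : ℂ)) j (ν i) k) v
      = pr ν v := by
  have e : ν = fun k => Function.update ν i 1 k * Function.update (fun _ => (1 : ℂ)) i (ν i) k := by
    ext k
    by_cases h : k = i
    · subst h; simp
    · simp [Function.update_of_ne h]
  conv_rhs => rw [e]
  rw [core_pr_mul, core_pr_mul, core_pr_one, core_pr_one, hv]

/-- the discrete logarithm of a sign -/
noncomputable def core_lg (a : ℂ) : ZMod 2 := if a = 1 then 0 else 1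

theorem core_sg_lg {a : ℂ} (h : a ^ 2 = 1) : sg (core_lg a) = a := by
  unfold core_lg
  rcases sq_eq_one_iff.mp h with e | e
  · simp [e]
  · rw [e, if_neg (by norm_num)]; simp

theorem core_lg_mul {a b c : ℂ} (ha : a ^ 2 = 1) (hb : b ^ 2 = 1) (hc : c = a * b) :
    core_lg c = core_lg a + core_lg b := by
  apply sg_inj
  rw [sg_add, core_sg_lg ha, core_sg_lg hb, core_sg_lg (by rw [hc, mul_pow, ha, hb, one_mul]), hc]

theorem core_small (C0 C : Submodule (ZMod 2) (ι → ZMod 2)) (h0 : C0 ≤ C)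
    (hr : finrank (ZMod 2) C0 ≤ 2) (ν : ι → ℂ)
    (h3 : ∀ c ∈ C0, ∀ x ∈ C, ∀ y ∈ C, pr ν (c * x * y) ^ 2 = 1) :
    ∃ β : ι → ZMod 2, ∀ c ∈ C0, ∀ x ∈ C, pr ν (c * x) = sg (β ⬝ᵥ (c * x)) := by
  have h2 : ∀ c ∈ C0, ∀ x ∈ C, pr ν (c * x) ^ 2 = 1 := fun c hc x hx => by
    have := h3 c hc x hx x hx
    rwa [mul_assoc, core_vv] at this
  obtain ⟨r, hr'⟩ : ∃ r, finrank (ZMod 2) C0 = r := ⟨_, rfl⟩
  let b := Module.finBasisOfFinrankEq (ZMod 2) C0 hr'
  obtain ⟨β, hβ⟩ := dual_rep C0 C (fun j => (b j : ι → ZMod 2)) (fun j => (b j).2)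
    (fun a ha => by
      have h1 : (⟨a, ha⟩ : C0) ∈ Submodule.span (ZMod 2) (Set.range b) := by
        rw [b.span_eq]; trivial
      have h4 := Submodule.mem_map_of_mem (f := C0.subtype) h1
      rw [Submodule.map_span, ← Set.range_comp] at h4
      exact h4)
    (fun a x => core_lg (pr ν (a * x)))
    (fun a ha a' ha' x hx => by
      refine core_lg_mul (h2 a ha x hx) (h2 a' ha' x hx) ?_
      have h1 := pr_add ν (a * x) (a' * x)
      have e : a * x * (a' * x) = a * a' * x := by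
        rw [mul_mul_mul_comm, core_vv]
      rw [e, h3 a ha a' (h0 ha') x hx, mul_one, ← add_mul] at h1
      exact h1)
    (fun a ha x hx x' hx' => by
      refine core_lg_mul (h2 a ha x hx) (h2 a ha x' hx') ?_
      have h1 := pr_add ν (a * x) (a * x')
      have e : a * x * (a * x') = a * x * x' := by
        rw [mul_mul_mul_comm, core_vv, mul_assoc]
      rw [e, h3 a ha x hx x' hx', mul_one, ← mul_add] at h1
      exact h1)
    (fun x _ hs => by
      have hr2 : r ≤ 2 := hr' ▸ hr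
      clear_value b
      clear hr' hr
      interval_cases r
      · simp
      · rw [Fin.sum_univ_one] at hs ⊢
        rw [hs, core_pr_zero]; simp [core_lg]
      · rw [Fin.sum_univ_two] at hs ⊢
        have e : (b 0 : ι → ZMod 2) * x 0 = (b 1 : ι → ZMod 2) * x 1 := by
          ext i
          have h5 := congrFun hs i
          rw [Pi.add_apply, Pi.zero_apply] at h5
          have h6 := zadd (((b 1 : ι → ZMod 2) * x 1) i)
          exact add_right_cancel (h5.trans h6.symm)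
        rw [e]; exact zadd _)
  exact ⟨β, fun c hc x hx => by rw [← hβ c hc x hx, core_sg_lg (h2 c hc x hx)]⟩

theorem core_four (C0 C W : Submodule (ZMod 2) (ι → ZMod 2)) (h0 : C0 ≤ C)
    (hW : ∀ w, (∀ x ∈ C, w ⬝ᵥ x = 0) → w ∈ W)
    (hdim : finrank (ZMod 2) W + finrank (ZMod 2) C0 ≤ 13)
    (ν : ι → ℂ) (h4 : ∀ i, ν i ^ 4 = 1)
    (h3 : ∀ c ∈ C0, ∀ x ∈ C, ∀ y ∈ C, pr ν (c * x * y) ^ 2 = 1) :
    ∃ β : ι → ZMod 2, ∀ c ∈ C0, ∀ x ∈ C, pr ν (c * x) = sg (β ⬝ᵥ (c * x)) := by
  have hs : ∀ i, ∃ e s : ZMod 2, ν i = (if e = 1 then Complex.I else 1) * sg s ∧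
      ν i ^ 2 = sg e := fun i => by
    have h1 : (ν i - 1) * (ν i + 1) * ((ν i - Complex.I) * (ν i + Complex.I)) = 0 := by
      linear_combination h4 i - (ν i ^ 2 - 1) * Complex.I_sq
    rcases mul_eq_zero.mp h1 with h | h <;> rcases mul_eq_zero.mp h with h | h
    · exact ⟨0, 0, by simp only [sub_eq_zero.mp h, zero_ne_one, ↓ reduceIte, sg_zero, mul_one], by simp [sub_eq_zero.mp h]⟩
    · exact ⟨0, 1, by simp only [eq_neg_of_add_eq_zero_left h, zero_ne_one, ↓ reduceIte, sg_one, mul_neg, mul_one], by simp only [eq_neg_of_add_eq_zero_left h, even_two, Even.neg_pow, one_pow, sg_zero]⟩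
    · exact ⟨1, 0, by simp [sub_eq_zero.mp h], by simp [sub_eq_zero.mp h]⟩
    · exact ⟨1, 1, by simp [eq_neg_of_add_eq_zero_left h], by simp only [eq_neg_of_add_eq_zero_left h, even_two, Even.neg_pow, Complex.I_sq, sg_one]⟩
  choose e s hs1 hs2 using hs
  have hp : ∀ v, pr ν v = pr (fun _ => Complex.I) (e * v) * sg (s ⬝ᵥ v) := fun v => by
    rw [← core_pr_ind, ← core_pr_sg, ← core_pr_mul]
    exact congrArg (fun f => pr f v) (funext hs1)
  have hq : ∀ c ∈ C0, ∀ x ∈ C, ∀ y ∈ C, (e * c * (e * x)) ⬝ᵥ y = 0 := fun c hc x hx y hy => by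
    have h1 := h3 c hc x hx y hy
    rw [← core_pr_sq, show (fun i => ν i ^ 2) = fun i => sg (e i) from funext hs2, core_pr_sg,
      ← sg_zero] at h1
    rw [← sg_inj h1, mul_mul_mul_comm, core_vv]
    simp only [dotProduct, Pi.mul_apply, mul_assoc]
  obtain ⟨β, hβ⟩ := rep_of_even (C0.map (LinearMap.mulLeft (ZMod 2) e))
    (C.map (LinearMap.mulLeft (ZMod 2) e)) W (Submodule.map_mono h0)
    (by
      rintro _ ⟨c, hc, rfl⟩ _ ⟨x, hx, rfl⟩
      exact hW _ (hq c hc x hx))
    (by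
      rintro _ ⟨c, hc, rfl⟩ _ ⟨x, hx, rfl⟩ _ ⟨y, hy, rfl⟩
      rw [← hq c hc x hx y hy]
      simp only [dotProduct, LinearMap.mulLeft_apply, Pi.mul_apply]
      refine Finset.sum_congr rfl fun i _ => ?_
      rcases z2 (e i) with h | h <;> simp [h])
    (le_trans (Nat.add_le_add_left (Submodule.finrank_map_le _ _) _) hdim)
  refine ⟨β * e + s, fun c hc x hx => ?_⟩
  have h1 := hβ _ ⟨c, hc, rfl⟩ _ ⟨x, hx, rfl⟩
  simp only [LinearMap.mulLeft_apply] at h1
  rw [mul_mul_mul_comm, core_vv] at h1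
  rw [hp, h1, ← sg_add, add_dotProduct]
  simp only [dotProduct, Pi.mul_apply, mul_assoc]

theorem core_big (C0 C W : Submodule (ZMod 2) (ι → ZMod 2)) (h0 : C0 ≤ C)
    (hW : ∀ w, (∀ x ∈ C, w ⬝ᵥ x = 0) → w ∈ W)
    (hdim : finrank (ZMod 2) W + finrank (ZMod 2) C0 ≤ 13) (h10 : finrank (ZMod 2) W ≤ 10)
    (n : ℕ) : ∀ (ν : ι → ℂ), (Finset.univ.filter fun i => ν i ^ 2 ≠ 1).card = n → (∀ i, ν i ≠ 0) →
    (∀ c ∈ C0, ∀ x ∈ C, ∀ y ∈ C, pr ν (c * x * y) ^ 2 = 1) →
    ∃ β : ι → ZMod 2, ∀ c ∈ C0, ∀ x ∈ C, pr ν (c * x) = sg (β ⬝ᵥ (c * x)) := by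
  induction n using Nat.strong_induction_on with
  | _ n ih =>
  intro ν hn hν h3
  by_cases hA : ∃ i, ν i ^ 2 ≠ 1 ∧ ∀ c ∈ C0, c i = 0
  · obtain ⟨i, hi, hc0⟩ := hA
    have hlt : (Finset.univ.filter fun k => Function.update ν i 1 k ^ 2 ≠ 1).card < n := by
      rw [← hn]
      refine Finset.card_lt_card ⟨fun k hk => ?_, fun h => ?_⟩
      · rw [Finset.mem_filter] at hk ⊢
        by_cases h : k = i
        · subst h; exact ⟨hk.1, hi⟩
        · rwa [Function.update_of_ne h] at hk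
      · have := h (Finset.mem_filter.mpr ⟨Finset.mem_univ i, hi⟩)
        simp only [ne_eq, sq_eq_one_iff, not_or, Finset.mem_filter, Finset.mem_univ, Function.update_self, not_true_eq_false, false_and, and_false] at this
    obtain ⟨β, hβ⟩ := ih _ hlt (Function.update ν i 1) rfl
      (fun k => by
        by_cases h : k = i
        · subst h; simp
        · rw [Function.update_of_ne h]; exact hν k)
      (fun c hc x hx y hy => by
        rw [core_pr_drop ν i _ (by simp [hc0 c hc])]; exact h3 c hc x hx y hy)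
    exact ⟨β, fun c hc x hx => by
      rw [← hβ c hc x hx, core_pr_drop ν i _ (by simp [hc0 c hc])]⟩
  by_cases hB : ∃ i j, i ≠ j ∧ ν i ^ 2 ≠ 1 ∧ ν j ^ 2 ≠ 1 ∧ ∀ x ∈ C, x i = x j
  · obtain ⟨i, j, hij, hi, hj, hx0⟩ := hB
    have hlt : (Finset.univ.filter fun k => (Function.update ν i 1 k *
        Function.update (fun _ => (1 : ℂ)) j (ν i) k) ^ 2 ≠ 1).card < n := by
      rw [← hn]
      refine Finset.card_lt_card ⟨fun k hk => ?_, fun h => ?_⟩
      · rw [Finset.mem_filter] at hk ⊢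
        by_cases h : k = i
        · subst h; exact ⟨hk.1, hi⟩
        · by_cases h' : k = j
          · subst h'; exact ⟨hk.1, hj⟩
          · rwa [Function.update_of_ne h, Function.update_of_ne h', mul_one] at hk
      · have := h (Finset.mem_filter.mpr ⟨Finset.mem_univ i, hi⟩)
        simp only [ne_eq, sq_eq_one_iff, not_or, Finset.mem_filter, Finset.mem_univ, Function.update_self, Function.update_of_ne hij, mul_one, not_true_eq_false, false_and, and_false] at this
    obtain ⟨β, hβ⟩ := ih _ hlt _ rfl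
      (fun k => by
        refine mul_ne_zero ?_ ?_
        · by_cases h : k = i
          · subst h; simp
          · rw [Function.update_of_ne h]; exact hν k
        · by_cases h : k = j
          · subst h; simpa using hν i
          · rw [Function.update_of_ne h]; exact one_ne_zero)
      (fun c hc x hx y hy => by
        rw [core_pr_move ν i j _ (by simp [hx0 c (h0 hc), hx0 x hx, hx0 y hy])]
        exact h3 c hc x hx y hy)
    exact ⟨β, fun c hc x hx => by
      rw [← hβ c hc x hx, core_pr_move ν i j _ (by simp [hx0 c (h0 hc), hx0 x hx])]⟩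
  refine core_four C0 C W h0 hW hdim ν (fun i => ?_) h3
  by_contra h4
  have hi : ν i ^ 2 ≠ 1 := fun h => h4 (by
    rw [show ν i ^ 4 = (ν i ^ 2) ^ 2 by ring, h, one_pow])
  push Not at hA hB
  obtain ⟨c, hc, hci⟩ := hA i hi
  have := big_of_order_eight C W hW ν hν c (h0 hc) (fun a b hab ha hb => hB a b hab ha hb)
    (h3 c hc) i ((z2 _).resolve_left hci) h4
  omega

/-- The core lemma. `W` is any subspace containing every vector orthogonal to `C`. -/
theorem core (C0 C W : Submodule (ZMod 2) (ι → ZMod 2)) (h0 : C0 ≤ C)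
    (hW : ∀ w, (∀ x ∈ C, w ⬝ᵥ x = 0) → w ∈ W)
    (hdim : finrank (ZMod 2) W + finrank (ZMod 2) C0 ≤ 13)
    (ν : ι → ℂ) (hν : ∀ i, ν i ≠ 0)
    (h3 : ∀ c ∈ C0, ∀ x ∈ C, ∀ y ∈ C, pr ν (c * x * y) ^ 2 = 1) :
    ∃ β : ι → ZMod 2, ∀ c ∈ C0, ∀ x ∈ C, pr ν (c * x) = sg (β ⬝ᵥ (c * x)) := by
  rcases le_or_gt (finrank (ZMod 2) C0) 2 with h | h
  · exact core_small C0 C h0 h ν h3
  · exact core_big C0 C W h0 hW hdim (by omega) _ ν rfl hν h3

/-- The phase lemma: first differences of `pr μ` along `C0` that are affine signs on `C` are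
realised by fourth roots of unity. -/
theorem phase (C0 C W : Submodule (ZMod 2) (ι → ZMod 2)) (h0 : C0 ≤ C)
    (hW : ∀ w, (∀ x ∈ C, w ⬝ᵥ x = 0) → w ∈ W)
    (hdim : finrank (ZMod 2) W + finrank (ZMod 2) C0 ≤ 13)
    (μ : ι → ℂ) (hμ : ∀ i, μ i ≠ 0)
    (hd : ∀ c ∈ C0, ∃ (κ : ℂ) (ζ : ι → ZMod 2), ∀ x ∈ C,
      pr μ (x + c) = κ * sg (ζ ⬝ᵥ x) * pr μ x) :
    ∃ b : ι → ℂ, (∀ i, b i ^ 4 = 1) ∧
      ∀ c ∈ C0, ∀ x ∈ C, pr b (x + c) * pr μ x = pr μ (x + c) * pr b x := by
  have h1 : ∀ c ∈ C0, ∃ ζ : ι → ZMod 2, ∀ x ∈ C,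
      pr (fun i => μ i ^ 2) (c * x) = sg (ζ ⬝ᵥ x) := fun c hc => by
    obtain ⟨κ, ζ, h⟩ := hd c hc
    have hk := h 0 C.zero_mem
    rw [zero_add, dotProduct_zero, sg_zero, core_pr_zero, mul_one, mul_one] at hk
    refine ⟨ζ, fun x hx => ?_⟩
    have ha := pr_add μ x c
    rw [h x hx, ← hk, mul_comm x c] at ha
    rw [core_pr_sq]
    have hb : (pr μ x * pr μ c) * (sg (ζ ⬝ᵥ x) * pr μ (c * x) ^ 2 - 1) = 0 := by
      linear_combination ha
    have hc' := (mul_eq_zero.mp hb).resolve_left (mul_ne_zero (core_pr_ne hμ _) (core_pr_ne hμ _))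
    linear_combination sg (ζ ⬝ᵥ x) * hc' - pr μ (c * x) ^ 2 * sg_sq (ζ ⬝ᵥ x)
  obtain ⟨β, hβ⟩ := core C0 C W h0 hW hdim (fun i => μ i ^ 2) (fun i => pow_ne_zero _ (hμ i))
    (fun c hc x hx y hy => by
      obtain ⟨ζ, h⟩ := h1 c hc
      have ha := pr_add (fun i => μ i ^ 2) (c * x) (c * y)
      rw [mul_mul_mul_comm, core_vv, ← mul_assoc, ← mul_add, h x hx, h y hy,
        h _ (C.add_mem hx hy), dotProduct_add, sg_add] at ha
      exact mul_left_cancel₀ (mul_ne_zero (sg_ne _) (sg_ne _)) (ha.trans (mul_one _).symm))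
  let b0 : ι → ℂ := fun i => if β i = 1 then Complex.I else 1
  have b0ne : ∀ i, b0 i ≠ 0 := fun i => by
    simp only [b0]; split_ifs <;> simp
  have b0sq : ∀ i, b0 i ^ 2 = sg (β i) := fun i => by
    simp only [b0]; rcases z2 (β i) with h | h <;> simp only [h, zero_ne_one, ↓ reduceIte, one_pow, sg_zero, Complex.I_sq, sg_one]
  have h2 : ∀ c ∈ C0, ∀ x ∈ C, pr b0 (c * x) ^ 2 = pr μ (c * x) ^ 2 := fun c hc x hx => by
    rw [← core_pr_sq, ← core_pr_sq, hβ c hc x hx, ← core_pr_sg]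
    exact congrArg (fun f => pr f (c * x)) (funext b0sq)
  have h3 : ∀ c ∈ C0, (pr μ c / pr b0 c) ^ 2 = 1 := fun c hc => by
    have := h2 c hc c (h0 hc)
    rw [core_vv] at this
    rw [div_pow, this, div_self (pow_ne_zero _ (core_pr_ne hμ _))]
  let f : C0 →+ ZMod 2 := AddMonoidHom.mk' (fun c => core_lg (pr μ c / pr b0 c)) fun c c' => by
    refine core_lg_mul (h3 c c.2) (h3 c' c'.2) ?_
    have ha := pr_add μ c c'
    have hb := pr_add b0 c c'
    rw [h2 c c.2 c' (h0 c'.2)] at hb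
    have hs : pr μ ((c : ι → ZMod 2) * c') ^ 2 ≠ 0 := pow_ne_zero _ (core_pr_ne hμ _)
    rw [div_mul_div_comm, ← ha, ← hb, mul_div_mul_right _ _ hs, Submodule.coe_add]
  obtain ⟨g, hg⟩ := LinearMap.exists_extend (f.toZModLinearMap 2)
  let z : ι → ZMod 2 := fun i => g (Pi.single i 1)
  have hz : ∀ v, z ⬝ᵥ v = g v := fun v => by
    conv_rhs => rw [← Finset.univ_sum_single v, map_sum]
    refine Finset.sum_congr rfl fun i _ => ?_
    rcases z2 (v i) with h | h <;> simp [h, z]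
  have hb : ∀ v, pr (fun i => b0 i * sg (z i)) v = pr b0 v * sg (g v) := fun v => by
    rw [core_pr_mul, core_pr_sg, hz]
  refine ⟨fun i => b0 i * sg (z i), fun i => ?_, fun c hc x hx => ?_⟩
  · rw [show (b0 i * sg (z i)) ^ 4 = (b0 i ^ 2 * b0 i ^ 2) * ((sg (z i) * sg (z i)) ^ 2) by ring,
      b0sq, sg_sq, sg_sq]
    norm_num
  · have e1 : pr (fun i => b0 i * sg (z i)) c = pr μ c := by
      have h4 : g c = core_lg (pr μ c / pr b0 c) := LinearMap.congr_fun hg ⟨c, hc⟩
      rw [hb, h4, core_sg_lg (h3 c hc), mul_div_cancel₀ _ (core_pr_ne b0ne _)]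
    have e2 : pr (fun i => b0 i * sg (z i)) (x * c) ^ 2 = pr μ (x * c) ^ 2 := by
      rw [hb, mul_pow, mul_comm x c, h2 c hc x hx, sq (sg _), sg_sq, mul_one]
    have ha := pr_add (fun i => b0 i * sg (z i)) x c
    have hm := pr_add μ x c
    rw [e1, e2] at ha
    refine mul_right_cancel₀ (pow_ne_zero 2 (core_pr_ne hμ (x * c))) ?_
    linear_combination pr μ x * ha - pr (fun i => b0 i * sg (z i)) x * hm

end Pool.Agent.MP_7af562_mp.H78

end
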