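import Pool.Agent.MP_7af562_mp.Mg.H78_Core

attribute [-instance] RCLike.charZero_rclike Unique.instSubsingleton instCharZeroOfIsSemireal
  SemilatticeInf.toPartialOrder NonUnitalAlgSemiHomClass.toDistribMulActionSemiHomClass
  IsStarProjection.instTrivialStarOfStarOrderedRing CategoryTheory.CommGrpObj.toGrpObj
  NonUnitalNormedRing.toNormedAddCommGroup CommMonTypeEquivalenceCommMon.commMonCommMonoid
  CompleteLattice.toCompletePartialOrder IdemSemiring.toSemiring Prod.instNonAssocSemiring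
  MonTypeEquivalenceMon.monMonoid Module.FaithfullyFlat.toFlat
  Group.IsPerfect.subsingleton_of_isMulCommutative bot_nonempty
  LieAdmissibleRing.toNonUnitalNonAssocRing

-- part MP_7af562_mp.H78.Step2
section

set_option linter.unusedSectionVars false

namespace Pool.Agent.MP_7af562_mp.H78

open Matrix Module

variable {ι : Type} [Fintype ι] [DecidableEq ι]

/-- X-part of a label -/
def cx : (ι → Lb) →ₗ[ZMod 2] (ι → ZMod 2) where
  toFun a := fun i => (a i).1
  map_add' _ _ := rfl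
  map_smul' _ _ := rfl

/-- Z-part of a label -/
def cz (a : ι → Lb) : ι → ZMod 2 := fun i => (a i).2

/-- the label of a Z-type string -/
def emb : (ι → ZMod 2) →ₗ[ZMod 2] (ι → Lb) where
  toFun z := fun i => (0, z i)
  map_add' _ _ := by ext i <;> simp
  map_smul' _ _ := by ext i <;> simp

theorem emb_inj : Function.Injective (emb : (ι → ZMod 2) →ₗ[ZMod 2] (ι → Lb)) := by
  intro z z' h
  ext i
  exact congrArg Prod.snd (congrFun h i)

theorem cx_emb (z : ι → ZMod 2) : cx (emb z) = 0 := rfl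
theorem cz_emb (z : ι → ZMod 2) : cz (emb z) = z := rfl

theorem emb_cz {a : ι → Lb} (h : cx a = 0) : emb (cz a) = a := by
  ext i
  · exact (congrFun h i).symm
  · rfl

theorem vadd_self (x : ι → ZMod 2) : x + x = 0 := by
  ext i; exact zadd _

theorem ps_apply (a : ι → Lb) (x y : ι → ZMod 2) :
    ps a x y = if x = y + cx a then (∏ i, ph (a i)) * sg (cz a ⬝ᵥ y) else 0 := by
  simp only [ps, tensor, Matrix.of_apply, sgm]
  by_cases h : x = y + cx a
  · rw [if_pos h, dotProduct, sg_sum, ← Finset.prod_mul_distrib]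
    refine Finset.prod_congr rfl fun i _ => ?_
    exact if_pos (congrFun h i)
  · rw [if_neg h]
    obtain ⟨i, hi⟩ := Function.ne_iff.mp h
    exact Finset.prod_eq_zero (Finset.mem_univ i) (if_neg hi)

theorem ph_emb (z : ι → ZMod 2) : ∏ i, ph (emb z i) = 1 := by
  refine Finset.prod_eq_one fun i _ => ?_
  have : emb z i ≠ (1, 1) := fun e => z01 (congrArg Prod.fst e)
  simp [ph, this]

variable {L : Submodule (ZMod 2) (ι → Lb)} {χ : (ι → Lb) → ℂ}

theorem fix_entry (h : IsSt L χ) {a : ι → Lb} (ha : a ∈ L) (w y : ι → ZMod 2) :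
    RR L χ (w + cx a) y = χ a * (∏ i, ph (a i)) * sg (cz a ⬝ᵥ w) * RR L χ w y := by
  have e := congrFun (congrFun (h.fix ha) (w + cx a)) y
  rw [← e, Matrix.mul_apply, Finset.sum_eq_single w]
  · rw [Matrix.smul_apply, ps_apply, if_pos rfl, smul_eq_mul]; ring
  · intro v _ hv
    rw [Matrix.smul_apply, ps_apply, if_neg, smul_zero, zero_mul]
    intro e'
    exact hv (add_right_cancel e').symm
  · simp

/-- the condition for a basis vector to be compatible with the Z-type stabilizers -/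
def Ch (L : Submodule (ZMod 2) (ι → Lb)) (χ : (ι → Lb) → ℂ) (y : ι → ZMod 2) : Prop :=
  ∀ z, emb z ∈ L → χ (emb z) * sg (z ⬝ᵥ y) = 1

theorem ch_of_ne (h : IsSt L χ) {x y : ι → ZMod 2} (hxy : RR L χ x y ≠ 0) : Ch L χ x := by
  intro z hz
  have e := fix_entry h hz x y
  rw [cx_emb, add_zero, ph_emb, cz_emb, mul_one] at e
  have : (χ (emb z) * sg (z ⬝ᵥ x) - 1) * RR L χ x y = 0 := by linear_combination -e
  rcases mul_eq_zero.mp this with e' | e'
  · exact sub_eq_zero.mp e'
  · exact absurd e' hxy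

theorem ch_of_ne' (h : IsSt L χ) {x y : ι → ZMod 2} (hxy : RR L χ x y ≠ 0) : Ch L χ y := by
  apply ch_of_ne h (y := x)
  have e := congrFun (congrFun h.star_RR x) y
  rw [Matrix.star_apply] at e
  intro e'
  rw [e', star_zero] at e
  exact hxy e.symm

theorem ne_of_ch (L : Submodule (ZMod 2) (ι → Lb)) (χ : (ι → Lb) → ℂ) {y : ι → ZMod 2}
    (hy : Ch L χ y) : RR L χ y y ≠ 0 := by
  have e : RR L χ y y = (((els L).filter (fun a => cx a = 0)).card : ℂ) := by
    rw [RR, Matrix.sum_apply, Finset.card_filter, Nat.cast_sum]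
    refine Finset.sum_congr rfl fun a ha => ?_
    rw [Matrix.smul_apply, ps_apply, smul_eq_mul]
    by_cases hc : cx a = 0
    · rw [if_pos hc, if_pos (by rw [hc, add_zero])]
      have h1 := emb_cz hc
      have h2 := hy (cz a) (by rw [h1]; exact mem_els.mp ha)
      have h3 := ph_emb (cz a)
      rw [h1] at h2 h3
      rw [h3, one_mul, h2, Nat.cast_one]
    · rw [if_neg hc, if_neg, mul_zero, Nat.cast_zero]
      intro e'
      exact hc (left_eq_add.mp e')
  rw [e]
  exact Nat.cast_ne_zero.mpr (Finset.card_ne_zero.mpr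
    ⟨0, Finset.mem_filter.mpr ⟨mem_els.mpr L.zero_mem, map_zero _⟩⟩)

theorem ex_of_ne (L : Submodule (ZMod 2) (ι → Lb)) (χ : (ι → Lb) → ℂ) {x y : ι → ZMod 2}
    (hxy : RR L χ x y ≠ 0) : ∃ a ∈ L, x = y + cx a := by
  rw [RR, Matrix.sum_apply] at hxy
  obtain ⟨a, ha, hne⟩ := Finset.exists_ne_zero_of_sum_ne_zero hxy
  refine ⟨a, mem_els.mp ha, ?_⟩
  by_contra hc
  rw [Matrix.smul_apply, ps_apply, if_neg hc, smul_zero] at hne
  exact hne rfl

/-- the orthogonal complement for the dot product -/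
def orth (D : Submodule (ZMod 2) (ι → ZMod 2)) : Submodule (ZMod 2) (ι → ZMod 2) where
  carrier := {x | ∀ z ∈ D, z ⬝ᵥ x = 0}
  add_mem' := by
    intro x y hx hy z hz
    rw [dotProduct_add, hx z hz, hy z hz, add_zero]
  zero_mem' := by intro z _; simp only [dotProduct_zero]
  smul_mem' := by
    intro t x hx z hz
    rw [dotProduct_smul, hx z hz, smul_zero]

theorem orth_orth (D : Submodule (ZMod 2) (ι → ZMod 2)) (w : ι → ZMod 2)
    (hw : ∀ x ∈ orth D, w ⬝ᵥ x = 0) : w ∈ D := by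
  by_contra hn
  obtain ⟨f, hf, hD⟩ := D.exists_dual_map_eq_bot_of_notMem hn inferInstance
  have key : ∀ v : ι → ZMod 2, f v = v ⬝ᵥ (fun i => f fun j => if i = j then 1 else 0) := by
    intro v
    rw [LinearMap.pi_apply_eq_sum_univ f v, dotProduct]
    rfl
  apply hf
  rw [key]
  apply hw
  intro z hz
  rw [← key]
  have : f z ∈ D.map f := Submodule.mem_map_of_mem hz
  rw [hD] at this
  exact this

theorem dim_split (L : Submodule (ZMod 2) (ι → Lb)) :
    finrank (ZMod 2) (L.comap emb) + finrank (ZMod 2) (L.map cx) ≤ finrank (ZMod 2) L := by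
  have h1 := LinearMap.finrank_range_add_finrank_ker (cx.domRestrict L)
  rw [LinearMap.range_domRestrict] at h1
  have h2 : finrank (ZMod 2) (L.comap emb) ≤
      finrank (ZMod 2) (LinearMap.ker (cx.domRestrict L)) := by
    let f : L.comap emb →ₗ[ZMod 2] LinearMap.ker (cx.domRestrict L) :=
      { toFun := fun z => ⟨⟨emb z.1, z.2⟩, by
          rw [LinearMap.mem_ker, LinearMap.domRestrict_apply]; exact cx_emb _⟩
        map_add' := by intro z z'; ext1; ext1; simp
        map_smul' := by intro t z; ext1; ext1; simp only [SetLike.val_smul, map_smul, RingHom.id_apply, SetLike.mk_smul_mk] }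
    refine LinearMap.finrank_le_finrank_of_injective (f := f) ?_
    intro z z' e
    exact Subtype.ext (emb_inj (congrArg (fun t => t.1.1) e))
  omega

theorem root4 {b : ℂ} (h : b ^ 4 = 1) : b = 1 ∨ b = -1 ∨ b = Complex.I ∨ b = -Complex.I := by
  have : (b - 1) * ((b + 1) * ((b - Complex.I) * (b + Complex.I))) = 0 := by
    have := Complex.I_sq
    linear_combination h - (b ^ 2 - 1) * this
  rcases mul_eq_zero.mp this with e | e
  · exact Or.inl (sub_eq_zero.mp e)
  rcases mul_eq_zero.mp e with e | e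
  · exact Or.inr (Or.inl (eq_neg_of_add_eq_zero_left e))
  rcases mul_eq_zero.mp e with e | e
  · exact Or.inr (Or.inr (Or.inl (sub_eq_zero.mp e)))
  · exact Or.inr (Or.inr (Or.inr (eq_neg_of_add_eq_zero_left e)))

theorem root4_unit {b : ℂ} (h : b ^ 4 = 1) : star b * b = 1 := by
  rcases root4 h with rfl | rfl | rfl | rfl <;> simp

theorem prod_unit (u : ι → ℂ) (hu : ∀ i, star (u i) * u i = 1) :
    star (∏ i, u i) * ∏ i, u i = 1 := by
  rw [star_prod, ← Finset.prod_mul_distrib]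
  exact Finset.prod_eq_one fun i _ => hu i

theorem shift (u : ι → ZMod 2 → ℂ) (hu : ∀ i t, u i t ≠ 0) (y0 x : ι → ZMod 2) :
    ∏ i, u i ((y0 + x) i) =
      (∏ i, u i (y0 i)) * pr (fun i => u i (y0 i + 1) / u i (y0 i)) x := by
  rw [pr, ← Finset.prod_mul_distrib]
  refine Finset.prod_congr rfl fun i _ => ?_
  rcases z2 (x i) with e | e
  · simp only [Pi.add_apply, e, add_zero, zero_ne_one, ↓ reduceIte, mul_one]
  · have := hu i (y0 i)
    simp only [Pi.add_apply, e, if_true]
    field_simp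

/-- Step 2: a diagonal local unitary equivalence may be taken with fourth roots of unity. -/
theorem step2 {L L' : Submodule (ZMod 2) (ι → Lb)} {χ χ' : (ι → Lb) → ℂ}
    (h : IsSt L χ) (h' : IsSt L' χ') (hdim : finrank (ZMod 2) L ≤ 13)
    (u : ι → ZMod 2 → ℂ) (hu : ∀ i t, star (u i t) * u i t = 1)
    (e : ∀ x y, RR L' χ' x y = (∏ i, u i (x i)) * RR L χ x y * star (∏ i, u i (y i))) :
    ∃ d : ι → ZMod 2 → ℂ, (∀ i t, d i t ^ 4 = 1) ∧
      ∀ x y, RR L' χ' x y = (∏ i, d i (x i)) * RR L χ x y * star (∏ i, d i (y i)) := by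
  have hu0 : ∀ i t, u i t ≠ 0 := fun i t e0 => by
    have := hu i t
    rw [e0, mul_zero] at this
    exact zero_ne_one this
  have hU : ∀ x : ι → ZMod 2, star (∏ i, u i (x i)) * ∏ i, u i (x i) = 1 :=
    fun x => prod_unit _ fun i => hu i _
  have hU0 : ∀ x : ι → ZMod 2, ∏ i, u i (x i) ≠ 0 :=
    fun x => Finset.prod_ne_zero_iff.mpr fun i _ => hu0 i _
  obtain ⟨y0, hy0⟩ : ∃ y0, RR L χ y0 y0 ≠ 0 := by
    by_contra hn
    push Not at hn
    have := h.trace_RR
    have t0 : (RR L χ).trace = 0 := Finset.sum_eq_zero (fun y _ => hn y)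
    rw [t0] at this
    exact pow_ne_zero _ two_ne_zero this.symm
  have c0 : Ch L χ y0 := ch_of_ne h hy0
  have memC : ∀ y, Ch L χ y → y0 + y ∈ orth (L.comap emb) := by
    intro y hy z hz
    apply sg_inj
    have h1 := c0 z hz
    have h2 := hy z hz
    have h3 := h.mul_self (a := emb z) hz
    rw [dotProduct_add, sg_add, sg_zero]
    linear_combination (χ (emb z) * sg (z ⬝ᵥ y)) * h1 + h2 - sg (z ⬝ᵥ y0) * sg (z ⬝ᵥ y) * h3
  have chC : ∀ x ∈ orth (L.comap emb), Ch L χ (y0 + x) := by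
    intro x hx z hz
    rw [dotProduct_add, hx z hz, add_zero]
    exact c0 z hz
  have eta : ∀ {M : Submodule (ZMod 2) (ι → Lb)} {ψ : (ι → Lb) → ℂ}, IsSt M ψ → ∀ a ∈ M,
      ψ a * ∏ i, ph (a i) ≠ 0 := fun hM a ha =>
    mul_ne_zero (hM.ne ha) (Finset.prod_ne_zero_iff.mpr fun i _ => ph_ne _)
  have offd : ∀ a ∈ L, RR L χ (y0 + cx a) y0 ≠ 0 := by
    intro a ha
    rw [fix_entry h ha]
    exact mul_ne_zero (mul_ne_zero (eta h a ha) (sg_ne _)) hy0
  have h0 : L.map cx ≤ orth (L.comap emb) := by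
    rintro _ ⟨a, ha, rfl⟩
    have := memC _ (ch_of_ne h (offd a ha))
    rwa [← add_assoc, vadd_self, zero_add] at this
  set μ : ι → ℂ := fun i => u i (y0 i + 1) / u i (y0 i) with hμ
  have hμ0 : ∀ i, μ i ≠ 0 := fun i => div_ne_zero (hu0 _ _) (hu0 _ _)
  obtain ⟨b, hb4, hb⟩ := phase (L.map cx) (orth (L.comap emb)) (L.comap emb) h0
    (orth_orth _) ((dim_split L).trans hdim) μ hμ0 (by
      rintro _ ⟨a, ha, rfl⟩
      have n1 : RR L' χ' (y0 + cx a) y0 ≠ 0 := by
        rw [e]
        exact mul_ne_zero (mul_ne_zero (hU0 _) (offd a ha)) (star_ne_zero.mpr (hU0 _))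
      obtain ⟨a', ha', ea⟩ := ex_of_ne L' χ' n1
      have ec : cx a = cx a' := add_left_cancel ea
      refine ⟨(χ' a' * ∏ i, ph (a' i)) / (χ a * ∏ i, ph (a i)) * sg ((cz a + cz a') ⬝ᵥ y0),
        cz a + cz a', fun x hx => ?_⟩
      have r0 := ne_of_ch L χ (chC x hx)
      have e1 := fix_entry h ha (y0 + x) (y0 + x)
      have e2 := fix_entry h' ha' (y0 + x) (y0 + x)
      rw [← ec, e, e, e1] at e2
      have s1 := shift u hu0 y0 x
      have s2 := shift u hu0 y0 (x + cx a)
      rw [← add_assoc] at s2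
      have n2 : star (∏ i, u i ((y0 + x) i)) ≠ 0 := star_ne_zero.mpr (hU0 _)
      have e3 : (∏ i, u i ((y0 + x + cx a) i)) *
          ((χ a * ∏ i, ph (a i)) * sg (cz a ⬝ᵥ (y0 + x))) =
          (χ' a' * ∏ i, ph (a' i)) * sg (cz a' ⬝ᵥ (y0 + x)) * ∏ i, u i ((y0 + x) i) := by
        apply mul_right_cancel₀ (mul_ne_zero r0 n2)
        linear_combination e2
      rw [s1, s2] at e3
      have n3 := eta h a ha
      have n4 := hU0 y0
      have q1 := sg_sq (cz a ⬝ᵥ (y0 + x))
      have q2 : sg ((cz a + cz a') ⬝ᵥ y0) * sg ((cz a + cz a') ⬝ᵥ x) =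
          sg (cz a ⬝ᵥ (y0 + x)) * sg (cz a' ⬝ᵥ (y0 + x)) := by
        rw [← sg_add, ← sg_add, ← dotProduct_add, add_dotProduct]
      rw [mul_assoc _ (sg _) (sg _), q2, div_mul_eq_mul_div, div_mul_eq_mul_div, eq_div_iff n3]
      apply mul_left_cancel₀ n4
      linear_combination sg (cz a ⬝ᵥ (y0 + x)) * e3 -
        (∏ i, u i (y0 i)) * pr μ (x + cx a) * (χ a * ∏ i, ph (a i)) * q1)
  have hd : ∀ x : ι → ZMod 2,
      ∏ i, (if x i = y0 i then (1 : ℂ) else b i) = pr b (y0 + x) := by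
    intro x
    refine Finset.prod_congr rfl fun i _ => ?_
    rw [Pi.add_apply]
    rcases z2 (x i) with e1 | e1 <;> rcases z2 (y0 i) with e2 | e2 <;> simp only [e1, e2, ↓ reduceIte, add_zero, zero_ne_one, one_ne_zero, zero_add, z11]
  have hd4 : ∀ i t, (if t = y0 i then (1 : ℂ) else b i) ^ 4 = 1 := by
    intro i t
    split_ifs
    · simp
    · exact hb4 i
  refine ⟨fun i t => if t = y0 i then 1 else b i, hd4, fun x y => ?_⟩
  rw [e]
  by_cases hxy : RR L χ x y = 0
  · rw [hxy]; simp only [mul_zero, star_prod, RCLike.star_def, zero_mul]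
  have hy := memC y (ch_of_ne' h hxy)
  obtain ⟨a, ha, ea⟩ := ex_of_ne L χ hxy
  have k := hb (cx a) ⟨a, ha, rfl⟩ _ hy
  rw [add_assoc, ← ea] at k
  have s1 := shift u hu0 y0 (y0 + x)
  have s2 := shift u hu0 y0 (y0 + y)
  rw [← add_assoc, vadd_self, zero_add] at s1 s2
  have u1 := hU y
  have u2 := prod_unit (fun i => if y i = y0 i then (1 : ℂ) else b i)
    (fun i => root4_unit (hd4 i (y i)))
  simp only [hd] at u2 ⊢
  have k2 : (∏ i, u i (x i)) * pr b (y0 + y) = pr b (y0 + x) * ∏ i, u i (y i) := by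
    rw [s1, s2]
    linear_combination (-(∏ i, u i (y0 i))) * k
  linear_combination (RR L χ x y * star (∏ i, u i (y i)) * star (pr b (y0 + y))) * k2 -
    ((∏ i, u i (x i)) * RR L χ x y * star (∏ i, u i (y i))) * u2 +
    (pr b (y0 + x) * RR L χ x y * star (pr b (y0 + y))) * u1

end Pool.Agent.MP_7af562_mp.H78

end

-- part MP_7af562_mp.H78.Main
section

set_option linter.unusedSectionVars false
set_option linter.unusedSimpArgs false

namespace Pool.Agent.MP_7af562_mp.H78

open Matrix Module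

theorem Un.mul {A B : M2} (hA : Un A) (hB : Un B) : Un (A * B) := by
  constructor
  · rw [star_mul, mul_assoc, ← mul_assoc (star A), hA.1, one_mul, hB.1]
  · rw [star_mul, mul_assoc, ← mul_assoc B, hB.2, one_mul, hA.2]

theorem Un.star {A : M2} (hA : Un A) : Un (star A) := by
  constructor
  · rw [star_star, hA.2]
  · rw [star_star, hA.1]

theorem IsClifford.mul {A B : M2} (hA : IsClifford A) (hB : IsClifford B) :
    IsClifford (A * B) := by
  intro P hP
  obtain ⟨P1, h1, e1⟩ := hB P hP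
  obtain ⟨P2, h2, e2⟩ := hA P1 h1
  refine ⟨P2, h2, ?_⟩
  have : A * B * P * star (A * B) = A * (B * P * star B) * star A := by
    rw [star_mul]; simp only [mul_assoc]
  rw [this]
  rcases e1 with e1 | e1 <;> rcases e2 with e2 | e2 <;> rw [e1]
  · exact Or.inl e2
  · exact Or.inr e2
  · right; rw [mul_neg, neg_mul, e2]
  · left; rw [mul_neg, neg_mul, e2, neg_neg]

theorem pauli1 : IsPauli 1 := Or.inl rfl
theorem pauliX : IsPauli pX := Or.inr (Or.inl rfl)
theorem pauliY : IsPauli pY := Or.inr (Or.inr (Or.inl rfl))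
theorem pauliZ : IsPauli pZ := Or.inr (Or.inr (Or.inr rfl))

theorem cliff_of {W : M2} (h1 : W * star W = 1)
    (hX : ∃ P', IsPauli P' ∧ (W * pX * star W = P' ∨ W * pX * star W = -P'))
    (hY : ∃ P', IsPauli P' ∧ (W * pY * star W = P' ∨ W * pY * star W = -P'))
    (hZ : ∃ P', IsPauli P' ∧ (W * pZ * star W = P' ∨ W * pZ * star W = -P')) :
    IsClifford W := by
  rintro P (rfl | rfl | rfl | rfl)
  · exact ⟨1, pauli1, Or.inl (by rw [mul_one, h1])⟩
  · exact hX
  · exact hY
  · exact hZ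

/-- unitary, Clifford, with Clifford adjoint -/
def Good (K : M2) : Prop := Un K ∧ IsClifford K ∧ IsClifford (star K)

theorem Good.mul {A B : M2} (hA : Good A) (hB : Good B) : Good (A * B) :=
  ⟨hA.1.mul hB.1, hA.2.1.mul hB.2.1, by rw [star_mul]; exact hB.2.2.mul hA.2.2⟩

theorem Good.star {A : M2} (hA : Good A) : Good (star A) :=
  ⟨hA.1.star, hA.2.2, by rw [star_star]; exact hA.2.1⟩

theorem good_one : Good 1 := by
  have : IsClifford 1 := fun P hP => ⟨P, hP, Or.inl (by simp)⟩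
  exact ⟨⟨by simp, by simp⟩, this, by rwa [star_one]⟩

theorem star_pX : star pX = pX := by rw [← sgm10, star_sgm]

theorem XZX : pX * pZ * star pX = -pZ := by
  rw [star_pX]; apply m2_ext <;> simp only [pX, pZ, Matrix.mul_apply, of_apply, mul_ite, mul_one, mul_neg, mul_zero, Finset.sum_ite_eq', Finset.mem_univ, ↓ reduceIte, sum_z2, one_ne_zero, zero_ne_one, zero_add, Matrix.neg_apply, add_zero, neg_zero, neg_neg]

theorem good_X : Good pX := by
  have h1 : pX * pX = 1 := by rw [← sgm10, sgm_sq]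
  have : IsClifford pX := by
    refine cliff_of (by rw [star_pX, h1]) ⟨pX, pauliX, Or.inl ?_⟩ ⟨pY, pauliY, Or.inr ?_⟩
      ⟨pZ, pauliZ, Or.inr XZX⟩
    · rw [star_pX, h1, one_mul]
    · rw [star_pX]; apply m2_ext <;> simp only [pX, pY, Matrix.mul_apply, of_apply, mul_ite, mul_zero, mul_neg, ite_mul, zero_mul, one_mul, sum_z2, ↓ reduceIte, neg_zero, ite_self, one_ne_zero, zero_ne_one, zero_add, mul_one, add_zero, Matrix.neg_apply, neg_neg]
  exact ⟨⟨by rw [star_pX, h1], by rw [star_pX, h1]⟩, this, by rwa [star_pX]⟩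

/-- the Clifford gate of order three (up to phase) cycling X, Y, Z -/
noncomputable def k3 : M2 := Matrix.of fun x y =>
  if x = 0 then (if y = 0 then (1 - Complex.I) / 2 else (-1 - Complex.I) / 2)
  else (if y = 0 then (1 - Complex.I) / 2 else (1 + Complex.I) / 2)

theorem k3_1 : star k3 * k3 = 1 := by
  apply m2_ext <;> simp [k3, Matrix.mul_apply, star_apply, sum_z2, Complex.ext_iff, map_ofNat] <;> norm_num
theorem k3_2 : k3 * star k3 = 1 := by
  apply m2_ext <;> simp only [k3, Matrix.mul_apply, of_apply, ↓ reduceIte, star_apply, RCLike.star_def, ite_mul, sum_z2, map_div₀, map_sub, map_one, Complex.conj_I, sub_neg_eq_add, map_ofNat, one_ne_zero, map_neg, one_apply_eq, Complex.ext_iff, Complex.add_re, Complex.mul_re, Complex.div_ofNat_re, Complex.sub_re, Complex.one_re, Complex.I_re, sub_zero, one_div, add_zero, Complex.div_ofNat_im, Complex.sub_im, Complex.one_im, Complex.I_im, zero_sub, Complex.add_im, zero_add, Complex.neg_re, Complex.neg_im, neg_zero,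 Complex.mul_im, map_add, ne_eq, zero_ne_one, not_false_eq_true, one_apply_ne, sub_add_sub_cancel, Complex.zero_re, Complex.zero_im, sub_add_sub_cancel'] <;> norm_num
theorem k3_X : k3 * pX * star k3 = pY := by
  apply m2_ext <;>
    simp only [k3, pX, Matrix.mul_apply, of_apply, ↓ reduceIte, mul_ite, mul_zero, mul_one, sum_z2, one_ne_zero, star_apply, RCLike.star_def, zero_add, map_div₀, map_sub, map_one, Complex.conj_I, sub_neg_eq_add, map_ofNat, zero_ne_one, add_zero, map_neg, pY, Complex.ext_iff, Complex.add_re, Complex.mul_re, Complex.div_ofNat_re, Complex.sub_re, Complex.neg_re, Complex.one_re, Complex.I_re, sub_zero, one_div, Complex.div_ofNat_im, Complex.sub_im, Complex.neg_im, Complex.one_im, neg_zero, Complex.I_im, zero_sub, Complex.add_im, sub_self, Complex.zero_re, Complex.mul_im, Complex.zero_im, map_add] <;> norm_num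
theorem k3_Y : k3 * pY * star k3 = pZ := by
  apply m2_ext <;>
    simp only [k3, pY, Matrix.mul_apply, of_apply, ↓ reduceIte, mul_ite, mul_zero, mul_neg, ite_mul, sum_z2, one_ne_zero, star_apply, RCLike.star_def, zero_add, map_div₀, map_sub, map_one, Complex.conj_I, sub_neg_eq_add, map_ofNat, zero_ne_one, add_zero, map_neg, neg_mul, pZ, Complex.ext_iff, Complex.add_re, Complex.mul_re, Complex.div_ofNat_re, Complex.sub_re, Complex.neg_re, Complex.one_re, Complex.I_re, sub_zero, Complex.div_ofNat_im, Complex.sub_im, Complex.neg_im, Complex.one_im, neg_zero, Complex.I_im, zero_sub, mul_one, one_div, Complex.mul_im, Complex.add_im, neg_sub, neg_add_cancel, neg_add_rev, neg_neg, map_add, sub_add_add_cancel, Complex.zero_re, Complex.zero_im] <;> norm_num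
theorem k3_Z : k3 * pZ * star k3 = pX := by
  apply m2_ext <;>
    simp only [k3, pZ, Matrix.mul_apply, of_apply, ↓ reduceIte, mul_ite, mul_one, mul_neg, mul_zero, Finset.sum_ite_eq', Finset.mem_univ, star_apply, RCLike.star_def, ite_mul, neg_mul, sum_z2, map_div₀, map_sub, map_one, Complex.conj_I, sub_neg_eq_add, map_ofNat, one_ne_zero, map_neg, pX, Complex.ext_iff, Complex.add_re, Complex.mul_re, Complex.div_ofNat_re, Complex.sub_re, Complex.one_re, Complex.I_re, sub_zero, one_div, add_zero, Complex.div_ofNat_im, Complex.sub_im, Complex.one_im, Complex.I_im, zero_sub, Complex.add_im, zero_add, Complex.neg_re, Complex.neg_im, neg_zero, neg_sub, sub_add_sub_cancel, Complex.zero_re, Complex.mul_im, neg_add_rev, Complex.zero_im, map_add, zero_ne_one, add_add_neg_add_cancel, sub_add_sub_cancel'] <;> norm_num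

theorem conj_back {K P P' : M2} (h : star K * K = 1) (e : K * P * star K = P') :
    star K * P' * star (star K) = P := by
  rw [star_star, ← e, ← mul_assoc, ← mul_assoc, h, one_mul, mul_assoc, h, mul_one]

theorem good_k3 : Good k3 :=
  ⟨⟨k3_1, k3_2⟩,
    cliff_of k3_2 ⟨pY, pauliY, Or.inl k3_X⟩ ⟨pZ, pauliZ, Or.inl k3_Y⟩ ⟨pX, pauliX, Or.inl k3_Z⟩,
    cliff_of (by rw [star_star, k3_1]) ⟨pZ, pauliZ, Or.inl (conj_back k3_1 k3_Z)⟩
      ⟨pX, pauliX, Or.inl (conj_back k3_1 k3_X)⟩ ⟨pY, pauliY, Or.inl (conj_back k3_1 k3_Y)⟩⟩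

theorem conj_mul (A B P : M2) : A * B * P * star (A * B) = A * (B * P * star B) * star A := by
  rw [star_mul]; simp only [mul_assoc]

theorem exists_cl {a : Lb} (ha : a ≠ 0) : ∃ K, Good K ∧ K * pZ * star K = sgm a := by
  rcases lb4 a with rfl | rfl | rfl | rfl
  · exact absurd rfl ha
  · exact ⟨k3, good_k3, by rw [k3_Z, sgm10]⟩
  · exact ⟨k3 * k3, good_k3.mul good_k3, by rw [conj_mul, k3_Z, k3_X, sgm11]⟩
  · exact ⟨1, good_one, by simp [sgm01]⟩

theorem exists_cl_neg {a : Lb} (ha : a ≠ 0) : ∃ K, Good K ∧ K * pZ * star K = -sgm a := by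
  obtain ⟨K, hK, e⟩ := exists_cl ha
  exact ⟨K * pX, hK.mul good_X, by rw [conj_mul, XZX, mul_neg, neg_mul, e]⟩

/-- A semi-Clifford unitary is diagonal up to Cliffords on both sides. -/
theorem diag_of_semi {V : M2} (hV : Un V) (hS : Semi V) :
    ∃ K K', Good K ∧ Good K' ∧ ∃ u : ZMod 2 → ℂ, (∀ t, star (u t) * u t = 1) ∧
      star K' * V * K = Matrix.diagonal u := by
  obtain ⟨a, b, ha, hb, e⟩ := hS
  obtain ⟨K, hK, eK⟩ := exists_cl ha
  obtain ⟨K', hK', eK'⟩ : ∃ K', Good K' ∧ K' * pZ * star K' = V * sgm a * star V := by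
    rcases e with e | e <;> rw [e]
    · exact exists_cl hb
    · exact exists_cl_neg hb
  refine ⟨K, K', hK, hK', ?_⟩
  have hW : Un (star K' * V * K) := (hK'.1.star.mul hV).mul hK.1
  have c1 : (star K' * V * K) * pZ * star (star K' * V * K) = pZ := by
    rw [conj_mul, eK, conj_mul, ← eK']
    exact conj_back hK'.1.1 rfl
  generalize star K' * V * K = W at hW c1
  have c2 : W * pZ = pZ * W := by
    calc W * pZ = W * pZ * (star W * W) := by rw [hW.1, mul_one]
      _ = pZ * W := by rw [← mul_assoc, c1]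
  have o1 : W 0 1 = 0 := by
    have := congrFun (congrFun c2 0) 1
    simp only [pZ, Matrix.mul_apply, of_apply, mul_ite, mul_one, mul_neg, mul_zero, Finset.sum_ite_eq', Finset.mem_univ, ↓ reduceIte, one_ne_zero, ite_mul, one_mul, zero_mul, Finset.sum_ite_eq] at this
    linear_combination (-1 / 2 : ℂ) * this
  have o2 : W 1 0 = 0 := by
    have := congrFun (congrFun c2 1) 0
    simp only [pZ, Matrix.mul_apply, of_apply, mul_ite, mul_one, mul_neg, mul_zero, Finset.sum_ite_eq', Finset.mem_univ, ↓ reduceIte, one_ne_zero, ite_mul, neg_mul, one_mul, zero_mul, Finset.sum_ite_eq] at this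
    linear_combination (1 / 2 : ℂ) * this
  refine ⟨fun t => W t t, fun t => ?_, ?_⟩
  · have := congrFun (congrFun hW.1 t) t
    rcases z2 t with rfl | rfl <;>
      simpa only [RCLike.star_def, Matrix.mul_apply, star_apply, sum_z2, o2, map_zero, mul_zero, add_zero, one_apply_eq, o1, zero_add] using this
  · apply m2_ext <;> simp only [diagonal_apply_eq, o1, ne_eq, zero_ne_one, not_false_eq_true, diagonal_apply_ne, o2, one_ne_zero]

theorem off_pauli {r : ℂ} (h : r ^ 4 = 1) (M : M2) (h00 : M 0 0 = 0) (h11 : M 1 1 = 0)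
    (h10 : M 1 0 = r) (h01 : M 0 1 = star r) : ∃ P', IsPauli P' ∧ (M = P' ∨ M = -P') := by
  rcases root4 h with rfl | rfl | rfl | rfl
  · exact ⟨pX, pauliX, Or.inl (by apply m2_ext <;> simp only [h00, pX, of_apply, ↓ reduceIte, h01, star_one, zero_ne_one, h10, one_ne_zero, h11])⟩
  · exact ⟨pX, pauliX, Or.inr (by apply m2_ext <;> simp [pX, *])⟩
  · exact ⟨pY, pauliY, Or.inl (by apply m2_ext <;> simp only [h00, pY, of_apply, ↓ reduceIte, h01, RCLike.star_def, Complex.conj_I, zero_ne_one, h10, one_ne_zero, h11])⟩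
  · exact ⟨pY, pauliY, Or.inr (by apply m2_ext <;> simp [pY, *])⟩

theorem star_diag {N : Type} [DecidableEq N] (d : N → ℂ) :
    star (Matrix.diagonal d) = Matrix.diagonal (fun t => star (d t)) :=
  Matrix.diagonal_conjTranspose d

theorem diag_cliff {d : ZMod 2 → ℂ} (hd : ∀ t, d t ^ 4 = 1) :
    Un (Matrix.diagonal d) ∧ IsClifford (Matrix.diagonal d) := by
  have u := fun t => root4_unit (hd t)
  have u' : ∀ t, d t * star (d t) = 1 := fun t => by rw [mul_comm, u]
  have h1 : star (Matrix.diagonal d) * Matrix.diagonal d = 1 := by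
    rw [star_diag, Matrix.diagonal_mul_diagonal, ← Matrix.diagonal_one]
    congr 1; ext t; exact u t
  have h2 : Matrix.diagonal d * star (Matrix.diagonal d) = 1 := by
    rw [star_diag, Matrix.diagonal_mul_diagonal, ← Matrix.diagonal_one]
    congr 1; ext t; exact u' t
  have r4 : (d 1 * star (d 0)) ^ 4 = 1 := by
    rw [mul_pow, ← star_pow, hd, hd, star_one, mul_one]
  refine ⟨⟨h1, h2⟩, cliff_of h2 ?_ ?_ ⟨pZ, pauliZ, Or.inl ?_⟩⟩
  · apply off_pauli r4 <;>
      simp only [pX, star_diag, RCLike.star_def, mul_diagonal, diagonal_mul, of_apply, ↓ reduceIte, mul_comm, zero_mul, one_ne_zero, one_mul, zero_ne_one, star_mul', RingHomCompTriple.comp_apply, RingHom.id_apply]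
  · have r4' : (Complex.I * (d 1 * star (d 0))) ^ 4 = 1 := by
      rw [mul_pow, r4, Complex.I_pow_four, mul_one]
    apply off_pauli r4' <;>
      simp only [pY, star_diag, RCLike.star_def, mul_diagonal, diagonal_mul, of_apply, ↓ reduceIte, mul_zero, zero_mul, one_ne_zero, zero_ne_one, mul_neg, neg_mul, star_mul', Complex.conj_I, RingHomCompTriple.comp_apply, RingHom.id_apply, neg_inj] <;> ring
  · have v0 := u' 0
    have v1 := u' 1
    apply m2_ext <;> simp only [pZ, star_diag, RCLike.star_def, mul_diagonal, diagonal_mul, of_apply, ↓ reduceIte, mul_one, zero_ne_one, mul_zero, zero_mul, one_ne_zero, mul_neg, neg_mul, neg_inj] <;>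
      assumption

section T
variable {ι : Type} [Fintype ι] [DecidableEq ι]

theorem tensor_un {K : ι → M2} (hK : ∀ i, Un (K i)) :
    star (tensor K) * tensor K = 1 ∧ tensor K * star (tensor K) = 1 := by
  rw [star_tensor, tensor_mul, tensor_mul]
  simp only [(hK _).1, (hK _).2, tensor_one, and_self]

theorem tensor_diag (u : ι → ZMod 2 → ℂ) :
    tensor (fun i => Matrix.diagonal (u i)) = Matrix.diagonal (fun x => ∏ i, u i (x i)) := by
  ext x y
  simp only [tensor, Matrix.of_apply, Matrix.diagonal_apply]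
  by_cases h : x = y
  · subst h; simp only [↓ reduceIte]
  · rw [if_neg h]
    obtain ⟨i, hi⟩ := Function.ne_iff.mp h
    exact Finset.prod_eq_zero (Finset.mem_univ i) (if_neg hi)

theorem conj_diag (u : ι → ZMod 2 → ℂ) (R : Matrix (ι → ZMod 2) (ι → ZMod 2) ℂ)
    (x y : ι → ZMod 2) :
    (tensor (fun i => Matrix.diagonal (u i)) * R *
      star (tensor (fun i => Matrix.diagonal (u i)))) x y =
      (∏ i, u i (x i)) * R x y * star (∏ i, u i (y i)) := by
  rw [tensor_diag, star_diag, Matrix.mul_diagonal, Matrix.diagonal_mul]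

end T

theorem mp_cliff {n m : ℕ} (s : Fin m → ℂ) (g : Fin m → Fin n → M2)
    (hg : ∀ j i, IsPauli (g j i)) (K : Fin n → M2) (hK : ∀ i, Good (K i)) :
    ∃ (s1 : Fin m → ℂ) (g1 : Fin m → Fin n → M2), (∀ j i, IsPauli (g1 j i)) ∧
      Mp (tensor K) (codespace s g) (codespace s1 g1) := by
  have : ∀ j i, ∃ (P : M2) (ε : ℂ), IsPauli P ∧ K i * g j i * star (K i) = ε • P := by
    intro j i
    obtain ⟨P, hP, e | e⟩ := (hK i).2.1 _ (hg j i)
    · exact ⟨P, 1, hP, by rw [e, one_smul]⟩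
    · exact ⟨P, -1, hP, by rw [e, neg_smul, one_smul]⟩
  choose g1 ε h1 h2 using this
  have u := tensor_un fun i => (hK i).1
  refine ⟨fun j => s j * ∏ i, ε j i, g1, h1, mp_fix u.2 u.1 _ _ fun j => ?_⟩
  rw [mul_smul, ← tensor_smul, smul_mul_assoc, mul_smul_comm, tensor_mul, tensor_mul]
  congr 2
  ext1 i
  rw [← h2, mul_assoc, (hK i).1.1, mul_one]

theorem permOp_mulVec {n : ℕ} (σ : Equiv.Perm (Fin n)) (ψ : (Fin n → ZMod 2) → ℂ)
    (x : Fin n → ZMod 2) : (permOp σ *ᵥ ψ) x = ψ (x ∘ σ) := by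
  simp [permOp, Matrix.mulVec, dotProduct]

theorem permOp_inv {n : ℕ} (σ : Equiv.Perm (Fin n)) : permOp σ * permOp σ.symm = 1 := by
  rw [Matrix.ext_iff_mulVec]
  intro ψ
  ext x
  rw [← Matrix.mulVec_mulVec, permOp_mulVec, permOp_mulVec, Matrix.one_mulVec]
  congr 1
  ext i
  simp

theorem tensor_mul_permOp {n : ℕ} (A : Fin n → M2) (σ : Equiv.Perm (Fin n)) :
    tensor A * permOp σ = permOp σ * tensor (fun i => A (σ i)) := by
  ext x y
  simp only [tensor, permOp, Matrix.mul_apply, Matrix.of_apply]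
  rw [Finset.sum_eq_single (y ∘ σ.symm), Finset.sum_eq_single (x ∘ σ)]
  · have : y = (y ∘ σ.symm) ∘ σ := by ext i; simp
    rw [if_pos this, if_pos rfl, mul_one, one_mul]
    rw [← Equiv.prod_comp σ]
    simp only [Function.comp_apply, Equiv.symm_apply_apply]
  · intro z _ hz; rw [if_neg hz, zero_mul]
  · simp
  · intro z _ hz
    rw [if_neg, mul_zero]
    intro h; apply hz; rw [h]; ext i; simp
  · simp only [Finset.mem_univ, not_true_eq_false, Function.comp_apply, mul_ite, mul_one, mul_zero, ite_eq_right_iff, IsEmpty.forall_iff]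

theorem mp_perm {n m : ℕ} (s : Fin m → ℂ) (g : Fin m → Fin n → M2) (σ : Equiv.Perm (Fin n)) :
    Mp (permOp σ) (codespace s g) (codespace s fun j i => g j (σ.symm i)) := by
  refine mp_fix (permOp_inv σ) (permOp_inv σ.symm) _ _ fun j => ?_
  rw [smul_mul_assoc, mul_smul_comm, tensor_mul_permOp]
  simp

theorem main_noperm {n m m' : ℕ} (hm : m ≤ 13) (s : Fin m → ℂ) (g : Fin m → Fin n → M2)
    (hg : ∀ j i, IsPauli (g j i)) (s' : Fin m' → ℂ) (g' : Fin m' → Fin n → M2)
    (hg' : ∀ j i, IsPauli (g' j i)) (U : Fin n → M2) (hU : ∀ i, Un (U i))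
    (h : Mp (tensor U) (codespace s g) (codespace s' g')) :
    ∃ C : Fin n → M2, (∀ i, Un (C i) ∧ IsClifford (C i)) ∧
      Mp (tensor C) (codespace s g) (codespace s' g') := by
  by_cases hQ : ∃ ψ ∈ codespace s g, ψ ≠ 0
  swap
  · push Not at hQ
    refine ⟨fun _ => 1, fun _ => ⟨good_one.1, good_one.2.1⟩, ?_⟩
    unfold Mp at h ⊢
    rw [← h]
    refine Set.image_congr fun ψ hψ => ?_
    rw [hQ ψ hψ, Matrix.mulVec_zero, Matrix.mulVec_zero]
  have uU := tensor_un hU
  obtain ⟨L, χ, st, -, eL⟩ := exists_st s g hg hQ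
  obtain ⟨L', χ', st', -, eL'⟩ := exists_st s' g' hg' (h.nz uU.1 hQ)
  obtain ⟨V, hV, hS, eV⟩ := step1 st st' U hU (conj_of_mp st st' uU.1 (eL ▸ eL' ▸ h))
  have uV := tensor_un hV
  have mV : Mp (tensor V) (codespace s g) (codespace s' g') :=
    eL ▸ eL' ▸ mp_of_conj st st' uV.1 uV.2 eV
  choose K K' hK hK' u hu eu using fun i => diag_of_semi (hV i) (hS i)
  obtain ⟨s2, g2, hg2, m2⟩ := mp_cliff s g hg (fun i => star (K i)) fun i => (hK i).star
  obtain ⟨s2', g2', hg2', m2'⟩ := mp_cliff s' g' hg' (fun i => star (K' i)) fun i => (hK' i).star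
  have i2 : tensor K * tensor (fun i => star (K i)) = 1 := by
    rw [← star_tensor]; exact (tensor_un fun i => (hK i).1).2
  have i2' : tensor K' * tensor (fun i => star (K' i)) = 1 := by
    rw [← star_tensor]; exact (tensor_un fun i => (hK' i).1).2
  have mW := ((m2.inv i2).comp mV).comp m2'
  rw [tensor_mul, tensor_mul] at mW
  simp only [← mul_assoc, eu] at mW
  have uW : ∀ i, Un (Matrix.diagonal (u i)) := fun i => by
    rw [← eu]; exact ((hK' i).1.star.mul (hV i)).mul (hK i).1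
  have hQ2 := m2.nz i2 hQ
  obtain ⟨L2, χ2, st2, dim2, eL2⟩ := exists_st s2 g2 hg2 hQ2
  obtain ⟨L2', χ2', st2', -, eL2'⟩ := exists_st s2' g2' hg2' (mW.nz (tensor_un uW).1 hQ2)
  have cW := conj_of_mp st2 st2' (tensor_un uW).1 (eL2 ▸ eL2' ▸ mW)
  obtain ⟨d, hd, ed⟩ := step2 st2 st2' (dim2.trans hm) u hu fun x y => by
    rw [← cW, conj_diag]
  have uD := tensor_un fun i => (diag_cliff (hd i)).1
  have mD : Mp (tensor fun i => Matrix.diagonal (d i)) (codespace s2 g2) (codespace s2' g2') :=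
    eL2 ▸ eL2' ▸ mp_of_conj st2 st2' uD.1 uD.2 (by ext x y; rw [conj_diag, ed])
  have mC := (m2.comp mD).comp (m2'.inv i2')
  rw [tensor_mul, tensor_mul] at mC
  refine ⟨_, fun i => ⟨?_, ?_⟩, mC⟩
  · exact (hK' i).1.mul ((diag_cliff (hd i)).1.mul (hK i).1.star)
  · exact (hK' i).2.1.mul ((diag_cliff (hd i)).2.mul (hK i).2.2)

theorem main {n m m' : ℕ} (hm : m ≤ 13) (s : Fin m → ℂ) (g : Fin m → Fin n → M2)
    (hg : ∀ j i, IsPauli (g j i)) (s' : Fin m' → ℂ) (g' : Fin m' → Fin n → M2)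
    (hg' : ∀ j i, IsPauli (g' j i)) (U : Fin n → M2)
    (hU : ∀ i, U i ∈ Matrix.unitaryGroup (ZMod 2) ℂ) (π : Equiv.Perm (Fin n))
    (h : MapsOnto U π (codespace s g) (codespace s' g')) :
    ∃ C : Fin n → M2, (∀ i, C i ∈ Matrix.unitaryGroup (ZMod 2) ℂ ∧ IsClifford (C i)) ∧
      MapsOnto C π (codespace s g) (codespace s' g') := by
  have mP := mp_perm s g π
  have h1 : Mp (tensor U * permOp π) (codespace s g) (codespace s' g') := h
  have h2 := (mP.inv (permOp_inv π.symm)).comp h1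
  rw [mul_assoc, permOp_inv, mul_one] at h2
  obtain ⟨C, hC, mC⟩ := main_noperm hm s _ (fun j i => hg j _) s' g' hg' U
    (fun i => ⟨(hU i).1, (hU i).2⟩) h2
  exact ⟨C, fun i => ⟨⟨(hC i).1.1, (hC i).1.2⟩, (hC i).2⟩, mP.comp mC⟩

end Pool.Agent.MP_7af562_mp.H78

end
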