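import Mathlib
import Pool.Agent.MP_7af562_mp.Defs
import Pool.Agent.MP_7af562_mp.Mg.H78_Main

attribute [-instance] LinearMap.instLoewnerPartialOrder RCLike.charZero_rclike RKHS.instFunLike
  Action.FintypeCat.instMulActionObjFiniteOf IdemSemiring.toSemiring List.instDecidableMemOfLawfulBEq
  decidableEq_of_subsingleton NonUnitalRing.toNonUnitalNonAssocRing littleWedderburn
  instCharZeroOfIsSemireal FloorSemiring.instCharZero AddCommMonoidWithOne.toAddMonoidWithOne
  MonTypeEquivalenceMon.monMonoid NormedRing.toRing Finset.decidableDforallFinset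
  Module.IsNoetherian.finite NonUnitalSemiring.toNonUnitalNonAssocSemiring
  NonAssocSemiring.toNonUnitalNonAssocSemiring SubfieldClass.toSubringClass LinearOrder.toDecidableEq
  Multiset.decidableDforallMultiset MonoidWithZeroHomClass.toZeroHomClass
  instIsRightCancelAddOfAddRightReflectLE AddCommMonoidWithOne.toAddCommMonoid
  NonUnitalAlgSemiHomClass.toDistribMulActionSemiHomClass NormedCommRing.toCommRing
  Vector.instDecidableForallForallMemOfDecidablePred NonUnitalNormedCommRing.toNonUnitalCommRing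
  LieAdmissibleRing.toNonUnitalNonAssocRing Array.instDecidableForallForallMemOfDecidablePred
  Option.decidableForallMem NonUnitalNonAssocCommSemiring.toNonUnitalNonAssocSemiring
  CommMonTypeEquivalenceCommMon.commMonCommMonoid LinearOrderedAddCommMonoidWithTop.toAddCommMonoid
  SeminormedRing.toRing NormedAlgebra.toAlgebra LieAdmissibleAlgebra.toSMulCommClass
  NonUnitalSeminormedCommRing.toNonUnitalCommRing BooleanRing.toRing instSMulZeroClass
  NonAssocRing.toNonUnitalNonAssocRing SeminormedCommRing.toCommRing EuclideanDomain.toCommRing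
  FirstOrder.Language.instDecidableEqRelations LinearOrderedAddCommGroupWithTop.toAddCommMonoid
  LieAdmissibleAlgebra.toIsScalarTower NormedField.toField Int.decidableLTLE NumberField.to_charZero
  ZMod.instIsScalarTower NonAssocCommRing.toNonUnitalNonAssocCommRing FinEnum.decEq instCoeOTCOfCoeTC
  RightPreLieAlgebra.toIsScalarTower LeftPreLieAlgebra.toSMulCommClass
  FirstOrder.Language.instDecidableEqFunctions RightPreLieAlgebra.toSMulCommClass Int.decidableLELE
  LeftPreLieAlgebra.toIsScalarTower Int.decidableLTLT IdemCommSemiring.toCommSemiring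
  Int.decidableLELT BooleanRing.toCommRing Module.Finite.quotient
  AddCommGroupWithOne.toAddGroupWithOne MulSemiringActionSemiHomClass.toDistribMulActionSemiHomClass
  MulSemiringAction.toDistribMulAction Unique.fintype Field.toCommRing
  RightPreLieRing.toNonUnitalNonAssocRing LeftPreLieRing.toNonUnitalNonAssocRing
  FiniteDimensional.finiteDimensional_quotient

-- part MP_7af562_mp.CoreA
section

namespace Pool.Agent.MP_7af562_mp

/-- Points: linear functionals on W over the field with two elements. -/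
abbrev Pt (W : Type) [AddCommGroup W] [Module (ZMod 2) W] : Type := Module.Dual (ZMod 2) W

variable {W : Type} [AddCommGroup W] [Module (ZMod 2) W]

/-- The points of T at which c takes the value ε. -/
def cut (T : Finset (Pt W)) (c : W) (ε : ZMod 2) : Finset (Pt W) := T.filter (fun p => p c = ε)

/-- The weight γ sums to zero on R cut by any k affine conditions. -/
def WO {G : Type} [AddCommGroup G] (γ : Pt W → G) : ℕ → Finset (Pt W) → Prop
  | 0, R => ∑ p ∈ R, γ p = 0
  | k + 1, R => ∀ (w : W) (ε : ZMod 2), WO γ k (cut R w ε)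

/-- R cut by any k affine conditions has an even number of points. -/
def O (k : ℕ) (R : Finset (Pt W)) : Prop := WO (fun _ => (1 : ZMod 2)) k R

/-- Closed under sums of three points. -/
def Closed (R : Finset (Pt W)) : Prop := ∀ p ∈ R, ∀ p' ∈ R, ∀ p'' ∈ R, p + p' + p'' ∈ R

/-- Condition (A). -/
def CondA (C : Submodule (ZMod 2) W) (T : Finset (Pt W)) : Prop :=
  ∀ c ∈ C, ∀ x y : W, ∑ p ∈ T, p c * p x * p y = 0

/-- The sum of the products c_i x_i. -/
def q : List (W × W) → Pt W → ZMod 2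
  | [], _ => 0
  | z :: τ, p => p z.1 * p z.2 + q τ p

/-- The second elementary symmetric function of the products c_i x_i. -/
def e2 : List (W × W) → Pt W → ZMod 2
  | [], _ => 0
  | z :: τ, p => p z.1 * p z.2 * q τ p + e2 τ p

/-- The contraction of the sum of c_i ∧ x_i with a functional. -/
def om : List (W × W) → Pt W → W
  | [], _ => 0
  | z :: τ, u => u z.1 • z.2 + u z.2 • z.1 + om τ u

def Phi (T : Finset (Pt W)) (τ : List (W × W)) : ZMod 2 := ∑ p ∈ T, e2 τ p

def eta (T : Finset (Pt W)) (τ : List (W × W)) (y z : W) : ZMod 2 :=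
  ∑ p ∈ T, q τ p * p y * p z

def InC (C : Submodule (ZMod 2) W) (τ : List (W × W)) : Prop := ∀ z ∈ τ, z.1 ∈ C

def peel (u : Pt W) (y : W) (τ : List (W × W)) : List (W × W) :=
  τ.map fun z => (z.1 + u z.1 • y, z.2 + u z.2 • y)

def Pluecker (f : W → W → ZMod 2) : Prop :=
  ∀ a b c d : W, f a b * f c d + f a c * f b d + f a d * f b c = 0

open Classical in
/-- The image mod 2 of T under the projection along u onto the hyperplane y = ε. -/
noncomputable def push (u : Pt W) (y : W) (ε : ZMod 2) (T : Finset (Pt W)) : Finset (Pt W) :=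
  symmDiff (cut T y ε) ((cut T y (ε + 1)).image (fun p => p + u))

theorem z2 (x : ZMod 2) : x = 0 ∨ x = 1 := by revert x; decide

theorem z2_add_self (x : ZMod 2) : x + x = 0 := by revert x; decide

theorem z2_mul_self (x : ZMod 2) : x * x = x := by revert x; decide

theorem w_add_self (x : W) : x + x = 0 := by
  rw [← two_smul (ZMod 2) x]
  have : (2 : ZMod 2) = 0 := by decide
  rw [this, zero_smul]

theorem pt_add_self (p : Pt W) : p + p = 0 := w_add_self p

theorem mem_cut {T : Finset (Pt W)} {c : W} {ε : ZMod 2} {p : Pt W} :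
    p ∈ cut T c ε ↔ p ∈ T ∧ p c = ε := by simp [cut]

theorem cut_subset (T : Finset (Pt W)) (c : W) (ε : ZMod 2) : cut T c ε ⊆ T :=
  Finset.filter_subset _ _

theorem cut_comm (T : Finset (Pt W)) (c d : W) (ε δ : ZMod 2) :
    cut (cut T c ε) d δ = cut (cut T d δ) c ε := by
  ext p; simp only [mem_cut]; tauto

theorem sum_cut_add {G : Type} [AddCommMonoid G] (T : Finset (Pt W)) (c : W) (ε : ZMod 2)
    (F : Pt W → G) : ∑ p ∈ cut T c ε, F p + ∑ p ∈ cut T c (ε + 1), F p = ∑ p ∈ T, F p := by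
  have : cut T c (ε + 1) = T.filter (fun p => ¬ p c = ε) := by
    ext p
    simp only [mem_cut, Finset.mem_filter]
    have : ∀ a b : ZMod 2, a = b + 1 ↔ ¬ a = b := by decide
    rw [this]
  rw [this, cut, Finset.sum_filter_add_sum_filter_not]

theorem card_cut_add (T : Finset (Pt W)) (c : W) (ε : ZMod 2) :
    (cut T c ε).card + (cut T c (ε + 1)).card = T.card := by
  simpa using sum_cut_add T c ε (fun _ => (1 : ℕ))

/-- A sum over the cut at value one is a sum over T with a factor. -/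
theorem sum_cut_one (T : Finset (Pt W)) (c : W) (F : Pt W → ZMod 2) :
    ∑ p ∈ cut T c 1, F p = ∑ p ∈ T, p c * F p := by
  rw [cut, Finset.sum_filter]
  refine Finset.sum_congr rfl fun p _ => ?_
  rcases z2 (p c) with h | h <;> simp only [h, zero_ne_one, ↓ reduceIte, zero_mul, one_mul]

/-- The three weights of a two-dimensional space add up to twice the size of the union. -/
theorem three_weights (T : Finset (Pt W)) (c d : W) :
    (cut T c 1).card + (cut T d 1).card + (cut T (c + d) 1).card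
      + 2 * (cut (cut T c 0) d 0).card = 2 * T.card := by
  simp only [cut, Finset.filter_filter, Finset.card_filter]
  rw [Finset.card_eq_sum_ones T, Finset.mul_sum, Finset.mul_sum, ← Finset.sum_add_distrib,
    ← Finset.sum_add_distrib, ← Finset.sum_add_distrib]
  refine Finset.sum_congr rfl fun p _ => ?_
  rw [map_add]
  have : ∀ a b : ZMod 2, (if a = 1 then 1 else 0) + (if b = 1 then 1 else 0)
      + (if a + b = 1 then 1 else 0) + 2 * (if a = 0 ∧ b = 0 then 1 else 0) = 2 * 1 := by decide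
  exact this _ _

theorem exists_dual_one {a : W} (ha : a ≠ 0) : ∃ u : Pt W, u a = 1 := by
  by_contra h
  apply ha
  rw [← Module.forall_dual_apply_eq_zero_iff (ZMod 2) a]
  exact fun u => (z2 _).resolve_right fun hu => h ⟨u, hu⟩

/-- A functional that kills a subspace and takes the value one at a vector outside it. -/
theorem exists_dual_sep {a : W} {D : Submodule (ZMod 2) W} (ha : a ∉ D) :
    ∃ u : Pt W, u a = 1 ∧ ∀ d ∈ D, u d = 0 := by
  obtain ⟨u, h1, h2⟩ := Submodule.exists_dual_map_eq_bot_of_notMem ha inferInstance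
  refine ⟨u, (z2 _).resolve_left h1, fun d hd => ?_⟩
  have : u d ∈ D.map u := Submodule.mem_map_of_mem hd
  rwa [h2, Submodule.mem_bot] at this

/-- A vector that is killed by a subspace of points and not by a point outside it. -/
theorem exists_vec_sep [FiniteDimensional (ZMod 2) W] {p : Pt W}
    {D : Submodule (ZMod 2) (Pt W)} (hp : p ∉ D) : ∃ w : W, p w = 1 ∧ ∀ d ∈ D, d w = 0 := by
  obtain ⟨u, h1, h2⟩ := exists_dual_sep hp
  obtain ⟨w, rfl⟩ := (Module.evalEquiv (ZMod 2) W).surjective u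
  exact ⟨w, by simpa using h1, fun d hd => by simpa only [Module.evalEquiv_apply, Module.Dual.eval_apply] using h2 d hd⟩

theorem exists_vec_one {p : Pt W} (hp : p ≠ 0) : ∃ w : W, p w = 1 := by
  by_contra h
  apply hp
  ext w
  exact (z2 _).resolve_right fun hw => h ⟨w, hw⟩

theorem finrank_inf_ker [FiniteDimensional (ZMod 2) W] {C : Submodule (ZMod 2) W} {u : Pt W}
    {y : W} (hy : y ∈ C) (hu : u y = 1) :
    Module.finrank (ZMod 2) ↥(C ⊓ LinearMap.ker u) + 1 = Module.finrank (ZMod 2) C := by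
  have h1 := LinearMap.finrank_range_add_finrank_ker (u.domRestrict C)
  have h2 : LinearMap.range (u.domRestrict C) = ⊤ := by
    rw [eq_top_iff]
    intro x _
    exact ⟨x • ⟨y, hy⟩, by simp [hu]⟩
  have h3 : Module.finrank (ZMod 2) ↥(LinearMap.ker (u.domRestrict C))
      = Module.finrank (ZMod 2) ↥(C ⊓ LinearMap.ker u) := by
    rw [LinearMap.ker_domRestrict, ← Submodule.finrank_map_subtype_eq,
      Submodule.map_comap_subtype]
  rw [h2, finrank_top, Module.finrank_self, h3] at h1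
  omega

theorem CondA.mono {C C' : Submodule (ZMod 2) W} {T : Finset (Pt W)} (h : CondA C T)
    (hC : C' ≤ C) : CondA C' T := fun c hc => h c (hC hc)

theorem mem_push {u : Pt W} {y : W} {ε : ZMod 2} {T : Finset (Pt W)} (hu : u y = 1) {p : Pt W}
    (hp : p ∈ push u y ε T) : p y = ε := by
  classical
  rw [push, Finset.mem_symmDiff] at hp
  rcases hp with ⟨h, -⟩ | ⟨h, -⟩
  · exact (mem_cut.1 h).2
  · obtain ⟨p', h', rfl⟩ := Finset.mem_image.1 h
    rw [LinearMap.add_apply, (mem_cut.1 h').2, hu, add_assoc, z2_add_self, add_zero]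

theorem sum_symmDiff_z2 {α : Type} [DecidableEq α] (A B : Finset α) (F : α → ZMod 2) :
    ∑ p ∈ symmDiff A B, F p = ∑ p ∈ A, F p + ∑ p ∈ B, F p := by
  rw [symmDiff_def, Finset.sup_eq_union, Finset.sum_union disjoint_sdiff_sdiff,
    ← Finset.sum_inter_add_sum_sdiff A B F, ← Finset.sum_inter_add_sum_sdiff B A F,
    Finset.inter_comm B A]
  have := z2_add_self (∑ x ∈ A ∩ B, F x)
  linear_combination -this

theorem sum_push (u : Pt W) (y : W) (ε : ZMod 2) (T : Finset (Pt W)) (F : Pt W → ZMod 2) :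
    ∑ p ∈ push u y ε T, F p = ∑ p ∈ T, F (p + (p y + ε) • u) := by
  classical
  rw [push, sum_symmDiff_z2, Finset.sum_image (fun a _ b _ h => add_right_cancel h),
    ← sum_cut_add T y ε]
  congr 1
  · refine Finset.sum_congr rfl fun p hp => ?_
    rw [(mem_cut.1 hp).2, z2_add_self, zero_smul, add_zero]
  · refine Finset.sum_congr rfl fun p hp => ?_
    have : ∀ e : ZMod 2, e + 1 + e = 1 := by decide
    rw [(mem_cut.1 hp).2, this, one_smul]

open Classical in
theorem card_push (u : Pt W) (y : W) (ε : ZMod 2) (T : Finset (Pt W)) :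
    (push u y ε T).card + 2 * (cut T y ε ∩ (cut T y (ε + 1)).image (fun p => p + u)).card
      = T.card := by
  have h1 : ((cut T y (ε + 1)).image (fun p => p + u)).card = (cut T y (ε + 1)).card :=
    Finset.card_image_of_injective _ (add_left_injective u)
  rw [push, symmDiff_def, Finset.sup_eq_union, Finset.card_union_of_disjoint disjoint_sdiff_sdiff,
    ← card_cut_add T y ε, ← h1]
  have h2 := Finset.card_sdiff_add_card_inter (cut T y ε) ((cut T y (ε + 1)).image (fun p => p + u))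
  have h3 := Finset.card_sdiff_add_card_inter ((cut T y (ε + 1)).image (fun p => p + u)) (cut T y ε)
  rw [Finset.inter_comm] at h3
  omega

theorem card_push_le (u : Pt W) (y : W) (ε : ZMod 2) (T : Finset (Pt W)) :
    (push u y ε T).card ≤ T.card := by
  have := card_push u y ε T
  omega

end Pool.Agent.MP_7af562_mp

namespace Pool.Agent.MP_7af562_mp

variable {W : Type} [AddCommGroup W] [Module (ZMod 2) W]

theorem WO.of_succ {G : Type} [AddCommGroup G] {γ : Pt W → G} {k : ℕ} {R : Finset (Pt W)}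
    (h : WO γ (k + 1) R) : WO γ k R := by
  have e : cut R 0 0 = R := Finset.filter_true_of_mem fun p _ => map_zero p
  exact e ▸ h 0 0

theorem K1_sep {p p' : Pt W} (h : p ≠ p') : ∃ w : W, p' w = p w + 1 := by
  obtain ⟨w, hw⟩ := exists_vec_one (p := p + p') fun e => h (by
    rw [← add_zero p, ← pt_add_self p', ← add_assoc, e, zero_add])
  refine ⟨w, ?_⟩
  rw [← hw, LinearMap.add_apply, ← add_assoc, z2_add_self, zero_add]

theorem K1_filter (P : Pt W → Prop) [DecidablePred P] (R : Finset (Pt W)) (w : W) (ε : ZMod 2) :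
    cut (R.filter P) w ε = (cut R w ε).filter P := Finset.filter_comm _ _ _

open Classical in
/-- MS: the support of an orthogonal weight is empty or large. -/
theorem WO.ms {G : Type} [AddCommGroup G] {γ : Pt W → G} {k : ℕ} {R : Finset (Pt W)}
    (h : WO γ k R) (hne : ∃ p ∈ R, γ p ≠ 0) :
    2 ^ (k + 1) ≤ (R.filter (fun p => γ p ≠ 0)).card := by
  induction k generalizing R with
  | zero =>
    obtain ⟨p, hp, h0⟩ := hne
    by_contra hc
    have h1 := Finset.card_le_one.1 (show (R.filter fun p => γ p ≠ 0).card ≤ 1 by omega)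
    refine h0 ((Finset.sum_eq_single_of_mem p hp fun p' hp' hn => ?_).symm.trans h)
    by_contra h2
    exact hn (h1 _ (Finset.mem_filter.2 ⟨hp', h2⟩) _ (Finset.mem_filter.2 ⟨hp, h0⟩))
  | succ k ih =>
    have h1 := ih h.of_succ hne
    obtain ⟨p, hp, p', hp', hn⟩ := Finset.one_lt_card.1
      ((Nat.one_lt_two_pow (Nat.succ_ne_zero k)).trans_le h1)
    obtain ⟨w, hw⟩ := K1_sep hn
    rw [Finset.mem_filter] at hp hp'
    have h2 := ih (h w (p w)) ⟨p, mem_cut.2 ⟨hp.1, rfl⟩, hp.2⟩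
    have h3 := ih (h w (p w + 1)) ⟨p', mem_cut.2 ⟨hp'.1, hw⟩, hp'.2⟩
    rw [← K1_filter] at h2 h3
    rw [← card_cut_add _ w (p w)]
    omega

/-- Doubling. -/
theorem WO.dbl {G : Type} [AddCommGroup G] {γ : Pt W → G} {k : ℕ} {R : Finset (Pt W)}
    (h : WO γ (k + 1) R) : WO (fun p => γ p + γ p) (k + 2) R := by
  induction k generalizing R with
  | zero =>
    intro w ε w' ε'
    have e : ∑ p ∈ cut (cut R w ε) w' ε', (γ p + γ p) + ∑ p ∈ cut R (w + w') (ε + ε' + 1), γ p =
        ∑ p ∈ cut R w ε, γ p + ∑ p ∈ cut R w' ε', γ p := by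
      simp only [cut, Finset.sum_filter, ← Finset.sum_add_distrib]
      refine Finset.sum_congr rfl fun p _ => ?_
      have : ∀ a b c d : ZMod 2, (a + b = c + d + 1 ↔ ¬ (a = c ↔ b = d)) := by decide
      simp only [map_add, this]
      by_cases h1 : p w = ε <;> by_cases h2 : p w' = ε' <;> simp [h1, h2]
    have h1 : ∀ w ε, ∑ p ∈ cut R w ε, γ p = 0 := h
    simp only [h1, add_zero] at e
    exact e
  | succ k ih => exact fun w ε => ih (h w ε)

/-- From linear cuts to affine cuts inside the hyperplane a = 1. -/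
theorem WO.of_two {G : Type} [AddCommGroup G] {γ : Pt W → G} {R : Finset (Pt W)} {a : W}
    (ha : ∀ p ∈ R, p a = 1) (h : ∀ x y : W, ∑ p ∈ cut (cut R x 1) y 1, γ p = 0) : WO γ 2 R := by
  intro x ε y δ
  have e : cut (cut R x ε) y δ = cut (cut R (x + (ε + 1) • a) 1) (y + (δ + 1) • a) 1 := by
    ext p
    have : ∀ a b : ZMod 2, (a + (b + 1) = 1 ↔ a = b) := by decide
    simp only [mem_cut, and_assoc]
    exact and_congr_right fun hp => by simp only [map_add, map_smul, ha p hp, smul_eq_mul, mul_one, this]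
  exact e ▸ h _ _

/-- Change of the weight. -/
theorem WO.transfer {G G' : Type} [AddCommGroup G] [AddCommGroup G'] {γ : Pt W → G}
    {γ' : Pt W → G'} {k : ℕ} {R : Finset (Pt W)} (P : Pt W → Prop) [DecidablePred P]
    (h : WO γ k R) (hP : ∀ R' ⊆ R, ∑ p ∈ R', γ p = 0 → ∑ p ∈ R'.filter P, γ' p = 0) :
    WO γ' k (R.filter P) := by
  induction k generalizing R with
  | zero => exact hP R Finset.Subset.rfl h
  | succ k ih =>
    intro w ε
    rw [K1_filter]
    exact ih (h w ε) fun R' hR => hP R' (hR.trans (cut_subset _ _ _))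

theorem O.le_card {k : ℕ} {R : Finset (Pt W)} (h : O k R) (hne : R.Nonempty) :
    2 ^ (k + 1) ≤ R.card := by
  obtain ⟨p, hp⟩ := hne
  exact (WO.ms h ⟨p, hp, one_ne_zero⟩).trans (Finset.card_le_card fun _ hx =>
    (@Finset.mem_filter _ _ (_) _ _).1 hx |>.1)

/-- A cut of a set of minimal size is empty, one half, or everything. -/
theorem O.cut_card {k : ℕ} {R : Finset (Pt W)} (h : O (k + 1) R) (hc : R.card = 2 ^ (k + 2))
    (w : W) (ε : ZMod 2) :
    (cut R w ε).card = 0 ∨ (cut R w ε).card = 2 ^ (k + 1) ∨ (cut R w ε).card = 2 ^ (k + 2) := by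
  have h0 := card_cut_add R w ε
  rcases Nat.eq_zero_or_pos (cut R w ε).card with h1 | h1
  · exact Or.inl h1
  rcases Nat.eq_zero_or_pos (cut R w (ε + 1)).card with h2 | h2
  · omega
  have h3 := O.le_card (k := k) (h w ε) (Finset.card_pos.1 h1)
  have h4 := O.le_card (k := k) (h w (ε + 1)) (Finset.card_pos.1 h2)
  have h5 : 2 ^ (k + 2) = 2 * 2 ^ (k + 1) := pow_succ' 2 _
  omega

/-- CL. -/
theorem O.closed [FiniteDimensional (ZMod 2) W] {k : ℕ} {R : Finset (Pt W)} (h : O k R)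
    (hc : R.card = 2 ^ (k + 1)) : Closed R := by
  classical
  induction k generalizing R with
  | zero =>
    obtain ⟨a, b, -, rfl⟩ := Finset.card_eq_two.1 hc
    have e : ∀ a b : Pt W, a + b + a = b := fun a b => by
      rw [add_right_comm, pt_add_self, zero_add]
    intro p hp p' hp' p'' hp''
    simp only [Finset.mem_insert, Finset.mem_singleton] at *
    rcases hp with rfl | rfl <;> rcases hp' with rfl | rfl <;> rcases hp'' with rfl | rfl <;>
      simp only [e, pt_add_self, zero_add, add_assoc, add_zero, true_or, or_true]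
  | succ k ih =>
    intro p1 h1 p2 h2 p3 h3
    by_contra hz
    obtain ⟨p, hp, hn⟩ := Finset.exists_mem_notMem_of_card_lt_card (s := {p1, p2, p3}) (t := R) (by
      have := Finset.card_le_three (a := p1) (b := p2) (c := p3)
      have := Nat.one_le_two_pow (n := k)
      omega)
    simp only [Finset.mem_insert, Finset.mem_singleton, not_or] at hn
    have e : ∀ x, x = p + p1 → p = p1 + x := fun x hx => by
      rw [hx, add_comm p, ← add_assoc, pt_add_self, zero_add]
    obtain ⟨w, a1, a2⟩ := exists_vec_sep (p := p + p1)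
      (D := Submodule.span (ZMod 2) {p1 + p2, p1 + p3}) fun hm => by
        obtain ⟨a, b, hab⟩ := Submodule.mem_span_pair.1 hm
        replace hab := e _ hab
        rcases z2 a with rfl | rfl <;> rcases z2 b with rfl | rfl <;>
          simp only [zero_smul, one_smul, add_zero, zero_add, ← add_assoc, pt_add_self] at hab
        exacts [hn.1 hab, hn.2.2 hab, hn.2.1 hab, hz (by
          rwa [hab, add_right_comm, add_comm _ p1, ← add_assoc] at hp)]
    have b2 := a2 _ (Submodule.subset_span (Set.mem_insert _ _))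
    have b3 := a2 _ (Submodule.subset_span (Set.mem_insert_of_mem _ rfl))
    have t1 : ∀ a b : ZMod 2, a + b = 0 → b = a := by decide
    have t2 : ∀ a b : ZMod 2, a + b = 1 → a = b + 1 := by decide
    have m1 := mem_cut.2 ⟨h1, (rfl : p1 w = p1 w)⟩
    have c1 := O.le_card (k := k) (h w (p1 w)) ⟨_, m1⟩
    have c2 := O.le_card (k := k) (h w (p1 w + 1)) ⟨p, mem_cut.2 ⟨hp, t2 _ _ a1⟩⟩
    have c3 := card_cut_add R w (p1 w)
    exact hz (cut_subset _ _ _ (ih (h w (p1 w)) (by omega) _ m1 _ (mem_cut.2 ⟨h2, t1 _ _ b2⟩) _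
      (mem_cut.2 ⟨h3, t1 _ _ b3⟩)))

theorem K1_push {k : ℕ} {R : Finset (Pt W)} (h : O k R) (u : Pt W) (y : W) (ε : ZMod 2) :
    O k (push u y ε R) := by
  classical
  induction k generalizing R with
  | zero => exact (sum_push u y ε R _).trans h
  | succ k ih =>
    intro w δ
    have e : cut (push u y ε R) w δ = push u y ε (cut R (w + u w • y) (δ + u w * ε)) := by
      ext p
      have e1 : ∀ x, x = p ↔ x + u = p + u := fun x => (add_left_inj u).symm
      have t1 : ∀ a b c d : ZMod 2, (a + b * c = d + b * c ↔ a = d) := by decide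
      have t2 : ∀ a b c d : ZMod 2, (a + b + b * (c + 1) = d + b * c ↔ a = d) := by decide
      simp only [push, mem_cut, Finset.mem_symmDiff, Finset.mem_image, e1 (_ + u), add_assoc,
        pt_add_self, add_zero, exists_eq_right, map_add, map_smul, smul_eq_mul]
      by_cases h1 : p y = ε <;> by_cases h2 : (p + u) y = ε + 1 <;>
        simp only [h1, h2, LinearMap.add_apply p u w, t1, t2] <;> tauto
    exact e ▸ ih (h _ _)

/-- GAP. -/
theorem O.gap [FiniteDimensional (ZMod 2) W] {k : ℕ} {R : Finset (Pt W)} (h : O k R)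
    (hne : R.Nonempty) (hlt : R.card < 3 * 2 ^ k) : R.card = 2 ^ (k + 1) := by
  classical
  induction k generalizing R with
  | zero =>
    have := h.le_card hne
    omega
  | succ k ih =>
    induction hn : R.card using Nat.strong_induction_on generalizing R with
    | _ n ih' =>
    subst hn
    have h1 := h.le_card hne
    by_contra hc
    have key : ∀ w ε, (cut R w ε).Nonempty → (cut R w (ε + 1)).Nonempty →
        (cut R w (ε + 1)).card ≤ (cut R w ε).card → False := by
      intro w ε ⟨p', hp'⟩ ⟨p, hp⟩ hle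
      have c1 := card_cut_add R w ε
      have c2 := ih (h w (ε + 1)) ⟨p, hp⟩ (by omega)
      have hP := O.closed (k := k) (h w (ε + 1)) c2
      have c3 := card_push (p + p') w ε R
      set Q := (cut R w (ε + 1)).image fun x => x + (p + p') with hQ
      have c4 : Q.card = (cut R w (ε + 1)).card :=
        Finset.card_image_of_injective _ (add_left_injective _)
      have hq : p' ∈ Q := Finset.mem_image.2 ⟨p, hp, by rw [← add_assoc, pt_add_self, zero_add]⟩
      have c5 := Finset.card_pos.2 ⟨p', Finset.mem_inter.2 ⟨hp', hq⟩⟩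
      have c6 := Finset.card_sdiff_add_card_inter Q (cut R w ε)
      rw [Finset.inter_comm] at c6
      have hO := K1_push h (p + p') w ε
      have c7 := ih' _ (by omega) hO (Finset.card_pos.1 (by omega)) (by omega) rfl
      have hR := hO.closed c7
      have hQc : Closed Q := by
        intro a ha b hb c hc
        obtain ⟨a, ha', rfl⟩ := Finset.mem_image.1 ha
        obtain ⟨b, hb', rfl⟩ := Finset.mem_image.1 hb
        obtain ⟨c, hc', rfl⟩ := Finset.mem_image.1 hc
        refine Finset.mem_image.2 ⟨_, hP a ha' b hb' c hc', ?_⟩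
        rw [add_add_add_comm a, pt_add_self, add_zero, add_assoc]
      have hm : ∀ x, x ∈ push (p + p') w ε R ↔
          (x ∈ cut R w ε ∧ x ∉ Q) ∨ (x ∈ Q ∧ x ∉ cut R w ε) := fun x => by
        rw [push, Finset.mem_symmDiff]
      obtain ⟨j, hj⟩ := Finset.card_pos.1 (show 0 < (Q \ cut R w ε).card by omega)
      have c8 : (Q \ cut R w ε).card ≤ (cut R w ε ∩ Q).card :=
        Finset.card_le_card_of_injOn (fun x => x + j + p') (fun x hx => by
          replace hx := Finset.mem_sdiff.1 hx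
          replace hj := Finset.mem_sdiff.1 hj
          have a1 := hQc x hx.1 j hj.1 p' hq
          refine Finset.mem_inter.2 ⟨by_contra fun a2 => ?_, a1⟩
          have a3 := hR x ((hm x).2 (Or.inr hx)) j ((hm j).2 (Or.inr hj)) _
            ((hm _).2 (Or.inr ⟨a1, a2⟩))
          rw [← add_assoc, pt_add_self, zero_add, hm] at a3
          tauto) fun x _ y _ e => add_right_cancel (add_right_cancel e)
      omega
    obtain ⟨p, hp, p', hp', hn⟩ := Finset.one_lt_card.1
      ((Nat.one_lt_two_pow (Nat.succ_ne_zero _)).trans_le h1)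
    obtain ⟨w, hw⟩ := K1_sep hn
    have m1 : (cut R w (p w)).Nonempty := ⟨p, mem_cut.2 ⟨hp, rfl⟩⟩
    have m2 : (cut R w (p w + 1)).Nonempty := ⟨p', mem_cut.2 ⟨hp', hw⟩⟩
    have e : p w + 1 + 1 = p w := by rw [add_assoc, z2_add_self, add_zero]
    rcases le_total (cut R w (p w + 1)).card (cut R w (p w)).card with hl | hl
    · exact key w _ m1 m2 hl
    · exact key w _ m2 (by rwa [e]) (by rwa [e])

theorem CondA.O_cut {C : Submodule (ZMod 2) W} {T : Finset (Pt W)} (hA : CondA C T) {c : W}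
    (hc : c ∈ C) : O 2 (cut T c 1) := by
  refine WO.of_two (a := c) (fun p hp => (mem_cut.1 hp).2) fun x y => ?_
  simpa only [sum_cut_one, mul_one, mul_assoc] using hA c hc x y

theorem CondA.wt_cases [FiniteDimensional (ZMod 2) W] {C : Submodule (ZMod 2) W}
    {T : Finset (Pt W)} (hA : CondA C T) {c : W} (hc : c ∈ C) :
    (cut T c 1).card = 0 ∨ (cut T c 1).card = 8 ∨ 12 ≤ (cut T c 1).card := by
  rcases Nat.eq_zero_or_pos (cut T c 1).card with h | h
  · exact Or.inl h
  rcases le_or_gt 12 (cut T c 1).card with h' | h'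
  · exact Or.inr (Or.inr h')
  · exact Or.inr (Or.inl ((hA.O_cut hc).gap (Finset.card_pos.1 h) h'))

end Pool.Agent.MP_7af562_mp

end

-- part MP_7af562_mp.CoreB
section

namespace Pool.Agent.MP_7af562_mp

variable {W : Type} [AddCommGroup W] [Module (ZMod 2) W]

theorem om_add (τ : List (W × W)) (u u' : Pt W) : om τ (u + u') = om τ u + om τ u' := by
  induction τ with
  | nil => simp [om]
  | cons z τ ih =>
    simp only [om, ih, LinearMap.add_apply, add_smul]
    abel

theorem om_smul (τ : List (W × W)) (r : ZMod 2) (u : Pt W) : om τ (r • u) = r • om τ u := by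
  induction τ with
  | nil => simp [om]
  | cons z τ ih =>
    simp only [om, ih, LinearMap.smul_apply, smul_eq_mul, smul_add, mul_smul]

theorem om_symm (τ : List (W × W)) (u u' : Pt W) : u' (om τ u) = u (om τ u') := by
  induction τ with
  | nil => simp [om]
  | cons z τ ih =>
    simp only [om, map_add, map_smul, smul_eq_mul, ih]
    ring

theorem om_self (τ : List (W × W)) (u : Pt W) : u (om τ u) = 0 := by
  induction τ with
  | nil => simp [om]
  | cons z τ ih =>
    simp only [om, map_add, map_smul, smul_eq_mul, ih]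
    generalize u z.1 = a
    generalize u z.2 = b
    revert a b
    decide

theorem K2_peel_cons (u : Pt W) (y : W) (z : W × W) (τ : List (W × W)) :
    peel u y (z :: τ) = (z.1 + u z.1 • y, z.2 + u z.2 • y) :: peel u y τ := rfl

theorem om_peel (τ : List (W × W)) (u u' : Pt W) (y : W) :
    om (peel u y τ) u' = om τ u' + u' y • om τ u + u' (om τ u) • y := by
  induction τ with
  | nil => simp [om, peel]
  | cons z τ ih =>
    rw [K2_peel_cons]
    simp only [om, ih, map_add, map_smul, smul_eq_mul]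
    linear_combination (norm := module) (u z.1 * u z.2 * u' y) • w_add_self y

theorem peel_ker {u : Pt W} {y : W} (hu : u y = 1) (τ : List (W × W)) :
    ∀ z ∈ peel u y τ, u z.1 = 0 ∧ u z.2 = 0 := by
  intro z hz
  obtain ⟨z', -, rfl⟩ := List.mem_map.1 hz
  simp only [map_add, map_smul, smul_eq_mul, hu, mul_one, z2_add_self, and_self]

theorem K2_mem {C : Submodule (ZMod 2) W} {u : Pt W} {y c : W} (hc : c ∈ C)
    (hy : y ∈ C ∨ ∀ c ∈ C, u c = 0) : c + u c • y ∈ C := by
  rcases hy with hy | hy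
  · exact C.add_mem hc (C.smul_mem _ hy)
  · rw [hy c hc, zero_smul, add_zero]
    exact hc

theorem K2_InC {C : Submodule (ZMod 2) W} {u : Pt W} {y : W} {τ : List (W × W)}
    (hτ : InC C τ) (hy : y ∈ C ∨ ∀ c ∈ C, u c = 0) : InC C (peel u y τ) := by
  intro z hz
  obtain ⟨z', hz', rfl⟩ := List.mem_map.1 hz
  exact K2_mem (hτ z' hz') hy

theorem InC_peel {C : Submodule (ZMod 2) W} {u : Pt W} {y : W} {τ : List (W × W)}
    (hτ : InC C τ) (hu : u y = 1) (hy : y ∈ C ∨ ∀ c ∈ C, u c = 0) :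
    InC (C ⊓ LinearMap.ker u) (peel u y τ) := fun z hz =>
  ⟨K2_InC hτ hy z hz, (peel_ker hu τ z hz).1⟩

theorem q_add_smul {u : Pt W} {τ : List (W × W)} (h : ∀ z ∈ τ, u z.1 = 0 ∧ u z.2 = 0)
    (p : Pt W) (r : ZMod 2) : q τ (p + r • u) = q τ p := by
  induction τ with
  | nil => simp [q]
  | cons z τ ih =>
    have h1 := h z (List.mem_cons_self ..)
    simp only [q, ih fun z' hz' => h z' (List.mem_cons_of_mem _ hz'), LinearMap.add_apply,
      LinearMap.smul_apply, h1.1, h1.2, smul_zero, add_zero]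

theorem e2_add_smul {u : Pt W} {τ : List (W × W)} (h : ∀ z ∈ τ, u z.1 = 0 ∧ u z.2 = 0)
    (p : Pt W) (r : ZMod 2) : e2 τ (p + r • u) = e2 τ p := by
  induction τ with
  | nil => simp [e2]
  | cons z τ ih =>
    have h1 := h z (List.mem_cons_self ..)
    have h2 : ∀ z' ∈ τ, u z'.1 = 0 ∧ u z'.2 = 0 :=
      fun z' hz' => h z' (List.mem_cons_of_mem _ hz')
    simp only [e2, ih h2, q_add_smul h2, LinearMap.add_apply,
      LinearMap.smul_apply, h1.1, h1.2, smul_zero, add_zero]

theorem q_eq_zero {τ : List (W × W)} {p : Pt W} (h : ∀ z ∈ τ, p z.1 = 0) : q τ p = 0 := by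
  induction τ with
  | nil => simp [q]
  | cons z τ ih =>
    simp only [q, ih fun z' hz' => h z' (List.mem_cons_of_mem _ hz'),
      h z (List.mem_cons_self ..), zero_mul, add_zero]

theorem e2_eq_zero {τ : List (W × W)} {p : Pt W} (h : ∀ z ∈ τ, p z.1 = 0) : e2 τ p = 0 := by
  induction τ with
  | nil => simp [e2]
  | cons z τ ih =>
    simp only [e2, ih fun z' hz' => h z' (List.mem_cons_of_mem _ hz'),
      h z (List.mem_cons_self ..), zero_mul, add_zero]

theorem sum_q_mul (T : Finset (Pt W)) (τ : List (W × W)) (F : Pt W → ZMod 2) :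
    ∑ p ∈ T, q τ p * F p = (τ.map fun z => ∑ p ∈ T, p z.1 * p z.2 * F p).sum := by
  induction τ with
  | nil => simp [q]
  | cons z τ ih =>
    simp only [q, add_mul, Finset.sum_add_distrib, ih, List.map_cons, List.sum_cons]

theorem K2_eta_cons (T : Finset (Pt W)) (z : W × W) (τ : List (W × W)) (a b : W) :
    eta T (z :: τ) a b = ∑ p ∈ T, p z.1 * p z.2 * p a * p b + eta T τ a b := by
  simp only [eta, q, add_mul, Finset.sum_add_distrib]

theorem K2_Phi_cons (T : Finset (Pt W)) (z : W × W) (τ : List (W × W)) :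
    Phi T (z :: τ) = eta T τ z.1 z.2 + Phi T τ := by
  simp only [Phi, eta, e2, Finset.sum_add_distrib]
  congr 1
  exact Finset.sum_congr rfl fun p _ => by ring

theorem eta_self {C : Submodule (ZMod 2) W} {T : Finset (Pt W)} {τ : List (W × W)}
    (hA : CondA C T) (hτ : InC C τ) (y : W) : eta T τ y y = 0 := by
  induction τ with
  | nil => simp [eta, q]
  | cons z τ ih =>
    rw [K2_eta_cons, ih fun z' hz' => hτ z' (List.mem_cons_of_mem _ hz'), add_zero,
      ← hA z.1 (hτ z (List.mem_cons_self ..)) z.2 y]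
    exact Finset.sum_congr rfl fun p _ => by rw [mul_assoc _ (p y), z2_mul_self]

theorem K2_q_peel (τ : List (W × W)) (u p : Pt W) (y : W) :
    q τ p = q (peel u y τ) p + p y * p (om τ u) + q τ u * p y := by
  induction τ with
  | nil => simp [q, om, peel]
  | cons z τ ih =>
    rw [K2_peel_cons]
    simp only [q, om, map_add, map_smul, smul_eq_mul]
    rw [ih]
    generalize q (peel u y τ) p = a1
    generalize p (om τ u) = a2
    generalize q τ u = a3
    generalize p y = a4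
    generalize p z.1 = a5
    generalize p z.2 = a6
    generalize u z.1 = a7
    generalize u z.2 = a8
    revert a1 a2 a3 a4 a5 a6 a7 a8
    decide

/-- PEEL, the form η. -/
theorem eta_peel {C : Submodule (ZMod 2) W} {T : Finset (Pt W)} {τ : List (W × W)} {u : Pt W}
    {y : W} (hA : CondA C T) (hτ : InC C τ) (hy : y ∈ C ∨ ∀ c ∈ C, u c = 0) (a b : W) :
    eta T τ a b = eta T (peel u y τ) a b + ∑ p ∈ T, p y * p (om τ u) * p a * p b := by
  have h0 : q τ u * ∑ p ∈ T, p y * p a * p b = 0 := by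
    rcases hy with hy | hy
    · rw [hA y hy, mul_zero]
    · rw [q_eq_zero fun z hz => hy _ (hτ z hz), zero_mul]
  rw [← add_zero (eta T (peel u y τ) a b + _), ← h0]
  simp only [eta, Finset.mul_sum, ← Finset.sum_add_distrib]
  refine Finset.sum_congr rfl fun p _ => ?_
  rw [K2_q_peel τ u p y]
  ring

theorem K2_point : ∀ k c x y s al be : ZMod 2,
    k * c * x + y * s * c * x + k * y * s =
      k * (c + al * y) * (x + be * y)
        + ((c + al * y) * (x + be * y) * y * (al * x + be * c + s)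
          + k * y * (al * x + be * c + s))
        + al * be * (k * y * y) + (al + be) * ((c + al * y) * (x + be * y) * y)
        + y * (al * x + be * c + al * be * y) * s := by
  decide

/-- PEEL, the value Φ. -/
theorem Phi_peel {C : Submodule (ZMod 2) W} {T : Finset (Pt W)} {τ : List (W × W)} {u : Pt W}
    {y : W} (hA : CondA C T) (hτ : InC C τ) (hy : y ∈ C ∨ ∀ c ∈ C, u c = 0) :
    Phi T τ = Phi T (peel u y τ) + eta T (peel u y τ) y (om τ u) := by
  induction τ with
  | nil => simp [Phi, eta, e2, q, peel]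
  | cons z τ ih =>
    have hτ' : InC C τ := fun z' hz' => hτ z' (List.mem_cons_of_mem _ hz')
    have hz : z.1 ∈ C := hτ z (List.mem_cons_self ..)
    have h1 : eta T (peel u y τ) y y = 0 := eta_self hA (K2_InC hτ' hy) y
    have h2 : ∑ p ∈ T, p (z.1 + u z.1 • y) * p (z.2 + u z.2 • y) * p y = 0 :=
      hA _ (K2_mem hz hy) _ _
    have h3 : ∑ p ∈ T, p y * p (u z.1 • z.2 + u z.2 • z.1 + (u z.1 * u z.2) • y)
        * p (om τ u) = 0 := by
      rcases hy with hy | hy
      · exact hA y hy _ _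
      · rw [hy _ hz, zero_smul, zero_mul, zero_smul, zero_add, add_zero,
          ← hA _ (C.smul_mem (u z.2) hz) y (om τ u)]
        exact Finset.sum_congr rfl fun p _ => by ring
    have key : eta T (peel u y τ) z.1 z.2 + ∑ p ∈ T, p y * p (om τ u) * p z.1 * p z.2
        + eta T (peel u y τ) y (om τ u)
        = eta T (peel u y τ) (z.1 + u z.1 • y) (z.2 + u z.2 • y)
          + (∑ p ∈ T, p (z.1 + u z.1 • y) * p (z.2 + u z.2 • y) * p y * p (om (z :: τ) u)
            + eta T (peel u y τ) y (om (z :: τ) u))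
          + u z.1 * u z.2 * eta T (peel u y τ) y y
          + (u z.1 + u z.2) * ∑ p ∈ T, p (z.1 + u z.1 • y) * p (z.2 + u z.2 • y) * p y
          + ∑ p ∈ T, p y * p (u z.1 • z.2 + u z.2 • z.1 + (u z.1 * u z.2) • y)
            * p (om τ u) := by
      simp only [eta, Finset.mul_sum, ← Finset.sum_add_distrib]
      refine Finset.sum_congr rfl fun p _ => ?_
      simp only [om, map_add, map_smul, smul_eq_mul]
      exact K2_point _ _ _ _ _ _ _
    rw [h1, h2, h3, mul_zero, mul_zero, add_zero, add_zero, add_zero] at key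
    rw [K2_peel_cons, K2_Phi_cons, K2_Phi_cons, K2_eta_cons, eta_peel hA hτ' hy, ih hτ']
    linear_combination key

/-- STEP: a peeling at a ∈ C whose correction term vanishes changes nothing. -/
theorem step_peel {C : Submodule (ZMod 2) W} {T : Finset (Pt W)} {τ : List (W × W)} {u : Pt W}
    {a : W} (hA : CondA C T) (hτ : InC C τ) (ha : a ∈ C)
    (h0 : ∀ y z : W, ∑ p ∈ T, p a * p (om τ u) * p y * p z = 0) :
    (∀ y z : W, eta T (peel u a τ) y z = eta T τ y z) ∧
      Phi T τ = Phi T (peel u a τ) + eta T τ a (om τ u) := by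
  have h : ∀ y z : W, eta T (peel u a τ) y z = eta T τ y z := fun y z => by
    rw [eta_peel (u := u) hA hτ (Or.inl ha) y z, h0, add_zero]
  exact ⟨h, by rw [← h, Phi_peel (u := u) hA hτ (Or.inl ha)]⟩

theorem K2_bot {T : Finset (Pt W)} {τ : List (W × W)} (hτ : InC (⊥ : Submodule (ZMod 2) W) τ) :
    (∀ y z : W, eta T τ y z = 0) ∧ Phi T τ = 0 := by
  have h : ∀ p : Pt W, ∀ z ∈ τ, p z.1 = 0 := fun p z hz => by
    rw [(Submodule.mem_bot _).1 (hτ z hz), map_zero]
  refine ⟨fun y z => Finset.sum_eq_zero fun p _ => ?_, Finset.sum_eq_zero fun p _ => ?_⟩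
  · rw [q_eq_zero (h p), zero_mul, zero_mul]
  · exact e2_eq_zero (h p)

/-- Normal form: a list of length k with the same η and Φ. -/
theorem normal_form [FiniteDimensional (ZMod 2) W] {T : Finset (Pt W)} (k : ℕ) :
    ∀ (C : Submodule (ZMod 2) W) (τ : List (W × W)), CondA C T → InC C τ →
      Module.finrank (ZMod 2) C ≤ k →
      ∃ τ₀ : List (W × W), τ₀.length = k ∧ InC C τ₀ ∧
        (∀ y z : W, eta T τ₀ y z = eta T τ y z) ∧ Phi T τ₀ = Phi T τ := by
  have hbot : ∀ (k : ℕ) (τ : List (W × W)), InC (⊥ : Submodule (ZMod 2) W) τ →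
      ∃ τ₀ : List (W × W), τ₀.length = k ∧ InC (⊥ : Submodule (ZMod 2) W) τ₀ ∧
        (∀ y z : W, eta T τ₀ y z = eta T τ y z) ∧ Phi T τ₀ = Phi T τ := by
    intro k τ hτ
    have h0 : InC (⊥ : Submodule (ZMod 2) W) (List.replicate k ((0 : W), (0 : W))) := by
      intro z hz
      rw [List.eq_of_mem_replicate hz]
      exact Submodule.zero_mem _
    exact ⟨_, List.length_replicate, h0,
      fun y z => by rw [(K2_bot h0).1, (K2_bot hτ).1], by rw [(K2_bot h0).2, (K2_bot hτ).2]⟩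
  induction k with
  | zero =>
    intro C τ _ hτ hk
    obtain rfl : C = ⊥ := Submodule.finrank_eq_zero.1 (Nat.le_zero.1 hk)
    exact hbot 0 τ hτ
  | succ k ih =>
    intro C τ hA hτ hk
    by_cases hC : C = ⊥
    · subst hC
      exact hbot _ τ hτ
    · obtain ⟨a, ha, ha0⟩ := Submodule.exists_mem_ne_zero_of_ne_bot hC
      obtain ⟨u, hu⟩ := exists_dual_one ha0
      have hr := finrank_inf_ker ha hu
      obtain ⟨τ₁, hl, hin, he, hP⟩ := ih (C ⊓ LinearMap.ker u) (peel u a τ)
        (hA.mono inf_le_left) (InC_peel hτ hu (Or.inl ha)) (by omega)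
      refine ⟨(a, om τ u) :: τ₁, by rw [List.length_cons, hl], ?_, fun y z => ?_, ?_⟩
      · intro z hz
        rcases List.mem_cons.1 hz with rfl | hz
        · exact ha
        · exact (hin z hz).1
      · rw [K2_eta_cons, he, eta_peel (u := u) hA hτ (Or.inl ha) y z, add_comm]
      · rw [K2_Phi_cons, he, hP, Phi_peel (u := u) hA hτ (Or.inl ha), add_comm]

end Pool.Agent.MP_7af562_mp

namespace Pool.Agent.MP_7af562_mp

variable {W : Type} [AddCommGroup W] [Module (ZMod 2) W]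

/-- Condition (A) passes to the projected set. -/
theorem CondA.push {C : Submodule (ZMod 2) W} {T : Finset (Pt W)} (hA : CondA C T) {u : Pt W}
    {y : W} (hu : u y = 1) (hy : y ∈ C ∨ ∀ c ∈ C, u c = 0) : CondA C (push u y 0 T) := by
  intro c hc x z
  rw [sum_push u y 0 T (fun p => p c * p x * p z)]
  have key : ∀ (p : Pt W) (w : W), (p + (p y + 0) • u) w = p (w + u w • y) := fun p w => by
    simp only [add_zero, LinearMap.add_apply, LinearMap.smul_apply, map_add, map_smul,
      smul_eq_mul, mul_comm]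
  simp only [key]
  refine hA _ ?_ _ _
  rcases hy with hy | hy
  · exact C.add_mem hc (C.smul_mem _ hy)
  · rw [hy c hc, zero_smul, add_zero]; exact hc

theorem K3_two (T : Finset (Pt W)) (a c : W) :
    (cut T a 1).card + (cut T c 1).card
      = (cut T (a + c) 1).card + 2 * (cut (cut T a 1) c 1).card := by
  simp only [cut, Finset.filter_filter, Finset.card_filter]
  rw [Finset.mul_sum, ← Finset.sum_add_distrib, ← Finset.sum_add_distrib]
  refine Finset.sum_congr rfl fun p _ => ?_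
  rw [map_add]
  have : ∀ a b : ZMod 2, (if a = 1 then 1 else 0) + (if b = 1 then 1 else 0)
      = (if a + b = 1 then 1 else 0) + 2 * (if a = 1 ∧ b = 1 then 1 else 0) := by decide
  exact this _ _

theorem K3_vanish {T : Finset (Pt W)} {a : W} (h : (cut T a 1).card = 0) :
    ∀ p ∈ T, p a = 0 := fun p hp => (z2 _).resolve_right fun h1 => by
  have : p ∈ cut T a 1 := mem_cut.2 ⟨hp, h1⟩
  rw [Finset.card_eq_zero.1 h] at this
  exact absurd this (Finset.notMem_empty _)

/-- Two words of weight eight: a projection along which C dies. -/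
theorem K3_proj [FiniteDimensional (ZMod 2) W] {T : Finset (Pt W)} (hT : T.card ≤ 15)
    {C : Submodule (ZMod 2) W} (hA : CondA C T) {a c : W} (ha : a ∈ C) (hc : c ∈ C)
    (wa : (cut T a 1).card = 8) (wc : (cut T c 1).card = 8)
    (wac : (cut T (a + c) 1).card ≠ 0) :
    ∃ u : Pt W, u a = 1 ∧ ∀ p ∈ push u a 0 T, ∀ d ∈ C, p d = 0 := by
  classical
  have h2 := K3_two T a c
  have h3 := Finset.card_le_card (cut_subset T (a + c) 1)
  have h4 : (cut (cut T a 1) c 1).card = 4 := by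
    have := O.cut_card (k := 1) (hA.O_cut ha) (by simpa using wa) c 1
    norm_num at this
    have e : cut (cut T a 1) c 1 = ∅ → (cut (cut T a 1) c 1).card = 0 := fun h => by simp [h]
    rcases this with h | h | h
    · have := e h; omega
    · exact h
    · omega
  have h5 : (cut (cut T c 1) a 0).card = 4 := by
    have := card_cut_add (cut T c 1) a 0
    rw [zero_add, cut_comm T c a 1 1] at this
    omega
  obtain ⟨g, hg⟩ : (cut (cut T a 1) c 1).Nonempty := Finset.card_pos.1 (by omega)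
  obtain ⟨p, hp⟩ : (cut (cut T c 1) a 0).Nonempty := Finset.card_pos.1 (by omega)
  have hcl : Closed (cut T c 1) := O.closed (hA.O_cut hc) (by simpa using wc)
  simp only [mem_cut] at hg hp
  have hu : (g + p) a = 1 := by rw [LinearMap.add_apply, hg.1.2, hp.2, add_zero]
  refine ⟨g + p, hu, fun r hr d hd => ?_⟩
  have h6 := card_push (g + p) a 0 T
  have h7 : (cut (cut T a 1) c 1).image (fun r => r + (g + p)) ⊆
      cut T a 0 ∩ (cut T a (0 + 1)).image (fun r => r + (g + p)) := by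
    intro x hx
    obtain ⟨r, hr, rfl⟩ := Finset.mem_image.1 hx
    simp only [mem_cut] at hr
    refine Finset.mem_inter.2 ⟨mem_cut.2 ⟨?_, ?_⟩, Finset.mem_image.2 ⟨r, ?_, rfl⟩⟩
    · have := hcl r (mem_cut.2 ⟨hr.1.1, hr.2⟩) g (mem_cut.2 ⟨hg.1.1, hg.2⟩) p (mem_cut.2 hp.1)
      rw [add_assoc] at this
      exact (mem_cut.1 this).1
    · rw [LinearMap.add_apply, hu, hr.1.2]; decide
    · rw [zero_add]; exact mem_cut.2 hr.1
  have h8 := Finset.card_le_card h7
  rw [Finset.card_image_of_injective _ (add_left_injective (g + p)), h4] at h8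
  have h9 := Finset.card_le_card (cut_subset (push (g + p) a 0 T) d 1)
  have h10 : (push (g + p) a 0 T).card ≤ 7 := by
    have : (push (g + p) a 0 T).card + 2 * 4 ≤ T.card := by
      rw [← h6]
      refine Nat.add_le_add_left (Nat.mul_le_mul_left _ ?_) _
      convert h8
    omega
  have := (hA.push hu (Or.inl ha)).wt_cases hd
  exact K3_vanish (by omega) r hr

theorem K3_list (L : List (W × W)) (f : W × W → ZMod 2) (x : ZMod 2)
    (h : ∀ z ∈ L, x * f z = 0) : x * (L.map f).sum = 0 := by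
  induction L with
  | nil => simp
  | cons z L ih =>
    rw [List.map_cons, List.sum_cons, mul_add, h z List.mem_cons_self,
      ih fun w hw => h w (List.mem_cons_of_mem _ hw), add_zero]

/-- The final step: C dies on the projected set. -/
theorem K3_main {T : Finset (Pt W)} {C : Submodule (ZMod 2) W} {τ : List (W × W)}
    (hA : CondA C T) (hτ : InC C τ) (hP : Pluecker (eta T τ)) {a : W} (ha : a ∈ C) {u : Pt W}
    (hu : u a = 1) (h0 : ∀ p ∈ push u a 0 T, ∀ d ∈ C, p d = 0) : Phi T τ = 0 := by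
  have hk := peel_ker hu τ
  have hC : ∀ p ∈ push u a 0 T, ∀ z ∈ peel u a τ, p z.1 = 0 := fun p hp z hz =>
    h0 p hp _ (InC_peel hτ hu (Or.inl ha) z hz).1
  have hs := om_self τ u
  have e1 : Phi T (peel u a τ) = 0 := by
    have := sum_push u a 0 T (e2 (peel u a τ))
    simp only [e2_add_smul hk] at this
    rw [Phi, ← this]
    exact Finset.sum_eq_zero fun p hp => e2_eq_zero (hC p hp)
  have e2' : ∀ y z : W, u y = 0 → u z = 0 →
      eta T τ y z = ∑ p ∈ T, p a * p (om τ u) * p y * p z := by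
    intro y z hy hz
    have := sum_push u a 0 T (fun p => q (peel u a τ) p * p y * p z)
    simp only [q_add_smul hk, LinearMap.add_apply, LinearMap.smul_apply, hy, hz, smul_zero,
      add_zero] at this
    rw [eta_peel hA hτ (u := u) (Or.inl ha), eta, ← this, Finset.sum_eq_zero, zero_add]
    intro p hp
    rw [q_eq_zero (hC p hp), zero_mul, zero_mul]
  have e3 : ∀ y : W, u y = 0 → eta T τ (om τ u) y = 0 := fun y hy => by
    rw [e2' _ _ hs hy, ← hA a ha (om τ u) y]
    refine Finset.sum_congr rfl fun p _ => ?_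
    rw [mul_assoc (p a), z2_mul_self]
  have e4 : eta T τ a (om τ u) = eta T (peel u a τ) a (om τ u) := by
    rw [eta_peel hA hτ (u := u) (Or.inl ha)]
    have : ∑ p ∈ T, p a * p (om τ u) * p a * p (om τ u) = 0 := by
      rw [← hA a ha (om τ u) (om τ u)]
      refine Finset.sum_congr rfl fun p _ => ?_
      generalize p a = x
      generalize p (om τ u) = y
      revert x y; decide
    rw [this, add_zero]
  have e5 : eta T τ a (om τ u) = ((peel u a τ).map fun z => eta T τ z.1 z.2).sum := by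
    rw [e4, eta]
    simp only [mul_assoc]
    rw [sum_q_mul]
    congr 1
    refine List.map_congr_left fun z hz => ?_
    rw [e2' _ _ (hk z hz).1 (hk z hz).2]
    exact Finset.sum_congr rfl fun p _ => by ring
  have e6 := K3_list (peel u a τ) (fun z => eta T τ z.1 z.2) (eta T τ a (om τ u)) fun z hz => by
    have := hP a (om τ u) z.1 z.2
    rwa [e3 _ (hk z hz).1, e3 _ (hk z hz).2, mul_zero, mul_zero, add_zero, add_zero] at this
  rw [← e5, z2_mul_self] at e6
  rw [Phi_peel hA hτ (u := u) (Or.inl ha), e1, ← e4, e6, add_zero]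

/-- H*: at most 15 points, η satisfies the Plücker relation. -/
theorem Hstar [FiniteDimensional (ZMod 2) W] {T : Finset (Pt W)} (hT : T.card ≤ 15)
    (C : Submodule (ZMod 2) W) (τ : List (W × W)) (hA : CondA C T) (hτ : InC C τ)
    (hP : Pluecker (eta T τ)) : Phi T τ = 0 := by
  obtain ⟨n, hn⟩ : ∃ n, Module.finrank (ZMod 2) C = n := ⟨_, rfl⟩
  induction n using Nat.strong_induction_on generalizing C τ with
  | _ n ih =>
  by_cases hb : ∀ a ∈ C, a = 0
  · exact Finset.sum_eq_zero fun p _ => e2_eq_zero fun z hz => by rw [hb _ (hτ z hz), map_zero]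
  by_cases hv : ∃ a ∈ C, a ≠ 0 ∧ (cut T a 1).card = 0
  · obtain ⟨a, ha, ha0, hw⟩ := hv
    obtain ⟨u, hu⟩ := exists_dual_one ha0
    have hz := K3_vanish hw
    obtain ⟨h1, h2⟩ := step_peel (u := u) hA hτ ha fun y z =>
      Finset.sum_eq_zero fun p hp => by rw [hz p hp, zero_mul, zero_mul, zero_mul]
    have h3 := finrank_inf_ker ha hu
    have h4 : eta T τ a (om τ u) = 0 :=
      Finset.sum_eq_zero fun p hp => by rw [hz p hp, mul_zero, zero_mul]
    rw [h2, h4, add_zero]
    refine ih _ (by omega) (C ⊓ LinearMap.ker u) _ (hA.mono inf_le_left)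
      (InC_peel hτ hu (Or.inl ha)) ?_ rfl
    intro a b c d
    simp only [h1]
    exact hP a b c d
  push Not at hb hv
  obtain ⟨a, ha, ha0⟩ := hb
  obtain ⟨u, hu⟩ := exists_dual_one ha0
  by_cases hd : ∀ c ∈ C ⊓ LinearMap.ker u, c = 0
  · have hz : ∀ p : Pt W, ∀ z ∈ peel u a τ, p z.1 = 0 := fun p z hz => by
      rw [hd _ (InC_peel hτ hu (Or.inl ha) z hz), map_zero]
    rw [Phi_peel hA hτ (u := u) (Or.inl ha), Phi, eta, Finset.sum_eq_zero, Finset.sum_eq_zero,
      add_zero]
    · intro p _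
      rw [q_eq_zero (hz p), zero_mul, zero_mul]
    · exact fun p _ => e2_eq_zero (hz p)
  push Not at hd
  obtain ⟨c, ⟨hc, hcu⟩, hc0⟩ := hd
  have hac : a + c ∈ C := C.add_mem ha hc
  have hac0 : a + c ≠ 0 := fun h => by
    have := congrArg u h
    rw [map_add, hu, LinearMap.mem_ker.1 hcu, map_zero] at this
    exact absurd this (by decide)
  have w1 := hA.wt_cases ha
  have w2 := hA.wt_cases hc
  have w3 := hA.wt_cases hac
  have v1 := hv a ha ha0
  have v2 := hv c hc hc0
  have v3 := hv _ hac hac0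
  have t := three_weights T a c
  have fin : ∀ x ∈ C, ∀ y ∈ C, (cut T x 1).card = 8 → (cut T y 1).card = 8 →
      (cut T (x + y) 1).card ≠ 0 → Phi T τ = 0 := fun x hx y hy h1 h2 h3 => by
    obtain ⟨v, hv1, hv2⟩ := K3_proj hT hA hx hy h1 h2 h3
    exact K3_main hA hτ hP hx hv1 hv2
  by_cases b1 : (cut T a 1).card = 8
  · by_cases b2 : (cut T c 1).card = 8
    · exact fin a ha c hc b1 b2 v3
    · refine fin a ha _ hac b1 (by omega) ?_
      rwa [← add_assoc, w_add_self, zero_add]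
  · refine fin c hc _ hac (by omega) (by omega) ?_
    rwa [add_comm a c, ← add_assoc, w_add_self, zero_add]

end Pool.Agent.MP_7af562_mp

end

-- part MP_7af562_mp.CoreC
section

namespace Pool.Agent.MP_7af562_mp

variable {W : Type} [AddCommGroup W] [Module (ZMod 2) W]

theorem K4_sum_cut (T : Finset (Pt W)) (c : W) (ε : ZMod 2) (F : Pt W → ZMod 2) :
    ∑ p ∈ cut T c ε, F p = ∑ p ∈ T, (p c + (ε + 1)) * F p := by
  rw [cut, Finset.sum_filter]
  refine Finset.sum_congr rfl fun p _ => ?_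
  generalize p c = a
  generalize F p = b
  revert a b ε
  decide

theorem K4_expand (T : Finset (Pt W)) (c1 c2 c3 : W) (l1 l2 l3 : ZMod 2) (F : Pt W → ZMod 2) :
    ∑ p ∈ cut (cut (cut T c1 l1) c2 l2) c3 l3, F p
      = ∑ p ∈ T, p c1 * p c2 * p c3 * F p + (l1 + 1) * ∑ p ∈ T, p c2 * p c3 * F p
        + (l2 + 1) * ∑ p ∈ T, p c1 * p c3 * F p + (l3 + 1) * ∑ p ∈ T, p c1 * p c2 * F p
        + (l1 + 1) * (l2 + 1) * ∑ p ∈ T, p c3 * F p + (l1 + 1) * (l3 + 1) * ∑ p ∈ T, p c2 * F p
        + (l2 + 1) * (l3 + 1) * ∑ p ∈ T, p c1 * F p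
        + (l1 + 1) * (l2 + 1) * (l3 + 1) * ∑ p ∈ T, F p := by
  rw [K4_sum_cut, K4_sum_cut, K4_sum_cut]
  simp only [Finset.mul_sum, ← Finset.sum_add_distrib]
  exact Finset.sum_congr rfl fun p _ => by ring

theorem K4_pos {R : Finset (Pt W)} (h : ∑ _p ∈ R, (1 : ZMod 2) = 1) : 1 ≤ R.card := by
  rcases R.eq_empty_or_nonempty with rfl | h'
  · simp only [Finset.sum_const, Finset.card_empty, zero_nsmul, zero_ne_one] at h
  · exact h'.card_pos

theorem K4_four {R : Finset (Pt W)} {s t : W} (h0 : ∑ _p ∈ R, (1 : ZMod 2) = 0)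
    (hs : ∑ p ∈ R, p s = 0) (ht : ∑ p ∈ R, p t = 0) (hst : ∑ p ∈ R, p s * p t = 1) :
    4 ≤ R.card := by
  have H : ∀ e d : ZMod 2, 1 ≤ (cut (cut R s e) t d).card := by
    intro e d
    apply K4_pos
    rw [K4_sum_cut, K4_sum_cut]
    have : ∑ p ∈ R, (p s + (e + 1)) * ((p t + (d + 1)) * 1)
        = ∑ p ∈ R, p s * p t + (d + 1) * ∑ p ∈ R, p s + (e + 1) * ∑ p ∈ R, p t
          + (e + 1) * (d + 1) * ∑ _p ∈ R, (1 : ZMod 2) := by
      simp only [Finset.mul_sum, ← Finset.sum_add_distrib]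
      exact Finset.sum_congr rfl fun p _ => by ring
    rw [this, h0, hs, ht, hst]
    ring
  have h1 := card_cut_add R s 0
  have h2 := card_cut_add (cut R s 0) t 0
  have h3 := card_cut_add (cut R s (0 + 1)) t 0
  have := H 0 0
  have := H 0 (0 + 1)
  have := H (0 + 1) 0
  have := H (0 + 1) (0 + 1)
  omega

theorem K4_A2 {C : Submodule (ZMod 2) W} {T : Finset (Pt W)} (hA : CondA C T) {c : W}
    (hc : c ∈ C) (x : W) : ∑ p ∈ T, p c * p x = 0 := by
  rw [← hA c hc x x]
  exact Finset.sum_congr rfl fun p _ => by rw [mul_assoc, z2_mul_self]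

theorem K4_A1 {C : Submodule (ZMod 2) W} {T : Finset (Pt W)} (hA : CondA C T) {c : W}
    (hc : c ∈ C) : ∑ p ∈ T, p c = 0 := by
  rw [← K4_A2 hA hc c]
  exact Finset.sum_congr rfl fun p _ => by rw [z2_mul_self]

theorem K4_core {C : Submodule (ZMod 2) W} {T : Finset (Pt W)} (hA : CondA C T)
    {c1 c2 c3 s t : W} (h1 : c1 ∈ C) (h2 : c2 ∈ C) (h3 : c3 ∈ C) {l1 l2 l3 : ZMod 2}
    (hl : (l1 + 1) * (l2 + 1) * (l3 + 1) = 0)
    (hs : ∑ p ∈ T, p c1 * p c2 * p c3 * p s = 0) (ht : ∑ p ∈ T, p c1 * p c2 * p c3 * p t = 0)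
    (hk : ∑ p ∈ T, p c1 * p c2 * p c3 * (p s * p t)
      + (l1 + 1) * ∑ p ∈ T, p c2 * p c3 * (p s * p t)
      + (l2 + 1) * ∑ p ∈ T, p c1 * p c3 * (p s * p t)
      + (l3 + 1) * ∑ p ∈ T, p c1 * p c2 * (p s * p t) = 1) :
    4 ≤ (cut (cut (cut T c1 l1) c2 l2) c3 l3).card := by
  apply K4_four (s := s) (t := t)
  · rw [K4_expand, hl]
    simp only [mul_one]
    rw [hA c1 h1, K4_A2 hA h2, K4_A2 hA h1, K4_A2 hA h1, K4_A1 hA h1, K4_A1 hA h2, K4_A1 hA h3]
    ring
  · rw [K4_expand, hl, hs, hA c1 h1, hA c1 h1, hA c2 h2, K4_A2 hA h1, K4_A2 hA h2, K4_A2 hA h3]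
    ring
  · rw [K4_expand, hl, ht, hA c1 h1, hA c1 h1, hA c2 h2, K4_A2 hA h1, K4_A2 hA h2, K4_A2 hA h3]
    ring
  · have e : ∀ c ∈ C, ∑ p ∈ T, p c * (p s * p t) = 0 := fun c hc => by
      rw [← hA c hc s t]
      exact Finset.sum_congr rfl fun p _ => by ring
    rw [K4_expand, hl, hk, e c1 h1, e c2 h2, e c3 h3]
    ring

theorem K4_count (N : ZMod 2 → ZMod 2 → ZMod 2 → ℕ) (k1 k2 k3 : ZMod 2)
    (H : ∀ l1 l2 l3 : ZMod 2, (l1 + 1) * (l2 + 1) * (l3 + 1) = 0 →
      (l1 = k1 ∨ l2 = k2 ∨ l3 = k3) → 4 ≤ N l1 l2 l3) :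
    24 ≤ N 0 0 1 + N 0 1 0 + N 0 1 1 + N 1 0 0 + N 1 0 1 + N 1 1 0 + N 1 1 1 := by
  rcases z2 k1 with rfl | rfl <;> rcases z2 k2 with rfl | rfl <;> rcases z2 k3 with rfl | rfl <;>
  · (try have := H 0 0 1 (by decide) (by decide))
    (try have := H 0 1 0 (by decide) (by decide))
    (try have := H 0 1 1 (by decide) (by decide))
    (try have := H 1 0 0 (by decide) (by decide))
    (try have := H 1 0 1 (by decide) (by decide))
    (try have := H 1 1 0 (by decide) (by decide))
    (try have := H 1 1 1 (by decide) (by decide))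
    omega

theorem K4_split3 {T : Finset (Pt W)} {F G1 G2 G3 : Pt W → ZMod 2}
    (h : ∑ p ∈ T, F p = 0) (e : ∀ p, F p = G1 p + G2 p + G3 p) :
    ∑ p ∈ T, G1 p + ∑ p ∈ T, G2 p + ∑ p ∈ T, G3 p = 0 := by
  rw [← h, ← Finset.sum_add_distrib, ← Finset.sum_add_distrib]
  exact Finset.sum_congr rfl fun p _ => (e p).symm

theorem K4_id1 : ∀ a b c x y z : ZMod 2,
    ((a * x + (b * y + (c * z + 0))) * a * x = a * x + a * b * (x * y) + a * c * (x * z)) ∧
    ((a * x + (b * y + (c * z + 0))) * b * y = b * y + a * b * (x * y) + b * c * (y * z)) ∧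
    ((a * x + (b * y + (c * z + 0))) * a * b = a * b * x + a * b * y + a * b * c * z) ∧
    ((a * x + (b * y + (c * z + 0))) * a * c = a * c * x + a * c * z + a * b * c * y) ∧
    ((a * x + (b * y + (c * z + 0))) * b * c = b * c * y + b * c * z + a * b * c * x) ∧
    ((a * x + (b * y + (c * z + 0))) * a * y = a * x * y + a * b * y + a * c * (y * z)) ∧
    ((a * x + (b * y + (c * z + 0))) * a * z = a * x * z + a * c * z + a * b * (y * z)) ∧
    ((a * x + (b * y + (c * z + 0))) * b * x = b * x * y + a * b * x + b * c * (x * z)) ∧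
    ((a * x + (b * y + (c * z + 0))) * b * z = b * y * z + b * c * z + a * b * (x * z)) ∧
    ((a * x + (b * y + (c * z + 0))) * c * x = c * x * z + a * c * x + b * c * (x * y)) ∧
    ((a * x + (b * y + (c * z + 0))) * c * y = c * y * z + b * c * y + a * c * (x * y)) := by
  decide +kernel

/-- R3: lists of length three. -/
theorem R3 {C : Submodule (ZMod 2) W} {T : Finset (Pt W)} (hA : CondA C T) (hT : T.card ≤ 23)
    {τ : List (W × W)} (hτ : InC C τ) (h3 : τ.length = 3) (h0 : ∀ y z : W, eta T τ y z = 0) :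
    Phi T τ = 0 := by
  obtain ⟨⟨a, x⟩, ⟨b, y⟩, ⟨c, z⟩, rfl⟩ := List.length_eq_three.1 h3
  have ha : a ∈ C := hτ (a, x) (by simp)
  have hb : b ∈ C := hτ (b, y) (by simp)
  have hc : c ∈ C := hτ (c, z) (by simp)
  have I := fun p : Pt W => K4_id1 (p a) (p b) (p c) (p x) (p y) (p z)
  have e1 := K4_split3 (h0 a x) fun p => (I p).1
  have e2' := K4_split3 (h0 b y) fun p => (I p).2.1
  have e3 := K4_split3 (h0 a b) fun p => (I p).2.2.1
  have e4 := K4_split3 (h0 a c) fun p => (I p).2.2.2.1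
  have e5 := K4_split3 (h0 b c) fun p => (I p).2.2.2.2.1
  have e6 := K4_split3 (h0 a y) fun p => (I p).2.2.2.2.2.1
  have e7 := K4_split3 (h0 a z) fun p => (I p).2.2.2.2.2.2.1
  have e8 := K4_split3 (h0 b x) fun p => (I p).2.2.2.2.2.2.2.1
  have e9 := K4_split3 (h0 b z) fun p => (I p).2.2.2.2.2.2.2.2.1
  have e10 := K4_split3 (h0 c x) fun p => (I p).2.2.2.2.2.2.2.2.2.1
  have e11 := K4_split3 (h0 c y) fun p => (I p).2.2.2.2.2.2.2.2.2.2
  rw [K4_A2 hA ha] at e1
  rw [K4_A2 hA hb] at e2'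
  rw [hA a ha, hA a ha, zero_add, zero_add] at e3 e4 e6 e7
  rw [hA b hb, hA b hb, zero_add, zero_add] at e5 e9
  rw [hA b hb, hA a ha, zero_add, zero_add] at e8
  rw [hA c hc, hA a ha, zero_add, zero_add] at e10
  rw [hA c hc, hA b hb, zero_add, zero_add] at e11
  have hP : Phi T [(a, x), (b, y), (c, z)] = ∑ p ∈ T, p a * p b * (p x * p y)
      + ∑ p ∈ T, p a * p c * (p x * p z) + ∑ p ∈ T, p b * p c * (p y * p z) := by
    rw [Phi, ← Finset.sum_add_distrib, ← Finset.sum_add_distrib]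
    refine Finset.sum_congr rfl fun p _ => ?_
    simp only [e2, q]
    ring
  rw [hP]
  by_contra hne
  have hF : ∀ u v w : ZMod 2, 0 + u + v = 0 → 0 + u + w = 0 → ¬ u + v + w = 0 →
      u = 1 ∧ v = 1 ∧ w = 1 := by decide
  obtain ⟨f1, f2, f3⟩ := hF _ _ _ e1 e2' hne
  have hz : ∀ l : ZMod 2, l + (l + 1) = 1 := by decide
  have H := K4_count (fun l1 l2 l3 => (cut (cut (cut T a l1) b l2) c l3).card)
    (∑ p ∈ T, p a * p b * p c * (p y * p z)) (∑ p ∈ T, p a * p b * p c * (p x * p z))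
    (∑ p ∈ T, p a * p b * p c * (p x * p y)) (by
      intro l1 l2 l3 hl h
      rcases h with h | h | h
      · refine K4_core hA ha hb hc hl e4 e3 ?_
        rw [← h, f3, e6, e7]
        linear_combination hz l1
      · refine K4_core hA ha hb hc hl e5 e3 ?_
        rw [← h, f2, e8, e9]
        linear_combination hz l2
      · refine K4_core hA ha hb hc hl e5 e4 ?_
        rw [← h, f1, e10, e11]
        linear_combination hz l3)
  have t0 := card_cut_add T a 0
  have t1 := card_cut_add (cut T a 0) b 0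
  have t2 := card_cut_add (cut T a 1) b 0
  have t3 := card_cut_add (cut (cut T a 0) b 0) c 0
  have t4 := card_cut_add (cut (cut T a 0) b 1) c 0
  have t5 := card_cut_add (cut (cut T a 1) b 0) c 0
  have t6 := card_cut_add (cut (cut T a 1) b 1) c 0
  simp only [zero_add] at t0 t1 t2 t3 t4 t5 t6 H
  omega

theorem K4_sq {w : ℕ} (h1 : 2 ≤ w) (h2 : w ≤ 4) : w * w + 8 ≤ 6 * w := by
  interval_cases w <;> norm_num

theorem K4_mu (m1 m2 m3 m4 m5 m6 m7 m8 m9 m10 m11 m12 m13 m14 m15 : ℕ)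
    (hs : m1 + m2 + m3 + m4 + m5 + m6 + m7 + m8 + m9 + m10 + m11 + m12 + m13 + m14 + m15 = 4)
    (w1 : 2 ≤ m1 + m3 + m5 + m7 + m9 + m11 + m13 + m15)
    (w2 : 2 ≤ m2 + m3 + m6 + m7 + m10 + m11 + m14 + m15)
    (w3 : 2 ≤ m1 + m2 + m5 + m6 + m9 + m10 + m13 + m14)
    (w4 : 2 ≤ m4 + m5 + m6 + m7 + m12 + m13 + m14 + m15)
    (w5 : 2 ≤ m1 + m3 + m4 + m6 + m9 + m11 + m12 + m14)
    (w6 : 2 ≤ m2 + m3 + m4 + m5 + m10 + m11 + m12 + m13)
    (w7 : 2 ≤ m1 + m2 + m4 + m7 + m9 + m10 + m12 + m15)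
    (w8 : 2 ≤ m8 + m9 + m10 + m11 + m12 + m13 + m14 + m15)
    (w9 : 2 ≤ m1 + m3 + m5 + m7 + m8 + m10 + m12 + m14)
    (w10 : 2 ≤ m2 + m3 + m6 + m7 + m8 + m9 + m12 + m13)
    (w11 : 2 ≤ m1 + m2 + m5 + m6 + m8 + m11 + m12 + m15)
    (w12 : 2 ≤ m4 + m5 + m6 + m7 + m8 + m9 + m10 + m11)
    (w13 : 2 ≤ m1 + m3 + m4 + m6 + m8 + m10 + m13 + m15)
    (w14 : 2 ≤ m2 + m3 + m4 + m5 + m8 + m9 + m14 + m15)
    (w15 : 2 ≤ m1 + m2 + m4 + m7 + m8 + m11 + m13 + m14) : False := by
  have s1 := K4_sq w1 (by omega)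
  have s2 := K4_sq w2 (by omega)
  have s3 := K4_sq w3 (by omega)
  have s4 := K4_sq w4 (by omega)
  have s5 := K4_sq w5 (by omega)
  have s6 := K4_sq w6 (by omega)
  have s7 := K4_sq w7 (by omega)
  have s8 := K4_sq w8 (by omega)
  have s9 := K4_sq w9 (by omega)
  have s10 := K4_sq w10 (by omega)
  have s11 := K4_sq w11 (by omega)
  have s12 := K4_sq w12 (by omega)
  have s13 := K4_sq w13 (by omega)
  have s14 := K4_sq w14 (by omega)
  have s15 := K4_sq w15 (by omega)
  have r1 := Nat.le_mul_self m1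
  have r2 := Nat.le_mul_self m2
  have r3 := Nat.le_mul_self m3
  have r4 := Nat.le_mul_self m4
  have r5 := Nat.le_mul_self m5
  have r6 := Nat.le_mul_self m6
  have r7 := Nat.le_mul_self m7
  have r8 := Nat.le_mul_self m8
  have r9 := Nat.le_mul_self m9
  have r10 := Nat.le_mul_self m10
  have r11 := Nat.le_mul_self m11
  have r12 := Nat.le_mul_self m12
  have r13 := Nat.le_mul_self m13
  have r14 := Nat.le_mul_self m14
  have r15 := Nat.le_mul_self m15
  have hq : (m1 + m2 + m3 + m4 + m5 + m6 + m7 + m8 + m9 + m10 + m11 + m12 + m13 + m14 + m15)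
      * (m1 + m2 + m3 + m4 + m5 + m6 + m7 + m8 + m9 + m10 + m11 + m12 + m13 + m14 + m15) = 16 := by
    rw [hs]
  linarith only [hs, s1, s2, s3, s4, s5, s6, s7, s8, s9, s10, s11, s12, s13, s14, s15, r1, r2, r3, r4, r5, r6, r7, r8, r9, r10, r11, r12, r13, r14, r15, hq]

theorem K4_dm {n k : ℕ} (h : n % 2 = k) : ∃ m, n = 2 * m + k := ⟨n / 2, by omega⟩

theorem K4_sum2 (f : ZMod 2 → ℕ) : ∑ x, f x = f 0 + f 1 := Fin.sum_univ_two f

theorem K4_fin (N : ZMod 2 × ZMod 2 × ZMod 2 × ZMod 2 → ℕ) (k : ℕ) (h1 : ∑ l, N l ≤ 23)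
    (h2 : ∀ e1 e2 e3 e4 : ZMod 2, ¬ (e1 = 0 ∧ e2 = 0 ∧ e3 = 0 ∧ e4 = 0) → 12 ≤
      ∑ l, N l * if e1 * l.1 + e2 * l.2.1 + e3 * l.2.2.1 + e4 * l.2.2.2 = 1 then 1 else 0)
    (h3 : ∀ l1 l2 l3 l4 : ZMod 2, (l1 + 1) * (l2 + 1) * (l3 + 1) * (l4 + 1) = 0 →
      N (l1, l2, l3, l4) % 2 = k) : False := by
  simp only [Fintype.sum_prod_type, K4_sum2] at h1 h2
  have w1 := h2 0 0 0 1 (by decide)
  obtain ⟨m1, p1⟩ := K4_dm (h3 0 0 0 1 (by decide))
  have w2 := h2 0 0 1 0 (by decide)
  obtain ⟨m2, p2⟩ := K4_dm (h3 0 0 1 0 (by decide))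
  have w3 := h2 0 0 1 1 (by decide)
  obtain ⟨m3, p3⟩ := K4_dm (h3 0 0 1 1 (by decide))
  have w4 := h2 0 1 0 0 (by decide)
  obtain ⟨m4, p4⟩ := K4_dm (h3 0 1 0 0 (by decide))
  have w5 := h2 0 1 0 1 (by decide)
  obtain ⟨m5, p5⟩ := K4_dm (h3 0 1 0 1 (by decide))
  have w6 := h2 0 1 1 0 (by decide)
  obtain ⟨m6, p6⟩ := K4_dm (h3 0 1 1 0 (by decide))
  have w7 := h2 0 1 1 1 (by decide)
  obtain ⟨m7, p7⟩ := K4_dm (h3 0 1 1 1 (by decide))
  have w8 := h2 1 0 0 0 (by decide)
  obtain ⟨m8, p8⟩ := K4_dm (h3 1 0 0 0 (by decide))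
  have w9 := h2 1 0 0 1 (by decide)
  obtain ⟨m9, p9⟩ := K4_dm (h3 1 0 0 1 (by decide))
  have w10 := h2 1 0 1 0 (by decide)
  obtain ⟨m10, p10⟩ := K4_dm (h3 1 0 1 0 (by decide))
  have w11 := h2 1 0 1 1 (by decide)
  obtain ⟨m11, p11⟩ := K4_dm (h3 1 0 1 1 (by decide))
  have w12 := h2 1 1 0 0 (by decide)
  obtain ⟨m12, p12⟩ := K4_dm (h3 1 1 0 0 (by decide))
  have w13 := h2 1 1 0 1 (by decide)
  obtain ⟨m13, p13⟩ := K4_dm (h3 1 1 0 1 (by decide))
  have w14 := h2 1 1 1 0 (by decide)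
  obtain ⟨m14, p14⟩ := K4_dm (h3 1 1 1 0 (by decide))
  have w15 := h2 1 1 1 1 (by decide)
  obtain ⟨m15, p15⟩ := K4_dm (h3 1 1 1 1 (by decide))
  simp +decide only [if_true, if_false, mul_one, mul_zero, add_zero, zero_add, p1, p2, p3, p4, p5, p6, p7, p8, p9, p10, p11, p12, p13, p14, p15] at h1 w1 w2 w3 w4 w5 w6 w7 w8 w9 w10 w11 w12 w13 w14 w15
  have hk2 : k < 2 := by rw [← h3 0 0 0 1 (by decide)]; exact Nat.mod_lt _ (by norm_num)
  clear h2 h3 p1 p2 p3 p4 p5 p6 p7 p8 p9 p10 p11 p12 p13 p14 p15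
  have hs : 2 * (m1 + m2 + m3 + m4 + m5 + m6 + m7 + m8 + m9 + m10 + m11 + m12 + m13 + m14 + m15) + 15 * k = 23 := by
    apply le_antisymm
    · omega
    · linarith
  have hk : k = 1 := by
    clear h1 w1 w2 w3 w4 w5 w6 w7 w8 w9 w10 w11 w12 w13 w14 w15
    omega
  subst hk
  exact K4_mu m1 m2 m3 m4 m5 m6 m7 m8 m9 m10 m11 m12 m13 m14 m15
    (by linarith only [hs]) (by linarith only [w1]) (by linarith only [w2])
    (by linarith only [w3]) (by linarith only [w4]) (by linarith only [w5])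
    (by linarith only [w6]) (by linarith only [w7]) (by linarith only [w8])
    (by linarith only [w9]) (by linarith only [w10]) (by linarith only [w11])
    (by linarith only [w12]) (by linarith only [w13]) (by linarith only [w14])
    (by linarith only [w15])

/-- R4: in dimension at least four some nonzero element of C has weight below 12. -/
theorem R4 {C : Submodule (ZMod 2) W} {T : Finset (Pt W)} (hA : CondA C T) (hT : T.card ≤ 23)
    (h4 : 4 ≤ Module.finrank (ZMod 2) C) : ∃ a ∈ C, a ≠ 0 ∧ (cut T a 1).card < 12 := by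
  by_contra hcon
  push Not at hcon
  obtain ⟨f, hf⟩ := exists_linearIndependent_of_le_finrank h4
  have h1 := (f 0).2
  have h2 := (f 1).2
  have h3 := (f 2).2
  have h4' := (f 3).2
  let v : Pt W → ZMod 2 × ZMod 2 × ZMod 2 × ZMod 2 :=
    fun p => (p (f 0), p (f 1), p (f 2), p (f 3))
  have fib : ∀ g : ZMod 2 × ZMod 2 × ZMod 2 × ZMod 2 → ℕ,
      ∑ l, (T.filter (fun p => v p = l)).card * g l = ∑ p ∈ T, g (v p) := by
    intro g
    rw [← Finset.sum_fiberwise T v]
    refine Finset.sum_congr rfl fun l _ => ?_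
    rw [Finset.sum_congr rfl (fun p hp => by rw [(Finset.mem_filter.1 hp).2]), Finset.sum_const,
      smul_eq_mul]
  refine K4_fin (fun l => (T.filter (fun p => v p = l)).card)
    (∑ p ∈ T, p (f 0) * p (f 1) * p (f 2) * p (f 3)).val ?_ ?_ ?_
  · have := fib (fun _ => 1)
    simp only [mul_one, Finset.sum_const, smul_eq_mul] at this
    omega
  · intro e1 e2 e3 e4 he
    rw [fib]
    have hne : ((e1 • f 0 + e2 • f 1 + e3 • f 2 + e4 • f 3 : C) : W) ≠ 0 := by
      intro h
      have := Fintype.linearIndependent_iff.1 hf ![e1, e2, e3, e4] (by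
        rw [Fin.sum_univ_four]
        exact Subtype.ext h)
      exact he ⟨this 0, this 1, this 2, this 3⟩
    refine (hcon _ (Subtype.property _) hne).trans (le_of_eq ?_)
    rw [cut, Finset.card_filter]
    refine Finset.sum_congr rfl fun p _ => ?_
    simp only [Fin.isValue, Submodule.coe_add, SetLike.val_smul, map_add, map_smul, smul_eq_mul, v]
  · intro l1 l2 l3 l4 hl
    have e : T.filter (fun p => v p = (l1, l2, l3, l4))
        = cut (cut (cut (cut T (f 0) l1) (f 1) l2) (f 2) l3) (f 3) l4 := by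
      ext p
      simp only [mem_cut, Finset.mem_filter, v, Prod.mk.injEq, and_assoc]
    have e' : ((T.filter (fun p => v p = (l1, l2, l3, l4))).card : ZMod 2)
        = ∑ p ∈ T, p (f 0) * p (f 1) * p (f 2) * p (f 3) := by
      rw [e, Finset.card_eq_sum_ones, Nat.cast_sum, K4_sum_cut]
      simp only [Nat.cast_one, mul_one, Finset.sum_add_distrib]
      rw [K4_expand, hA _ h1, hA _ h1, hA _ h2, K4_A2 hA h1, K4_A2 hA h2, K4_A2 hA h3,
        K4_A1 hA h4']
      have e1 : ∑ _p ∈ cut (cut (cut T (f 0) l1) (f 1) l2) (f 2) l3, (1 : ZMod 2)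
          = (l1 + 1) * (l2 + 1) * (l3 + 1) * ∑ _p ∈ T, (1 : ZMod 2) := by
        rw [K4_expand]
        simp only [mul_one]
        rw [hA _ h1, K4_A2 hA h2, K4_A2 hA h1, K4_A2 hA h1, K4_A1 hA h1, K4_A1 hA h2,
          K4_A1 hA h3]
        ring
      have e2 : ∑ _p ∈ cut (cut (cut T (f 0) l1) (f 1) l2) (f 2) l3, l4
          = l4 * ∑ _p ∈ cut (cut (cut T (f 0) l1) (f 1) l2) (f 2) l3, (1 : ZMod 2) := by
        rw [Finset.mul_sum, mul_one]
      rw [e2, e1]
      linear_combination (∑ _p ∈ T, (1 : ZMod 2)) * hl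
    rw [← e', ZMod.val_natCast]

/-- Four points of sum zero give a form with the Plücker relation. -/
theorem pluecker_four {P : Finset (Pt W)} (h4 : P.card = 4) (hs : ∀ y : W, ∑ p ∈ P, p y = 0) :
    Pluecker (fun y z : W => ∑ p ∈ P, p y * p z) := by
  classical
  obtain ⟨p1, Q, hp, rfl, hQ⟩ := Finset.card_eq_succ.1 h4
  obtain ⟨p2, p3, p4, h23, h24, h34, rfl⟩ := Finset.card_eq_three.1 hQ
  have S : ∀ F : Pt W → ZMod 2, ∑ p ∈ insert p1 ({p2, p3, p4} : Finset (Pt W)), F p
      = F p1 + (F p2 + (F p3 + F p4)) := by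
    intro F
    rw [Finset.sum_insert hp, Finset.sum_insert (by simp [h23, h24]), Finset.sum_pair h34]
  have key : ∀ y z : W, ∑ p ∈ insert p1 ({p2, p3, p4} : Finset (Pt W)), p y * p z
      = (p1 y + p2 y) * (p1 z + p3 z) + (p1 y + p3 y) * (p1 z + p2 z) := by
    intro y z
    have hy := hs y
    have hz := hs z
    rw [S] at hy hz ⊢
    have : ∀ a1 a2 a3 a4 b1 b2 b3 b4 : ZMod 2, a1 + (a2 + (a3 + a4)) = 0 →
        b1 + (b2 + (b3 + b4)) = 0 → a1 * b1 + (a2 * b2 + (a3 * b3 + a4 * b4))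
          = (a1 + a2) * (b1 + b3) + (a1 + a3) * (b1 + b2) := by decide
    exact this _ _ _ _ _ _ _ _ hy hz
  intro a b c d
  simp only [key]
  have : ∀ ua va ub vb uc vc ud vd : ZMod 2,
      (ua * vb + va * ub) * (uc * vd + vc * ud) + (ua * vc + va * uc) * (ub * vd + vb * ud)
        + (ua * vd + va * ud) * (ub * vc + vb * uc) = 0 := by decide
  exact this _ _ _ _ _ _ _ _

end Pool.Agent.MP_7af562_mp

end

-- part MP_7af562_mp.CoreD
section

namespace Pool.Agent.MP_7af562_mp

variable {W : Type} [AddCommGroup W] [Module (ZMod 2) W]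

theorem K5_app (p d : Pt W) (s x : W) : (p + p s • d) x = p (x + d x • s) := by
  simp [mul_comm]

theorem K5_sum {T : Finset (Pt W)} {a s : W} {d : Pt W}
    (hd : ∀ g ∈ cut T a 1, g + d ∈ cut T a 1) (hs : d s = 1) (F : Pt W → ZMod 2) :
    ∑ p ∈ push d s 0 (cut T a 0), F p = ∑ p ∈ T, F (p + p s • d) := by
  have h : ∑ p ∈ cut T a (0 + 1), F (p + p s • d) = 0 := by
    rw [zero_add]
    refine Finset.sum_involution (fun p _ => p + d) (fun p _ => ?_) (fun p _ _ e => ?_)
      (fun p hp => hd p hp) fun p _ => ?_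
    · have : p + d + (p + d) s • d = p + p s • d := by
        rw [LinearMap.add_apply, hs, add_smul, one_smul, add_assoc, add_left_comm d, pt_add_self,
          add_zero]
      rw [this, z2_add_self]
    · rw [add_eq_left.1 e] at hs
      exact zero_ne_one hs
    · rw [add_assoc, pt_add_self, add_zero]
  rw [sum_push, ← sum_cut_add T a 0, h, add_zero]
  simp only [add_zero]

/-- Case B of H. -/
theorem caseB [FiniteDimensional (ZMod 2) W] {C : Submodule (ZMod 2) W} {T : Finset (Pt W)}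
    {τ : List (W × W)} (hA : CondA C T) (hT : T.card ≤ 23) (hτ : InC C τ)
    (h0 : ∀ y z : W, eta T τ y z = 0) {a : W} (ha : a ∈ C) (h8 : (cut T a 1).card = 8)
    {d : Pt W} (hd : ∀ g ∈ cut T a 1, g + d ∈ cut T a 1) (hda : om τ d = a) : Phi T τ = 0 := by
  obtain ⟨g, hg⟩ : (cut T a 1).Nonempty := Finset.card_pos.1 (by omega)
  have ga := (mem_cut.1 hg).2
  obtain ⟨s, hs⟩ : ∃ s, s = om τ g := ⟨_, rfl⟩
  have da : d a = 0 := by rw [← hda, om_self]
  have ds : d s = 1 := by rw [hs, om_symm, hda, ga]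
  have gs : g s = 0 := by rw [hs, om_self]
  obtain ⟨τ1, h1⟩ : ∃ τ1, τ1 = peel g a τ := ⟨_, rfl⟩
  have e1 : ∀ y z, eta T τ1 y z = ∑ p ∈ T, p a * p s * p y * p z := fun y z => by
    have := eta_peel (u := g) hA hτ (.inl ha) y z
    rw [h0, ← h1, ← hs] at this
    have h2 := z2_add_self (∑ p ∈ T, p a * p s * p y * p z)
    linear_combination -this - h2
  have p1 : Phi T τ = Phi T τ1 := by
    rw [Phi_peel (u := g) hA hτ (.inl ha), ← h1, ← hs, e1, add_eq_left, ← hA a ha s s]
    refine Finset.sum_congr rfl fun p _ => ?_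
    generalize p a = x
    generalize p s = y
    revert x y
    decide
  have o1 : om τ1 d = 0 := by
    rw [h1, om_peel, ← hs, hda, da, ds, zero_smul, add_zero, one_smul, w_add_self]
  have c4 : (cut (cut T a 1) s 1).card = 4 := by
    have a1 := O.cut_card (k := 1) (hA.O_cut ha) h8 s 1
    have a2 := card_cut_add (cut T a 1) s 0
    have a3 : 0 < (cut (cut T a 1) s 0).card := Finset.card_pos.2 ⟨g, mem_cut.2 ⟨hg, gs⟩⟩
    have a4 : 0 < (cut (cut T a 1) s 1).card := Finset.card_pos.2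
      ⟨g + d, mem_cut.2 ⟨hd g hg, by rw [LinearMap.add_apply, gs, ds, zero_add]⟩⟩
    rw [zero_add] at a2
    omega
  have P1 : Pluecker (eta T τ1) := by
    have := pluecker_four c4 fun y => by
      rw [sum_cut_one, sum_cut_one, ← hA a ha s y]
      simp only [mul_assoc]
    convert this using 3 with y z
    rw [e1, sum_cut_one, sum_cut_one]
    simp only [mul_assoc]
  have hA1 : CondA (C ⊓ LinearMap.ker g) T := hA.mono inf_le_left
  have i1 : InC (C ⊓ LinearMap.ker g) τ1 := h1 ▸ InC_peel hτ ga (.inl ha)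
  obtain ⟨y, dy, hy⟩ : ∃ y, d y = 1 ∧
      (y ∈ C ⊓ LinearMap.ker g ∨ ∀ c ∈ C ⊓ LinearMap.ker g, d c = 0) := by
    by_cases h : ∀ c ∈ C ⊓ LinearMap.ker g, d c = 0
    · exact ⟨s, ds, .inr h⟩
    · push Not at h
      obtain ⟨c, hc, h⟩ := h
      exact ⟨c, (z2 _).resolve_left h, .inl hc⟩
  have e2' : eta T τ1 = eta T (peel d y τ1) := by
    ext x z
    rw [eta_peel hA1 i1 hy x z, o1]
    simp
  have p2 : Phi T τ1 = Phi T (peel d y τ1) := by
    rw [Phi_peel hA1 i1 hy, o1]
    simp [eta]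
  have k2 := peel_ker dy τ1
  have e3 : ∀ x z, eta (push d s 0 (cut T a 0)) (peel d y τ1) x z =
      eta T (peel d y τ1) (x + d x • s) (z + d z • s) := fun x z => by
    simp only [eta, K5_sum hd ds, q_add_smul k2, K5_app]
  have := Hstar (T := push d s 0 (cut T a 0)) (by
      have a1 := card_push_le d s 0 (cut T a 0)
      have a2 := card_cut_add T a 0
      rw [zero_add] at a2
      omega) _ _ (fun c hc x z => by
      rw [K5_sum hd ds]
      simp only [K5_app]
      rw [show d c = 0 from hc.2, zero_smul, add_zero]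
      exact hA1 c hc.1 _ _) (InC_peel i1 dy hy) fun x₁ x₂ x₃ x₄ => by
      simp only [e3, ← e2']
      exact P1 _ _ _ _
  rw [p1, p2, ← this]
  simp only [Phi, K5_sum hd ds, e2_add_smul k2]

/-- H: at most 23 points, η = 0. -/
theorem H23 [FiniteDimensional (ZMod 2) W] {T : Finset (Pt W)} (hT : T.card ≤ 23)
    (C : Submodule (ZMod 2) W) (τ : List (W × W)) (hA : CondA C T) (hτ : InC C τ)
    (h0 : ∀ y z : W, eta T τ y z = 0) : Phi T τ = 0 := by
  induction h : Module.finrank (ZMod 2) C using Nat.strong_induction_on generalizing C τ with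
  | _ k ih =>
  by_cases h3 : Module.finrank (ZMod 2) C ≤ 3
  · obtain ⟨τ₀, a1, a2, a3, a4⟩ := normal_form 3 C τ hA hτ h3
    rw [← a4]
    exact R3 hA hT a2 a1 fun y z => (a3 y z).trans (h0 y z)
  obtain ⟨a, ha, a0, a12⟩ := R4 hA hT (by omega)
  have step : ∀ u : Pt W, u a = 1 →
      (∀ y z : W, ∑ p ∈ cut T a 1, p (om τ u) * p y * p z = 0) → Phi T τ = 0 := fun u hu hs => by
    obtain ⟨a1, a2⟩ := step_peel (u := u) hA hτ ha fun y z => by
      rw [← hs y z, sum_cut_one]
      simp only [mul_assoc]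
    have := finrank_inf_ker ha hu
    rw [a2, h0, add_zero]
    exact ih _ (by omega) _ _ (hA.mono inf_le_left) (InC_peel hτ hu (.inl ha))
      (fun y z => (a1 y z).trans (h0 y z)) rfl
  rcases hA.wt_cases ha with w | w | w
  · obtain ⟨u, hu⟩ := exists_dual_one a0
    exact step u hu fun y z => by rw [Finset.card_eq_zero.1 w, Finset.sum_empty]
  · let D : Submodule (ZMod 2) (Pt W) :=
      { carrier := {d | ∀ g ∈ cut T a 1, g + d ∈ cut T a 1}
        add_mem' := fun h1 h2 g hg => by rw [← add_assoc]; exact h2 _ (h1 g hg)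
        zero_mem' := fun g hg => by rwa [add_zero]
        smul_mem' := fun r d h1 g hg => by
          rcases z2 r with rfl | rfl
          · rwa [zero_smul, add_zero]
          · rw [one_smul]; exact h1 g hg }
    let L : Pt W →ₗ[ZMod 2] W := ⟨⟨om τ, om_add τ⟩, om_smul τ⟩
    by_cases hm : a ∈ D.map L
    · obtain ⟨d, hd, hda⟩ := hm
      exact caseB hA hT hτ h0 ha w hd hda
    obtain ⟨u, hu, hD⟩ := exists_dual_sep hm
    obtain ⟨g, hg⟩ : (cut T a 1).Nonempty := Finset.card_pos.1 (by omega)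
    have cl := O.closed (hA.O_cut ha) w
    refine step u hu fun y z => ?_
    have c : ∀ p ∈ cut T a 1, p (om τ u) * p y * p z = g (om τ u) * (p y * p z) := fun p hp => by
      have a1 : u (om τ (p + g)) = 0 := hD _ ⟨p + g, fun g' hg' => by
        rw [← add_assoc]; exact cl _ hg' _ hp _ hg, rfl⟩
      rw [om_symm, LinearMap.add_apply] at a1
      have a2 := z2_add_self (g (om τ u))
      have : p (om τ u) = g (om τ u) := by linear_combination a1 - a2
      rw [this, mul_assoc]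
    rw [Finset.sum_congr rfl c, ← Finset.mul_sum, sum_cut_one]
    simp only [← mul_assoc]
    rw [hA a ha y z, mul_zero]
  · omega

end Pool.Agent.MP_7af562_mp

namespace Pool.Agent.MP_7af562_mp

variable {W : Type} [AddCommGroup W] [Module (ZMod 2) W]

theorem K6_card (T : Finset (Pt W)) (c x : W) :
    (cut (cut T c 1) x 1).card = ∑ p ∈ T, (p c * p x).val := by
  simp only [cut, Finset.filter_filter, Finset.card_filter]
  refine Finset.sum_congr rfl fun p _ => ?_
  have : ∀ a b : ZMod 2, (if a = 1 ∧ b = 1 then 1 else 0) = (a * b).val := by decide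
  exact this _ _

theorem K6_card_cast (T : Finset (Pt W)) (c x : W) :
    ((cut (cut T c 1) x 1).card : ZMod 2) = ∑ p ∈ T, p c * p x := by
  rw [K6_card, Nat.cast_sum]
  exact Finset.sum_congr rfl fun p _ => ZMod.natCast_zmod_val _

theorem K6_even {C : Submodule (ZMod 2) W} {T : Finset (Pt W)} (hA : CondA C T) {c : W}
    (hc : c ∈ C) (x : W) : (cut (cut T c 1) x 1).card % 2 = 0 := by
  have h1 : ((cut (cut T c 1) x 1).card : ZMod 2) = 0 := by
    rw [K6_card_cast, ← hA c hc x x]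
    refine Finset.sum_congr rfl fun p _ => ?_
    rw [mul_assoc, z2_mul_self]
  exact Nat.mod_eq_zero_of_dvd ((ZMod.natCast_eq_zero_iff _ _).1 h1)

/-- The number of entries whose product is one. -/
def K6_N (τ : List (W × W)) (p : Pt W) : ℕ := (τ.map fun z => (p z.1 * p z.2).val).sum

theorem K6_N_mod (τ : List (W × W)) (p : Pt W) :
    K6_N τ p % 4 = 2 * (e2 τ p).val + (q τ p).val := by
  induction τ with
  | nil => simp [K6_N, e2, q]
  | cons z τ ih =>
    have h1 : K6_N (z :: τ) p = (p z.1 * p z.2).val + K6_N τ p := by simp [K6_N]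
    have key : ∀ t a b : ZMod 2,
        (t.val + (2 * a.val + b.val)) % 4 = 2 * (t * b + a).val + (t + b).val := by decide
    rw [h1, Nat.add_mod, ih, e2, q, ← key]
    have := ih
    omega

/-- Half the number of points, summed over the list. -/
def K6_M (T : Finset (Pt W)) (τ : List (W × W)) : ℕ :=
  (τ.map fun z => (cut (cut T z.1 1) z.2 1).card / 2).sum

theorem K6_two_M {C : Submodule (ZMod 2) W} {T : Finset (Pt W)} (hA : CondA C T)
    (τ : List (W × W)) (hτ : InC C τ) : 2 * K6_M T τ = ∑ p ∈ T, K6_N τ p := by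
  induction τ with
  | nil => simp [K6_M, K6_N]
  | cons z τ ih =>
    have h1 : K6_M T (z :: τ) = (cut (cut T z.1 1) z.2 1).card / 2 + K6_M T τ := by simp [K6_M]
    have h2 : ∑ p ∈ T, K6_N (z :: τ) p
        = ∑ p ∈ T, (p z.1 * p z.2).val + ∑ p ∈ T, K6_N τ p := by
      rw [← Finset.sum_add_distrib]
      exact Finset.sum_congr rfl fun p _ => by simp [K6_N]
    have h3 := K6_even hA (hτ z (by simp)) z.2
    have h4 := ih fun y hy => hτ y (by simp [hy])
    rw [h1, h2, ← K6_card, ← h4]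
    omega

theorem K6_q_append (τ σ : List (W × W)) (p : Pt W) : q (τ ++ σ) p = q τ p + q σ p := by
  induction τ with
  | nil => simp [q]
  | cons z τ ih => rw [List.cons_append, q, q, ih, add_assoc]

theorem K6_M_append (T : Finset (Pt W)) (τ σ : List (W × W)) :
    K6_M T (τ ++ σ) = K6_M T τ + K6_M T σ := by simp [K6_M]

theorem K6_sum_mod (T : Finset (Pt W)) (f g : Pt W → ℕ) (h : ∀ p ∈ T, f p % 4 = 2 * g p) :
    (∑ p ∈ T, f p) % 4 = (2 * ∑ p ∈ T, g p) % 4 := by
  rw [Finset.sum_nat_mod, Finset.mul_sum, Finset.sum_congr rfl h]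

theorem K6_M_zero [FiniteDimensional (ZMod 2) W] {C : Submodule (ZMod 2) W}
    {T : Finset (Pt W)} (hA : CondA C T) (hT : T.card ≤ 23) {τ : List (W × W)} (hτ : InC C τ)
    (h0 : ∀ p ∈ T, q τ p = 0) : (K6_M T τ : ZMod 2) = 0 := by
  have h1 : Phi T τ = 0 := H23 hT C τ hA hτ fun y z =>
    Finset.sum_eq_zero fun p hp => by rw [h0 p hp, zero_mul, zero_mul]
  have h2 := K6_sum_mod T (K6_N τ) (fun p => (e2 τ p).val) fun p hp => by
    rw [K6_N_mod, h0 p hp]; simp
  have h3 : ((∑ p ∈ T, (e2 τ p).val : ℕ) : ZMod 2) = 0 := by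
    rw [Nat.cast_sum, ← h1]
    exact Finset.sum_congr rfl fun p _ => ZMod.natCast_zmod_val _
  have h4 := (ZMod.natCast_eq_zero_iff _ _).1 h3
  rw [← K6_two_M hA τ hτ] at h2
  rw [ZMod.natCast_eq_zero_iff]
  omega

open Classical in
/-- The vector attached to a list. -/
noncomputable def K6_vec (T : Finset (Pt W)) (τ : List (W × W)) : (Pt W → ZMod 2) × ZMod 2 :=
  (fun p => if p ∈ T then q τ p else 0, (K6_M T τ : ZMod 2))

/-- The vectors attached to lists with first entries in C form a subspace. -/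
noncomputable def K6_R (C : Submodule (ZMod 2) W) (T : Finset (Pt W)) :
    Submodule (ZMod 2) ((Pt W → ZMod 2) × ZMod 2) where
  carrier := {r | ∃ τ, InC C τ ∧ r = K6_vec T τ}
  add_mem' := by
    rintro _ _ ⟨τ, hτ, rfl⟩ ⟨σ, hσ, rfl⟩
    refine ⟨τ ++ σ, fun z hz => (List.mem_append.1 hz).elim (hτ z) (hσ z), ?_⟩
    refine Prod.ext (funext fun p => ?_) ?_
    · simp only [K6_vec, Prod.fst_add, Pi.add_apply, K6_q_append]
      split_ifs <;> simp
    · simp [K6_vec, K6_M_append]
  zero_mem' := by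
    refine ⟨[], fun z hz => by simp at hz, Prod.ext (funext fun p => ?_) ?_⟩
    · simp [K6_vec, q]
    · simp [K6_vec, K6_M]
  smul_mem' := by
    rintro r _ ⟨τ, hτ, rfl⟩
    rcases z2 r with rfl | rfl
    · refine ⟨[], fun z hz => by simp at hz, Prod.ext (funext fun p => ?_) ?_⟩
      · simp [K6_vec, q]
      · simp [K6_vec, K6_M]
    · exact ⟨τ, hτ, one_smul _ _⟩

open Classical in
theorem K6_vec_eq (T : Finset (Pt W)) (τ : List (W × W)) :
    K6_vec T τ = ∑ p ∈ T, q τ p • ((Pi.single p 1 : Pt W → ZMod 2), (0 : ZMod 2))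
      + (K6_M T τ : ZMod 2) • ((0 : Pt W → ZMod 2), (1 : ZMod 2)) := by
  refine Prod.ext (funext fun p => ?_) ?_
  · simp [K6_vec, Prod.fst_sum, Finset.sum_apply, Pi.single_apply]
  · simp [K6_vec, Prod.snd_sum]

/-- RL. -/
theorem RL [FiniteDimensional (ZMod 2) W] {C : Submodule (ZMod 2) W} {T : Finset (Pt W)}
    (hA : CondA C T) (hT : T.card ≤ 23) :
    ∃ K ⊆ T, ∀ c ∈ C, ∀ x : W,
      (cut (cut T c 1) x 1).card % 4 = (2 * (cut (cut K c 1) x 1).card) % 4 := by
  classical
  have hn : ((0 : Pt W → ZMod 2), (1 : ZMod 2)) ∉ K6_R C T := by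
    rintro ⟨τ, hτ, h⟩
    have h1 : (1 : ZMod 2) = (K6_M T τ : ZMod 2) := congrArg Prod.snd h
    have h2 : ∀ p ∈ T, q τ p = 0 := fun p hp => by
      have := congrFun (congrArg Prod.fst h) p
      simpa [K6_vec, hp] using this.symm
    rw [K6_M_zero hA hT hτ h2] at h1
    exact one_ne_zero h1
  obtain ⟨u, hu1, hu0⟩ := exists_dual_sep hn
  refine ⟨T.filter fun p => u ((Pi.single p 1 : Pt W → ZMod 2), (0 : ZMod 2)) = 1,
    Finset.filter_subset _ _, fun c hc x => ?_⟩
  have h1 := hu0 _ ⟨[(c, x)], fun z hz => by rw [List.mem_singleton.1 hz]; exact hc, rfl⟩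
  rw [K6_vec_eq, map_add, map_sum, map_smul, hu1] at h1
  have h2 : ∑ p ∈ T, u (q [(c, x)] p • ((Pi.single p 1 : Pt W → ZMod 2), (0 : ZMod 2)))
      = ((cut (cut (T.filter fun p =>
        u ((Pi.single p 1 : Pt W → ZMod 2), (0 : ZMod 2)) = 1) c 1) x 1).card : ZMod 2) := by
    rw [K6_card_cast, Finset.sum_filter]
    refine Finset.sum_congr rfl fun p _ => ?_
    rw [map_smul, q, q, add_zero, smul_eq_mul]
    rcases z2 (u ((Pi.single p 1 : Pt W → ZMod 2), (0 : ZMod 2))) with h | h <;> simp [h]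
  have h3 : K6_M T [(c, x)] = (cut (cut T c 1) x 1).card / 2 := by simp [K6_M]
  rw [h2, h3, smul_eq_mul, mul_one, ← Nat.cast_add, ZMod.natCast_eq_zero_iff] at h1
  have h4 := K6_even hA hc x
  omega

end Pool.Agent.MP_7af562_mp

namespace Pool.Agent.MP_7af562_mp

section
variable {W : Type} [AddCommGroup W] [Module (ZMod 2) W]

theorem K7_polar {G : Type} [AddCommMonoid G] (γ : Pt W → G) (R : Finset (Pt W)) (x y : W) :
    ∑ p ∈ cut R x 1, γ p + ∑ p ∈ cut R y 1, γ p =
      ∑ p ∈ cut (cut R x 1) y 1, (γ p + γ p) + ∑ p ∈ cut R (x + y) 1, γ p := by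
  simp only [cut, Finset.filter_filter, Finset.sum_filter]
  rw [← Finset.sum_add_distrib, ← Finset.sum_add_distrib]
  refine Finset.sum_congr rfl fun p _ => ?_
  rw [map_add]
  have e : (1 : ZMod 2) + 1 = 0 := by decide
  rcases z2 (p x) with h | h <;> rcases z2 (p y) with h' | h' <;> simp only [h, zero_ne_one, ↓ reduceIte, h', add_zero, and_self, zero_add, and_true, and_false, e]

theorem K7_parity {α : Type} (A : Finset α) (m : α → ℕ) :
    ∑ p ∈ A, m p = (A.filter (fun p => m p % 2 = 1)).card + 2 * ∑ p ∈ A, m p / 2 := by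
  rw [Finset.card_filter, Finset.mul_sum, ← Finset.sum_add_distrib]
  refine Finset.sum_congr rfl fun p _ => ?_
  split_ifs <;> omega

theorem K7_val (a b : ZMod 2) : (a + b).val % 2 = (a.val + b.val) % 2 := by
  revert a b; decide

theorem K7_cut_filter (S : Finset (Pt W)) (P : Pt W → Prop) [DecidablePred P] (a : W)
    (e : ZMod 2) : cut (S.filter P) a e = (cut S a e).filter P := by
  ext p; simp only [mem_cut, Finset.mem_filter]; tauto

theorem K7_even {α : Type} {A : Finset α} (h : A.card % 2 = 0) :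
    ∑ _p ∈ A, (1 : ZMod 2) = 0 := by
  rw [Finset.sum_const, nsmul_eq_mul, mul_one, ZMod.natCast_eq_zero_iff]
  omega

theorem K7_cut_symmDiff [DecidableEq (Pt W)] (A B : Finset (Pt W)) (a : W) (e : ZMod 2) :
    cut (symmDiff A B) a e = symmDiff (cut A a e) (cut B a e) := by
  ext p; simp only [mem_cut, Finset.mem_symmDiff]; tauto

theorem K7_card_symmDiff {α : Type} [DecidableEq α] (A B : Finset α) :
    (symmDiff A B).card % 2 = (A.card + B.card) % 2 := by
  rw [symmDiff_def, Finset.sup_eq_union, Finset.card_union_of_disjoint disjoint_sdiff_sdiff]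
  have h2 := Finset.card_sdiff_add_card_inter A B
  have h3 := Finset.card_sdiff_add_card_inter B A
  rw [Finset.inter_comm] at h3
  omega

/-- The odd exponents contribute a multiple of eight. -/
theorem K7_odd [FiniteDimensional (ZMod 2) W] {R : Finset (Pt W)} (hR : R.card ≤ 23) {a : W}
    (ha : ∀ p ∈ R, p a = 1) (m : Pt W → ℕ) (β : Pt W)
    (h : ∀ w : W, (∑ p ∈ cut R w 1, m p) % 8 = (4 * (β w).val) % 8) (w : W) :
    ((cut R w 1).filter (fun p => m p % 2 = 1)).card % 8 = 0 := by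
  have h2 : WO (fun p => (m p : ZMod 8) + (m p : ZMod 8)) 2 R := by
    refine WO.of_two ha fun x y => ?_
    have e := K7_polar m R x y
    have e1 := h x
    have e2 := h y
    have e3 := h (x + y)
    rw [map_add] at e3
    have e4 := K7_val (β x) (β y)
    have : ((∑ p ∈ cut (cut R x 1) y 1, (m p + m p) : ℕ) : ZMod 8) = 0 := by
      rw [ZMod.natCast_eq_zero_iff]; omega
    simpa only [Nat.cast_sum, Nat.cast_add] using this
  have h3 := WO.dbl (k := 1) h2
  have h4 : O 3 (R.filter (fun p => m p % 2 = 1)) := by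
    refine WO.transfer _ h3 fun R' _ h0 => K7_even ?_
    have : ((4 * ∑ p ∈ R', m p : ℕ) : ZMod 8) = 0 := by
      rw [← h0, Finset.mul_sum, Nat.cast_sum]
      refine Finset.sum_congr rfl fun p _ => ?_
      push_cast; ring
    rw [ZMod.natCast_eq_zero_iff] at this
    have e := K7_parity R' m
    omega
  rw [← K7_cut_filter]
  rcases (R.filter (fun p => m p % 2 = 1)).eq_empty_or_nonempty with h0 | h0
  · rw [h0]; simp [cut]
  · have hc := O.gap h4 h0 (lt_of_le_of_lt ((Finset.card_filter_le _ _).trans hR) (by norm_num))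
    rcases O.cut_card (k := 2) h4 hc w 1 with e | e | e <;> rw [e] <;> norm_num

/-- The statement for exponents modulo eight. -/
theorem K7_exp [FiniteDimensional (ZMod 2) W] (C : Submodule (ZMod 2) W) (S : Finset (Pt W))
    (hS : S.card ≤ 23) (m : Pt W → ℕ) (h : ∀ a ∈ C, ∃ β : Pt W, ∀ w : W,
      (∑ p ∈ cut (cut S a 1) w 1, m p) % 8 = (4 * (β w).val) % 8) :
    ∃ K ⊆ S, ∀ a ∈ C, ∀ w : W,
      (∑ p ∈ cut (cut S a 1) w 1, m p) % 8 = (4 * (cut (cut K a 1) w 1).card) % 8 := by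
  classical
  have odd : ∀ a ∈ C, ∀ w : W,
      ((cut (cut S a 1) w 1).filter (fun p => m p % 2 = 1)).card % 8 = 0 := by
    intro a ha w
    obtain ⟨β, hβ⟩ := h a ha
    exact K7_odd ((Finset.card_le_card (cut_subset S a 1)).trans hS)
      (fun p hp => (mem_cut.1 hp).2) m β hβ w
  have hA : CondA C (S.filter (fun p => m p / 2 % 2 = 1)) := by
    intro c hc x y
    obtain ⟨β, hβ⟩ := h c hc
    have h1 : ∀ w, (∑ p ∈ cut (cut S c 1) w 1, m p / 2) % 4 = (2 * (β w).val) % 4 := by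
      intro w
      have e := K7_parity (cut (cut S c 1) w 1) m
      have e1 := odd c hc w
      have e2 := hβ w
      omega
    have e := K7_polar (fun p => m p / 2) (cut S c 1) x y
    have e1 := h1 x
    have e2 := h1 y
    have e3 := h1 (x + y)
    rw [map_add] at e3
    have e4 := K7_val (β x) (β y)
    rw [Finset.sum_add_distrib] at e
    have e5 := K7_parity (cut (cut (cut S c 1) x 1) y 1) (fun p => m p / 2)
    have e6 : ((cut (cut (cut S c 1) x 1) y 1).filter (fun p => m p / 2 % 2 = 1)).card % 2 = 0 := by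
      omega
    have e7 := K7_even e6
    rw [← K7_cut_filter, ← K7_cut_filter, ← K7_cut_filter, sum_cut_one, sum_cut_one,
      sum_cut_one] at e7
    rw [← e7]
    exact Finset.sum_congr rfl fun p _ => by ring
  obtain ⟨K0, hK0, hK⟩ := RL hA ((Finset.card_filter_le _ _).trans hS)
  refine ⟨symmDiff K0 (S.filter (fun p => m p / 2 / 2 % 2 = 1)), ?_, fun a ha w => ?_⟩
  · intro p hp
    rcases Finset.mem_symmDiff.1 hp with ⟨h1, -⟩ | ⟨h1, -⟩
    · exact (Finset.mem_filter.1 (hK0 h1)).1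
    · exact (Finset.mem_filter.1 h1).1
  · have e1 := hK a ha w
    rw [K7_cut_filter, K7_cut_filter] at e1
    have e2 := K7_card_symmDiff (cut (cut K0 a 1) w 1)
      (cut (cut (S.filter (fun p => m p / 2 / 2 % 2 = 1)) a 1) w 1)
    rw [← K7_cut_symmDiff, ← K7_cut_symmDiff, K7_cut_filter, K7_cut_filter] at e2
    have e3 := K7_parity (cut (cut S a 1) w 1) m
    have e4 := K7_parity (cut (cut S a 1) w 1) (fun p => m p / 2)
    have e5 := K7_parity (cut (cut S a 1) w 1) (fun p => m p / 2 / 2)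
    have e6 := odd a ha w
    omega

/-- The values at points that are seen by C are eighth roots of unity. -/
theorem K7_root {R : Finset (Pt W)} (hR : R.card ≤ 23) {a : W} (ha : ∀ p ∈ R, p a = 1)
    (V : Pt W → ℂ) (hV : ∀ p, V p ≠ 0) (β : Pt W)
    (h : ∀ w : W, ∏ p ∈ cut R w 1, V p = (-1) ^ (β w).val) : ∀ p ∈ R, V p ^ 8 = 1 := by
  classical
  let γ : Pt W → Additive ℂˣ := fun p => Additive.ofMul (Units.mk0 (V p) (hV p))
  have val : ∀ A : Finset (Pt W),
      ((Additive.toMul (∑ p ∈ A, γ p) : ℂˣ) : ℂ) = ∏ p ∈ A, V p := by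
    intro A
    rw [toMul_sum, Units.coe_prod]
    rfl
  have h2 : WO (fun p => γ p + γ p) 2 R := by
    refine WO.of_two ha fun x y => ?_
    have e := K7_polar γ R x y
    have e' : ∑ p ∈ cut R x 1, γ p + ∑ p ∈ cut R y 1, γ p = ∑ p ∈ cut R (x + y) 1, γ p := by
      apply Additive.toMul.injective
      apply Units.ext
      rw [toMul_add, Units.val_mul, val, val, val, h, h, h, map_add, ← pow_add,
        neg_one_pow_eq_pow_mod_two, ← K7_val, ← neg_one_pow_eq_pow_mod_two]
    rw [e'] at e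
    exact add_eq_right.1 e.symm
  have h4 := WO.dbl (k := 2) (WO.dbl (k := 1) h2)
  intro p hp
  by_contra hne
  have := WO.ms h4 ⟨p, hp, fun h0 => hne ?_⟩
  · have h5 := (this.trans (Finset.card_le_card (@Finset.filter_subset _ _ (_) _))).trans hR
    norm_num at h5
  · have h6 := congrArg (fun g => ((Additive.toMul g : ℂˣ) : ℂ)) h0
    simp only [toMul_add, Units.val_mul, toMul_zero, Units.val_one, γ, toMul_ofMul,
      Units.val_mk0] at h6
    rw [← h6]; ring

end

/-- PL for points. -/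
theorem PL_points {W : Type} [AddCommGroup W] [Module (ZMod 2) W] [FiniteDimensional (ZMod 2) W]
    (C : Submodule (ZMod 2) W) (S : Finset (Pt W)) (hS : S.card ≤ 23) (V : Pt W → ℂ)
    (hV : ∀ p, V p ≠ 0) (h : ∀ a ∈ C, ∃ β : Pt W, ∀ w : W,
      ∏ p ∈ cut (cut S a 1) w 1, V p = (-1) ^ (β w).val) :
    ∃ K ⊆ S, ∀ a ∈ C, ∀ w : W,
      ∏ p ∈ cut (cut S a 1) w 1, V p = (-1) ^ (cut (cut K a 1) w 1).card := by
  obtain ⟨ζ, hζ⟩ : ∃ ζ : ℂ, IsPrimitiveRoot ζ 8 := ⟨_, Complex.isPrimitiveRoot_exp 8 (by norm_num)⟩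
  have h4 : ζ ^ 4 = -1 := (hζ.pow (by norm_num) (show 8 = 4 * 2 by norm_num)).eq_neg_one_of_two_right
  have ex : ∀ p : Pt W, ∃ n : ℕ, V p ^ 8 = 1 → V p = ζ ^ n := by
    intro p
    by_cases hp : V p ^ 8 = 1
    · obtain ⟨n, -, hn⟩ := hζ.eq_pow_of_pow_eq_one hp
      exact ⟨n, fun _ => hn.symm⟩
    · exact ⟨0, fun h' => absurd h' hp⟩
  choose m hm using ex
  have key : ∀ a ∈ C, ∀ (w : W) (n : ℕ), ∏ p ∈ cut (cut S a 1) w 1, V p = (-1) ^ n ↔
      (∑ p ∈ cut (cut S a 1) w 1, m p) % 8 = (4 * n) % 8 := by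
    intro a ha w n
    obtain ⟨β, hβ⟩ := h a ha
    have r := K7_root ((Finset.card_le_card (cut_subset S a 1)).trans hS)
      (fun p hp => (mem_cut.1 hp).2) V hV β hβ
    rw [Finset.prod_congr rfl fun p hp => hm p (r p (cut_subset _ _ _ hp)),
      Finset.prod_pow_eq_pow_sum, ← h4, ← pow_mul, hζ.eq_orderOf]
    exact (hζ.isOfFinOrder (by norm_num)).pow_eq_pow_iff_modEq
  obtain ⟨K, hK, hK'⟩ := K7_exp C S hS m fun a ha => by
    obtain ⟨β, hβ⟩ := h a ha
    exact ⟨β, fun w => (key a ha w _).1 (hβ w)⟩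
  exact ⟨K, hK, fun a ha w => (key a ha w _).2 (hK' a ha w)⟩

end Pool.Agent.MP_7af562_mp

namespace Pool.Agent.MP_7af562_mp

theorem K8_sign {ι : Type} (s : Finset ι) (x : ι → ZMod 2) :
    ∏ j ∈ s, (-1 : ℂ) ^ (x j).val = (-1) ^ (∑ j ∈ s, x j).val := by
  classical
  induction s using Finset.induction_on with
  | empty => simp only [Finset.prod_empty, Finset.sum_empty, ZMod.val_zero, pow_zero]
  | insert j s hj ih =>
    rw [Finset.prod_insert hj, Finset.sum_insert hj, ih]
    have h2 : (1 : ZMod 2) + 1 = 0 := by decide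
    have h1 : (1 : ZMod 2).val = 1 := rfl
    rcases z2 (x j) with h | h <;> rcases z2 (∑ j ∈ s, x j) with h' | h' <;>
      simp [h, h', h1, h2]

/-- The coordinate functional on W. -/
def K8_P {n : ℕ} (W : Submodule (ZMod 2) (Fin n → ZMod 2)) (j : Fin n) : Pt W :=
  (LinearMap.proj j : (Fin n → ZMod 2) →ₗ[ZMod 2] ZMod 2).comp W.subtype

theorem K8_P_apply {n : ℕ} (W : Submodule (ZMod 2) (Fin n → ZMod 2)) (j : Fin n) (w : W) :
    K8_P W j w = (w : Fin n → ZMod 2) j := rfl

open Classical in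
theorem K8_prod {n : ℕ} (W : Submodule (ZMod 2) (Fin n → ZMod 2)) (f : Fin n → ℂ) (a w : W) :
    ∏ j, f j ^ ((a : Fin n → ZMod 2) j * (w : Fin n → ZMod 2) j).val
      = ∏ p ∈ cut (cut (Finset.univ.image (K8_P W)) a 1) w 1,
          ∏ j ∈ Finset.univ.filter (fun j => K8_P W j = p), f j := by
  rw [← Finset.prod_fiberwise_of_maps_to (s := Finset.univ) (t := Finset.univ.image (K8_P W))
    (g := K8_P W) (fun j hj => Finset.mem_image_of_mem _ hj)]
  simp only [cut, Finset.filter_filter]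
  rw [Finset.prod_filter (fun p : Pt W => p a = 1 ∧ p w = 1)]
  refine Finset.prod_congr rfl fun p _ => ?_
  have h1 : ∏ j ∈ Finset.univ.filter (fun j => K8_P W j = p),
      f j ^ ((a : Fin n → ZMod 2) j * (w : Fin n → ZMod 2) j).val
      = ∏ j ∈ Finset.univ.filter (fun j => K8_P W j = p), f j ^ (p a * p w).val :=
    Finset.prod_congr rfl fun j hj => by
      rw [← (Finset.mem_filter.1 hj).2, K8_P_apply, K8_P_apply]
  have h2 : (1 : ZMod 2).val = 1 := rfl
  rw [h1]
  rcases z2 (p a) with h | h <;> rcases z2 (p w) with h' | h' <;> simp only [h, h', mul_zero, ZMod.val_zero, pow_zero, Finset.prod_const_one, zero_ne_one, and_self, ↓ reduceIte, mul_one, and_true, and_false, h2, pow_one]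

/-- PL for coordinates: equal columns are merged. -/
theorem PL {n : ℕ} (hn : n ≤ 23) (C W : Submodule (ZMod 2) (Fin n → ZMod 2)) (hCW : C ≤ W)
    (v : Fin n → ℂ) (hv : ∀ j, v j ≠ 0)
    (h : ∀ a ∈ C, ∃ b : Fin n → ZMod 2, ∀ w ∈ W,
      ∏ j, v j ^ (a j * w j).val = ∏ j, (-1 : ℂ) ^ (b j * w j).val) :
    ∃ k : Fin n → ZMod 2, ∀ a ∈ C, ∀ w ∈ W,
      ∏ j, v j ^ (a j * w j).val = ∏ j, (-1 : ℂ) ^ (k j * a j * w j).val := by
  classical
  have hS : (Finset.univ.image (K8_P W)).card ≤ 23 :=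
    Finset.card_image_le.trans (by simpa only [Finset.card_univ, Fintype.card_fin] using hn)
  obtain ⟨K, hK, hKa⟩ := PL_points (C.comap W.subtype) (Finset.univ.image (K8_P W)) hS
    (fun p => ∏ j ∈ Finset.univ.filter (fun j => K8_P W j = p), v j)
    (fun p => Finset.prod_ne_zero_iff.2 fun j _ => hv j) (fun a ha => by
      obtain ⟨b, hb⟩ := h a ha
      refine ⟨∑ j, b j • K8_P W j, fun w => ?_⟩
      have h1 := K8_prod W v a w
      have h2 : (∑ j, b j • K8_P W j) w = ∑ j, b j * (w : Fin n → ZMod 2) j := by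
        rw [LinearMap.sum_apply]
        exact Finset.sum_congr rfl fun j _ => rfl
      rw [h2, ← K8_sign, ← hb w w.2]
      convert h1.symm)
  refine ⟨fun j => if K8_P W j ∈ K ∧ ∀ j', K8_P W j' = K8_P W j → j ≤ j' then 1 else 0,
    fun a ha w hw => ?_⟩
  set k : Fin n → ZMod 2 :=
    fun j => if K8_P W j ∈ K ∧ ∀ j', K8_P W j' = K8_P W j → j ≤ j' then 1 else 0 with hk
  have hv1 : (1 : ZMod 2).val = 1 := rfl
  have h1 : ∏ j, (-1 : ℂ) ^ (k j * a j * w j).val
      = ∏ j, ((-1 : ℂ) ^ (k j).val) ^ (a j * w j).val := by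
    refine Finset.prod_congr rfl fun j _ => ?_
    rw [mul_assoc]
    rcases z2 (k j) with h | h <;> simp only [h, zero_mul, ZMod.val_zero, pow_zero, one_pow, one_mul, hv1, pow_one]
  have h2 := K8_prod W v ⟨a, hCW ha⟩ ⟨w, hw⟩
  have h3 := K8_prod W (fun j => (-1 : ℂ) ^ (k j).val) ⟨a, hCW ha⟩ ⟨w, hw⟩
  have h4 := hKa ⟨a, hCW ha⟩ ha ⟨w, hw⟩
  have h5 : ∀ p ∈ Finset.univ.image (K8_P W),
      ∏ j ∈ Finset.univ.filter (fun j => K8_P W j = p), (-1 : ℂ) ^ (k j).val
        = if p ∈ K then -1 else 1 := by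
    intro p hp
    obtain ⟨j1, -, hj1⟩ := Finset.mem_image.1 hp
    have hne : (Finset.univ.filter (fun j => K8_P W j = p)).Nonempty := ⟨j1, by simp only [Finset.mem_filter, Finset.mem_univ, hj1, and_self]⟩
    have hm := Finset.min'_mem _ hne
    have hm' := (Finset.mem_filter.1 hm).2
    have hle : ∀ j', K8_P W j' = p → Finset.min' _ hne ≤ j' := fun j' hj' =>
      Finset.min'_le _ _ (by simp only [Finset.mem_filter, Finset.mem_univ, hj', and_self])
    rw [Finset.prod_eq_single_of_mem _ hm]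
    · by_cases hpK : p ∈ K
      · have : k (Finset.min' _ hne) = 1 := by
          simp only [hk]
          rw [if_pos ⟨hm'.symm ▸ hpK, fun j' hj' => hle j' (hj'.trans hm')⟩]
        rw [this, if_pos hpK, hv1, pow_one]
      · have : k (Finset.min' _ hne) = 0 := by
          simp only [hk]
          rw [if_neg fun hh => hpK (hm' ▸ hh.1)]
        rw [this, if_neg hpK]
        simp
    · intro j hj hne'
      have hj' := (Finset.mem_filter.1 hj).2
      have : k j = 0 := by
        simp only [hk]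
        rw [if_neg fun hh => hne' (le_antisymm (hh.2 _ (hm'.trans hj'.symm)) (hle j hj'))]
      rw [this]
      simp
  have h6 : (cut (cut (Finset.univ.image (K8_P W)) (⟨a, hCW ha⟩ : W) 1) (⟨w, hw⟩ : W) 1).filter
      (fun p => p ∈ K) = cut (cut K (⟨a, hCW ha⟩ : W) 1) (⟨w, hw⟩ : W) 1 := by
    ext p
    simp only [Finset.mem_filter, mem_cut]
    exact ⟨fun hh => ⟨⟨hh.2, hh.1.1.2⟩, hh.1.2⟩, fun hh => ⟨⟨⟨hK hh.1.1, hh.1.2⟩, hh.2⟩, hh.1.1⟩⟩
  have h7 : ∏ p ∈ cut (cut (Finset.univ.image (K8_P W)) (⟨a, hCW ha⟩ : W) 1) (⟨w, hw⟩ : W) 1,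
      ∏ j ∈ Finset.univ.filter (fun j => K8_P W j = p), (-1 : ℂ) ^ (k j).val
      = (-1) ^ (cut (cut K (⟨a, hCW ha⟩ : W) 1) (⟨w, hw⟩ : W) 1).card := by
    rw [Finset.prod_congr rfl fun p hp => h5 p (cut_subset _ _ _ (cut_subset _ _ _ hp)),
      ← Finset.prod_filter, Finset.prod_const, h6]
  rw [h1]
  refine Eq.trans ?_ (Eq.trans h4 (Eq.trans h7.symm ?_))
  · convert h2
  · convert h3.symm

end Pool.Agent.MP_7af562_mp

end

-- part MP_7af562_mp.Upper
section

set_option linter.unusedSectionVars false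

namespace Pool.Agent.MP_7af562_mp.H78

open Matrix Module

theorem up_pr {n : ℕ} (v : Fin n → ℂ) (u : Fin n → ZMod 2) :
    ∏ j, v j ^ (u j).val = pr v u := by
  refine Finset.prod_congr rfl fun j _ => ?_
  rcases z2 (u j) with e | e <;> rw [e]
  · simp only [ZMod.val_zero, pow_zero, zero_ne_one, ↓ reduceIte]
  · rw [if_pos rfl, show (1 : ZMod 2).val = 1 from rfl, pow_one]

theorem up_sg {n : ℕ} (b w : Fin n → ZMod 2) :
    ∏ j, (-1 : ℂ) ^ (b j * w j).val = sg (b ⬝ᵥ w) := by
  rw [dotProduct, sg_sum]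
  refine Finset.prod_congr rfl fun j _ => ?_
  rcases z2 (b j * w j) with e | e <;> rw [e]
  · simp
  · rw [sg_one, show (1 : ZMod 2).val = 1 from rfl, pow_one]

theorem coreL {n : ℕ} (hn : n ≤ 23) (C0 C : Submodule (ZMod 2) (Fin n → ZMod 2)) (h0 : C0 ≤ C)
    (ν : Fin n → ℂ) (hν : ∀ i, ν i ≠ 0)
    (h1 : ∀ c ∈ C0, ∃ ζ : Fin n → ZMod 2, ∀ x ∈ C, pr ν (c * x) = sg (ζ ⬝ᵥ x)) :
    ∃ β : Fin n → ZMod 2, ∀ c ∈ C0, ∀ x ∈ C, pr ν (c * x) = sg (β ⬝ᵥ (c * x)) := by
  obtain ⟨k, hk⟩ := PL hn C0 C h0 ν hν fun a ha => by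
    obtain ⟨ζ, hζ⟩ := h1 a ha
    exact ⟨ζ, fun w hw => by rw [up_sg, ← hζ w hw, ← up_pr]; rfl⟩
  refine ⟨k, fun c hc x hx => ?_⟩
  have := hk c hc x hx
  rw [← up_pr, ← up_sg]
  simpa only [Pi.mul_apply, mul_assoc] using this

theorem phaseL {n : ℕ} (hn : n ≤ 23) (C0 C : Submodule (ZMod 2) (Fin n → ZMod 2)) (h0 : C0 ≤ C)
    (μ : Fin n → ℂ) (hμ : ∀ i, μ i ≠ 0)
    (hd : ∀ c ∈ C0, ∃ (κ : ℂ) (ζ : Fin n → ZMod 2), ∀ x ∈ C,
      pr μ (x + c) = κ * sg (ζ ⬝ᵥ x) * pr μ x) :
    ∃ b : Fin n → ℂ, (∀ i, b i ^ 4 = 1) ∧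
      ∀ c ∈ C0, ∀ x ∈ C, pr b (x + c) * pr μ x = pr μ (x + c) * pr b x := by
  have h1 : ∀ c ∈ C0, ∃ ζ : Fin n → ZMod 2, ∀ x ∈ C,
      pr (fun i => μ i ^ 2) (c * x) = sg (ζ ⬝ᵥ x) := fun c hc => by
    obtain ⟨κ, ζ, h⟩ := hd c hc
    have hk := h 0 C.zero_mem
    rw [zero_add, dotProduct_zero, sg_zero, core_pr_zero, mul_one, mul_one] at hk
    refine ⟨ζ, fun x hx => ?_⟩
    have ha := pr_add μ x c
    rw [h x hx, ← hk, mul_comm x c] at ha
    rw [core_pr_sq]
    have hb : (pr μ x * pr μ c) * (sg (ζ ⬝ᵥ x) * pr μ (c * x) ^ 2 - 1) = 0 := by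
      linear_combination ha
    have hc' := (mul_eq_zero.mp hb).resolve_left (mul_ne_zero (core_pr_ne hμ _) (core_pr_ne hμ _))
    linear_combination sg (ζ ⬝ᵥ x) * hc' - pr μ (c * x) ^ 2 * sg_sq (ζ ⬝ᵥ x)
  obtain ⟨β, hβ⟩ := coreL hn C0 C h0 (fun i => μ i ^ 2) (fun i => pow_ne_zero _ (hμ i)) h1
  let b0 : Fin n → ℂ := fun i => if β i = 1 then Complex.I else 1
  have b0ne : ∀ i, b0 i ≠ 0 := fun i => by
    simp only [b0]; split_ifs <;> simp
  have b0sq : ∀ i, b0 i ^ 2 = sg (β i) := fun i => by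
    simp only [b0]; rcases z2 (β i) with h | h <;> simp only [h, zero_ne_one, ↓ reduceIte, one_pow, sg_zero, Complex.I_sq, sg_one]
  have h2 : ∀ c ∈ C0, ∀ x ∈ C, pr b0 (c * x) ^ 2 = pr μ (c * x) ^ 2 := fun c hc x hx => by
    rw [← core_pr_sq, ← core_pr_sq, hβ c hc x hx, ← core_pr_sg]
    exact congrArg (fun f => pr f (c * x)) (funext b0sq)
  have h3 : ∀ c ∈ C0, (pr μ c / pr b0 c) ^ 2 = 1 := fun c hc => by
    have := h2 c hc c (h0 hc)
    rw [core_vv] at this
    rw [div_pow, this, div_self (pow_ne_zero _ (core_pr_ne hμ _))]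
  let f : C0 →+ ZMod 2 := AddMonoidHom.mk' (fun c => core_lg (pr μ c / pr b0 c)) fun c c' => by
    refine core_lg_mul (h3 c c.2) (h3 c' c'.2) ?_
    have ha := pr_add μ c c'
    have hb := pr_add b0 c c'
    rw [h2 c c.2 c' (h0 c'.2)] at hb
    have hs : pr μ ((c : Fin n → ZMod 2) * c') ^ 2 ≠ 0 := pow_ne_zero _ (core_pr_ne hμ _)
    rw [div_mul_div_comm, ← ha, ← hb, mul_div_mul_right _ _ hs, Submodule.coe_add]
  obtain ⟨g, hg⟩ := LinearMap.exists_extend (f.toZModLinearMap 2)
  let z : Fin n → ZMod 2 := fun i => g (Pi.single i 1)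
  have hz : ∀ v, z ⬝ᵥ v = g v := fun v => by
    conv_rhs => rw [← Finset.univ_sum_single v, map_sum]
    refine Finset.sum_congr rfl fun i _ => ?_
    rcases z2 (v i) with h | h <;> simp [h, z]
  have hb : ∀ v, pr (fun i => b0 i * sg (z i)) v = pr b0 v * sg (g v) := fun v => by
    rw [core_pr_mul, core_pr_sg, hz]
  refine ⟨fun i => b0 i * sg (z i), fun i => ?_, fun c hc x hx => ?_⟩
  · rw [show (b0 i * sg (z i)) ^ 4 = (b0 i ^ 2 * b0 i ^ 2) * ((sg (z i) * sg (z i)) ^ 2) by ring,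
      b0sq, sg_sq, sg_sq]
    norm_num
  · have e1 : pr (fun i => b0 i * sg (z i)) c = pr μ c := by
      have h4 : g c = core_lg (pr μ c / pr b0 c) := LinearMap.congr_fun hg ⟨c, hc⟩
      rw [hb, h4, core_sg_lg (h3 c hc), mul_div_cancel₀ _ (core_pr_ne b0ne _)]
    have e2 : pr (fun i => b0 i * sg (z i)) (x * c) ^ 2 = pr μ (x * c) ^ 2 := by
      rw [hb, mul_pow, mul_comm x c, h2 c hc x hx, sq (sg _), sg_sq, mul_one]
    have ha := pr_add (fun i => b0 i * sg (z i)) x c
    have hm := pr_add μ x c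
    rw [e1, e2] at ha
    refine mul_right_cancel₀ (pow_ne_zero 2 (core_pr_ne hμ (x * c))) ?_
    linear_combination pr μ x * ha - pr (fun i => b0 i * sg (z i)) x * hm

theorem step2L {n : ℕ} (hn : n ≤ 23) {L L' : Submodule (ZMod 2) (Fin n → Lb)} {χ χ' : (Fin n → Lb) → ℂ}
    (h : IsSt L χ) (h' : IsSt L' χ')
    (u : Fin n → ZMod 2 → ℂ) (hu : ∀ i t, star (u i t) * u i t = 1)
    (e : ∀ x y, RR L' χ' x y = (∏ i, u i (x i)) * RR L χ x y * star (∏ i, u i (y i))) :
    ∃ d : Fin n → ZMod 2 → ℂ, (∀ i t, d i t ^ 4 = 1) ∧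
      ∀ x y, RR L' χ' x y = (∏ i, d i (x i)) * RR L χ x y * star (∏ i, d i (y i)) := by
  have hu0 : ∀ i t, u i t ≠ 0 := fun i t e0 => by
    have := hu i t
    rw [e0, mul_zero] at this
    exact zero_ne_one this
  have hU : ∀ x : Fin n → ZMod 2, star (∏ i, u i (x i)) * ∏ i, u i (x i) = 1 :=
    fun x => prod_unit _ fun i => hu i _
  have hU0 : ∀ x : Fin n → ZMod 2, ∏ i, u i (x i) ≠ 0 :=
    fun x => Finset.prod_ne_zero_iff.mpr fun i _ => hu0 i _
  obtain ⟨y0, hy0⟩ : ∃ y0, RR L χ y0 y0 ≠ 0 := by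
    by_contra hn
    push Not at hn
    have := h.trace_RR
    have t0 : (RR L χ).trace = 0 := Finset.sum_eq_zero (fun y _ => hn y)
    rw [t0] at this
    exact pow_ne_zero _ two_ne_zero this.symm
  have c0 : Ch L χ y0 := ch_of_ne h hy0
  have memC : ∀ y, Ch L χ y → y0 + y ∈ orth (L.comap emb) := by
    intro y hy z hz
    apply sg_inj
    have h1 := c0 z hz
    have h2 := hy z hz
    have h3 := h.mul_self (a := emb z) hz
    rw [dotProduct_add, sg_add, sg_zero]
    linear_combination (χ (emb z) * sg (z ⬝ᵥ y)) * h1 + h2 - sg (z ⬝ᵥ y0) * sg (z ⬝ᵥ y) * h3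
  have chC : ∀ x ∈ orth (L.comap emb), Ch L χ (y0 + x) := by
    intro x hx z hz
    rw [dotProduct_add, hx z hz, add_zero]
    exact c0 z hz
  have eta : ∀ {M : Submodule (ZMod 2) (Fin n → Lb)} {ψ : (Fin n → Lb) → ℂ}, IsSt M ψ → ∀ a ∈ M,
      ψ a * ∏ i, ph (a i) ≠ 0 := fun hM a ha =>
    mul_ne_zero (hM.ne ha) (Finset.prod_ne_zero_iff.mpr fun i _ => ph_ne _)
  have offd : ∀ a ∈ L, RR L χ (y0 + cx a) y0 ≠ 0 := by
    intro a ha
    rw [fix_entry h ha]
    exact mul_ne_zero (mul_ne_zero (eta h a ha) (sg_ne _)) hy0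
  have h0 : L.map cx ≤ orth (L.comap emb) := by
    rintro _ ⟨a, ha, rfl⟩
    have := memC _ (ch_of_ne h (offd a ha))
    rwa [← add_assoc, vadd_self, zero_add] at this
  set μ : Fin n → ℂ := fun i => u i (y0 i + 1) / u i (y0 i) with hμ
  have hμ0 : ∀ i, μ i ≠ 0 := fun i => div_ne_zero (hu0 _ _) (hu0 _ _)
  obtain ⟨b, hb4, hb⟩ := phaseL hn (L.map cx) (orth (L.comap emb)) h0 μ hμ0 (by
      rintro _ ⟨a, ha, rfl⟩
      have n1 : RR L' χ' (y0 + cx a) y0 ≠ 0 := by
        rw [e]
        exact mul_ne_zero (mul_ne_zero (hU0 _) (offd a ha)) (star_ne_zero.mpr (hU0 _))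
      obtain ⟨a', ha', ea⟩ := ex_of_ne L' χ' n1
      have ec : cx a = cx a' := add_left_cancel ea
      refine ⟨(χ' a' * ∏ i, ph (a' i)) / (χ a * ∏ i, ph (a i)) * sg ((cz a + cz a') ⬝ᵥ y0),
        cz a + cz a', fun x hx => ?_⟩
      have r0 := ne_of_ch L χ (chC x hx)
      have e1 := fix_entry h ha (y0 + x) (y0 + x)
      have e2 := fix_entry h' ha' (y0 + x) (y0 + x)
      rw [← ec, e, e, e1] at e2
      have s1 := shift u hu0 y0 x
      have s2 := shift u hu0 y0 (x + cx a)
      rw [← add_assoc] at s2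
      have n2 : star (∏ i, u i ((y0 + x) i)) ≠ 0 := star_ne_zero.mpr (hU0 _)
      have e3 : (∏ i, u i ((y0 + x + cx a) i)) *
          ((χ a * ∏ i, ph (a i)) * sg (cz a ⬝ᵥ (y0 + x))) =
          (χ' a' * ∏ i, ph (a' i)) * sg (cz a' ⬝ᵥ (y0 + x)) * ∏ i, u i ((y0 + x) i) := by
        apply mul_right_cancel₀ (mul_ne_zero r0 n2)
        linear_combination e2
      rw [s1, s2] at e3
      have n3 := eta h a ha
      have n4 := hU0 y0
      have q1 := sg_sq (cz a ⬝ᵥ (y0 + x))
      have q2 : sg ((cz a + cz a') ⬝ᵥ y0) * sg ((cz a + cz a') ⬝ᵥ x) =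
          sg (cz a ⬝ᵥ (y0 + x)) * sg (cz a' ⬝ᵥ (y0 + x)) := by
        rw [← sg_add, ← sg_add, ← dotProduct_add, add_dotProduct]
      rw [mul_assoc _ (sg _) (sg _), q2, div_mul_eq_mul_div, div_mul_eq_mul_div, eq_div_iff n3]
      apply mul_left_cancel₀ n4
      linear_combination sg (cz a ⬝ᵥ (y0 + x)) * e3 -
        (∏ i, u i (y0 i)) * pr μ (x + cx a) * (χ a * ∏ i, ph (a i)) * q1)
  have hd : ∀ x : Fin n → ZMod 2,
      ∏ i, (if x i = y0 i then (1 : ℂ) else b i) = pr b (y0 + x) := by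
    intro x
    refine Finset.prod_congr rfl fun i _ => ?_
    rw [Pi.add_apply]
    rcases z2 (x i) with e1 | e1 <;> rcases z2 (y0 i) with e2 | e2 <;> simp only [e1, e2, ↓ reduceIte, add_zero, zero_ne_one, one_ne_zero, zero_add, z11]
  have hd4 : ∀ i t, (if t = y0 i then (1 : ℂ) else b i) ^ 4 = 1 := by
    intro i t
    split_ifs
    · simp
    · exact hb4 i
  refine ⟨fun i t => if t = y0 i then 1 else b i, hd4, fun x y => ?_⟩
  rw [e]
  by_cases hxy : RR L χ x y = 0
  · rw [hxy]; simp only [mul_zero, star_prod, RCLike.star_def, zero_mul]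
  have hy := memC y (ch_of_ne' h hxy)
  obtain ⟨a, ha, ea⟩ := ex_of_ne L χ hxy
  have k := hb (cx a) ⟨a, ha, rfl⟩ _ hy
  rw [add_assoc, ← ea] at k
  have s1 := shift u hu0 y0 (y0 + x)
  have s2 := shift u hu0 y0 (y0 + y)
  rw [← add_assoc, vadd_self, zero_add] at s1 s2
  have u1 := hU y
  have u2 := prod_unit (fun i => if y i = y0 i then (1 : ℂ) else b i)
    (fun i => root4_unit (hd4 i (y i)))
  simp only [hd] at u2 ⊢
  have k2 : (∏ i, u i (x i)) * pr b (y0 + y) = pr b (y0 + x) * ∏ i, u i (y i) := by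
    rw [s1, s2]
    linear_combination (-(∏ i, u i (y0 i))) * k
  linear_combination (RR L χ x y * star (∏ i, u i (y i)) * star (pr b (y0 + y))) * k2 -
    ((∏ i, u i (x i)) * RR L χ x y * star (∏ i, u i (y i))) * u2 +
    (pr b (y0 + x) * RR L χ x y * star (pr b (y0 + y))) * u1

theorem main_nopermL {n m m' : ℕ} (hn : n ≤ 23) (s : Fin m → ℂ) (g : Fin m → Fin n → M2)
    (hg : ∀ j i, IsPauli (g j i)) (s' : Fin m' → ℂ) (g' : Fin m' → Fin n → M2)
    (hg' : ∀ j i, IsPauli (g' j i)) (U : Fin n → M2) (hU : ∀ i, Un (U i))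
    (h : Mp (tensor U) (codespace s g) (codespace s' g')) :
    ∃ C : Fin n → M2, (∀ i, Un (C i) ∧ IsClifford (C i)) ∧
      Mp (tensor C) (codespace s g) (codespace s' g') := by
  by_cases hQ : ∃ ψ ∈ codespace s g, ψ ≠ 0
  swap
  · push Not at hQ
    refine ⟨fun _ => 1, fun _ => ⟨good_one.1, good_one.2.1⟩, ?_⟩
    unfold Mp at h ⊢
    rw [← h]
    refine Set.image_congr fun ψ hψ => ?_
    rw [hQ ψ hψ, Matrix.mulVec_zero, Matrix.mulVec_zero]
  have uU := tensor_un hU
  obtain ⟨L, χ, st, -, eL⟩ := exists_st s g hg hQ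
  obtain ⟨L', χ', st', -, eL'⟩ := exists_st s' g' hg' (h.nz uU.1 hQ)
  obtain ⟨V, hV, hS, eV⟩ := step1 st st' U hU (conj_of_mp st st' uU.1 (eL ▸ eL' ▸ h))
  have uV := tensor_un hV
  have mV : Mp (tensor V) (codespace s g) (codespace s' g') :=
    eL ▸ eL' ▸ mp_of_conj st st' uV.1 uV.2 eV
  choose K K' hK hK' u hu eu using fun i => diag_of_semi (hV i) (hS i)
  obtain ⟨s2, g2, hg2, m2⟩ := mp_cliff s g hg (fun i => star (K i)) fun i => (hK i).star
  obtain ⟨s2', g2', hg2', m2'⟩ := mp_cliff s' g' hg' (fun i => star (K' i)) fun i => (hK' i).star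
  have i2 : tensor K * tensor (fun i => star (K i)) = 1 := by
    rw [← star_tensor]; exact (tensor_un fun i => (hK i).1).2
  have i2' : tensor K' * tensor (fun i => star (K' i)) = 1 := by
    rw [← star_tensor]; exact (tensor_un fun i => (hK' i).1).2
  have mW := ((m2.inv i2).comp mV).comp m2'
  rw [tensor_mul, tensor_mul] at mW
  simp only [← mul_assoc, eu] at mW
  have uW : ∀ i, Un (Matrix.diagonal (u i)) := fun i => by
    rw [← eu]; exact ((hK' i).1.star.mul (hV i)).mul (hK i).1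
  have hQ2 := m2.nz i2 hQ
  obtain ⟨L2, χ2, st2, -, eL2⟩ := exists_st s2 g2 hg2 hQ2
  obtain ⟨L2', χ2', st2', -, eL2'⟩ := exists_st s2' g2' hg2' (mW.nz (tensor_un uW).1 hQ2)
  have cW := conj_of_mp st2 st2' (tensor_un uW).1 (eL2 ▸ eL2' ▸ mW)
  obtain ⟨d, hd, ed⟩ := step2L hn st2 st2' u hu fun x y => by
    rw [← cW, conj_diag]
  have uD := tensor_un fun i => (diag_cliff (hd i)).1
  have mD : Mp (tensor fun i => Matrix.diagonal (d i)) (codespace s2 g2) (codespace s2' g2') :=
    eL2 ▸ eL2' ▸ mp_of_conj st2 st2' uD.1 uD.2 (by ext x y; rw [conj_diag, ed])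
  have mC := (m2.comp mD).comp (m2'.inv i2')
  rw [tensor_mul, tensor_mul] at mC
  refine ⟨_, fun i => ⟨?_, ?_⟩, mC⟩
  · exact (hK' i).1.mul ((diag_cliff (hd i)).1.mul (hK i).1.star)
  · exact (hK' i).2.1.mul ((diag_cliff (hd i)).2.mul (hK i).2.2)

theorem mainL {n m m' : ℕ} (hn : n ≤ 23) (s : Fin m → ℂ) (g : Fin m → Fin n → M2)
    (hg : ∀ j i, IsPauli (g j i)) (s' : Fin m' → ℂ) (g' : Fin m' → Fin n → M2)
    (hg' : ∀ j i, IsPauli (g' j i)) (U : Fin n → M2)
    (hU : ∀ i, U i ∈ Matrix.unitaryGroup (ZMod 2) ℂ) (π : Equiv.Perm (Fin n))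
    (h : MapsOnto U π (codespace s g) (codespace s' g')) :
    ∃ C : Fin n → M2, (∀ i, C i ∈ Matrix.unitaryGroup (ZMod 2) ℂ ∧ IsClifford (C i)) ∧
      MapsOnto C π (codespace s g) (codespace s' g') := by
  have mP := mp_perm s g π
  have h1 : Mp (tensor U * permOp π) (codespace s g) (codespace s' g') := h
  have h2 := (mP.inv (permOp_inv π.symm)).comp h1
  rw [mul_assoc, permOp_inv, mul_one] at h2
  obtain ⟨C, hC, mC⟩ := main_nopermL hn s _ (fun j i => hg j _) s' g' hg' U
    (fun i => ⟨(hU i).1, (hU i).2⟩) h2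
  exact ⟨C, fun i => ⟨⟨(hC i).1.1, (hC i).1.2⟩, (hC i).2⟩, mP.comp mC⟩

end Pool.Agent.MP_7af562_mp.H78

namespace Pool.Agent.MP_7af562_mp

open Matrix

theorem up_cliff {U : Matrix (ZMod 2) (ZMod 2) ℂ} (hU : U ∈ Matrix.unitaryGroup (ZMod 2) ℂ)
    (h : H78.IsClifford U) : IsClifford U := by
  have key : ∀ A : Matrix (ZMod 2) (ZMod 2) ℂ, H78.IsPauli A → A.trace = 0 →
      ∃ B, (B = pX ∨ B = pY ∨ B = pZ) ∧ (U * A * star U = B ∨ U * A * star U = -B) := by
    intro A hA ht
    obtain ⟨B, hB, e⟩ := h A hA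
    have t0 : (U * A * star U).trace = 0 := by
      rw [Matrix.trace_mul_comm, ← mul_assoc, hU.1, one_mul, ht]
    rcases hB with rfl | hB
    · exfalso
      rcases e with e | e <;> rw [e] at t0 <;> simp at t0
    · exact ⟨B, hB, e⟩
  rintro A (rfl | rfl | rfl)
  · exact key _ H78.pauliX (by simp [pX, Matrix.trace])
  · exact key _ H78.pauliY (by simp [pY, Matrix.trace])
  · exact key _ H78.pauliZ (by simp only [trace, pZ, diag_apply, of_apply, ↓ reduceIte, H78.sum_z2, one_ne_zero, add_neg_cancel])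

/-- LU implies LC for stabilizer codes on at most 23 qubits. -/
theorem upper {n : ℕ} (hn : n ≤ 23) (Q Q' : Set ((Fin n → ZMod 2) → ℂ))
    (hQ : IsStabCode Q) (hQ' : IsStabCode Q') (h : LUEquivalent Q Q') : LCEquivalent Q Q' := by
  obtain ⟨-, m, s, g, -, hg, rfl⟩ := hQ
  obtain ⟨-, m', s', g', -, hg', rfl⟩ := hQ'
  obtain ⟨U, π, hU, e⟩ := h
  obtain ⟨C, hC, eC⟩ := H78.mainL hn s g hg s' g' hg' U hU π e
  exact ⟨C, π, fun i => ⟨(hC i).1, up_cliff (hC i).1 (hC i).2⟩, eC⟩

end Pool.Agent.MP_7af562_mp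

end
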